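import Pool.Agent.Lib.MP_f11a48_ag.KU.Uni

/-! # Module LIE: the Lie algebra part, unitary case -/

set_option autoImplicit false

namespace Pool.Agent.Lib.MPf11a48.KU

open Matrix MvPolynomial Pool.Agent.Lib.MPf11a48.Tors
open Pool.Agent.Lib.MPf11a48.CM hiding OmegaM
open Pool.Agent.Lib.MPf11a48.GL2 (lie Geo)
open Pool.Agent.Lib.MPf11a48.GL2T (IsAlg)
open Pool.Agent.Lib.MPf11a48.U (AbData Ix HD EndAlg)
open Pool.Agent.Lib.MPf11a48.K3
open KLieM (bl clC)
open KRatM

namespace LieLM

theorem irr_mono {d j : ℕ} {S T : Set (Matrix (Fin d) (Fin d) ℂ)} (h : S ⊆ T)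
    (hS : IrrAlt S j) : IrrAlt T j := fun W h1 h2 => hS W h1 fun X hX => h2 X (h hX)

theorem nlu_mono {d d' : ℕ} {S T : Set (Matrix (Fin d) (Fin d) ℂ × Matrix (Fin d') (Fin d') ℂ)}
    (h : S ⊆ T) (hS : NLU S) : NLU T := fun φ h1 => hS φ fun X hX => h1 X (h hX)

variable {κ : Type} [Fintype κ] [DecidableEq κ] {m : κ → ℕ}

theorem sum_blk {M : Type} [AddCommGroup M] [Module ℂ M]
    (X : (k : κ) → Matrix (Fin (m k)) (Fin (m k)) ℂ) (e : (k : κ) × Fin (m k) → M) (k : κ)
    (j : Fin (m k)) : ∑ u, blockDiagonal' X u ⟨k, j⟩ • e u = ∑ i, X k i j • e ⟨k, i⟩ := by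
  rw [Fintype.sum_sigma, Finset.sum_eq_single k]
  · refine Finset.sum_congr rfl fun i _ => ?_
    rw [Matrix.blockDiagonal'_apply_eq]
  · intro l _ hl
    refine Finset.sum_eq_zero fun i _ => ?_
    rw [Matrix.blockDiagonal'_apply_ne _ _ _ hl, zero_smul]
  · intro hk
    exact absurd (Finset.mem_univ _) hk

theorem sum_blk' {M : Type} [AddCommGroup M] [Module ℂ M]
    (X : (k : κ) → Matrix (Fin (m k)) (Fin (m k)) ℂ) (e : (k : κ) × Fin (m k) → M) (k : κ)
    (j : Fin (m k)) : ∑ u, blockDiagonal' X ⟨k, j⟩ u • e u = ∑ i, X k j i • e ⟨k, i⟩ := by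
  rw [Fintype.sum_sigma, Finset.sum_eq_single k]
  · refine Finset.sum_congr rfl fun i _ => ?_
    rw [Matrix.blockDiagonal'_apply_eq]
  · intro l _ hl
    refine Finset.sum_eq_zero fun i _ => ?_
    rw [Matrix.blockDiagonal'_apply_ne _ _ _ hl.symm, zero_smul]
  · intro hk
    exact absurd (Finset.mem_univ _) hk

/-- rational infinitesimal isometries -/
theorem cx_soC {n : ℕ} {qB : Matrix (Fin n) (Fin n) ℚ} {E : Set (Matrix (Fin n) (Fin n) ℚ)}
    {ρ : Matrix (Fin n) (Fin n) ℚ} (h : ρ ∈ soE qB E) : cx ρ ∈ soC qB E := by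
  refine ⟨?_, fun e he => ?_⟩
  · have h2 := congrArg cx h.1
    rw [cx_add, cx_mul, cx_mul, cx_zero] at h2
    exact h2
  · rw [← cx_mul, ← cx_mul, h.2 e he]

end LieLM

open LieLM in
theorem specULie (hBic : SpecBic2) (hIrr : SpecUIrr) (hLnk : SpecULnk) (hTrc : SpecUTrc)
    (hMat : SpecUMat) (hCli : SpecUCli) : SpecULie := by
  intro g N n A c t qdR qB B E κ _ _ m P Q lam J ψ KS hS hpos hev hHD hEnd kk hsim hder r hr
  classical
  have hne : Nonempty (Ix g) := ⟨Sum.inl ⟨0, KS.pos⟩⟩
  obtain ⟨hcar, -, hact, -, hgen⟩ := hCli n (Ix g) qB B E κ m P Q lam KS.symm KS.det KS.clifford hS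
  obtain ⟨hM1, -, -, hM4, -⟩ := hMat n qB E κ m P Q lam KS.symm hS
  -- the algebra generated by `kk`
  have hcli : ∀ ρ ∈ soE qB E, cli qB B ρ ∈
      Algebra.adjoin ℚ (kk : Set (Matrix (Ix g) (Ix g) ℚ)) := by
    intro ρ hρ
    refine hBic c J ψ hHD kk hsim hder _ fun Z hZ => ?_
    exact (KS.endA Z (hEnd Z hZ) ρ hρ).symm
  have hgen' := hgen kk hcli
  set e := eU B P with he
  set f := fU B Q with hf
  -- the matrices of the elements of `kk`
  let xr : Matrix (Ix g) (Ix g) ℚ → (k : κ) → Matrix (Fin (m k)) (Fin (m k)) ℂ :=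
    fun Z => xk P Q qB (cx (r Z))
  have hum : ∀ Z ∈ kk, cx (r Z) = um P Q qB (blockDiagonal' (xr Z)) := fun Z hZ =>
    hM1 _ (cx_soC (hr Z hZ).1)
  have hZB : ∀ Z ∈ kk, ∀ j, cx Z * cx (B j) - cx (B j) * cx Z =
      ∑ i, um P Q qB (blockDiagonal' (xr Z)) i j • cx (B i) := by
    intro Z hZ j
    rw [← hum Z hZ]
    have h1 := congrArg cx ((hr Z hZ).2 j)
    have h2 : cx (∑ i, r Z i j • B i) = ∑ i, (cx (r Z)) i j • cx (B i) := by
      ext a b
      rw [Matrix.sum_apply]
      simp only [cx, Matrix.map_apply, Matrix.sum_apply, Matrix.smul_apply, smul_eq_mul]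
      push_cast
      rfl
    rw [h2] at h1
    rw [← h1, ← cx_mul, ← cx_mul]
    ext a b
    simp [cx]
  have hacte : ∀ Z ∈ kk, ∀ v, cx Z * e v - e v * cx Z =
      ∑ u, blockDiagonal' (xr Z) u v • e u := fun Z hZ => (hact _ _ (hZB Z hZ)).1
  have hactf : ∀ Z ∈ kk, ∀ v, cx Z * f v - f v * cx Z =
      -∑ u, blockDiagonal' (xr Z) v u • f u := fun Z hZ => (hact _ _ (hZB Z hZ)).2
  -- the pairs
  let KK : Set (Matrix (Ix g) (Ix g) ℂ × ((k : κ) → Matrix (Fin (m k)) (Fin (m k)) ℂ)) :=
    {p | ∃ Z ∈ kk, p = (cx Z, xr Z)}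
  have hfst : ∀ (T : Type) (F : ((k : κ) → Matrix (Fin (m k)) (Fin (m k)) ℂ) → T),
      Prod.fst '' ((fun p : Matrix (Ix g) (Ix g) ℂ × ((k : κ) →
        Matrix (Fin (m k)) (Fin (m k)) ℂ) => (p.1, F p.2)) '' KK) =
      {Y : Matrix (Ix g) (Ix g) ℂ | ∃ Z ∈ kk, Y = cx Z} := by
    intro T F
    ext Y
    constructor
    · rintro ⟨_, ⟨_, ⟨Z, hZ, rfl⟩, rfl⟩, rfl⟩
      exact ⟨Z, hZ, rfl⟩
    · rintro ⟨Z, hZ, rfl⟩
      exact ⟨_, ⟨_, ⟨Z, hZ, rfl⟩, rfl⟩, rfl⟩
  have hcar' : ∀ (U : Type) [DecidableEq U] (ψ : U → (k : κ) × Fin (m k)), Function.Injective ψ →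
      Car (fun u => e (ψ u)) (fun u => f (ψ u)) := by
    intro U _ ψ hψ
    refine ⟨fun u v => hcar.ee _ _, fun u v => hcar.ff _ _, fun u v => ?_⟩
    rw [hcar.ef]
    by_cases huv : u = v
    · rw [if_pos huv, if_pos (by rw [huv])]
    · rw [if_neg huv, if_neg fun h => huv (hψ h)]
  have hUF : ∀ k, UF (fun i => e ⟨k, i⟩) (fun i => f ⟨k, i⟩) ((fun p => (p.1, p.2 k)) '' KK) := by
    intro k
    refine ⟨hcar' _ (fun i => ⟨k, i⟩) (fun i j h => by cases h; rfl), ?_, ?_, fun i j => ?_⟩
    · rintro _ ⟨_, ⟨Z, hZ, rfl⟩, rfl⟩ j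
      refine (hacte Z hZ ⟨k, j⟩).trans ?_
      exact sum_blk (xr Z) e k j
    · rintro _ ⟨_, ⟨Z, hZ, rfl⟩, rfl⟩ j
      refine (hactf Z hZ ⟨k, j⟩).trans ?_
      exact congrArg (- ·) (sum_blk' (xr Z) f k j)
    · rw [hfst _ fun p => p k]
      exact hgen' ⟨k, i⟩ ⟨k, j⟩ rfl
  refine ⟨fun L hL hrL X hX => ?_, fun d hd hd0 => ?_⟩
  · -- first part
    let h : Submodule ℂ ((k : κ) → Matrix (Fin (m k)) (Fin (m k)) ℂ) :=
      { carrier := {X | um P Q qB (blockDiagonal' X) ∈ L}
        add_mem' := by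
          intro X Y h1 h2
          change um P Q qB (blockDiagonal' (X + Y)) ∈ L
          have h3 : um P Q qB (blockDiagonal' (X + Y)) = um P Q qB (blockDiagonal' X) +
              um P Q qB (blockDiagonal' Y) := by
            rw [Matrix.blockDiagonal'_add]
            simp only [um, Matrix.mul_add, Matrix.add_mul, Matrix.transpose_add]
            abel
          rw [h3]
          exact L.add_mem h1 h2
        zero_mem' := by
          change um P Q qB (blockDiagonal' 0) ∈ L
          rw [Matrix.blockDiagonal'_zero]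
          simp [um]
        smul_mem' := by
          intro a X h1
          change um P Q qB (blockDiagonal' (a • X)) ∈ L
          have h3 : um P Q qB (blockDiagonal' (a • X)) = a • um P Q qB (blockDiagonal' X) := by
            rw [Matrix.blockDiagonal'_smul]
            simp only [um, Matrix.mul_smul, Matrix.smul_mul, Matrix.transpose_smul, smul_sub]
          rw [h3]
          exact L.smul_mem _ h1 }
    have hbr : ∀ X ∈ h, ∀ Y ∈ h, (fun k => X k * Y k - Y k * X k) ∈ h := by
      intro X h1 Y h2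
      change um P Q qB (blockDiagonal' fun k => X k * Y k - Y k * X k) ∈ L
      have h5 : (fun k => X k * Y k - Y k * X k) = (fun k => X k * Y k) - fun k => Y k * X k := rfl
      rw [h5, Matrix.blockDiagonal'_sub, Matrix.blockDiagonal'_mul, Matrix.blockDiagonal'_mul,
        ← hM4]
      exact hL _ h1 _ h2
    have hKh : ∀ p ∈ KK, p.2 ∈ h := by
      rintro _ ⟨Z, hZ, rfl⟩
      change um P Q qB (blockDiagonal' (xr Z)) ∈ L
      rw [← hum Z hZ]
      exact hrL Z hZ
    refine specGourU ℂ κ m h hbr ?_ ?_ X hX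
    · intro k Y hY
      have hsub : Prod.snd '' ((fun p : Matrix (Ix g) (Ix g) ℂ × ((k : κ) →
          Matrix (Fin (m k)) (Fin (m k)) ℂ) => (p.1, p.2 k)) '' KK) ⊆
          (h.map (LinearMap.proj k) : Submodule ℂ (Matrix (Fin (m k)) (Fin (m k)) ℂ)) := by
        rintro _ ⟨_, ⟨p, hp, rfl⟩, rfl⟩
        exact ⟨p.2, hKh p hp, rfl⟩
      have hmem := specUni ℂ (m k) (hpos k) (hev k) (h.map (LinearMap.proj k)) ?_
        (fun j _ _ => irr_mono hsub (hIrr (Ix g) (m k) _ _ _ (hUF k) j)) Y hY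
      · obtain ⟨X, hXh, hXk⟩ := hmem
        exact ⟨X, hXh, hXk⟩
      · rintro _ ⟨X, hX, rfl⟩ _ ⟨X', hX', rfl⟩
        exact ⟨_, hbr X hX X' hX', rfl⟩
    · intro k l hkl
      have h1 := hLnk (Ix g) (m k) (m l) (fun i => e ⟨k, i⟩) (fun i => f ⟨k, i⟩)
        (fun i => e ⟨l, i⟩) (fun i => f ⟨l, i⟩) ((fun p => (p.1, (p.2 k, p.2 l))) '' KK) ?_ ?_ ?_
      · refine nlu_mono ?_ h1
        rintro _ ⟨_, ⟨p, hp, rfl⟩, rfl⟩
        exact ⟨p.2, hKh p hp, rfl⟩
      · let ψ' : Fin (m k) ⊕ Fin (m l) → (k : κ) × Fin (m k) :=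
          Sum.elim (fun i => ⟨k, i⟩) fun i => ⟨l, i⟩
        have hψ : Function.Injective ψ' := by
          rintro (i | i) (j | j) h2
          · cases h2; rfl
          · exact absurd (congrArg Sigma.fst h2) hkl
          · exact absurd (congrArg Sigma.fst h2) hkl.symm
          · cases h2; rfl
        have h2 := hcar' _ ψ' hψ
        have e1 : (fun u => e (ψ' u)) = Sum.elim (fun i => e ⟨k, i⟩) fun i => e ⟨l, i⟩ := by
          funext u
          rcases u with i | i <;> rfl
        have e2 : (fun u => f (ψ' u)) = Sum.elim (fun i => f ⟨k, i⟩) fun i => f ⟨l, i⟩ := by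
          funext u
          rcases u with i | i <;> rfl
        rw [e1, e2] at h2
        exact h2
      · have h2 : ((fun X : Matrix (Ix g) (Ix g) ℂ × (Matrix (Fin (m k)) (Fin (m k)) ℂ ×
            Matrix (Fin (m l)) (Fin (m l)) ℂ) => (X.1, X.2.1)) ''
            ((fun p : Matrix (Ix g) (Ix g) ℂ × ((k : κ) → Matrix (Fin (m k)) (Fin (m k)) ℂ) =>
              (p.1, (p.2 k, p.2 l))) '' KK)) = ((fun p => (p.1, p.2 k)) '' KK) := by
          rw [Set.image_image]
        rw [h2]
        exact hUF k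
      · have h2 : ((fun X : Matrix (Ix g) (Ix g) ℂ × (Matrix (Fin (m k)) (Fin (m k)) ℂ ×
            Matrix (Fin (m l)) (Fin (m l)) ℂ) => (X.1, X.2.2)) ''
            ((fun p : Matrix (Ix g) (Ix g) ℂ × ((k : κ) → Matrix (Fin (m k)) (Fin (m k)) ℂ) =>
              (p.1, (p.2 k, p.2 l))) '' KK)) = ((fun p => (p.1, p.2 l)) '' KK) := by
          rw [Set.image_image]
        rw [h2]
        exact hUF l
  · -- second part
    obtain ⟨k₀, hk₀⟩ := Function.ne_iff.1 hd0
    let U : Type := {u : (k : κ) × Fin (m k) // d u.1 ≠ 0}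
    have hU : Nonempty U := ⟨⟨⟨k₀, ⟨0, hpos k₀⟩⟩, hk₀⟩⟩
    let a : U → Matrix (Ix g) (Ix g) ℂ := fun u => if d u.1.1 = 1 then e u.1 else f u.1
    let b : U → Matrix (Ix g) (Ix g) ℂ := fun u => if d u.1.1 = 1 then f u.1 else e u.1
    let x : Matrix (Ix g) (Ix g) ℚ → Matrix U U ℂ := fun Z u v =>
      if d v.1.1 = 1 then blockDiagonal' (xr Z) u.1 v.1 else -blockDiagonal' (xr Z) v.1 u.1
    have hef : ∀ u v, u ≠ v → e u * f v + f v * e u = 0 := by
      intro u v huv
      rw [hcar.ef, if_neg huv]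
    have hef1 : ∀ u, e u * f u + f u * e u = 1 := by
      intro u
      rw [hcar.ef, if_pos rfl]
    have hcab : Car a b := by
      refine ⟨fun u v => ?_, fun u v => ?_, fun u v => ?_⟩
      · by_cases hu : d u.1.1 = 1 <;> by_cases hv : d v.1.1 = 1
        · simp only [a, if_pos hu, if_pos hv]
          exact hcar.ee _ _
        · simp only [a, if_pos hu, if_neg hv]
          exact hef _ _ fun h => hv (by rw [← h]; exact hu)
        · simp only [a, if_neg hu, if_pos hv]
          rw [add_comm]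
          exact hef _ _ fun h => hu (by rw [← h]; exact hv)
        · simp only [a, if_neg hu, if_neg hv]
          exact hcar.ff _ _
      · by_cases hu : d u.1.1 = 1 <;> by_cases hv : d v.1.1 = 1
        · simp only [b, if_pos hu, if_pos hv]
          exact hcar.ff _ _
        · simp only [b, if_pos hu, if_neg hv]
          rw [add_comm]
          exact hef _ _ fun h => hv (by rw [h]; exact hu)
        · simp only [b, if_neg hu, if_pos hv]
          exact hef _ _ fun h => hu (by rw [h]; exact hv)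
        · simp only [b, if_neg hu, if_neg hv]
          exact hcar.ee _ _
      · by_cases huv : u = v
        · subst huv
          rw [if_pos rfl]
          by_cases hu : d u.1.1 = 1
          · simp only [a, b, if_pos hu]
            exact hef1 _
          · simp only [a, b, if_neg hu]
            rw [add_comm]
            exact hef1 _
        · rw [if_neg huv]
          have huv' : u.1 ≠ v.1 := fun h => huv (Subtype.ext h)
          by_cases hu : d u.1.1 = 1 <;> by_cases hv : d v.1.1 = 1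
          · simp only [a, b, if_pos hu, if_pos hv]
            exact hef _ _ huv'
          · simp only [a, b, if_pos hu, if_neg hv]
            exact hcar.ee _ _
          · simp only [a, b, if_neg hu, if_pos hv]
            exact hcar.ff _ _
          · simp only [a, b, if_neg hu, if_neg hv]
            rw [add_comm]
            exact hef _ _ huv'.symm
    -- sums over `U`
    have hsumU : ∀ (M : Type) [AddCommGroup M] (F : (k : κ) × Fin (m k) → M),
        (∀ u, d u.1 = 0 → F u = 0) → ∑ u : U, F u.1 = ∑ u, F u := by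
      intro M _ F hF
      have h1 := Finset.sum_subtype_of_mem (s := Finset.univ.filter fun u : (k : κ) × Fin (m k) =>
        d u.1 ≠ 0) (p := fun u => d u.1 ≠ 0) F (fun u hu => (Finset.mem_filter.1 hu).2)
      rw [← Finset.sum_filter_add_sum_filter_not Finset.univ
        (fun u : (k : κ) × Fin (m k) => d u.1 ≠ 0) F]
      have h2 : ∑ u ∈ Finset.univ.filter (fun u : (k : κ) × Fin (m k) => ¬d u.1 ≠ 0), F u = 0 := by
        refine Finset.sum_eq_zero fun u hu => hF u ?_
        exact not_not.1 (Finset.mem_filter.1 hu).2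
      rw [h2, add_zero]
      rw [← h1]
      refine Finset.sum_congr ?_ fun _ _ => rfl
      ext u
      exact iff_of_true (Finset.mem_univ u)
        (Finset.mem_subtype.2 (Finset.mem_filter.2 ⟨Finset.mem_univ _, u.2⟩))
    obtain ⟨_, ⟨Z, hZ, rfl⟩, hZt⟩ := hTrc (Ix g) U a b {p | ∃ Z ∈ kk, p = (cx Z, x Z)} hcab (by
      rintro _ ⟨Z, hZ, rfl⟩ v
      change cx Z * a v - a v * cx Z = ∑ u, x Z u v • a u
      by_cases hv : d v.1.1 = 1
      · simp only [a, x, if_pos hv]
        rw [hacte Z hZ]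
        rw [← hsumU _ (fun u => blockDiagonal' (xr Z) u v.1 • e u) (by
          intro u hu
          change blockDiagonal' (xr Z) u v.1 • e u = 0
          rw [Matrix.blockDiagonal'_apply_ne _ _ _ (fun h => by
            rw [h, hv] at hu
            exact one_ne_zero hu), zero_smul])]
        refine Finset.sum_congr rfl fun u _ => ?_
        by_cases hu : d u.1.1 = 1
        · rw [if_pos hu]
        · have h1 : blockDiagonal' (xr Z) u.1 v.1 = 0 :=
            Matrix.blockDiagonal'_apply_ne _ _ _ fun h => hu (by rw [h]; exact hv)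
          rw [h1, zero_smul, zero_smul]
      · simp only [a, x, if_neg hv]
        rw [hactf Z hZ]
        rw [← hsumU _ (fun u => blockDiagonal' (xr Z) v.1 u • f u) (by
          intro u hu
          change blockDiagonal' (xr Z) v.1 u • f u = 0
          rw [Matrix.blockDiagonal'_apply_ne _ _ _ (fun h => by
            rw [← h] at hu
            exact v.2 hu), zero_smul]), ← Finset.sum_neg_distrib]
        refine Finset.sum_congr rfl fun u _ => ?_
        by_cases hu : d u.1.1 = 1
        · have h1 : blockDiagonal' (xr Z) v.1 u.1 = 0 :=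
            Matrix.blockDiagonal'_apply_ne _ _ _ fun h => hv (by rw [h]; exact hu)
          rw [h1]
          simp
        · rw [if_neg hu, neg_smul]) (by
      intro u
      have h1 : Prod.fst '' {p : Matrix (Ix g) (Ix g) ℂ × Matrix U U ℂ |
          ∃ Z ∈ kk, p = (cx Z, x Z)} = {Y : Matrix (Ix g) (Ix g) ℂ | ∃ Z ∈ kk, Y = cx Z} := by
        ext Y
        constructor
        · rintro ⟨_, ⟨Z, hZ, rfl⟩, rfl⟩
          exact ⟨Z, hZ, rfl⟩
        · rintro ⟨Z, hZ, rfl⟩
          exact ⟨_, ⟨Z, hZ, rfl⟩, rfl⟩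
      rw [h1]
      by_cases hu : d u.1.1 = 1
      · simp only [a, b, if_pos hu]
        exact hgen' _ _ rfl
      · simp only [a, b, if_neg hu]
        have h2 : f u.1 * e u.1 = 1 - e u.1 * f u.1 := by
          rw [← hef1 u.1]
          abel
        rw [h2]
        exact Subalgebra.sub_mem _ (Subalgebra.one_mem _) (hgen' _ _ rfl))
    refine ⟨Z, hZ, ?_⟩
    have h1 : (x Z).trace = ∑ k, d k * (xk P Q qB (cx (r Z)) k).trace := by
      have h2 : (x Z).trace = ∑ u : U, d u.1.1 * blockDiagonal' (xr Z) u.1 u.1 := by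
        rw [Matrix.trace]
        refine Finset.sum_congr rfl fun u _ => ?_
        change x Z u u = _
        by_cases hu : d u.1.1 = 1
        · simp only [x, if_pos hu]
          rw [hu, one_mul]
        · simp only [x, if_neg hu]
          have h3 : d u.1.1 = -1 := by
            rcases hd u.1.1 with h4 | h4 | h4
            · exact absurd h4 u.2
            · exact absurd h4 hu
            · exact h4
          rw [h3, neg_one_mul]
      rw [h2, hsumU _ (fun u => d u.1 * blockDiagonal' (xr Z) u u) (by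
        intro u hu
        change d u.1 * blockDiagonal' (xr Z) u u = 0
        rw [hu, zero_mul]), Fintype.sum_sigma]
      refine Finset.sum_congr rfl fun k _ => ?_
      rw [Matrix.trace, Finset.mul_sum]
      refine Finset.sum_congr rfl fun i _ => ?_
      change d k * blockDiagonal' (xr Z) ⟨k, i⟩ ⟨k, i⟩ = d k * xr Z k i i
      rw [Matrix.blockDiagonal'_apply_eq]
    rw [← h1]
    exact hZt

end Pool.Agent.Lib.MPf11a48.KU
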