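import Pool.Agent.Lib.MP_f11a48_ag.KU.Spec

/-! # Module CLI: the Clifford operators -/

set_option autoImplicit false

namespace Pool.Agent.Lib.MPf11a48.KU

open Matrix MvPolynomial Pool.Agent.Lib.MPf11a48.Tors
open Pool.Agent.Lib.MPf11a48.CM hiding OmegaM
open Pool.Agent.Lib.MPf11a48.GL2 (lie Geo)
open Pool.Agent.Lib.MPf11a48.GL2T (IsAlg)
open Pool.Agent.Lib.MPf11a48.U (AbData Ix HD EndAlg)
open Pool.Agent.Lib.MPf11a48.K3
open KLieM (bl clC)

namespace CliM

open KRatM

variable {n : ℕ} {μ : Type} [Fintype μ] {B : Fin n → Matrix μ μ ℚ}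
  {qB : Matrix (Fin n) (Fin n) ℚ} {U : Type} [Fintype U]
  {P Q : Matrix (Fin n) U ℂ}

omit [Fintype U] in
theorem dot_col (u v : U) : ((fun a => P a u) ⬝ᵥ (cx qB *ᵥ fun a => Q a v)) =
    (Pᵀ * cx qB * Q) u v := by
  rw [Matrix.mul_assoc]
  simp only [Matrix.mul_apply, dotProduct, mulVec, Matrix.transpose_apply]

omit [Fintype U] in
theorem anti [DecidableEq μ]
    (hcl : ∀ i j, B i * B j + B j * B i = (2 * qB i j) • (1 : Matrix μ μ ℚ)) (u v : U) :
    bl B (fun a => P a u) * bl B (fun a => Q a v) + bl B (fun a => Q a v) * bl B (fun a => P a u) =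
      (2 * (Pᵀ * cx qB * Q) u v) • (1 : Matrix μ μ ℂ) := by
  rw [KLieM.bl_anti hcl, dot_col]

/-- `clC` of a matrix given in the bases `P`, `Q` -/
theorem clC_conj2 (hdet : qB.det ≠ 0) (A : Matrix U U ℂ) :
    clC B qB (P * A * (Qᵀ * cx qB)) =
      ∑ u, ∑ v, A u v • (bl B (fun a => P a u) * bl B (fun a => Q a v)) := by
  have h1 : cx qB * cx qB⁻¹ = 1 := by
    rw [← cx_mul, Matrix.mul_nonsing_inv _ (isUnit_iff_ne_zero.2 hdet), KLieM.cx_one]
  have h2 : P * A * (Qᵀ * cx qB) * cx qB⁻¹ = P * A * Qᵀ := by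
    rw [Matrix.mul_assoc (P * A), Matrix.mul_assoc Qᵀ, h1, Matrix.mul_one]
  have h3 : ∀ i j, (P * A * Qᵀ) i j = ∑ u, ∑ v, A u v * (P i u * Q j v) := by
    intro i j
    simp only [Matrix.mul_apply, Matrix.transpose_apply, Finset.sum_mul]
    rw [Finset.sum_comm]
    refine Finset.sum_congr rfl fun u _ => Finset.sum_congr rfl fun v _ => ?_
    ring
  have h4 : ∀ u v, bl B (fun a => P a u) * bl B (fun a => Q a v) =
      ∑ i, ∑ j, (P i u * Q j v) • (cx (B i) * cx (B j)) := by
    intro u v
    rw [bl, bl, Finset.sum_mul]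
    refine Finset.sum_congr rfl fun i _ => ?_
    rw [Finset.mul_sum]
    refine Finset.sum_congr rfl fun j _ => ?_
    rw [Matrix.smul_mul, Matrix.mul_smul, smul_smul]
  simp only [clC, h2, h3, h4, Finset.sum_smul, Finset.smul_sum, smul_smul]
  calc ∑ i, ∑ j, ∑ u, ∑ v, (A u v * (P i u * Q j v)) • (cx (B i) * cx (B j))
      = ∑ i, ∑ u, ∑ j, ∑ v, (A u v * (P i u * Q j v)) • (cx (B i) * cx (B j)) :=
        Finset.sum_congr rfl fun i _ => Finset.sum_comm
    _ = ∑ u, ∑ i, ∑ j, ∑ v, (A u v * (P i u * Q j v)) • (cx (B i) * cx (B j)) :=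
        Finset.sum_comm
    _ = ∑ u, ∑ i, ∑ v, ∑ j, (A u v * (P i u * Q j v)) • (cx (B i) * cx (B j)) :=
        Finset.sum_congr rfl fun u _ => Finset.sum_congr rfl fun i _ => Finset.sum_comm
    _ = ∑ u, ∑ v, ∑ i, ∑ j, (A u v * (P i u * Q j v)) • (cx (B i) * cx (B j)) :=
        Finset.sum_congr rfl fun u _ => Finset.sum_comm

theorem clC_sub (ρ σ : Matrix (Fin n) (Fin n) ℂ) :
    clC B qB (ρ - σ) = clC B qB ρ - clC B qB σ := by
  simp only [clC, Matrix.sub_mul, Matrix.sub_apply, sub_smul, Finset.sum_sub_distrib]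

/-- the commutator with the Clifford operator of a vector -/
theorem comm_bl {Z : Matrix μ μ ℂ} {ρ : Matrix (Fin n) (Fin n) ℂ}
    (h : ∀ j, Z * cx (B j) - cx (B j) * Z = ∑ i, ρ i j • cx (B i)) (w : Fin n → ℂ) :
    Z * bl B w - bl B w * Z = bl B (ρ *ᵥ w) := by
  rw [bl, Finset.mul_sum, Finset.sum_mul, ← Finset.sum_sub_distrib]
  have h2 : ∀ j, Z * w j • cx (B j) - w j • cx (B j) * Z = ∑ i, (w j * ρ i j) • cx (B i) := by
    intro j
    rw [Matrix.mul_smul, Matrix.smul_mul, ← smul_sub, h, Finset.smul_sum]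
    simp only [smul_smul]
  simp only [h2]
  rw [Finset.sum_comm, bl]
  refine Finset.sum_congr rfl fun i _ => ?_
  rw [← Finset.sum_smul]
  congr 1
  simp only [mulVec, dotProduct]
  exact Finset.sum_congr rfl fun j _ => mul_comm _ _

omit [Fintype μ] in
/-- the Clifford operator of a column of a product -/
theorem bl_col (X : Matrix U U ℂ) (v : U) :
    bl B (fun a => (P * X) a v) = ∑ u, X u v • bl B (fun a => P a u) := by
  rw [← KLieM.bl_sum]
  congr 1
  funext a
  rw [Matrix.mul_apply]
  exact Finset.sum_congr rfl fun u _ => mul_comm _ _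

omit [Fintype μ] in
theorem bl_neg (w : Fin n → ℂ) : bl B (fun a => -w a) = -bl B w := by
  simp only [bl, neg_smul, Finset.sum_neg_distrib]

omit [Fintype μ] in
theorem bl_add (w w' : Fin n → ℂ) : bl B (fun a => w a + w' a) = bl B w + bl B w' := by
  simp only [bl, add_smul, Finset.sum_add_distrib]

omit [Fintype μ] in
theorem bl_std (j : Fin n) : bl B (fun a => (1 : Matrix (Fin n) (Fin n) ℂ) a j) = cx (B j) := by
  rw [bl, Finset.sum_eq_single j]
  · rw [Matrix.one_apply_eq, one_smul]
  · intro b _ hb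
    rw [Matrix.one_apply_ne hb, zero_smul]
  · intro h
    exact absurd (Finset.mem_univ _) h

end CliM

open CliM in
theorem specUCli : SpecUCli := by
  intro n μ _ _ qB B E κ _ _ m P Q lam hsym hdet hcl hS
  have hqt : (cx qB)ᵀ = cx qB := by
    conv_rhs => rw [← hsym]
    rfl
  have hQP : Qᵀ * cx qB * P = 1 := by
    have h := congrArg Matrix.transpose hS.dual
    rw [Matrix.transpose_mul, Matrix.transpose_mul, Matrix.transpose_transpose, hqt,
      Matrix.transpose_one, ← Matrix.mul_assoc] at h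
    exact h
  have hef : ∀ u v, bl B (fun a => P a u) * bl B (fun a => Q a v) +
      bl B (fun a => Q a v) * bl B (fun a => P a u) =
      (2 * if u = v then (1 : ℂ) else 0) • (1 : Matrix μ μ ℂ) := by
    intro u v
    rw [anti hcl, hS.dual, Matrix.one_apply]
  -- part 2
  have h2 : ∀ X : Matrix ((k : κ) × Fin (m k)) ((k : κ) × Fin (m k)) ℂ,
      (4 : ℂ)⁻¹ • clC B qB (um P Q qB X) =
        ∑ u, ∑ v, X u v • (eU B P u * fU B Q v) - (X.trace / 2) • (1 : Matrix μ μ ℂ) := by
    intro X
    have h3 : ∑ u, ∑ v, Xᵀ u v • (bl B (fun a => Q a u) * bl B (fun a => P a v)) =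
        ∑ u, ∑ v, X u v • (bl B (fun a => Q a v) * bl B (fun a => P a u)) := by
      rw [Finset.sum_comm]
      rfl
    rw [um, clC_sub, clC_conj2 hdet, clC_conj2 hdet, h3, ← Finset.sum_sub_distrib]
    have h4 : ∀ u, (∑ v, X u v • (bl B (fun a => P a u) * bl B (fun a => Q a v))) -
        ∑ v, X u v • (bl B (fun a => Q a v) * bl B (fun a => P a u)) =
        ∑ v, ((4 : ℂ) • (X u v • (eU B P u * fU B Q v)) -
          (2 * (X u v * if u = v then (1 : ℂ) else 0)) • (1 : Matrix μ μ ℂ)) := by
      intro u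
      rw [← Finset.sum_sub_distrib]
      refine Finset.sum_congr rfl fun v _ => ?_
      have h5 : bl B (fun a => Q a v) * bl B (fun a => P a u) =
          (2 * if u = v then (1 : ℂ) else 0) • (1 : Matrix μ μ ℂ) -
          bl B (fun a => P a u) * bl B (fun a => Q a v) := by
        rw [← hef]
        abel
      rw [h5]
      have h6 : eU B P u * fU B Q v = (2 : ℂ)⁻¹ •
          (bl B (fun a => P a u) * bl B (fun a => Q a v)) := by
        rw [eU, fU, Matrix.mul_smul]
      rw [h6]
      module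
    simp only [h4, Finset.sum_sub_distrib]
    rw [smul_sub]
    congr 1
    · simp only [Finset.smul_sum, smul_smul]
      refine Finset.sum_congr rfl fun u _ => Finset.sum_congr rfl fun v _ => ?_
      congr 1
      ring
    · simp only [← Finset.sum_smul, smul_smul]
      congr 1
      have h7 : ∀ u, ∑ v, 2 * (X u v * if u = v then (1 : ℂ) else 0) = 2 * X u u := by
        intro u
        rw [Finset.sum_eq_single u]
        · rw [if_pos rfl, mul_one]
        · intro b _ hb
          rw [if_neg (Ne.symm hb), mul_zero, mul_zero]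
        · intro h
          exact absurd (Finset.mem_univ _) h
      simp only [h7, ← Finset.mul_sum]
      rw [Matrix.trace]
      simp only [Matrix.diag_apply]
      ring
  refine ⟨⟨?_, ?_, ?_⟩, h2, ?_, ?_, ?_⟩
  · intro u v
    rw [eU, eU, anti hcl, hS.isoP, Matrix.zero_apply, mul_zero, zero_smul]
  · intro u v
    rw [fU, fU]
    simp only [Matrix.smul_mul, Matrix.mul_smul]
    rw [← smul_add, ← smul_add, anti hcl, hS.isoQ, Matrix.zero_apply, mul_zero, zero_smul,
      smul_zero, smul_zero]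
  · intro u v
    rw [eU, fU, Matrix.mul_smul, Matrix.smul_mul, ← smul_add, hef, smul_smul]
    split_ifs
    · norm_num
    · rw [mul_zero, mul_zero, zero_smul]
  · -- part 3
    intro Z X hZ
    have hP : um P Q qB X * P = P * X := by
      rw [um, Matrix.sub_mul, Matrix.mul_assoc (P * X), hQP, Matrix.mul_one,
        Matrix.mul_assoc (Q * Xᵀ), hS.isoP, Matrix.mul_zero, sub_zero]
    have hQ : um P Q qB X * Q = -(Q * Xᵀ) := by
      rw [um, Matrix.sub_mul, Matrix.mul_assoc (P * X), hS.isoQ, Matrix.mul_zero,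
        Matrix.mul_assoc (Q * Xᵀ), hS.dual, Matrix.mul_one, zero_sub]
    refine ⟨fun v => ?_, fun v => ?_⟩
    · rw [eU, comm_bl hZ]
      have e1 : (um P Q qB X *ᵥ fun a => P a v) = fun a => (P * X) a v := by
        funext a
        rw [← hP, Matrix.mul_apply]
        rfl
      rw [e1, bl_col]
      rfl
    · rw [fU, Matrix.mul_smul, Matrix.smul_mul, ← smul_sub, comm_bl hZ]
      have e1 : (um P Q qB X *ᵥ fun a => Q a v) = fun a => -(Q * Xᵀ) a v := by
        funext a
        have h := congrFun (congrFun hQ a) v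
        rw [Matrix.mul_apply] at h
        exact h
      rw [e1]
      have e2 : (fun a => -(Q * Xᵀ) a v) = fun a => -((Q * Xᵀ) a v) := rfl
      rw [e2, bl_neg (fun a => (Q * Xᵀ) a v), bl_col, smul_neg, Finset.smul_sum]
      congr 1
      refine Finset.sum_congr rfl fun u _ => ?_
      rw [fU, smul_comm, Matrix.transpose_apply]
  · -- part 4
    intro a z he hf j
    have hdec : ∀ j, cx (B j) = ∑ u, (Qᵀ * cx qB) u j • bl B (fun a => P a u) +
        ∑ u, (Pᵀ * cx qB) u j • bl B (fun a => Q a u) := by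
      intro j
      rw [← KLieM.bl_sum, ← KLieM.bl_sum, ← bl_add, ← bl_std j]
      congr 1
      funext i
      rw [← hS.onto, Matrix.add_apply, Matrix.mul_apply, Matrix.mul_apply]
      congr 1
      · exact Finset.sum_congr rfl fun u _ => mul_comm _ _
      · exact Finset.sum_congr rfl fun u _ => mul_comm _ _
    have he' : ∀ u, a * bl B (fun i => P i u) = (z u.1 : ℂ) • (bl B (fun i => P i u) * a) := he
    have hf' : ∀ u, a * bl B (fun i => Q i u) = (z u.1 : ℂ)⁻¹ • (bl B (fun i => Q i u) * a) := by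
      intro u
      have h := hf u
      rw [fU, Matrix.smul_mul, Matrix.mul_smul, smul_comm] at h
      have h1 : bl B (fun i => Q i u) * a = (z u.1 : ℂ) • (a * bl B (fun i => Q i u)) := by
        have h2 := congrArg (fun Y => (2 : ℂ) • Y) h
        simp only [smul_smul] at h2
        rw [← mul_assoc, mul_inv_cancel₀ (two_ne_zero), one_smul, one_mul] at h2
        exact h2
      rw [h1, smul_smul, inv_mul_cancel₀ (Units.ne_zero _), one_smul]
    have hD : blockDiagonal' (fun k => (scl (ι := Fin (m k)) (z k)).1) =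
        Matrix.diagonal fun u : (k : κ) × Fin (m k) => (z u.1 : ℂ) := by
      ext ⟨k, i⟩ ⟨l, j⟩
      rw [Matrix.blockDiagonal'_apply, Matrix.diagonal_apply]
      by_cases h : k = l
      · subst h
        simp [scl, Matrix.scalar_apply, Matrix.diagonal_apply]
      · rw [dif_neg h, if_neg (fun h' => h (congrArg Sigma.fst h'))]
    have hD' : blockDiagonal' (fun k => (scl (ι := Fin (m k)) (z k))⁻¹.1ᵀ) =
        Matrix.diagonal fun u : (k : κ) × Fin (m k) => (z u.1 : ℂ)⁻¹ := by
      ext ⟨k, i⟩ ⟨l, j⟩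
      rw [Matrix.blockDiagonal'_apply, Matrix.diagonal_apply]
      by_cases h : k = l
      · subst h
        rw [← map_inv]
        simp [scl, Matrix.scalar_apply, Matrix.diagonal_apply]
        simp only [eq_comm]
      · rw [dif_neg h, if_neg (fun h' => h (congrArg Sigma.fst h'))]
    have hg : ∑ i, ugm P Q qB (fun k => scl (z k)) i j • cx (B i) =
        bl B (fun i => ugm P Q qB (fun k => scl (z k)) i j) := rfl
    rw [hg, ugm, hD, hD']
    have e1 : (fun i => (P * Matrix.diagonal (fun u : (k : κ) × Fin (m k) => (z u.1 : ℂ)) *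
        (Qᵀ * cx qB) + Q * Matrix.diagonal (fun u : (k : κ) × Fin (m k) => (z u.1 : ℂ)⁻¹) *
        (Pᵀ * cx qB)) i j) = fun i => (∑ u, ((z u.1 : ℂ) * (Qᵀ * cx qB) u j) * P i u) +
          ∑ u, ((z u.1 : ℂ)⁻¹ * (Pᵀ * cx qB) u j) * Q i u := by
      funext i
      rw [Matrix.add_apply, Matrix.mul_apply, Matrix.mul_apply (M := Q * _)]
      simp only [Matrix.mul_diagonal]
      congr 1
      · exact Finset.sum_congr rfl fun u _ => by ring
      · exact Finset.sum_congr rfl fun u _ => by ring
    rw [e1, bl_add, KLieM.bl_sum (fun u : (k : κ) × Fin (m k) => (z u.1 : ℂ) * (Qᵀ * cx qB) u j)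
      fun u i => P i u, KLieM.bl_sum (fun u : (k : κ) × Fin (m k) => (z u.1 : ℂ)⁻¹ *
      (Pᵀ * cx qB) u j) fun u i => Q i u, hdec j, Matrix.mul_add, Matrix.add_mul, Finset.mul_sum,
      Finset.mul_sum, Finset.sum_mul, Finset.sum_mul]
    congr 1
    · refine Finset.sum_congr rfl fun u _ => ?_
      rw [Matrix.mul_smul, he', Matrix.smul_mul, smul_smul, mul_comm]
    · refine Finset.sum_congr rfl fun u _ => ?_
      rw [Matrix.mul_smul, hf', Matrix.smul_mul, smul_smul, mul_comm]
  · -- part 5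
    intro kk hkk u v huv
    set X : Matrix ((k : κ) × Fin (m k)) ((k : κ) × Fin (m k)) ℂ := Matrix.single u v 1 with hX
    have hX1 : ∀ d : κ → ℂ, X * Matrix.diagonal (fun u : (k : κ) × Fin (m k) => d u.1) =
        Matrix.diagonal (fun u : (k : κ) × Fin (m k) => d u.1) * X := by
      intro d
      ext x y
      rw [Matrix.mul_diagonal, Matrix.diagonal_mul, hX, Matrix.single_apply]
      split_ifs with h6
      · obtain ⟨rfl, rfl⟩ := h6
        rw [huv, mul_comm]
      · ring
    have hX2 : ∀ d : κ → ℂ, Xᵀ * Matrix.diagonal (fun u : (k : κ) × Fin (m k) => d u.1) =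
        Matrix.diagonal (fun u : (k : κ) × Fin (m k) => d u.1) * Xᵀ := by
      intro d
      have h := congrArg Matrix.transpose (hX1 d)
      rw [Matrix.transpose_mul, Matrix.transpose_mul, Matrix.diagonal_transpose] at h
      exact h.symm
    have h1 : clC B qB (um P Q qB X) ∈
        Algebra.adjoin ℂ {Y : Matrix μ μ ℂ | ∃ Z ∈ kk, Y = cx Z} := by
      refine KLieM.clC_mem hkk ?_ fun e he => ?_
      · have h2 : (um P Q qB X)ᵀ * cx qB = -(cx qB * um P Q qB X) := by
          rw [um, Matrix.transpose_sub, Matrix.transpose_mul (P * X), Matrix.transpose_mul P X,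
            Matrix.transpose_mul (Q * Xᵀ), Matrix.transpose_mul Q Xᵀ, Matrix.transpose_mul Qᵀ,
            Matrix.transpose_mul Pᵀ, Matrix.transpose_transpose, Matrix.transpose_transpose,
            Matrix.transpose_transpose, hqt]
          simp only [Matrix.mul_assoc, Matrix.sub_mul, Matrix.mul_sub, neg_sub]
        rw [h2, neg_add_cancel]
      · have hP := hS.eigP e he
        have hQ := hS.eigQ e he
        have e1 : cx e = P * (Matrix.diagonal (fun u : (k : κ) × Fin (m k) => lam e u.1) *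
            (Qᵀ * cx qB)) + Q * (Matrix.diagonal (fun u : (k : κ) × Fin (m k) =>
            (starRingEnd ℂ) (lam e u.1)) * (Pᵀ * cx qB)) := by
          rw [← Matrix.mul_assoc, ← hP, ← Matrix.mul_assoc Q, ← hQ, Matrix.mul_assoc,
            Matrix.mul_assoc, ← Matrix.mul_add, hS.onto, Matrix.mul_one]
        have e2 : Qᵀ * cx qB * cx e = Matrix.diagonal
            (fun u : (k : κ) × Fin (m k) => lam e u.1) * (Qᵀ * cx qB) := by
          rw [e1, Matrix.mul_add, ← Matrix.mul_assoc (Qᵀ * cx qB) P, hQP, Matrix.one_mul,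
            ← Matrix.mul_assoc (Qᵀ * cx qB) Q, hS.isoQ, Matrix.zero_mul, add_zero]
        have e3 : Pᵀ * cx qB * cx e = Matrix.diagonal
            (fun u : (k : κ) × Fin (m k) => (starRingEnd ℂ) (lam e u.1)) * (Pᵀ * cx qB) := by
          rw [e1, Matrix.mul_add, ← Matrix.mul_assoc (Pᵀ * cx qB) P, hS.isoP, Matrix.zero_mul,
            ← Matrix.mul_assoc (Pᵀ * cx qB) Q, hS.dual, Matrix.one_mul, zero_add]
        rw [um, Matrix.sub_mul, Matrix.mul_sub, Matrix.mul_assoc (P * X), e2,
          Matrix.mul_assoc (Q * Xᵀ), e3]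
        congr 1
        · rw [← Matrix.mul_assoc (P * X), Matrix.mul_assoc P, hX1 (lam e), ← Matrix.mul_assoc P,
            ← hP]
          simp only [Matrix.mul_assoc]
        · rw [← Matrix.mul_assoc (Q * Xᵀ), Matrix.mul_assoc Q,
            hX2 (fun k => (starRingEnd ℂ) (lam e k)), ← Matrix.mul_assoc Q, ← hQ]
          simp only [Matrix.mul_assoc]
    have h3 := h2 X
    have h4 : ∑ x, ∑ y, X x y • (eU B P x * fU B Q y) = eU B P u * fU B Q v := by
      rw [Finset.sum_eq_single u, Finset.sum_eq_single v]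
      · simp [hX]
      · intro b _ hb
        simp [hX, hb.symm]
      · intro hb
        exact absurd (Finset.mem_univ _) hb
      · intro b _ hb
        refine Finset.sum_eq_zero fun x _ => ?_
        simp [hX, hb.symm]
      · intro hb
        exact absurd (Finset.mem_univ _) hb
    rw [h4] at h3
    rw [show eU B P u * fU B Q v = (4 : ℂ)⁻¹ • clC B qB (um P Q qB X) +
      (X.trace / 2) • (1 : Matrix μ μ ℂ) by rw [h3, sub_add_cancel]]
    exact Subalgebra.add_mem _ (Subalgebra.smul_mem _ h1 _)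
      (Subalgebra.smul_mem _ (Subalgebra.one_mem _) _)

end Pool.Agent.Lib.MPf11a48.KU
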