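import Pool.Agent.Lib.MP_f11a48_ag.KU.Spec
import Pool.Agent.Lib.MP_f11a48_ag.K3.KTen3
import Pool.Agent.Lib.MP_f11a48_ag.C.Ten

/-! # Objects built from `h^1(A)`, `T`, an object with algebraic periods, and the Tate object -/

set_option autoImplicit false
set_option linter.unusedSectionVars false

namespace Pool.Agent.Lib.MPf11a48.KU

open Matrix MvPolynomial Pool.Agent.Lib.MPf11a48.Tors
open Pool.Agent.Lib.MPf11a48.CM hiding OmegaM
open Pool.Agent.Lib.MPf11a48.GL2T (IsAlg)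
open Pool.Agent.Lib.MPf11a48.U (AbData Ix)
open Pool.Agent.Lib.MPf11a48.K3

namespace TenM

section dsum

variable {ι μ : Type} [Fintype ι] [DecidableEq ι] [Fintype μ] [DecidableEq μ]

theorem dsum_mul (x x' : GL ι ℂ) (r r' : GL μ ℂ) :
    CMS.dsum x r * CMS.dsum x' r' = CMS.dsum (x * x') (r * r') := by
  refine Units.ext ?_
  change fromBlocks x.1 0 0 r.1 * fromBlocks x'.1 0 0 r'.1 =
    fromBlocks (x.1 * x'.1) 0 0 (r.1 * r'.1)
  rw [fromBlocks_multiply]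
  simp only [Matrix.mul_zero, Matrix.zero_mul, add_zero, zero_add]

theorem dsum_one : CMS.dsum (1 : GL ι ℂ) (1 : GL μ ℂ) = 1 := by
  refine Units.ext ?_
  change fromBlocks (1 : Matrix ι ι ℂ) 0 0 (1 : Matrix μ μ ℂ) = 1
  exact fromBlocks_one

theorem dsum_inv (x : GL ι ℂ) (r : GL μ ℂ) : (CMS.dsum x r)⁻¹ = CMS.dsum x⁻¹ r⁻¹ := by
  rw [inv_eq_iff_mul_eq_one, dsum_mul, mul_inv_cancel, mul_inv_cancel, dsum_one]

end dsum

variable {g n k : ℕ}

/-- index set -/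
abbrev Mu (g n k : ℕ) : Type := (Ix g ⊕ Fin n) ⊕ Fin k

/-- the pair -/
noncomputable def pr (r : GL (Fin k) ℂ) (y : Grp3 g n) : GL (Mu g n k) ℂ × ℂˣ :=
  (CMS.dsum (CMS.dsum y.1 y.2.1) r, y.2.2)

theorem pr_mul (r r' : GL (Fin k) ℂ) (y y' : Grp3 g n) :
    pr r y * pr r' y' = pr (r * r') (y * y') := by
  unfold pr
  rw [Prod.mk_mul_mk, dsum_mul, dsum_mul]
  rfl

theorem pr_inv (r : GL (Fin k) ℂ) (y : Grp3 g n) : (pr r y)⁻¹ = pr r⁻¹ y⁻¹ := by
  unfold pr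
  rw [Prod.inv_mk, dsum_inv, dsum_inv]
  rfl

/-- the morphism -/
noncomputable def Phi (r : GL (Fin k) ℂ) (y : Grp3 g n) : GL (Mu g n k ⊕ Unit) ℂ :=
  C.TenM.bd (pr r y)

/-- the polynomials -/
noncomputable def PM {F : Type} [Field F] (rr : Matrix (Fin k) (Fin k) F) :
    Matrix (Mu g n k ⊕ Unit) (Mu g n k ⊕ Unit) (MvPolynomial (Var3 g n) F) :=
  fromBlocks (fromBlocks (fromBlocks (of fun a b => X (Sum.inl (Sum.inl (a, b)))) 0 0
    (of fun a b => X (Sum.inr (Sum.inl (Sum.inl (a, b)))))) 0 0 (rr.map C)) 0 0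
    (of fun _ _ => X (Sum.inr (Sum.inr (Sum.inl ()))))

theorem Phi_entry {F : Type} [Field F] [Algebra F ℂ] {rr : Matrix (Fin k) (Fin k) F}
    {r : GL (Fin k) ℂ} (h : ∀ i j, algebraMap F ℂ (rr i j) = r.1 i j) (y : Grp3 g n)
    (i j : Mu g n k ⊕ Unit) : (Phi r y).1 i j = aeval (crd3 y) (PM (g := g) (n := n) rr i j) := by
  rcases i with ((i | i) | i) | i <;> rcases j with ((j | j) | j) | j
  · exact (aeval_X (crd3 y) (Sum.inl (Sum.inl (i, j)))).symm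
  · exact (map_zero _).symm
  · exact (map_zero _).symm
  · exact (map_zero _).symm
  · exact (map_zero _).symm
  · exact (aeval_X (crd3 y) (Sum.inr (Sum.inl (Sum.inl (i, j))))).symm
  · exact (map_zero _).symm
  · exact (map_zero _).symm
  · exact (map_zero _).symm
  · exact (map_zero _).symm
  · exact ((aeval_C (crd3 y) (rr i j)).trans (h i j)).symm
  · exact (map_zero _).symm
  · exact (map_zero _).symm
  · exact (map_zero _).symm
  · exact (map_zero _).symm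
  · exact (aeval_X (crd3 y) (Sum.inr (Sum.inr (Sum.inl ())))).symm

theorem isTens3_Phi {r : GL (Fin k) ℂ} (hr : IsAlg r.1) : IsTens3 (Phi (g := g) (n := n) r) where
  regular i j := by
    refine ⟨PM (of fun a b => (⟨r.1 a b, hr a b⟩ : Qbar)) i j, fun y => ?_⟩
    exact Phi_entry (fun a b => rfl) y i j
  heap x y z := by
    unfold Phi
    rw [← map_inv, ← map_mul, ← map_mul, pr_inv, pr_mul, pr_mul, mul_inv_cancel, one_mul]
  rational i j := by
    refine ⟨PM (1 : Matrix (Fin k) (Fin k) ℚ) i j, fun y => ?_⟩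
    have e : Phi r y * (Phi r 1)⁻¹ = Phi 1 y := by
      unfold Phi
      rw [← map_inv, ← map_mul, pr_inv, pr_mul, mul_inv_cancel, inv_one, mul_one]
    rw [e]
    refine Phi_entry (fun a b => ?_) y i j
    by_cases hab : a = b
    · subst hab
      rw [Matrix.one_apply_eq, map_one]
      exact (Matrix.one_apply_eq a).symm
    · rw [Matrix.one_apply_ne hab, map_zero]
      exact (Matrix.one_apply_ne hab).symm

theorem castMap {κ ι : Type} (iB : Matrix κ ι ℚ) : cx iB = iB.map (algebraMap ℚ ℂ) := by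
  ext i j
  simp [cx]

end TenM

open TenM KTenM KTen3M in
theorem specUTen : SpecUTen := by
  intro g n k c t 𝓖 hG r hr K hK ν ι _ _ _ _ Θ hΘ M iB hM
  have hW : ∀ T : Set (GL (Mu g n k ⊕ Unit) ℂ), IsTorsor Qbar T →
      C.TenM.bd (CMS.dsum (CMS.dsum c t) r, C.tpi) ∈ T → ClosedOver ⊥ (grp T) →
      ∀ y ∈ {z : GL (Mu g n k) ℂ × ℂˣ | ∃ y ∈ 𝓖, z = pr 1 y},
        C.TenM.bd (y * (CMS.dsum (CMS.dsum c t) r, C.tpi)) ∈ T := by
    rintro T hT hcT hcl _ ⟨y, hy, rfl⟩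
    have hct : Phi r ((c, t, tpi) : Grp3 g n) ∈ T := hcT
    obtain ⟨x, hx, hx'⟩ := hG _ (isTorsor_pull3 (isTens3_Phi hr) hT hct) ⟨_, rfl, hct⟩
      (grp_pull3 (isTens3_Phi hr) hT hcl hct) y hy
    have e : pr 1 y * (CMS.dsum (CMS.dsum c t) r, C.tpi) =
        pr r (y * ((c, t, tpi) : Grp3 g n)) := by
      change pr 1 y * pr r ((c, t, tpi) : Grp3 g n) = _
      rw [pr_mul, one_mul]
    rw [e, ← bd3_injective hx]
    exact hx'
  have hN : C.IsSubObj (Θ (CMS.dsum (CMS.dsum c t) r, C.tpi)) M iB := by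
    obtain ⟨hinj, idR, hdR⟩ := hM
    refine ⟨hinj, idR, ?_⟩
    rw [← castMap]
    exact hdR
  obtain ⟨h1, h2, h3⟩ := C.ten _ _ hW K hK ν ι Θ hΘ M iB hN
  have e : MTObj 𝓖 Θ iB = C.imG Θ iB {z : GL (Mu g n k) ℂ × ℂˣ | ∃ y ∈ 𝓖, z = pr 1 y} := by
    ext f
    unfold MTObj C.imG
    rw [castMap]
    constructor
    · rintro ⟨y, hy, h⟩
      exact ⟨_, ⟨y, hy, rfl⟩, h⟩
    · rintro ⟨_, ⟨y, hy, rfl⟩, h⟩
      exact ⟨y, hy, h⟩
  rw [e]
  refine ⟨fun y hy => ?_, h2, h3⟩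
  obtain ⟨f, hf⟩ := h1 _ ⟨y, hy, rfl⟩
  refine ⟨f, ?_⟩
  rw [castMap]
  exact hf

end Pool.Agent.Lib.MPf11a48.KU
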