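import Pool.Agent.Lib.MP_f11a48_ag.KU.Spec
import Pool.Agent.Lib.MP_f11a48_ag.K3.KFull3

/-! # The Lie algebra of a torsor through `(c, t, 2 π i)`, unitary case, first part -/

set_option autoImplicit false
set_option linter.unusedSectionVars false

namespace Pool.Agent.Lib.MPf11a48.KU

open Matrix MvPolynomial Pool.Agent.Lib.MPf11a48.Tors
open Pool.Agent.Lib.MPf11a48.CM hiding OmegaM
open Pool.Agent.Lib.MPf11a48.GL2 (lie Geo)
open Pool.Agent.Lib.MPf11a48.GL2T (IsAlg)
open Pool.Agent.Lib.MPf11a48.U (AbData Ix HD EndAlg SpecHDA)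
open Pool.Agent.Lib.MPf11a48.K3
open KLieM (bl clC)
open KGrpM (stab)
open KGrp3M (G0 sc ex)

namespace FulaM

open KFull3M KGrpM KRatM KLieM

section um

variable {n : ℕ} {U : Type} [Fintype U] {P Q : Matrix (Fin n) U ℂ}
  {qB : Matrix (Fin n) (Fin n) ℚ}

theorem um_add (X Y : Matrix U U ℂ) : um P Q qB (X + Y) = um P Q qB X + um P Q qB Y := by
  unfold um
  rw [transpose_add, Matrix.mul_add, Matrix.mul_add, Matrix.add_mul, Matrix.add_mul]
  abel

theorem um_smul (a : ℂ) (X : Matrix U U ℂ) : um P Q qB (a • X) = a • um P Q qB X := by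
  unfold um
  rw [transpose_smul, Matrix.mul_smul, Matrix.mul_smul, Matrix.smul_mul, Matrix.smul_mul, smul_sub]

theorem um_zero : um P Q qB (0 : Matrix U U ℂ) = 0 := by
  have h := um_smul (P := P) (Q := Q) (qB := qB) 0 (0 : Matrix U U ℂ)
  rw [zero_smul, zero_smul] at h
  exact h

end um

/-- the brackets of matrices of trace zero -/
def brk (d : ℕ) : Submodule ℂ (Matrix (Fin d) (Fin d) ℂ) :=
  Submodule.span ℂ {Z | ∃ X Y : Matrix (Fin d) (Fin d) ℂ, X.trace = 0 ∧ Y.trace = 0 ∧
    Z = X * Y - Y * X}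

theorem single_mem {d : ℕ} {i j : Fin d} (hij : i ≠ j) (a : ℂ) :
    (Matrix.single i j a : Matrix (Fin d) (Fin d) ℂ) ∈ brk d := by
  refine Submodule.subset_span ⟨Matrix.single i j a,
    (2 : ℂ)⁻¹ • (Matrix.single j j 1 - Matrix.single i i 1), ?_, ?_, ?_⟩
  · exact Matrix.trace_single_eq_of_ne i j a hij
  · rw [trace_smul, trace_sub, Matrix.trace_single_eq_same, Matrix.trace_single_eq_same, sub_self,
      smul_zero]
  · rw [Matrix.mul_smul, Matrix.smul_mul, ← smul_sub, Matrix.mul_sub, Matrix.sub_mul,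
      Matrix.single_mul_single_same, Matrix.single_mul_single_of_ne _ i j _ hij.symm,
      Matrix.single_mul_single_of_ne _ j j _ hij.symm, Matrix.single_mul_single_same]
    simp only [mul_one, one_mul, sub_zero, zero_sub, sub_neg_eq_add]
    rw [← two_smul ℂ, smul_smul, inv_mul_cancel₀ (by norm_num : (2 : ℂ) ≠ 0), one_smul]

theorem single_sub_mem {d : ℕ} (i j : Fin d) :
    (Matrix.single i i 1 - Matrix.single j j 1 : Matrix (Fin d) (Fin d) ℂ) ∈ brk d := by
  by_cases hij : i = j
  · subst hij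
    rw [sub_self]
    exact Submodule.zero_mem _
  · refine Submodule.subset_span ⟨Matrix.single i j 1, Matrix.single j i 1, ?_, ?_, ?_⟩
    · exact Matrix.trace_single_eq_of_ne i j 1 hij
    · exact Matrix.trace_single_eq_of_ne j i 1 (Ne.symm hij)
    · rw [Matrix.single_mul_single_same, Matrix.single_mul_single_same, mul_one]

theorem trace_zero_mem {d : ℕ} (A : Matrix (Fin d) (Fin d) ℂ) (hA : A.trace = 0) : A ∈ brk d := by
  rcases Nat.eq_zero_or_pos d with h0 | hd
  · subst h0
    have : A = 0 := by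
      ext i
      exact i.elim0
    rw [this]
    exact Submodule.zero_mem _
  let i0 : Fin d := ⟨0, hd⟩
  have h1 : A = ∑ i, ∑ j, (if i = j then A i i • (Matrix.single i i 1 - Matrix.single i0 i0 1)
      else Matrix.single i j (A i j)) := by
    have h2 : ∑ i, ∑ j, (if i = j then A i i • (Matrix.single i i (1 : ℂ) - Matrix.single i0 i0 1)
        else Matrix.single i j (A i j)) =
        ∑ i, ∑ j, (Matrix.single i j (A i j) -
          if i = j then A i i • Matrix.single i0 i0 (1 : ℂ) else 0) := by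
      refine Finset.sum_congr rfl fun i _ => Finset.sum_congr rfl fun j _ => ?_
      by_cases hij : i = j
      · subst hij
        rw [if_pos rfl, if_pos rfl, smul_sub, Matrix.smul_single, smul_eq_mul, mul_one]
      · rw [if_neg hij, if_neg hij, sub_zero]
    rw [h2]
    simp only [Finset.sum_sub_distrib, Finset.sum_ite_eq, Finset.mem_univ, if_true]
    rw [← Finset.sum_smul]
    have h3 : ∑ i, A i i = 0 := hA
    rw [h3, zero_smul, sub_zero]
    exact Matrix.matrix_eq_sum_single A
  rw [h1]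
  refine Submodule.sum_mem _ fun i _ => Submodule.sum_mem _ fun j _ => ?_
  by_cases hij : i = j
  · rw [if_pos hij]
    exact Submodule.smul_mem _ _ (single_sub_mem _ _)
  · rw [if_neg hij]
    exact single_mem hij _

/-- generation by brackets -/
theorem perf_mem {n : ℕ} {κ : Type} [Fintype κ] [DecidableEq κ] {m : κ → ℕ}
    {P Q : Matrix (Fin n) ((k : κ) × Fin (m k)) ℂ} {qB : Matrix (Fin n) (Fin n) ℚ}
    {W : Submodule ℂ (Matrix (Fin n) (Fin n) ℂ)}
    (h : ∀ X Y : (k : κ) → Matrix (Fin (m k)) (Fin (m k)) ℂ, (∀ k, (X k).trace = 0) →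
      (∀ k, (Y k).trace = 0) →
      um P Q qB (blockDiagonal' fun k => X k * Y k - Y k * X k) ∈ W)
    {X : (k : κ) → Matrix (Fin (m k)) (Fin (m k)) ℂ} (hX : ∀ k, (X k).trace = 0) :
    um P Q qB (blockDiagonal' X) ∈ W := by
  have hs : ∀ (k : κ) (Z : Matrix (Fin (m k)) (Fin (m k)) ℂ), Z.trace = 0 →
      ∀ k', ((Pi.single k Z : (k : κ) → Matrix (Fin (m k)) (Fin (m k)) ℂ) k').trace = 0 := by
    intro k Z hZ k'
    by_cases hk : k' = k
    · subst hk
      rw [Pi.single_eq_same, hZ]
    · rw [Pi.single_eq_of_ne hk, trace_zero]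
  have h1 : ∀ (k : κ) (A : Matrix (Fin (m k)) (Fin (m k)) ℂ), A.trace = 0 →
      um P Q qB (blockDiagonal' (Pi.single k A)) ∈ W := by
    intro k A hA
    have h2 := trace_zero_mem A hA
    refine Submodule.span_induction (p := fun A _ => um P Q qB (blockDiagonal' (Pi.single k A)) ∈ W)
      ?_ ?_ ?_ ?_ h2
    · rintro _ ⟨X, Y, hX, hY, rfl⟩
      have h4 := h _ _ (hs k X hX) (hs k Y hY)
      convert h4 using 3
      funext k'
      by_cases hk : k' = k
      · subst hk
        simp only [Pi.single_eq_same]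
      · simp only [Pi.single_eq_of_ne hk, Matrix.zero_mul, sub_zero]
    · rw [Pi.single_zero, blockDiagonal'_zero, um_zero]
      exact W.zero_mem
    · intro X Y _ _ hX hY
      have h2 := W.add_mem hX hY
      rw [← um_add, ← blockDiagonal'_add, ← Pi.single_add] at h2
      exact h2
    · intro a X _ hX
      have h2 := W.smul_mem a hX
      rw [← um_smul, ← blockDiagonal'_smul, ← Pi.single_smul] at h2
      exact h2
  have key : ∀ s : Finset κ, um P Q qB (blockDiagonal' (∑ k ∈ s, Pi.single k (X k))) ∈ W := by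
    intro s
    induction s using Finset.induction_on with
    | empty =>
      rw [Finset.sum_empty, blockDiagonal'_zero, um_zero]
      exact W.zero_mem
    | insert k s hk ih =>
      rw [Finset.sum_insert hk, blockDiagonal'_add, um_add]
      exact W.add_mem (h1 k _ (hX k)) ih
  have h2 := key Finset.univ
  rwa [Finset.univ_sum_single] at h2

end FulaM

open FulaM KFull3M KGrpM KRatM KLieM in
theorem specUFulA (hRat : SpecKRat3) (hHDA : SpecHDA) (hLie : SpecULie) (hMat : SpecUMat) :
    SpecUFulA := by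
  intro g N n A c t qdR qB B E κ _ _ m P Q lam hK hEF hS h0 hm T hT htT hcl X hX ρ hρ
  obtain ⟨⟨J, hJ⟩, hEnd⟩ := hHDA Qbar g N A c le_rfl hK.abvar hK.per
  change HD c J A.psi at hJ
  obtain ⟨kk, hkk, hlog⟩ := hRat g N n A c t qdR qB B E J _ hK hJ T hT htT hcl
  have hQ := hK.symm
  have hdet := hK.det
  have hclf := hK.clifford
  obtain ⟨-, -, -, hbr, -⟩ := hMat n qB E κ m P Q lam hQ hS
  classical
  choose! mm r hr using hkk
  have hlieU := (hLie g N n A c t qdR qB B E κ m P Q lam J A.psi hK hS h0 hm hJ hEnd kk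
    (fun Z hZ => ⟨mm Z, (hr Z hZ).1⟩) hlog r
    (fun Z hZ => ⟨(hr Z hZ).2.1, (hr Z hZ).2.2.2.1⟩)).1
  -- the projection is everything
  have h1 : ∀ X : (k : κ) → Matrix (Fin (m k)) (Fin (m k)) ℂ, (∀ k, (X k).trace = 0) →
      um P Q qB (blockDiagonal' X) ∈ pr3 T c qB B E A.psi := by
    refine hlieU (pr3 T c qB B E A.psi) ?_ ?_
    · rintro X ⟨Z, m, h⟩ Y ⟨Z', m', h'⟩
      exact ⟨_, _, h.br hQ hdet hclf hEF h'⟩
    · intro Z hZ
      obtain ⟨h4, h5, h6, h7, h8⟩ := hr Z hZ
      refine ⟨cx Z, (mm Z : ℂ), ?_⟩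
      refine ⟨h6, fun j => ?_, ?_, fun Z₀ hZ₀ => ?_, ?_, fun e he => ?_⟩
      · rw [← cx_mul, ← cx_mul]
        have e1 := congrArg cx (h7 j)
        have e2 : cx (Z * B j - B j * Z) = cx (Z * B j) - cx (B j * Z) := by
          ext a b
          simp [cx]
        rw [e2] at e1
        rw [e1]
        ext a b
        simp [cx, Matrix.sum_apply]
      · have e1 := congrArg cx h4
        rw [cx_add, cx_mul, cx_mul, cx_smul] at e1
        exact e1
      · rw [← cx_mul, h8 Z₀ hZ₀, cx_mul]
      · have e1 := congrArg cx h5.1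
        rw [cx_add, cx_mul, cx_mul, cx_zero] at e1
        exact e1
      · rw [← cx_mul, h5.2 e he, cx_mul]
  -- brackets
  let W : Submodule ℂ (Matrix (Fin n) (Fin n) ℂ) :=
    { carrier := {ρ | InL T c qB B E A.psi ((4 : ℂ)⁻¹ • clC B qB ρ) ρ 0}
      add_mem' := by
        intro a b ha hb
        have h := InL.add ha hb
        rw [← smul_add, ← clC_add, add_zero] at h
        exact h
      zero_mem' := by
        have h : InL T c qB B E A.psi 0 0 0 := InL.zero
        have e : (4 : ℂ)⁻¹ • clC B qB (0 : Matrix (Fin n) (Fin n) ℂ) = 0 := by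
          have e1 := clC_smul (B := B) (qB := qB) 0 0
          rw [zero_smul, zero_smul] at e1
          rw [e1, smul_zero]
        change InL T c qB B E A.psi _ _ _
        rw [e]
        exact h
      smul_mem' := by
        intro a ρ h
        have h2 := InL.smul a h
        rw [smul_comm, ← clC_smul, mul_zero] at h2
        exact h2 }
  have h2 : InL T c qB B E A.psi ((4 : ℂ)⁻¹ • clC B qB (um P Q qB (blockDiagonal' X)))
        (um P Q qB (blockDiagonal' X)) 0 := by
    refine FulaM.perf_mem (W := W) (fun X Y hX hY => ?_) hX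
    obtain ⟨Z, m, h⟩ := h1 X hX
    obtain ⟨Z', m', h'⟩ := h1 Y hY
    have h3 := h.br hQ hdet hclf hEF h'
    rw [hbr, ← blockDiagonal'_mul, ← blockDiagonal'_mul, ← blockDiagonal'_sub] at h3
    exact h3
  subst hρ
  have h6 : (4 : ℂ) • ((4 : ℂ)⁻¹ • clC B qB (um P Q qB (blockDiagonal' X))) =
      clC B qB (um P Q qB (blockDiagonal' X)) := by
    rw [smul_smul, mul_inv_cancel₀ (by norm_num), one_smul]
  have h7 := h2.smul 4
  refine ⟨h2.mem, ?_⟩
  have h8 := h7.mul
  rw [h6, mul_zero, zero_smul] at h8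
  exact h8

end Pool.Agent.Lib.MPf11a48.KU
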