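import Pool.Agent.Lib.MP_f11a48_ag.KU.Spec

/-! # Traces with rational coefficients, from the flatness of the set of eigenspaces -/

set_option autoImplicit false
set_option linter.unusedSectionVars false

namespace Pool.Agent.Lib.MPf11a48.KU

open Matrix MvPolynomial Pool.Agent.Lib.MPf11a48.Tors
open Pool.Agent.Lib.MPf11a48.CM hiding OmegaM
open Pool.Agent.Lib.MPf11a48.GL2 (lie Geo)
open Pool.Agent.Lib.MPf11a48.GL2T (IsAlg)
open Pool.Agent.Lib.MPf11a48.U (AbData Ix HD EndAlg)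
open Pool.Agent.Lib.MPf11a48.K3
open KLieM (bl clC)
open KGrpM (stab)
open KGrp3M (G0 sc ex)

namespace FltM

variable {κ : Type} [Fintype κ]

/-- the odd extension of the traces -/
noncomputable def od (t : κ → ℂ) : κ ⊕ κ → ℂ := Sum.elim t fun k => -t k

theorem sum_od (f : κ ⊕ κ → ℚ) (hf : ∀ k, f (Sum.inr k) = -f (Sum.inl k)) (t : κ → ℂ) :
    ∑ s, (f s : ℂ) * od t s = 2 * ∑ k, (f (Sum.inl k) : ℂ) * t k := by
  rw [Fintype.sum_sum_type]
  simp only [od, Sum.elim_inl, Sum.elim_inr, hf]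
  push_cast
  simp only [neg_mul_neg]
  ring

theorem odd_swap (f : κ ⊕ κ → ℚ) (hf : ∀ k, f (Sum.inr k) = -f (Sum.inl k)) (s : κ ⊕ κ) :
    f (Sum.swap s) = -f s := by
  rcases s with k | k
  · exact hf k
  · rw [Sum.swap_inr, hf, neg_neg]

/-- the space of odd functions orthogonal to all traces -/
def NN (R : Set (κ → ℂ)) : Submodule ℚ (κ ⊕ κ → ℚ) where
  carrier := {f | (∀ k, f (Sum.inr k) = -f (Sum.inl k)) ∧
    ∀ t ∈ R, ∑ k, (f (Sum.inl k) : ℂ) * t k = 0}
  add_mem' := by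
    rintro a b ⟨ha, ha'⟩ ⟨hb, hb'⟩
    refine ⟨fun k => ?_, fun t ht => ?_⟩
    · rw [Pi.add_apply, Pi.add_apply, ha, hb]
      ring
    · have : ∑ k, ((a + b) (Sum.inl k) : ℂ) * t k =
          (∑ k, (a (Sum.inl k) : ℂ) * t k) + ∑ k, (b (Sum.inl k) : ℂ) * t k := by
        rw [← Finset.sum_add_distrib]
        refine Finset.sum_congr rfl fun k _ => ?_
        rw [Pi.add_apply]
        push_cast
        ring
      rw [this, ha' t ht, hb' t ht, add_zero]
  zero_mem' := by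
    refine ⟨fun k => by simp, fun t _ => by simp⟩
  smul_mem' := by
    rintro a b ⟨hb, hb'⟩
    refine ⟨fun k => ?_, fun t ht => ?_⟩
    · rw [Pi.smul_apply, Pi.smul_apply, hb, smul_neg]
    · have : ∑ k, ((a • b) (Sum.inl k) : ℂ) * t k = (a : ℂ) * ∑ k, (b (Sum.inl k) : ℂ) * t k := by
        rw [Finset.mul_sum]
        refine Finset.sum_congr rfl fun k _ => ?_
        rw [Pi.smul_apply, smul_eq_mul]
        push_cast
        ring
      rw [this, hb' t ht, mul_zero]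

end FltM

open FltM in
theorem specUFlt (hGal : SpecUGal) : SpecUFlt := by
  intro n qB E κ _ _ m P Q lam hQ hdet hS h0 hF R hR hd χ hχ
  by_contra hcon
  push Not at hcon
  obtain ⟨hg1, hg2⟩ := hGal n qB E κ m P Q lam hQ hdet hS h0
  set RR : Set (κ → ℂ) := {t | ∃ ρ ∈ R, t = fun k => (xk P Q qB (cx ρ) k).trace} with hRR
  have hN : NN RR ≠ ⊥ := by
    intro hbot
    have hmem : (Sum.elim χ fun k => -χ k : κ ⊕ κ → ℚ) ∈ NN RR := by
      refine ⟨fun k => by simp, ?_⟩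
      rintro t ⟨ρ, hρ, rfl⟩
      simp only [Sum.elim_inl]
      exact hcon ρ hρ
    rw [hbot, Submodule.mem_bot] at hmem
    apply hχ
    funext k
    have := congrFun hmem (Sum.inl k)
    simpa using this
  have hst : ∀ (τ : ℂ ≃+* ℂ) (σ : Equiv.Perm (κ ⊕ κ)),
      (∀ e ∈ E, ∀ s, chr lam e (σ s) = τ (chr lam e s)) →
      ∀ f ∈ NN RR, (fun s => f (σ s)) ∈ NN RR := by
    intro τ σ hτσ f hf
    have hsw := hg2 τ σ hτσ
    have hodd : ∀ k, f (σ (Sum.inr k)) = -f (σ (Sum.inl k)) := by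
      intro k
      have h1 : (Sum.inr k : κ ⊕ κ) = Sum.swap (Sum.inl k) := rfl
      rw [h1, hsw, odd_swap f hf.1]
    refine ⟨hodd, ?_⟩
    rintro t ⟨ρ, hρ, rfl⟩
    have hG := (hg1 ρ (hR hρ)).1 τ σ hτσ
    set t : κ → ℂ := fun k => (xk P Q qB (cx ρ) k).trace with ht
    have hG' : ∀ s, τ (od t s) = od t (σ s) := hG
    have h2 : ∑ s, (f s : ℂ) * od t s = 0 := by
      rw [sum_od f hf.1, hf.2 t ⟨ρ, hρ, rfl⟩, mul_zero]
    have h3 : τ (∑ s, (f (σ s) : ℂ) * od t s) = 0 := by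
      rw [map_sum, ← h2, ← Equiv.sum_comp σ (fun s => (f s : ℂ) * od t s)]
      refine Finset.sum_congr rfl fun s _ => ?_
      rw [map_mul, hG', map_ratCast]
    have h4 : ∑ s, (f (σ s) : ℂ) * od t s = 0 := by
      have := (map_eq_zero_iff τ τ.injective).1 h3
      exact this
    rw [sum_od (fun s => f (σ s)) hodd] at h4
    exact (mul_eq_zero.1 h4).resolve_left two_ne_zero
  obtain ⟨f, hfN, hf0, hfv⟩ := hF (NN RR) hN (fun f hf => hf.1) hst
  have hf1 := hfN.1
  obtain ⟨ρ, hρ, hne⟩ := hd (fun k => (f (Sum.inl k) : ℂ)) (fun k => by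
    rcases hfv (Sum.inl k) with h | h | h
    · left; simp [h]
    · right; left; simp [h]
    · right; right; simp [h]) (by
    intro hz
    apply hf0
    funext s
    have h1 : ∀ k, f (Sum.inl k) = 0 := by
      intro k
      have := congrFun hz k
      simpa using this
    rcases s with k | k
    · rw [h1, Pi.zero_apply]
    · rw [hf1, h1, Pi.zero_apply, neg_zero])
  exact hne (hfN.2 _ ⟨ρ, hρ, rfl⟩)

end Pool.Agent.Lib.MPf11a48.KU
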