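import Pool.Agent.Lib.MP_f11a48_ag.KU.Spec

/-!
# Kuga-Satake varieties, the unitary case, module MAT: matrix calculus
-/

set_option autoImplicit false

namespace Pool.Agent.Lib.MPf11a48.KU

open Matrix MvPolynomial Pool.Agent.Lib.MPf11a48.Tors
open Pool.Agent.Lib.MPf11a48.CM hiding OmegaM
open Pool.Agent.Lib.MPf11a48.K3

namespace MatM

variable {n : ℕ} {qB : Matrix (Fin n) (Fin n) ℚ} {E : Set (Matrix (Fin n) (Fin n) ℚ)} {κ : Type}
  [Fintype κ] [DecidableEq κ] {m : κ → ℕ} {P Q : Matrix (Fin n) ((k : κ) × Fin (m k)) ℂ}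
  {lam : Matrix (Fin n) (Fin n) ℚ → κ → ℂ}

lemma cx_symm (h : qBᵀ = qB) : (cx qB)ᵀ = cx qB := by
  unfold cx
  rw [← Matrix.transpose_map, h]

/-- The relations between `P`, `Q`, `P' = Pᵀ q` and `Q' = Qᵀ q`. -/
lemma rels (h : qBᵀ = qB) (hS : SplitU qB E m P Q lam) :
    Qᵀ * cx qB * P = 1 ∧ Qᵀ * cx qB * Q = 0 ∧ Pᵀ * cx qB * Q = 1 ∧ Pᵀ * cx qB * P = 0 := by
  refine ⟨?_, hS.isoQ, hS.dual, hS.isoP⟩
  have h1 := congrArg Matrix.transpose hS.dual
  rw [Matrix.transpose_mul, Matrix.transpose_mul, Matrix.transpose_transpose, cx_symm h,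
    Matrix.transpose_one] at h1
  rw [Matrix.mul_assoc]
  exact h1

/-- A matrix is determined by its products with `P` and `Q`. -/
lemma ext_PQ (hS : SplitU qB E m P Q lam) {A B : Matrix (Fin n) (Fin n) ℂ} (h1 : A * P = B * P)
    (h2 : A * Q = B * Q) : A = B := by
  calc A = A * (P * (Qᵀ * cx qB) + Q * (Pᵀ * cx qB)) := by rw [hS.onto, Matrix.mul_one]
    _ = A * P * (Qᵀ * cx qB) + A * Q * (Pᵀ * cx qB) := by
        rw [Matrix.mul_add, Matrix.mul_assoc A P, Matrix.mul_assoc A Q]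
    _ = B * P * (Qᵀ * cx qB) + B * Q * (Pᵀ * cx qB) := by rw [h1, h2]
    _ = B * (P * (Qᵀ * cx qB) + Q * (Pᵀ * cx qB)) := by
        rw [Matrix.mul_add, Matrix.mul_assoc B P, Matrix.mul_assoc B Q]
    _ = B := by rw [hS.onto, Matrix.mul_one]

lemma um_P (h : qBᵀ = qB) (hS : SplitU qB E m P Q lam)
    (X : Matrix ((k : κ) × Fin (m k)) ((k : κ) × Fin (m k)) ℂ) : um P Q qB X * P = P * X := by
  obtain ⟨h1, h2, h3, h4⟩ := rels h hS
  unfold um
  rw [Matrix.sub_mul, Matrix.mul_assoc, Matrix.mul_assoc (Q * Xᵀ), h1, h4, Matrix.mul_zero,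
    Matrix.mul_one, sub_zero]

lemma um_Q (h : qBᵀ = qB) (hS : SplitU qB E m P Q lam)
    (X : Matrix ((k : κ) × Fin (m k)) ((k : κ) × Fin (m k)) ℂ) :
    um P Q qB X * Q = -(Q * Xᵀ) := by
  obtain ⟨h1, h2, h3, h4⟩ := rels h hS
  unfold um
  rw [Matrix.sub_mul, Matrix.mul_assoc, Matrix.mul_assoc (Q * Xᵀ), h2, h3, Matrix.mul_zero,
    Matrix.mul_one, zero_sub]

lemma um_mul (h : qBᵀ = qB) (hS : SplitU qB E m P Q lam)
    (X Y : Matrix ((k : κ) × Fin (m k)) ((k : κ) × Fin (m k)) ℂ) :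
    um P Q qB X * um P Q qB Y - um P Q qB Y * um P Q qB X = um P Q qB (X * Y - Y * X) := by
  apply ext_PQ hS
  · rw [Matrix.sub_mul, Matrix.mul_assoc, Matrix.mul_assoc, um_P h hS, um_P h hS, um_P h hS,
      ← Matrix.mul_assoc, ← Matrix.mul_assoc, um_P h hS, um_P h hS, Matrix.mul_sub,
      Matrix.mul_assoc, Matrix.mul_assoc]
  · rw [Matrix.sub_mul, Matrix.mul_assoc, Matrix.mul_assoc, um_Q h hS, um_Q h hS, um_Q h hS,
      Matrix.mul_neg, Matrix.mul_neg, ← Matrix.mul_assoc, ← Matrix.mul_assoc, um_Q h hS,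
      um_Q h hS, Matrix.transpose_sub, Matrix.transpose_mul, Matrix.transpose_mul,
      Matrix.mul_sub, Matrix.neg_mul, Matrix.neg_mul, Matrix.mul_assoc, Matrix.mul_assoc]
    abel

lemma um_skew (h : qBᵀ = qB) (X : Matrix ((k : κ) × Fin (m k)) ((k : κ) × Fin (m k)) ℂ) :
    (um P Q qB X)ᵀ * cx qB + cx qB * um P Q qB X = 0 := by
  unfold um
  rw [Matrix.transpose_sub, Matrix.transpose_mul, Matrix.transpose_mul, Matrix.transpose_mul,
    Matrix.transpose_mul, Matrix.transpose_mul, Matrix.transpose_mul,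
    Matrix.transpose_transpose, Matrix.transpose_transpose, Matrix.transpose_transpose,
    cx_symm h, Matrix.sub_mul, Matrix.mul_sub]
  simp only [Matrix.mul_assoc]
  abel

/-- A diagonal matrix which is constant on the blocks commutes with a block diagonal matrix. -/
lemma diag_comm (a : κ → ℂ) (X : (k : κ) → Matrix (Fin (m k)) (Fin (m k)) ℂ) :
    blockDiagonal' X * diagonal (fun u : (k : κ) × Fin (m k) => a u.1) =
      diagonal (fun u : (k : κ) × Fin (m k) => a u.1) * blockDiagonal' X := by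
  ext u v
  rw [Matrix.mul_diagonal, Matrix.diagonal_mul]
  obtain ⟨k, i⟩ := u
  obtain ⟨l, j⟩ := v
  by_cases hkl : k = l
  · subst hkl
    exact mul_comm _ _
  · rw [Matrix.blockDiagonal'_apply_ne _ _ _ hkl]
    ring

lemma um_comm (h : qBᵀ = qB) (hS : SplitU qB E m P Q lam)
    (X : (k : κ) → Matrix (Fin (m k)) (Fin (m k)) ℂ) (e : Matrix (Fin n) (Fin n) ℚ) (he : e ∈ E) :
    um P Q qB (blockDiagonal' X) * cx e = cx e * um P Q qB (blockDiagonal' X) := by
  apply ext_PQ hS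
  · rw [Matrix.mul_assoc, hS.eigP e he, Matrix.mul_assoc, um_P h hS, ← Matrix.mul_assoc,
      um_P h hS, ← Matrix.mul_assoc, hS.eigP e he, Matrix.mul_assoc, Matrix.mul_assoc,
      diag_comm (lam e)]
  · rw [Matrix.mul_assoc, hS.eigQ e he, Matrix.mul_assoc, um_Q h hS, ← Matrix.mul_assoc,
      um_Q h hS, Matrix.mul_neg, ← Matrix.mul_assoc, hS.eigQ e he, Matrix.neg_mul,
      Matrix.mul_assoc, Matrix.mul_assoc, Matrix.blockDiagonal'_transpose,
      diag_comm (fun k => (starRingEnd ℂ) (lam e k))]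

lemma xk_um (h : qBᵀ = qB) (hS : SplitU qB E m P Q lam)
    (X : (k : κ) → Matrix (Fin (m k)) (Fin (m k)) ℂ) :
    xk P Q qB (um P Q qB (blockDiagonal' X)) = X := by
  obtain ⟨h1, h2, h3, h4⟩ := rels h hS
  funext k
  unfold xk
  rw [Matrix.mul_assoc, um_P h hS, ← Matrix.mul_assoc, h1, Matrix.one_mul,
    Matrix.blockDiag'_blockDiagonal']

/-- An infinitesimal isometry which commutes with `E` preserves the eigenspaces. -/
lemma eq_um (h : qBᵀ = qB) (hS : SplitU qB E m P Q lam) (ρ : Matrix (Fin n) (Fin n) ℂ)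
    (hρ : ρ ∈ soC qB E) : ρ = um P Q qB (blockDiagonal' (xk P Q qB ρ)) := by
  obtain ⟨h1, h2, h3, h4⟩ := rels h hS
  obtain ⟨hsk, hcom⟩ := hρ
  -- the four blocks
  have hX : ∀ e ∈ E, Qᵀ * cx qB * ρ * P * diagonal (fun u : (k : κ) × Fin (m k) => lam e u.1) =
      diagonal (fun u : (k : κ) × Fin (m k) => lam e u.1) * (Qᵀ * cx qB * ρ * P) := by
    intro e he
    have e1 : Qᵀ * cx qB * (cx e * ρ) * P =
        diagonal (fun u : (k : κ) × Fin (m k) => lam e u.1) * (Qᵀ * cx qB * ρ * P) := by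
      have e2 : Qᵀ * cx qB * cx e =
          diagonal (fun u : (k : κ) × Fin (m k) => lam e u.1) * (Qᵀ * cx qB) := by
        apply_fun (fun M => M) using Function.injective_id
        calc Qᵀ * cx qB * cx e
            = Qᵀ * cx qB * cx e * (P * (Qᵀ * cx qB) + Q * (Pᵀ * cx qB)) := by
              rw [hS.onto, Matrix.mul_one]
          _ = Qᵀ * cx qB * (cx e * P) * (Qᵀ * cx qB) +
              Qᵀ * cx qB * (cx e * Q) * (Pᵀ * cx qB) := by
              rw [Matrix.mul_add]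
              simp only [Matrix.mul_assoc]
          _ = (Qᵀ * cx qB * P) * diagonal (fun u : (k : κ) × Fin (m k) => lam e u.1) *
                (Qᵀ * cx qB) +
              (Qᵀ * cx qB * Q) * diagonal (fun u : (k : κ) × Fin (m k) =>
                (starRingEnd ℂ) (lam e u.1)) * (Pᵀ * cx qB) := by
              rw [hS.eigP e he, hS.eigQ e he]
              simp only [Matrix.mul_assoc]
          _ = _ := by
              rw [h1, h2, Matrix.one_mul, Matrix.zero_mul, Matrix.zero_mul, add_zero]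
      rw [← Matrix.mul_assoc (Qᵀ * cx qB) (cx e) ρ, e2]
      simp only [Matrix.mul_assoc]
    rw [← e1, ← hcom e he, Matrix.mul_assoc, ← hS.eigP e he]
    simp only [Matrix.mul_assoc]
  have hPe : ∀ e ∈ E, Pᵀ * cx qB * cx e =
      diagonal (fun u : (k : κ) × Fin (m k) => (starRingEnd ℂ) (lam e u.1)) *
        (Pᵀ * cx qB) := by
    intro e he
    calc Pᵀ * cx qB * cx e
        = Pᵀ * cx qB * cx e * (P * (Qᵀ * cx qB) + Q * (Pᵀ * cx qB)) := by
          rw [hS.onto, Matrix.mul_one]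
      _ = Pᵀ * cx qB * (cx e * P) * (Qᵀ * cx qB) +
          Pᵀ * cx qB * (cx e * Q) * (Pᵀ * cx qB) := by
          rw [Matrix.mul_add]
          simp only [Matrix.mul_assoc]
      _ = (Pᵀ * cx qB * P) * diagonal (fun u : (k : κ) × Fin (m k) => lam e u.1) *
            (Qᵀ * cx qB) +
          (Pᵀ * cx qB * Q) * diagonal (fun u : (k : κ) × Fin (m k) =>
            (starRingEnd ℂ) (lam e u.1)) * (Pᵀ * cx qB) := by
          rw [hS.eigP e he, hS.eigQ e he]
          simp only [Matrix.mul_assoc]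
      _ = _ := by
          rw [h3, h4, Matrix.one_mul, Matrix.zero_mul, Matrix.zero_mul, zero_add]
  have hQe : ∀ e ∈ E, Qᵀ * cx qB * cx e =
      diagonal (fun u : (k : κ) × Fin (m k) => lam e u.1) * (Qᵀ * cx qB) := by
    intro e he
    calc Qᵀ * cx qB * cx e
        = Qᵀ * cx qB * cx e * (P * (Qᵀ * cx qB) + Q * (Pᵀ * cx qB)) := by
          rw [hS.onto, Matrix.mul_one]
      _ = Qᵀ * cx qB * (cx e * P) * (Qᵀ * cx qB) +
          Qᵀ * cx qB * (cx e * Q) * (Pᵀ * cx qB) := by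
          rw [Matrix.mul_add]
          simp only [Matrix.mul_assoc]
      _ = (Qᵀ * cx qB * P) * diagonal (fun u : (k : κ) × Fin (m k) => lam e u.1) *
            (Qᵀ * cx qB) +
          (Qᵀ * cx qB * Q) * diagonal (fun u : (k : κ) × Fin (m k) =>
            (starRingEnd ℂ) (lam e u.1)) * (Pᵀ * cx qB) := by
          rw [hS.eigP e he, hS.eigQ e he]
          simp only [Matrix.mul_assoc]
      _ = _ := by
          rw [h1, h2, Matrix.one_mul, Matrix.zero_mul, Matrix.zero_mul, add_zero]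
  have hY : Pᵀ * cx qB * ρ * P = 0 := by
    ext u v
    obtain ⟨e, he, hne⟩ := hS.sep (Sum.inr u.1) (Sum.inl v.1) (by simp)
    have e1 : Pᵀ * cx qB * ρ * P * diagonal (fun u : (k : κ) × Fin (m k) => lam e u.1) =
        diagonal (fun u : (k : κ) × Fin (m k) => (starRingEnd ℂ) (lam e u.1)) *
          (Pᵀ * cx qB * ρ * P) := by
      rw [Matrix.mul_assoc, ← hS.eigP e he, Matrix.mul_assoc, ← Matrix.mul_assoc ρ, hcom e he]
      rw [← Matrix.mul_assoc, ← Matrix.mul_assoc, hPe e he]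
      simp only [Matrix.mul_assoc]
    have e2 := congrFun (congrFun e1 u) v
    rw [Matrix.mul_diagonal, Matrix.diagonal_mul] at e2
    have e3 : ((starRingEnd ℂ) (lam e u.1) - lam e v.1) * (Pᵀ * cx qB * ρ * P) u v = 0 := by
      linear_combination -e2
    rcases mul_eq_zero.mp e3 with e4 | e4
    · exact absurd (sub_eq_zero.mp e4) hne
    · exact e4
  have hW : Qᵀ * cx qB * ρ * Q = 0 := by
    ext u v
    obtain ⟨e, he, hne⟩ := hS.sep (Sum.inl u.1) (Sum.inr v.1) (by simp)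
    have e1 : Qᵀ * cx qB * ρ * Q * diagonal (fun u : (k : κ) × Fin (m k) =>
          (starRingEnd ℂ) (lam e u.1)) =
        diagonal (fun u : (k : κ) × Fin (m k) => lam e u.1) * (Qᵀ * cx qB * ρ * Q) := by
      rw [Matrix.mul_assoc, ← hS.eigQ e he, Matrix.mul_assoc, ← Matrix.mul_assoc ρ, hcom e he]
      rw [← Matrix.mul_assoc, ← Matrix.mul_assoc, hQe e he]
      simp only [Matrix.mul_assoc]
    have e2 := congrFun (congrFun e1 u) v
    rw [Matrix.mul_diagonal, Matrix.diagonal_mul] at e2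
    have e3 : (lam e u.1 - (starRingEnd ℂ) (lam e v.1)) * (Qᵀ * cx qB * ρ * Q) u v = 0 := by
      linear_combination -e2
    rcases mul_eq_zero.mp e3 with e4 | e4
    · exact absurd (sub_eq_zero.mp e4) hne
    · exact e4
  have hZ : Pᵀ * cx qB * ρ * Q = -(Qᵀ * cx qB * ρ * P)ᵀ := by
    rw [Matrix.transpose_mul, Matrix.transpose_mul, Matrix.transpose_mul,
      Matrix.transpose_transpose, cx_symm h]
    have e1 : cx qB * ρ = -(ρᵀ * cx qB) := eq_neg_of_add_eq_zero_right hsk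
    rw [Matrix.mul_assoc Pᵀ, e1]
    simp only [Matrix.mul_neg, Matrix.neg_mul, Matrix.mul_assoc]
  have hbd : blockDiagonal' (xk P Q qB ρ) = Qᵀ * cx qB * ρ * P := by
    ext u v
    obtain ⟨k, i⟩ := u
    obtain ⟨l, j⟩ := v
    by_cases hkl : k = l
    · subst hkl
      rw [Matrix.blockDiagonal'_apply_eq]
      rfl
    · rw [Matrix.blockDiagonal'_apply_ne _ _ _ hkl]
      obtain ⟨e, he, hne⟩ := hS.sep (Sum.inl k) (Sum.inl l) (by simpa using hkl)
      have e2 := congrFun (congrFun (hX e he) ⟨k, i⟩) ⟨l, j⟩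
      rw [Matrix.mul_diagonal, Matrix.diagonal_mul] at e2
      have e3 : (lam e k - lam e l) * (Qᵀ * cx qB * ρ * P) ⟨k, i⟩ ⟨l, j⟩ = 0 := by
        linear_combination -e2
      rcases mul_eq_zero.mp e3 with e4 | e4
      · exact absurd (sub_eq_zero.mp e4) hne
      · exact e4.symm
  apply ext_PQ hS
  · rw [um_P h hS, hbd]
    calc ρ * P = (P * (Qᵀ * cx qB) + Q * (Pᵀ * cx qB)) * (ρ * P) := by
          rw [hS.onto, Matrix.one_mul]
      _ = P * (Qᵀ * cx qB * ρ * P) + Q * (Pᵀ * cx qB * ρ * P) := by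
          rw [Matrix.add_mul]
          simp only [Matrix.mul_assoc]
      _ = _ := by rw [hY, Matrix.mul_zero, add_zero]
  · rw [um_Q h hS, hbd]
    calc ρ * Q = (P * (Qᵀ * cx qB) + Q * (Pᵀ * cx qB)) * (ρ * Q) := by
          rw [hS.onto, Matrix.one_mul]
      _ = P * (Qᵀ * cx qB * ρ * Q) + Q * (Pᵀ * cx qB * ρ * Q) := by
          rw [Matrix.add_mul]
          simp only [Matrix.mul_assoc]
      _ = _ := by rw [hW, hZ, Matrix.mul_zero, zero_add, Matrix.mul_neg]

lemma ugm_P (h : qBᵀ = qB) (hS : SplitU qB E m P Q lam) (x : (k : κ) → GL (Fin (m k)) ℂ) :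
    ugm P Q qB x * P = P * blockDiagonal' (fun k => (x k).1) := by
  obtain ⟨h1, h2, h3, h4⟩ := rels h hS
  unfold ugm
  rw [Matrix.add_mul, Matrix.mul_assoc, Matrix.mul_assoc (Q * _), h1, h4, Matrix.mul_zero,
    Matrix.mul_one, add_zero]

lemma ugm_Q (h : qBᵀ = qB) (hS : SplitU qB E m P Q lam) (x : (k : κ) → GL (Fin (m k)) ℂ) :
    ugm P Q qB x * Q = Q * blockDiagonal' (fun k => (x k)⁻¹.1ᵀ) := by
  obtain ⟨h1, h2, h3, h4⟩ := rels h hS
  unfold ugm
  rw [Matrix.add_mul, Matrix.mul_assoc, Matrix.mul_assoc (Q * _), h2, h3, Matrix.mul_zero,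
    Matrix.mul_one, zero_add]

end MatM

open MatM in
/-- Matrix calculus. -/
theorem specUMat : SpecUMat := by
  intro n qB E κ _ _ m P Q lam h hS
  refine ⟨fun ρ hρ => eq_um h hS ρ hρ, fun X => ⟨⟨um_skew h _, fun e he => um_comm h hS X e he⟩,
    xk_um h hS X⟩, fun X => ⟨um_P h hS X, um_Q h hS X⟩, fun X Y => um_mul h hS X Y, ?_⟩
  intro x y
  constructor
  · apply ext_PQ hS
    · rw [Matrix.mul_assoc, ugm_P h hS, ← Matrix.mul_assoc, ugm_P h hS, ugm_P h hS,
        Matrix.mul_assoc, ← Matrix.blockDiagonal'_mul]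
      rfl
    · rw [Matrix.mul_assoc, ugm_Q h hS, ← Matrix.mul_assoc, ugm_Q h hS, ugm_Q h hS,
        Matrix.mul_assoc, ← Matrix.blockDiagonal'_mul]
      congr 2
      funext k
      rw [← Matrix.transpose_mul, Pi.mul_apply, _root_.mul_inv_rev, Units.val_mul]
  · apply ext_PQ hS
    · rw [ugm_P h hS, Matrix.one_mul]
      have : (fun k => ((1 : (k : κ) → GL (Fin (m k)) ℂ) k).1) =
          (1 : (k : κ) → Matrix (Fin (m k)) (Fin (m k)) ℂ) := rfl
      rw [this, Matrix.blockDiagonal'_one, Matrix.mul_one]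
    · rw [ugm_Q h hS, Matrix.one_mul]
      have : (fun k => ((1 : (k : κ) → GL (Fin (m k)) ℂ) k)⁻¹.1ᵀ) =
          (1 : (k : κ) → Matrix (Fin (m k)) (Fin (m k)) ℂ) := by
        funext k
        simp
      rw [this, Matrix.blockDiagonal'_one, Matrix.mul_one]

end Pool.Agent.Lib.MPf11a48.KU
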