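import Pool.Agent.Lib.MP_f11a48_ag.K3.AlgSpec

/-!
# Lie algebras with irreducible exterior powers, Goursat: specifications (block LIE)
-/

set_option autoImplicit false

namespace Pool.Agent.Lib.MPf11a48.KU

open Matrix Pool.Agent.Lib.MPf11a48.K3

/-- UNI: a Lie algebra `g` of matrices of even size `n` such that all exterior powers `Λ^j F^n`,
`0 < j < n`, are irreducible contains all matrices of trace `0`. -/
def SpecUNI : Prop :=
  ∀ (F : Type) [Field F] [CharZero F] [IsAlgClosed F] (n : ℕ), Even n →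
    ∀ g : Submodule F (Matrix (Fin n) (Fin n) F), (∀ X ∈ g, ∀ Y ∈ g, X * Y - Y * X ∈ g) →
    (∀ j, 0 < j → j < n → ∀ W : Submodule F ((Fin j → Fin n) → F), (∀ w ∈ W, Alt w) →
      (∀ X ∈ g, ∀ w ∈ W, actT X w ∈ W) → W = ⊥ ∨ ∀ w, Alt w → w ∈ W) →
    ∀ X : Matrix (Fin n) (Fin n) F, X.trace = 0 → X ∈ g

/-- GOUX: Goursat for Killing Lie algebras: a subalgebra `h` of a product which surjects to all
factors, such that there are no non-zero `h`-equivariant maps between different factors, is the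
whole product. -/
def SpecGOUX : Prop :=
  ∀ (F : Type) [Field F] [CharZero F] (κ : Type) [Fintype κ] [DecidableEq κ] (g : κ → Type)
    [∀ k, LieRing (g k)] [∀ k, LieAlgebra F (g k)] [∀ k, Module.Finite F (g k)]
    [∀ k, LieAlgebra.IsKilling F (g k)] (h : Submodule F ((k : κ) → g k)),
    (∀ X ∈ h, ∀ Y ∈ h, (fun k => ⁅X k, Y k⁆) ∈ h) →
    (∀ k, ∀ A : g k, ∃ X ∈ h, X k = A) →
    (∀ k l, k ≠ l → ∀ φ : g k →ₗ[F] g l, (∀ X ∈ h, ∀ Y, φ ⁅X k, Y⁆ = ⁅X l, φ Y⁆) → φ = 0) →
    h = ⊤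

/-- GOURU: Goursat for a Lie algebra `h` of families of matrices (unitary blocks) -/
def SpecGOURU : Prop :=
  ∀ (F : Type) [Field F] [CharZero F] [IsAlgClosed F] (κ : Type) [Fintype κ] [DecidableEq κ]
    (m : κ → ℕ) (h : Submodule F ((k : κ) → Matrix (Fin (m k)) (Fin (m k)) F)),
    (∀ X ∈ h, ∀ Y ∈ h, (fun k => X k * Y k - Y k * X k) ∈ h) →
    (∀ k, ∀ A : Matrix (Fin (m k)) (Fin (m k)) F, A.trace = 0 → ∃ X ∈ h, X k = A) →
    (∀ k l, k ≠ l → ∀ φ : Matrix (Fin (m k)) (Fin (m k)) F →ₗ[F] Matrix (Fin (m l)) (Fin (m l)) F,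
      (∀ Y, (φ Y).trace = 0) →
      (∀ X ∈ h, ∀ Y, φ (X k * Y - Y * X k) = X l * φ Y - φ Y * X l) →
      ∀ Y : Matrix (Fin (m k)) (Fin (m k)) F, Y.trace = 0 → φ Y = 0) →
    ∀ X : (k : κ) → Matrix (Fin (m k)) (Fin (m k)) F, (∀ k, (X k).trace = 0) → X ∈ h

/-- the subspace of a block: skew-symmetric matrices (real block, `b = true`), matrices of trace
`0` (unitary block, `b = false`) -/
def blkS (F : Type) [Field F] (n : ℕ) : Bool → Submodule F (Matrix (Fin n) (Fin n) F)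
  | true =>
    { carrier := {X | Xᵀ = -X}
      add_mem' := by
        intro X Y hX hY
        change (X + Y)ᵀ = -(X + Y)
        rw [transpose_add, show Xᵀ = -X from hX, show Yᵀ = -Y from hY, neg_add]
      zero_mem' := by
        change (0 : Matrix (Fin n) (Fin n) F)ᵀ = -0
        simp
      smul_mem' := by
        intro a X hX
        change (a • X)ᵀ = -(a • X)
        rw [transpose_smul, show Xᵀ = -X from hX, smul_neg] }
  | false =>
    { carrier := {X | X.trace = 0}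
      add_mem' := by
        intro X Y hX hY
        change (X + Y).trace = 0
        rw [trace_add, show X.trace = 0 from hX, show Y.trace = 0 from hY, add_zero]
      zero_mem' := trace_zero _ _
      smul_mem' := by
        intro a X hX
        change (a • X).trace = 0
        rw [trace_smul, show X.trace = 0 from hX, smul_zero] }

/-- GOURM: Goursat, mixed version: real blocks (`b k = true`: skew-symmetric matrices of size
`≥ 3`) and unitary blocks (`b k = false`: all matrices). -/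
def SpecGOURM : Prop :=
  ∀ (F : Type) [Field F] [CharZero F] [IsAlgClosed F] (κ : Type) [Fintype κ] [DecidableEq κ]
    (m : κ → ℕ) (b : κ → Bool), (∀ k, b k = true → 3 ≤ m k) →
    ∀ h : Submodule F ((k : κ) → Matrix (Fin (m k)) (Fin (m k)) F),
    (∀ X ∈ h, ∀ k, b k = true → (X k)ᵀ = -X k) →
    (∀ X ∈ h, ∀ Y ∈ h, (fun k => X k * Y k - Y k * X k) ∈ h) →
    (∀ k, ∀ A ∈ blkS F (m k) (b k), ∃ X ∈ h, X k = A) →
    (∀ k l, k ≠ l → ∀ φ : Matrix (Fin (m k)) (Fin (m k)) F →ₗ[F] Matrix (Fin (m l)) (Fin (m l)) F,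
      (∀ Y, φ Y ∈ blkS F (m l) (b l)) →
      (∀ X ∈ h, ∀ Y, φ (X k * Y - Y * X k) = X l * φ Y - φ Y * X l) →
      ∀ Y ∈ blkS F (m k) (b k), φ Y = 0) →
    ∀ X : (k : κ) → Matrix (Fin (m k)) (Fin (m k)) F, (∀ k, X k ∈ blkS F (m k) (b k)) → X ∈ h

end Pool.Agent.Lib.MPf11a48.KU
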