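import Pool.Agent.Lib.MP_f11a48_ag.KU.Stmt
import Pool.Agent.Lib.MP_f11a48_ag.K3.KGrp3
import Pool.Agent.Lib.MP_f11a48_ag.CMM.DefsS
import Pool.Agent.Lib.MP_f11a48_ag.C.Stmt

/-!
# Kuga-Satake varieties, the unitary case: specifications

Module `XXX`: file `KU/Xxx.lean`, theorem `specUXxx (h : SpecUYyy) ... : SpecUXxx` (the Specs which
are used as hypotheses), own lemmas in the namespace `Pool.Agent.Lib.MPf11a48.KU.XxxM`. The numbers in
brackets are estimates of the number of lines. The names of the Specs in the proofs are given without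
`Spec`.
-/

set_option autoImplicit false

namespace Pool.Agent.Lib.MPf11a48.KU

open Matrix MvPolynomial Pool.Agent.Lib.MPf11a48.Tors
open Pool.Agent.Lib.MPf11a48.CM hiding OmegaM
open Pool.Agent.Lib.MPf11a48.GL2 (lie Geo)
open Pool.Agent.Lib.MPf11a48.GL2T (IsAlg)
open Pool.Agent.Lib.MPf11a48.U (AbData Ix HD EndAlg)
open Pool.Agent.Lib.MPf11a48.K3
open KLieM (bl clC)
open KGrpM (stab)
open KGrp3M (G0 sc ex)

/-- scalar matrices -/
noncomputable def scl {ι : Type} [Fintype ι] [DecidableEq ι] : ℂˣ →* GL ι ℂ :=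
  Units.map (Matrix.scalar ι : ℂ →+* Matrix ι ι ℂ).toMonoidHom

/-! ## Creation and annihilation operators -/

/-- creation operators `e u` and annihilation operators `f u` -/
structure Car {ι U : Type} [Fintype ι] [DecidableEq ι] [DecidableEq U] (e f : U → Matrix ι ι ℂ) :
    Prop where
  ee : ∀ u v, e u * e v + e v * e u = 0
  ff : ∀ u v, f u * f v + f v * f u = 0
  ef : ∀ u v, e u * f v + f v * e u = if u = v then 1 else 0

/-- A family of creation and annihilation operators, and pairs `(X, x)` such that `X` acts on the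
span of the `e i` by `x`, on the span of the `f i` by `-xᵀ`, and the `e i f j` are in the algebra
generated by the `X`. -/
structure UF {ι : Type} [Fintype ι] [DecidableEq ι] {d : ℕ} (e f : Fin d → Matrix ι ι ℂ)
    (kk : Set (Matrix ι ι ℂ × Matrix (Fin d) (Fin d) ℂ)) : Prop where
  car : Car e f
  acte : ∀ X ∈ kk, ∀ j, X.1 * e j - e j * X.1 = ∑ i, X.2 i j • e i
  actf : ∀ X ∈ kk, ∀ j, X.1 * f j - f j * X.1 = -∑ i, X.2 j i • f i
  gen : ∀ i j, e i * f j ∈ Algebra.adjoin ℂ (Prod.fst '' kk)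

/-- The exterior power `Λ^j` of `F^d` is irreducible under `g`. -/
def IrrAlt {d : ℕ} {F : Type} [Field F] (g : Set (Matrix (Fin d) (Fin d) F)) (j : ℕ) : Prop :=
  ∀ W : Submodule F ((Fin j → Fin d) → F), (∀ w ∈ W, Alt w) →
    (∀ X ∈ g, ∀ w ∈ W, actT X w ∈ W) → W = ⊥ ∨ ∀ w : (Fin j → Fin d) → F, Alt w → w ∈ W

/-- every linear map `gl_d → gl_d'` which commutes with the pairs in `h` is zero on the matrices
of trace zero -/
def NLU {d d' : ℕ} {F : Type} [Field F]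
    (h : Set (Matrix (Fin d) (Fin d) F × Matrix (Fin d') (Fin d') F)) : Prop :=
  ∀ φ : Matrix (Fin d) (Fin d) F →ₗ[F] Matrix (Fin d') (Fin d') F,
    (∀ X ∈ h, ∀ Y, φ (X.1 * Y - Y * X.1) = X.2 * φ Y - φ Y * X.2) →
    ∀ Y : Matrix (Fin d) (Fin d) F, Y.trace = 0 → φ Y = 0

/-- VAC [60]: the vacuum. Proof: show by induction on the finset `s` that there is `v ≠ 0` with
`f u v = 0` for `u ∈ s`. Step: if `f u₀ v ≠ 0` take `f u₀ v` (`f u₀ f u₀ = 0`,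
`f u f u₀ v = - f u₀ f u v = 0`), otherwise `v`. -/
def SpecUVac : Prop :=
  ∀ (ι U : Type) [Fintype ι] [DecidableEq ι] [Nonempty ι] [Fintype U] [DecidableEq U]
    (e f : U → Matrix ι ι ℂ), Car e f → ∃ v : ι → ℂ, v ≠ 0 ∧ ∀ u, f u *ᵥ v = 0

/-- PRD [150]: `e_{I 0} ⋯ e_{I (j-1)} f_{J 0} ⋯ f_{J (j-1)}` is in the algebra generated by the
`e_a f_b`. Proof: induction on `j`. If `F` is a product of `j` operators `f` then
`F e_a = ± e_a F + ` (a combination of products of `j - 1` operators `f`) (induction on the list), so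
`e_I F_J (e_a f_b) = ± e_I e_a F_J f_b + ` (a combination of `e_I F'`, `F'` a product of `j`
operators `f`); the left side and the last terms are in `S` by induction. -/
def SpecUPrd : Prop :=
  ∀ (ι : Type) [Fintype ι] [DecidableEq ι] (d j : ℕ) (e f : Fin d → Matrix ι ι ℂ), Car e f →
    ∀ S : Subalgebra ℂ (Matrix ι ι ℂ), (∀ a b, e a * f b ∈ S) → ∀ I J : Fin j → Fin d,
    (List.ofFn fun a => e (I a)).prod * (List.ofFn fun a => f (J a)).prod ∈ S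

/-- EXT [180]: extraction of the coefficients of an alternating tensor. Proof: on the vacuum vector
`v`, `f_{J (j-1)} ⋯ f_{J 0} e_{I 0} ⋯ e_{I (j-1)} v = det (δ_{J a, I b}) v` (induction on `j`, or:
`f_b (bt e w) v = (j + 1) (bt e w_b) v` for `w : (Fin (j + 1) → Fin d) → ℂ` alternating and
`w_b I = w (Fin.cons b I)`; `w_b` is alternating; then induction on `j`). -/
def SpecUExt : Prop :=
  ∀ (ι : Type) [Fintype ι] [DecidableEq ι] (d j : ℕ) (e f : Fin d → Matrix ι ι ℂ), Car e f →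
    ∀ w : (Fin j → Fin d) → ℂ, Alt w → ∀ v : ι → ℂ, (∀ a, f a *ᵥ v = 0) → ∀ J : Fin j → Fin d,
    ((List.ofFn fun a => f (J a)).reverse.prod * bt e w) *ᵥ v = ((j.factorial : ℂ) * w J) • v

/-- IRR [200], from UVAC, UPRD, UEXT and `SpecKBr` (K3/KSpec.lean): irreducibility of the exterior
powers. Proof: let `V₀` be the space of all `v` with `f_i v = 0` for all `i`; it is stable under the
`X ∈ kk` (actf). For `W` stable in `Λ^j` let `S` be the span of all `(bt e w) v`, `w ∈ W`, `v ∈ V₀`.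
By KBR, `X (bt e w) v = (bt e (actT x w)) v + (bt e w) (X v)`, so `S` is stable under the algebra
generated by `kk`, hence under all `e_I f_J` (UPRD; `f_J` in the reversed order is `± f_J`, or take
`J` reversed). Let `0 ≠ w ∈ W`, `w J ≠ 0`, `0 ≠ v ∈ V₀`: `e_I f_J (bt e w) v = j! w(J) e_I v` (UEXT), so
`e_I v ∈ S` for all `I`, and `(bt e w') v ∈ S` for all `w'`. Finally if `w'` is alternating and
`(bt e w') v ∈ S` then `w' ∈ W`: choose a linear form `l` with `l v = 1`; for `x ∈ S` the tensor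
`J ↦ l (f_J x) / j!` is in `W` (for `x = (bt e w) v'` it is `l(v') w`), and for `x = (bt e w') v` it
is `w'`. -/
def SpecUIrr : Prop :=
  ∀ (ι : Type) [Fintype ι] [DecidableEq ι] [Nonempty ι] (d : ℕ) (e f : Fin d → Matrix ι ι ℂ)
    (kk : Set (Matrix ι ι ℂ × Matrix (Fin d) (Fin d) ℂ)), UF e f kk →
    ∀ j, IrrAlt (Prod.snd '' kk) j

/-- LNK [250], from UVAC: no links. Proof: put `q Y = ∑ Y_ab e_a f_b`, `q' Y = ∑ Y_ab e'_a f'_b`;
`[X, q Y] = q [x, Y]` for `(X, x) ∈ kk`, `[q Z, q Y] = q [Z, Y]`, and `q Y`, `q' Y'` commute. Put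
`Ω = ∑_ij q(E_ij) q'(φ(E_ji))`. As `∑ [x, E_ij] ⊗ E_ji + E_ij ⊗ [x, E_ji] = 0` and `φ` is
equivariant, `Ω` commutes with the `X`, hence with all `q Y` (gen), so
`0 = [q Y, Ω] = ∑ q([Y, E_ij]) q'(φ(E_ji)) = -∑ q(E_ij) q'(φ([Y, E_ji]))`. Now if
`∑_ij q(E_ij) q'(Y^ij) = 0` then all `Y^ij = 0`: let `v ≠ 0` be killed by all `f_i`, `f'_i` (UVAC);
apply the operator to `e_b e'_d v`: `∑_{i,c} (Y^ib)_{cd} e_i e'_c v = 0`, and apply `f'_c f_i`. So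
`φ([Y, E_ji]) = 0` for all `Y`, `i`, `j`, and the matrices of trace zero are combinations of
`[Y, E_ji]`. -/
def SpecULnk : Prop :=
  ∀ (ι : Type) [Fintype ι] [DecidableEq ι] [Nonempty ι] (d d' : ℕ) (e f : Fin d → Matrix ι ι ℂ)
    (e' f' : Fin d' → Matrix ι ι ℂ)
    (kk : Set (Matrix ι ι ℂ × (Matrix (Fin d) (Fin d) ℂ × Matrix (Fin d') (Fin d') ℂ))),
    Car (Sum.elim e e') (Sum.elim f f') → UF e f ((fun X => (X.1, X.2.1)) '' kk) →
    UF e' f' ((fun X => (X.1, X.2.2)) '' kk) → NLU (Prod.snd '' kk)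

/-- TRC [180], from UVAC: a non-zero trace. Proof: let `O` be the product of all `a_u` (in some
order, `Finset.univ.toList`). `O ≠ 0`: with `b_u v = 0` for all `u`, `v ≠ 0` (UVAC for `e = a`,
`f = b`), the product of the `b_u` in the opposite order maps `O v` to `v`. For `X ∈ kk`,
`[X, O] = tr(x) O` (Leibniz; a product with two equal factors `a_u` vanishes). If all traces vanish
then `O` commutes with the algebra generated by `kk`, so with `a_u b_u`; but `a_u b_u O = O` and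
`O a_u b_u = 0` (`O = ± a_u O' = ± O' a_u`, `a_u a_u = 0`, `a_u b_u a_u = a_u`). Contradiction. -/
def SpecUTrc : Prop :=
  ∀ (ι U : Type) [Fintype ι] [DecidableEq ι] [Nonempty ι] [Fintype U] [DecidableEq U] [Nonempty U]
    (a b : U → Matrix ι ι ℂ) (kk : Set (Matrix ι ι ℂ × Matrix U U ℂ)), Car a b →
    (∀ X ∈ kk, ∀ v, X.1 * a v - a v * X.1 = ∑ u, X.2 u v • a u) →
    (∀ u, a u * b u ∈ Algebra.adjoin ℂ (Prod.fst '' kk)) → ∃ X ∈ kk, X.2.trace ≠ 0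

/-- DIA [250]: the torus. Proof: `D z = ∏_u (1 + (z_{u.1} - 1) e_u f_u)`; the factors commute
(`e_u f_u` and `e_v f_v` commute for `u ≠ v`), `(e_u f_u)^2 = e_u f_u`, so
`(1 + (z - 1) e f) (1 + (z' - 1) e f) = 1 + (z z' - 1) e f`. (Suggestion: first the homomorphism
`p u : ℂˣ →* GL ι ℂ`, `p u z = 1 + (z - 1) e_u f_u`, then `D = ∏`, e.g. with
`MonoidHom.noncommPiCoprod` or a product over a list.) -/
def SpecUDia : Prop :=
  ∀ (ι κ : Type) [Fintype ι] [DecidableEq ι] [Fintype κ] [DecidableEq κ] (m : κ → ℕ)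
    (e f : (k : κ) × Fin (m k) → Matrix ι ι ℂ), Car e f → ∃ D : (κ → ℂˣ) →* GL ι ℂ,
    (∀ z u, (D z).1 * e u = (z u.1 : ℂ) • (e u * (D z).1)) ∧
    (∀ z u, f u * (D z).1 = (z u.1 : ℂ) • ((D z).1 * f u)) ∧
    (∀ z, ∀ Y : Matrix ι ι ℂ, (∀ u, Y * (e u * f u) = e u * f u * Y) →
      Y * (D z).1 = (D z).1 * Y) ∧
    (∀ i j, ∃ p : (κ → ℤ) →₀ ℂ, ∀ z, (D z).1 i j = p.sum fun χ a => a * ∏ k, (z k : ℂ) ^ χ k) ∧
    ∀ (w : κ → ℂ) (s : ℂ) (i j : ι), HasDerivAt (fun s => (D fun k => ex (s * w k)).1 i j)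
      (((∑ u, w u.1 • (e u * f u)) * (D fun k => ex (s * w k)).1) i j) s

/-! ## Lie algebras -/

/-- UNI [helper84]: a Lie algebra of matrices such that all exterior powers are irreducible contains
all matrices of trace zero, if the dimension is even (or `1`). -/
def SpecUni : Prop :=
  ∀ (F : Type) [Field F] [CharZero F] [IsAlgClosed F] (d : ℕ), 0 < d → (d = 1 ∨ Even d) →
    ∀ g : Submodule F (Matrix (Fin d) (Fin d) F), (∀ X ∈ g, ∀ Y ∈ g, X * Y - Y * X ∈ g) →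
    (∀ j, 0 < j → j < d → IrrAlt (g : Set (Matrix (Fin d) (Fin d) F)) j) →
    ∀ X : Matrix (Fin d) (Fin d) F, X.trace = 0 → X ∈ g

/-- GOUR [helper84]: Goursat -/
def SpecGourU : Prop :=
  ∀ (F : Type) [Field F] [CharZero F] [IsAlgClosed F] (κ : Type) [Fintype κ] [DecidableEq κ]
    (d : κ → ℕ) (h : Submodule F ((k : κ) → Matrix (Fin (d k)) (Fin (d k)) F)),
    (∀ X ∈ h, ∀ Y ∈ h, (fun k => X k * Y k - Y k * X k) ∈ h) →
    (∀ k, ∀ A : Matrix (Fin (d k)) (Fin (d k)) F, A.trace = 0 → ∃ X ∈ h, X k = A) →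
    (∀ k l, k ≠ l → NLU {p | ∃ X ∈ h, p = (X k, X l)}) →
    ∀ X : (k : κ) → Matrix (Fin (d k)) (Fin (d k)) F, (∀ k, (X k).trace = 0) → X ∈ h

/-! ## Matrices and Clifford operators -/

section

variable {n : ℕ} {U : Type} [Fintype U]

/-- the infinitesimal isometry which acts as `X` on the span of the columns of `P`, and as `-Xᵀ` on
the span of the columns of `Q` -/
noncomputable def um (P Q : Matrix (Fin n) U ℂ) (qB : Matrix (Fin n) (Fin n) ℚ)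
    (X : Matrix U U ℂ) : Matrix (Fin n) (Fin n) ℂ :=
  P * X * (Qᵀ * cx qB) - Q * Xᵀ * (Pᵀ * cx qB)

variable {μ : Type} [Fintype μ] [DecidableEq μ]

/-- the creation operators: Clifford multiplication by the columns of `P` -/
noncomputable def eU (B : Fin n → Matrix μ μ ℚ) (P : Matrix (Fin n) U ℂ) (u : U) : Matrix μ μ ℂ :=
  bl B fun a => P a u

/-- the annihilation operators: Clifford multiplication by one half of the columns of `Q` -/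
noncomputable def fU (B : Fin n → Matrix μ μ ℚ) (Q : Matrix (Fin n) U ℂ) (u : U) : Matrix μ μ ℂ :=
  (2 : ℂ)⁻¹ • bl B fun a => Q a u

variable {κ : Type} [Fintype κ] [DecidableEq κ] {m : κ → ℕ}

/-- the action of `ρ` on `V_k` -/
noncomputable def xk (P Q : Matrix (Fin n) ((k : κ) × Fin (m k)) ℂ)
    (qB : Matrix (Fin n) (Fin n) ℚ) (ρ : Matrix (Fin n) (Fin n) ℂ) (k : κ) :
    Matrix (Fin (m k)) (Fin (m k)) ℂ :=
  Matrix.blockDiag' (Qᵀ * cx qB * ρ * P) k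

/-- the infinitesimal isometries of `T_B ⊗ ℂ` which commute with `E` -/
def soC (qB : Matrix (Fin n) (Fin n) ℚ) (E : Set (Matrix (Fin n) (Fin n) ℚ)) :
    Set (Matrix (Fin n) (Fin n) ℂ) :=
  {ρ | ρᵀ * cx qB + cx qB * ρ = 0 ∧ ∀ e ∈ E, ρ * cx e = cx e * ρ}

end

/-- MAT [200]: matrix calculus (as `blk_spec` and `gam_mem` in K3/KLie.lean). In (1): `ρ P = P X + Q Y`
with `X = Qᵀ q ρ P`, `Y = Pᵀ q ρ P` (onto); the eigenvalues of `E` on `V_k` and on the other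
eigenspaces are different (sep), so `Y = 0` and `X` is block diagonal; the same for `ρ Q`; skewness
gives `-Xᵀ`. -/
def SpecUMat : Prop :=
  ∀ (n : ℕ) (qB : Matrix (Fin n) (Fin n) ℚ) (E : Set (Matrix (Fin n) (Fin n) ℚ)) (κ : Type)
    [Fintype κ] [DecidableEq κ] (m : κ → ℕ) (P Q : Matrix (Fin n) ((k : κ) × Fin (m k)) ℂ)
    (lam : Matrix (Fin n) (Fin n) ℚ → κ → ℂ), qBᵀ = qB → SplitU qB E m P Q lam →
    (∀ ρ ∈ soC qB E, ρ = um P Q qB (blockDiagonal' (xk P Q qB ρ))) ∧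
    (∀ X : (k : κ) → Matrix (Fin (m k)) (Fin (m k)) ℂ, um P Q qB (blockDiagonal' X) ∈ soC qB E ∧
      xk P Q qB (um P Q qB (blockDiagonal' X)) = X) ∧
    (∀ X : Matrix ((k : κ) × Fin (m k)) ((k : κ) × Fin (m k)) ℂ, um P Q qB X * P = P * X ∧
      um P Q qB X * Q = -(Q * Xᵀ)) ∧
    (∀ X Y : Matrix ((k : κ) × Fin (m k)) ((k : κ) × Fin (m k)) ℂ,
      um P Q qB X * um P Q qB Y - um P Q qB Y * um P Q qB X = um P Q qB (X * Y - Y * X)) ∧
    ∀ x y : (k : κ) → GL (Fin (m k)) ℂ,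
      ugm P Q qB x * ugm P Q qB y = ugm P Q qB (x * y) ∧ ugm P Q qB 1 = 1

/-- CLI [250]: the Clifford operators (as `gam_anti`, `gam_comm`, `clC_conj`, `clC_mem` in
K3/KLie.lean, and `clC_B` in K3/KFull3.lean). (2) follows from
`(um X) q⁻¹ = P X Qᵀ - Q Xᵀ Pᵀ` and `2 f_v e_u = 2 (δ_uv - e_u f_v)`. -/
def SpecUCli : Prop :=
  ∀ (n : ℕ) (μ : Type) [Fintype μ] [DecidableEq μ] (qB : Matrix (Fin n) (Fin n) ℚ)
    (B : Fin n → Matrix μ μ ℚ) (E : Set (Matrix (Fin n) (Fin n) ℚ)) (κ : Type)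
    [Fintype κ] [DecidableEq κ] (m : κ → ℕ) (P Q : Matrix (Fin n) ((k : κ) × Fin (m k)) ℂ)
    (lam : Matrix (Fin n) (Fin n) ℚ → κ → ℂ), qBᵀ = qB → qB.det ≠ 0 →
    (∀ i j, B i * B j + B j * B i = (2 * qB i j) • (1 : Matrix μ μ ℚ)) →
    SplitU qB E m P Q lam →
    Car (eU B P) (fU B Q) ∧
    (∀ X : Matrix ((k : κ) × Fin (m k)) ((k : κ) × Fin (m k)) ℂ,
      (4 : ℂ)⁻¹ • clC B qB (um P Q qB X) =
        ∑ u, ∑ v, X u v • (eU B P u * fU B Q v) - (X.trace / 2) • (1 : Matrix μ μ ℂ)) ∧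
    (∀ (Z : Matrix μ μ ℂ) (X : Matrix ((k : κ) × Fin (m k)) ((k : κ) × Fin (m k)) ℂ),
      (∀ j, Z * cx (B j) - cx (B j) * Z = ∑ i, um P Q qB X i j • cx (B i)) →
      (∀ v, Z * eU B P v - eU B P v * Z = ∑ u, X u v • eU B P u) ∧
      ∀ v, Z * fU B Q v - fU B Q v * Z = -∑ u, X v u • fU B Q u) ∧
    (∀ (a : Matrix μ μ ℂ) (z : κ → ℂˣ),
      (∀ u, a * eU B P u = (z u.1 : ℂ) • (eU B P u * a)) →
      (∀ u, fU B Q u * a = (z u.1 : ℂ) • (a * fU B Q u)) →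
      ∀ j, a * cx (B j) = (∑ i, ugm P Q qB (fun k => scl (z k)) i j • cx (B i)) * a) ∧
    ∀ (kk : Submodule ℚ (Matrix μ μ ℚ)),
      (∀ ρ ∈ soE qB E, cli qB B ρ ∈ Algebra.adjoin ℚ (kk : Set (Matrix μ μ ℚ))) →
      ∀ u v : (k : κ) × Fin (m k), u.1 = v.1 → eU B P u * fU B Q v ∈
        Algebra.adjoin ℂ {Y : Matrix μ μ ℂ | ∃ Z ∈ kk, Y = cx Z}

/-- END [60]: the images of complex infinitesimal isometries commute with the endomorphisms. Proof: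
`ρ` is a complex combination of rational elements of `soE` (as in `clC_mem`, K3/KLie.lean, or
`comm_clC`, K3/KSc.lean); `endA`. -/
def SpecUEnd : Prop :=
  ∀ (g N n : ℕ) (A : AbData g N) (c : GL (Ix g) ℂ) (t : GL (Fin n) ℂ)
    (qdR : Matrix (Fin n) (Fin n) ℂ) (qB : Matrix (Fin n) (Fin n) ℚ)
    (B : Fin n → Matrix (Ix g) (Ix g) ℚ) (E : Set (Matrix (Fin n) (Fin n) ℚ)),
    KugaSatake A c t qdR qB B E → (∀ Z ∈ EndAlg c.1, A.IsEndo Z) → ∀ ρ ∈ soC qB E,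
    ∀ Z ∈ EndAlg c.1, clC B qB ρ * cx Z = cx Z * clC B qB ρ

/-- SCL [150]: scalars. Proof: as `specKSc` (K3/KSc.lean), applied to an orthonormal basis of
`T_B ⊗ ℂ` (one block, `κ = Unit`, `SpecKScl`); a matrix which commutes with all products of two
Clifford operators commutes with `cli ρ`, `ρ ∈ soE qB ∅ ⊇ soE qB E`. -/
def SpecUScl : Prop :=
  ∀ (g n : ℕ) (qB : Matrix (Fin n) (Fin n) ℚ) (B : Fin n → Matrix (Ix g) (Ix g) ℚ)
    (E : Set (Matrix (Fin n) (Fin n) ℚ)), qBᵀ = qB → qB.det ≠ 0 →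
    (∀ i j, B i * B j + B j * B i = (2 * qB i j) • (1 : Matrix (Ix g) (Ix g) ℚ)) →
    ∀ b : Matrix (Ix g) (Ix g) ℂ, (∀ j, b * cx (B j) = cx (B j) * b) →
    (∀ Z : Matrix (Ix g) (Ix g) ℚ, (∀ ρ ∈ soE qB E, Z * cli qB B ρ = cli qB B ρ * Z) →
      b * cx Z = cx Z * b) → ∃ s : ℂ, b = s • (1 : Matrix (Ix g) (Ix g) ℂ)

/-- LIE [300], from BIC2, UIRR, ULNK, UTRC, UNI, GOURU, UMAT, UCLI (compare `specKLie`,
K3/KLie.lean). First part: GOURU for the space of all families `X` with `um (blockDiagonal' X) ∈ L`;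
it contains the families `xk (r Z)`. Second part: UTRC for `U = {u // d u.1 ≠ 0}`, `a u = e u`,
`b u = f u` if `d u.1 = 1` and `a u = f u`, `b u = e u` if `d u.1 = -1`
(`f u e u = 1 - e u f u`); the trace is `∑ d k tr (xk (r Z) k)`. -/
def SpecULie : Prop :=
  ∀ (g N n : ℕ) (A : AbData g N) (c : GL (Ix g) ℂ) (t : GL (Fin n) ℂ)
    (qdR : Matrix (Fin n) (Fin n) ℂ) (qB : Matrix (Fin n) (Fin n) ℚ)
    (B : Fin n → Matrix (Ix g) (Ix g) ℚ) (E : Set (Matrix (Fin n) (Fin n) ℚ))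
    (κ : Type) [Fintype κ] [DecidableEq κ] (m : κ → ℕ)
    (P Q : Matrix (Fin n) ((k : κ) × Fin (m k)) ℂ) (lam : Matrix (Fin n) (Fin n) ℚ → κ → ℂ)
    (J : Matrix (Ix g) (Ix g) ℝ) (ψ : Matrix (Ix g) (Ix g) ℚ),
    KugaSatake A c t qdR qB B E → SplitU qB E m P Q lam → (∀ k, 0 < m k) →
    (∀ k, m k = 1 ∨ Even (m k)) → HD c J ψ → (∀ Z ∈ EndAlg c.1, A.IsEndo Z) →
    ∀ kk : Submodule ℚ (Matrix (Ix g) (Ix g) ℚ), (∀ Z ∈ kk, ∃ m : ℚ, Zᵀ * ψ + ψ * Z = m • ψ) →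
    (∀ δ : Derivation Qbar ℂ ℂ, c.1.map δ * c⁻¹.1 ∈
      Submodule.span ℂ {Y : Matrix (Ix g) (Ix g) ℂ | ∃ Z ∈ kk, Y = cx Z}) →
    ∀ r : Matrix (Ix g) (Ix g) ℚ → Matrix (Fin n) (Fin n) ℚ,
    (∀ Z ∈ kk, r Z ∈ soE qB E ∧ ∀ j, Z * B j - B j * Z = ∑ i, r Z i j • B i) →
    (∀ L : Submodule ℂ (Matrix (Fin n) (Fin n) ℂ), (∀ X ∈ L, ∀ Y ∈ L, X * Y - Y * X ∈ L) →
      (∀ Z ∈ kk, cx (r Z) ∈ L) →
      ∀ X : (k : κ) → Matrix (Fin (m k)) (Fin (m k)) ℂ, (∀ k, (X k).trace = 0) →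
        um P Q qB (blockDiagonal' X) ∈ L) ∧
    ∀ d : κ → ℂ, (∀ k, d k = 0 ∨ d k = 1 ∨ d k = -1) → d ≠ 0 →
      ∃ Z ∈ kk, ∑ k, d k * (xk P Q qB (cx (r Z)) k).trace ≠ 0

/-! ## The Galois action -/

/-- GAL [250]: the Galois action on the traces. Proof: the trace of `ρ` on the eigenspace `s` is
`tr (ρ p_s)` with the projector `p_(inl k) = P 1_k Qᵀ q`, `p_(inr k) = Q 1_k Pᵀ q`, where `1_k` is the
diagonal idempotent of the block `k`; `p_s ≠ 0`. The `p_s` are orthogonal idempotents with sum `1`,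
and `e p_s = p_s e = chr e s p_s` for `e ∈ E` (for `p_s e` use the sum and orthogonality). The
matrices `τ(p_s)` (entrywise) are orthogonal idempotents with sum `1`, `e τ(p_s) = chr e (σ s) τ(p_s)`,
so `p_t τ(p_s) = 0` for `t ≠ σ s` (sep), hence `τ(p_s) = p_(σ s) τ(p_s) = p_(σ s)`.
(2) is the case of the complex conjugation, `σ` the swap. (3): `e' = q⁻¹ eᵀ q` is rational and
`e' p_s = chr e (swap s) p_s`; apply `τ`: `e' p_(σ s) = τ (chr e (swap s)) p_(σ s)`, and also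
`e' p_(σ s) = chr e (swap (σ s)) p_(σ s)`, so `chr e (σ (swap s)) = chr e (swap (σ s))` for all
`e ∈ E`; sep. -/
def SpecUGal : Prop :=
  ∀ (n : ℕ) (qB : Matrix (Fin n) (Fin n) ℚ) (E : Set (Matrix (Fin n) (Fin n) ℚ)) (κ : Type)
    [Fintype κ] [DecidableEq κ] (m : κ → ℕ) (P Q : Matrix (Fin n) ((k : κ) × Fin (m k)) ℂ)
    (lam : Matrix (Fin n) (Fin n) ℚ → κ → ℂ), qBᵀ = qB → qB.det ≠ 0 → SplitU qB E m P Q lam →
    (∀ k, 0 < m k) →
    (∀ ρ ∈ soE qB E, (∀ (τ : ℂ ≃+* ℂ) (σ : Equiv.Perm (κ ⊕ κ)),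
      (∀ e ∈ E, ∀ s, chr lam e (σ s) = τ (chr lam e s)) →
      ∀ s, τ (Sum.elim (fun k => (xk P Q qB (cx ρ) k).trace)
          (fun k => -(xk P Q qB (cx ρ) k).trace) s) =
        Sum.elim (fun k => (xk P Q qB (cx ρ) k).trace)
          (fun k => -(xk P Q qB (cx ρ) k).trace) (σ s)) ∧
      ∀ k, (starRingEnd ℂ) (xk P Q qB (cx ρ) k).trace = -(xk P Q qB (cx ρ) k).trace) ∧
    ∀ (τ : ℂ ≃+* ℂ) (σ : Equiv.Perm (κ ⊕ κ)),
      (∀ e ∈ E, ∀ s, chr lam e (σ s) = τ (chr lam e s)) → ∀ s, σ (Sum.swap s) = Sum.swap (σ s)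

/-- FLT [120], from UGAL. Proof: if the statement is false for `χ`, let `N` be the space of all odd
`f : κ ⊕ κ → ℚ` with `∑ k, f (inl k) tr_k ρ = 0` for all `ρ ∈ R`; it contains the function
`(χ, -χ) ≠ 0`. As `2 ∑ f (inl k) tr_k ρ = ∑ s, f s tr_s ρ` and `τ (tr_s ρ) = tr_(σ s) ρ`, the
function `f ∘ σ` has the same property (apply `τ`; `f s` is rational), and it is odd because `σ`
commutes with the swap. FlatU gives a function `f ∈ N` with values in `{0, 1, -1}`: contradiction. -/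
def SpecUFlt : Prop :=
  ∀ (n : ℕ) (qB : Matrix (Fin n) (Fin n) ℚ) (E : Set (Matrix (Fin n) (Fin n) ℚ)) (κ : Type)
    [Fintype κ] [DecidableEq κ] (m : κ → ℕ) (P Q : Matrix (Fin n) ((k : κ) × Fin (m k)) ℂ)
    (lam : Matrix (Fin n) (Fin n) ℚ → κ → ℂ), qBᵀ = qB → qB.det ≠ 0 → SplitU qB E m P Q lam →
    (∀ k, 0 < m k) → FlatU E lam → ∀ R : Set (Matrix (Fin n) (Fin n) ℚ), R ⊆ soE qB E →
    (∀ d : κ → ℂ, (∀ k, d k = 0 ∨ d k = 1 ∨ d k = -1) → d ≠ 0 →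
      ∃ ρ ∈ R, ∑ k, d k * (xk P Q qB (cx ρ) k).trace ≠ 0) →
    ∀ χ : κ → ℚ, χ ≠ 0 → ∃ ρ ∈ R, ∑ k, (χ k : ℂ) * (xk P Q qB (cx ρ) k).trace ≠ 0

/-! ## The Lie algebra of the torsor -/

/-- the infinitesimal isometry which acts as the scalar `z k` on `V_k` -/
noncomputable def uz {n : ℕ} {κ : Type} [Fintype κ] [DecidableEq κ] {m : κ → ℕ}
    (P Q : Matrix (Fin n) ((k : κ) × Fin (m k)) ℂ) (qB : Matrix (Fin n) (Fin n) ℚ) (z : κ → ℂ) :
    Matrix (Fin n) (Fin n) ℂ :=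
  um P Q qB (diagonal fun u => z u.1)

/-- FULA [250], from `SpecKRat3`, `SpecHDA`, ULIE, UMAT (compare `specKFull3`, K3/KFull3.lean, and
`InL`, `pr3`, `InL.br` there). Proof: KRAT3 gives `kk`; ULIE (first part) for `L = pr3 T ...` (the
`ρ` which occur in `InL`; it is closed under brackets by `InL.br`) shows that all
`um (blockDiagonal' X)`, `X` of trace zero, are in `L`. `InL.br` for two such elements gives the claim
for brackets; the matrices of trace zero are sums of brackets of matrices of trace zero: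
`E_ij = [E_ij, (E_jj - E_ii)/2]`, `E_ii - E_jj = [E_ij, E_ji]` for `i ≠ j`. -/
def SpecUFulA : Prop :=
  ∀ (g N n : ℕ) (A : AbData g N) (c : GL (Ix g) ℂ) (t : GL (Fin n) ℂ)
    (qdR : Matrix (Fin n) (Fin n) ℂ) (qB : Matrix (Fin n) (Fin n) ℚ)
    (B : Fin n → Matrix (Ix g) (Ix g) ℚ) (E : Set (Matrix (Fin n) (Fin n) ℚ))
    (κ : Type) [Fintype κ] [DecidableEq κ] (m : κ → ℕ)
    (P Q : Matrix (Fin n) ((k : κ) × Fin (m k)) ℂ) (lam : Matrix (Fin n) (Fin n) ℚ → κ → ℂ),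
    KugaSatake A c t qdR qB B E → EndFull c qB B E → SplitU qB E m P Q lam → (∀ k, 0 < m k) →
    (∀ k, m k = 1 ∨ Even (m k)) →
    ∀ T : Set (GL (Ix g ⊕ (Fin n ⊕ Unit)) ℂ), IsTorsor Qbar T → bd3 (c, t, tpi) ∈ T →
    ClosedOver ⊥ (grp T) →
    ∀ X : (k : κ) → Matrix (Fin (m k)) (Fin (m k)) ℂ, (∀ k, (X k).trace = 0) →
      ∀ ρ, ρ = um P Q qB (blockDiagonal' X) →
        lb3 ((4 : ℂ)⁻¹ • clC B qB ρ) ρ 0 ∈ lie T ∧
        (clC B qB ρ)ᵀ * cx A.psi + cx A.psi * clC B qB ρ = 0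

/-- FULB [300], from `SpecKRat3`, ULIE, UFULA, UFLT, UGAL, UMAT, USCL, UEND. Proof: let `kk` be as in
KRAT3, `Z ∈ kk` with `ρ`, `m'`. (i) `Z - clC ρ / 4` commutes with the `B j` (`clC_B`) and with the
endomorphisms (UEND), so it is a scalar `s` by USCL (`EndFull`). (ii) `m' = 2 s`: otherwise
`(clC ρ / 4)ᵀ ψ + ψ (clC ρ / 4) = (m' - 2 s) ψ`; multiply by `ψ⁻¹` and take the trace:
`2 tr (clC ρ / 4) = (m' - 2 s) 2 g`, but `tr (clC ρ) = 0` since `ρ q⁻¹` is skew-symmetric and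
`tr (B i B j) = tr (B j B i)`. (iii) `ρ = um (blockDiagonal' X)`, `X = xk ρ` (UMAT); subtract the part of
trace zero (UFULA): with `z k = tr (X k) / m k`, `lb3 (clC (uz z) / 4 + s) (uz z) (2 s) ∈ lie T`
(linearity of `clC`, `um`). So by hypothesis `∑ (χ k / m k) tr_k ρ + r m' / 2 = 0` for all `Z ∈ kk`. By
UGAL (2) `tr_k ρ` is purely imaginary, so `r m' = 0` and `∑ (χ k / m k) tr_k ρ = 0`. (iv) `m' ≠ 0` for
some `Z ∈ kk` (as in the proof of `lb 0 1 ∈ lie T` in `specKFull3` / `specKFull2`: `2 π i` is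
transcendental, so there is a derivation `δ` with `δ (2 π i) ≠ 0`, and `c.map δ * c⁻¹` is a combination
of elements of `kk`), so `r = 0`. (v) UFLT for `R` = the set of all `r Z`, `Z ∈ kk` (ULIE, second
part, gives the hypothesis), shows that `χ = 0`. -/
def SpecUFulB : Prop :=
  ∀ (g N n : ℕ) (A : AbData g N) (c : GL (Ix g) ℂ) (t : GL (Fin n) ℂ)
    (qdR : Matrix (Fin n) (Fin n) ℂ) (qB : Matrix (Fin n) (Fin n) ℚ)
    (B : Fin n → Matrix (Ix g) (Ix g) ℚ) (E : Set (Matrix (Fin n) (Fin n) ℚ))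
    (κ : Type) [Fintype κ] [DecidableEq κ] (m : κ → ℕ)
    (P Q : Matrix (Fin n) ((k : κ) × Fin (m k)) ℂ) (lam : Matrix (Fin n) (Fin n) ℚ → κ → ℂ),
    KugaSatake A c t qdR qB B E → EndFull c qB B E → SplitU qB E m P Q lam → (∀ k, 0 < m k) →
    (∀ k, m k = 1 ∨ Even (m k)) → FlatU E lam →
    ∀ T : Set (GL (Ix g ⊕ (Fin n ⊕ Unit)) ℂ), IsTorsor Qbar T → bd3 (c, t, tpi) ∈ T →
    ClosedOver ⊥ (grp T) →
    ∀ (χ : κ → ℚ) (r : ℚ), (∀ (z : κ → ℂ) (s : ℂ),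
      lb3 ((4 : ℂ)⁻¹ • clC B qB (uz P Q qB z) + s • 1) (uz P Q qB z) (2 * s) ∈ lie T →
      ∑ k, (χ k : ℂ) * z k + (r : ℂ) * s = 0) → χ = 0 ∧ r = 0

/-! ## Groups -/

/-- TOR [180]: a torus in a torsor. Proof: `H = {w | μ w ∈ stab T}` is a subgroup. If
`μ w₀ * f₀ ∉ T` then there is `p ∈ van T` with `p (μ w₀ f₀) ≠ 0` (`Geo.closed`). The function
`w ↦ p (μ w f₀)` is a Laurent polynomial `∑ c_χ w^χ` (sums and products of Laurent polynomials), and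
vanishes on `H`. The restrictions to `H` of the characters `w ↦ w^χ` are distinct, because for
`χ ≠ χ'` there is a curve `exp (u v) ∈ H` with `(χ - χ') · v ≠ 0` (if they agree on it then
`exp (u (χ - χ') · v) = 1` for all `u`), so they are linearly independent
(`linearIndependent_monoidHom`), so all `c_χ = 0`. -/
def SpecUTor : Prop :=
  ∀ (I J : Type) [Fintype I] [DecidableEq I] [Fintype J] [DecidableEq J] (T : Set (GL I ℂ)),
    Geo T → ∀ μ : (J → ℂˣ) →* GL I ℂ,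
    (∀ i j, ∃ p : (J → ℤ) →₀ ℂ, ∀ w, (μ w).1 i j = p.sum fun χ a => a * ∏ k, (w k : ℂ) ^ χ k) →
    (∀ χ : J → ℤ, χ ≠ 0 → ∃ v : J → ℂ, ∑ j, (χ j : ℂ) * v j ≠ 0 ∧
      ∀ (u : ℂ), ∀ f ∈ T, (μ fun j => ex (u * v j)) * f ∈ T) → ∀ w, ∀ f ∈ T, μ w * f ∈ T

/-- GEN [200]: generation of `SL_d(ℂ)` by integral curves. Proof: every matrix is a product of
transvections and a diagonal matrix (`Matrix.Pivot.exists_list_transvec_mul_diagonal_mul_list_transvec`);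
transvections: `X = a E_ij`, `x s = 1 + s X`; diagonal matrices of determinant `1`: choose `w` with
`exp (w i) = D i`, `∑ w i ∈ 2 π i ℤ`, change one `w i` to get `∑ w i = 0`; `x s = diag (exp (s w i))`. -/
def SpecUGen : Prop :=
  ∀ (d : ℕ) (G : Subgroup (GL (Fin d) ℂ)),
    (∀ X : Matrix (Fin d) (Fin d) ℂ, X.trace = 0 → ∀ x : ℂ → GL (Fin d) ℂ, x 0 = 1 →
      (∀ s i j, HasDerivAt (fun s => (x s).1 i j) ((X * (x s).1) i j) s) →
      (∀ s i j, HasDerivAt (fun s => (x s)⁻¹.1 i j) (-((x s)⁻¹.1 * X) i j) s) → ∀ s, x s ∈ G) →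
    ∀ x : GL (Fin d) ℂ, x.1.det = 1 → x ∈ G

/-- SIM [180]: the torsor of the similitudes. Proof: `bd3_injective` and the method of
`closedOver_pull3` (K3/KTen3.lean) with `HD.leg`: `cᵀ ψ c = 2 π i ψ_dR`, `ψ_dR` algebraic; the
condition on `f = y (c, t, 2 π i)` is `f_1ᵀ ψ f_1 = f_3 ψ_dR`; the group is given by
`y_1ᵀ ψ y_1 = y_3 ψ` over `ℚ`. -/
def SpecUSim : Prop :=
  ∀ (g N n : ℕ) (A : AbData g N) (c : GL (Ix g) ℂ) (t : GL (Fin n) ℂ)
    (J : Matrix (Ix g) (Ix g) ℝ), HD c J A.psi → ∀ T : Set (GL (Ix g ⊕ (Fin n ⊕ Unit)) ℂ),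
    T = {f | ∃ y : Grp3 g n, bd3 (y * (c, t, tpi)) = f ∧
      y.1.1ᵀ * cx A.psi * y.1.1 = (y.2.2 : ℂ) • cx A.psi} →
    IsTorsor Qbar T ∧ bd3 (c, t, tpi) ∈ T ∧ ClosedOver ⊥ (grp T)

/-- TG [300], from UFULB, UTOR, UDIA, USIM, UMAT, UCLI, UEND, `SpecCurve`, `SpecHDA`. Proof: let
`D` be as in UDIA for `e = eU B P`, `f = fU B Q`, and for `w : κ ⊕ Unit → ℂˣ`, `z = w ∘ inl`,
`s = w (inr ())`,
`λ w = (s D(z), ugm z, s² ∏ z_k ^ m_k)`. Along `w = exp (u v)`, `v = (z, s')`, it satisfies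
`(bd3 λ)' = X (bd3 λ)` with `X = lb3 (∑ z_(u.1) e_u f_u + s') (uz z) (2 s' + ∑ m_k z_k)`
`= lb3 (clC (uz z) / 4 + s) (uz z) (2 s)`, `s = s' + ∑ m_k z_k / 2` (UCLI (2)), so it stays in `T` if
`X ∈ lie T` (`SpecCurve`). UTOR for `μ = bd3 ∘ λ`, any torsor `T`: the condition for `χ = (χ_k, r)`:
UFULB for `(χ_k - r m_k / 2, r)`. Hence `bd3 (λ w)` stabilises `T`; for the torsor of USIM this shows
that `λ w` is a similitude. `λ w` is compatible with the Clifford multiplication by UCLI (4), and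
commutes with the endomorphisms by UEND (`e_u f_u - 1/2 = clC (um E_uu) / 4`) and UDIA. -/
def SpecUTg : Prop :=
  ∀ (g N n : ℕ) (A : AbData g N) (c : GL (Ix g) ℂ) (t : GL (Fin n) ℂ)
    (qdR : Matrix (Fin n) (Fin n) ℂ) (qB : Matrix (Fin n) (Fin n) ℚ)
    (B : Fin n → Matrix (Ix g) (Ix g) ℚ) (E : Set (Matrix (Fin n) (Fin n) ℚ))
    (κ : Type) [Fintype κ] [DecidableEq κ] (m : κ → ℕ)
    (P Q : Matrix (Fin n) ((k : κ) × Fin (m k)) ℂ) (lam : Matrix (Fin n) (Fin n) ℚ → κ → ℂ),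
    KugaSatake A c t qdR qB B E → EndFull c qB B E → SplitU qB E m P Q lam → (∀ k, 0 < m k) →
    (∀ k, m k = 1 ∨ Even (m k)) → FlatU E lam →
    ∀ T : Set (GL (Ix g ⊕ (Fin n ⊕ Unit)) ℂ), IsTorsor Qbar T → bd3 (c, t, tpi) ∈ T →
    ClosedOver ⊥ (grp T) →
    (∀ s : ℂˣ, ((sc s, 1, s ^ 2) : Grp3 g n) ∈ G0 B (EndAlg c.1) A.psi ⊓ (stab T).comap bd3) ∧
    ∀ z : κ → ℂˣ, ∃ (a : GL (Ix g) ℂ) (x : GL (Fin n) ℂ),
      x.1 = ugm P Q qB (fun k => scl (z k)) ∧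
      ((a, x, ∏ k, z k ^ m k) : Grp3 g n) ∈ G0 B (EndAlg c.1) A.psi ⊓ (stab T).comap bd3

/-- GRP [300], from UFULA, UTG, UGEN, USCL, UMAT, UEND, `SpecKCur`, `SpecCurve`, `SpecHDA` (compare
`specKGrp3`, K3/KGrp3.lean). Proof: put `GG = G0 ⊓ (stab T).comap bd3`. (i) For `x` with
`det (x k) = 1` for all `k` there is `a` with `(a, x', 1) ∈ GG`, `x' = ugm x`: UGEN for each block,
`SpecKCur` lifts the curves, `SpecCurve`; the derivative of `ugm x` along a curve is `um X * ugm x`.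
(ii) `y ∈ gspinU` with `x`: choose `z_k` with `z_k ^ m_k = det (x k)`, so `x = z x'` with
`det x' = 1`, and `s` with `s² ∏ z_k ^ m_k = y.2.2`. Then `y₁ = (sc s, 1, s²) * (a, z, ∏ z^m) *
(a', x', 1) ∈ GG` has `y₁.2 = y.2`, and `v = y y₁⁻¹ ∈ G0` with `v.2 = 1`, so `v.1` is a scalar `σ`
(USCL, `EndFull`), `σ² = 1`, and `v = (sc σ, 1, σ²) ∈ GG` by UTG (first part). -/
def SpecUGrp : Prop :=
  ∀ (g N n : ℕ) (A : AbData g N) (c : GL (Ix g) ℂ) (t : GL (Fin n) ℂ)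
    (qdR : Matrix (Fin n) (Fin n) ℂ) (qB : Matrix (Fin n) (Fin n) ℚ)
    (B : Fin n → Matrix (Ix g) (Ix g) ℚ) (E : Set (Matrix (Fin n) (Fin n) ℚ))
    (κ : Type) [Fintype κ] [DecidableEq κ] (m : κ → ℕ)
    (P Q : Matrix (Fin n) ((k : κ) × Fin (m k)) ℂ) (lam : Matrix (Fin n) (Fin n) ℚ → κ → ℂ),
    KugaSatake A c t qdR qB B E → EndFull c qB B E → SplitU qB E m P Q lam → (∀ k, 0 < m k) →
    (∀ k, m k = 1 ∨ Even (m k)) → FlatU E lam →
    ∀ T : Set (GL (Ix g ⊕ (Fin n ⊕ Unit)) ℂ), IsTorsor Qbar T → bd3 (c, t, tpi) ∈ T →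
    ClosedOver ⊥ (grp T) → ∀ y ∈ gspinU A c qB B m P Q, bd3 (y * (c, t, tpi)) ∈ T

/-! ## Objects -/

/-- The image of `𝓖` (complex points of the group of `h^1(A)`, `T`, `ℚ(-1)`) in the automorphisms of the
Betti side of a sub-object, with inclusion `iB`, of a tensor construction `Θ` in
`h^1(A) ⊕ T ⊕ R` and `ℚ(-1)`, where the periods of `R` are algebraic. -/
def MTObj {g n k : ℕ} {ν ι : Type} [Fintype ν] [DecidableEq ν] [Fintype ι] [DecidableEq ι]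
    (𝓖 : Set (Grp3 g n)) (Θ : GL ((Ix g ⊕ Fin n) ⊕ Fin k) ℂ × ℂˣ → GL ν ℂ) (iB : Matrix ν ι ℚ) :
    Set (GL ι ℂ) :=
  {f | ∃ y ∈ 𝓖, (Θ (CMS.dsum (CMS.dsum y.1 y.2.1) 1, y.2.2)).1 * cx iB = cx iB * f.1}

/-- TEN [250]: the general theorem. Proof: `C.ten` (C/Ten.lean) with `μ = (Ix g ⊕ Fin n) ⊕ Fin k`,
`c' = dsum (dsum c t) r` and `W` = the set of all `(dsum (dsum y.1 y.2.1) 1, y.2.2)`, `y ∈ 𝓖`: a torsor
`T'` through `bd (c', 2 π i)` is pulled back to the torsor of all `bd3 y` with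
`bd (dsum (dsum y.1 y.2.1) r, y.2.2) ∈ T'` (as `isTorsor_pull3`, `grp_pull3`, K3/KTen3.lean: this map is
a morphism of torsors over `Qbar` since `r` is algebraic, with a homomorphism over `ℚ`;
`IsTens3`). See also CMM/MainS.lean. -/
def SpecUTen : Prop :=
  ∀ (g n k : ℕ) (c : GL (Ix g) ℂ) (t : GL (Fin n) ℂ) (𝓖 : Set (Grp3 g n)),
    (∀ T : Set (GL (Ix g ⊕ (Fin n ⊕ Unit)) ℂ), IsTorsor Qbar T → bd3 (c, t, tpi) ∈ T →
      ClosedOver ⊥ (grp T) → ∀ y ∈ 𝓖, bd3 (y * (c, t, tpi)) ∈ T) →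
    ∀ (r : GL (Fin k) ℂ), IsAlg r.1 → ∀ K : IntermediateField ℚ ℂ, K ≤ Qbar →
    ∀ (ν ι : Type) [Fintype ν] [DecidableEq ν] [Fintype ι] [DecidableEq ι]
      (Θ : GL ((Ix g ⊕ Fin n) ⊕ Fin k) ℂ × ℂˣ → GL ν ℂ), C.IsRep Θ →
    ∀ (M : GL ι ℂ) (iB : Matrix ν ι ℚ),
    CMS.IsSubOver Qbar (Θ (CMS.dsum (CMS.dsum c t) r, tpi)) M iB →
      (∀ y ∈ 𝓖, ∃ f : GL ι ℂ,
        (Θ (CMS.dsum (CMS.dsum y.1 y.2.1) 1, y.2.2)).1 * cx iB = cx iB * f.1) ∧
      (∀ f ∈ MTObj 𝓖 Θ iB, ∀ h, GL2T.Conj K (f * M) h → h ∈ OmegaDRB K M) ∧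
      ∀ S : Set (TPair K ι), (∀ α ∈ S, Fixes M α) →
        (∀ h ∈ OmegaS S, ∃ f ∈ MTObj 𝓖 Θ iB, GL2T.Conj K (f * M) h) →
        OmegaDRB K M = OmegaS S ∧ (K = ⊥ → OmegaM K M = OmegaS S)

end Pool.Agent.Lib.MPf11a48.KU
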