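import Pool.Agent.Lib.MP_f11a48_ag.KU.Spec

/-! # Module DIA: the torus -/

set_option autoImplicit false

namespace Pool.Agent.Lib.MPf11a48.KU

open Matrix MvPolynomial Pool.Agent.Lib.MPf11a48.Tors
open Pool.Agent.Lib.MPf11a48.K3
open KGrp3M (ex ex_val)

namespace DiaM

section algebra

variable {ι U : Type} [Fintype ι] [DecidableEq ι] [DecidableEq U] {e f : U → Matrix ι ι ℂ}

omit [Fintype ι] in
theorem half {X : Matrix ι ι ℂ} (h : X + X = 0) : X = 0 := by
  ext i j
  have h1 := congrFun (congrFun h i) j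
  simp only [Matrix.add_apply, Matrix.zero_apply] at h1
  rw [Matrix.zero_apply]
  linear_combination h1 / 2

theorem ee0 (h : Car e f) (u : U) : e u * e u = 0 := half (h.ee u u)

theorem ff0 (h : Car e f) (u : U) : f u * f u = 0 := half (h.ff u u)

theorem ef1 (h : Car e f) (u : U) : e u * f u + f u * e u = 1 := by
  rw [h.ef u u, if_pos rfl]

theorem ef0 (h : Car e f) {u v : U} (huv : u ≠ v) : e u * f v + f v * e u = 0 := by
  rw [h.ef u v, if_neg huv]

/-- `f e = 1 - e f` -/
theorem fe (h : Car e f) (u : U) : f u * e u = 1 - e u * f u := by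
  rw [← ef1 h u]; abel

theorem idem (h : Car e f) (u : U) : (e u * f u) * (e u * f u) = e u * f u := by
  have : (e u * f u) * (e u * f u) = e u * (f u * e u) * f u := by noncomm_ring
  rw [this, fe h u]
  have : e u * (1 - e u * f u) * f u = e u * f u - (e u * e u) * (f u * f u) := by noncomm_ring
  rw [this, ee0 h u, zero_mul, sub_zero]

theorem efe (h : Car e f) (u : U) : (e u * f u) * e u = e u := by
  rw [Matrix.mul_assoc, fe h u]
  have : e u * (1 - e u * f u) = e u - (e u * e u) * f u := by noncomm_ring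
  rw [this, ee0 h u, zero_mul, sub_zero]

theorem eef (h : Car e f) (u : U) : e u * (e u * f u) = 0 := by
  rw [← Matrix.mul_assoc, ee0 h u, zero_mul]

theorem fef (h : Car e f) (u : U) : f u * (e u * f u) = f u := by
  rw [← Matrix.mul_assoc, fe h u]
  have : (1 - e u * f u) * f u = f u - e u * (f u * f u) := by noncomm_ring
  rw [this, ff0 h u, mul_zero, sub_zero]

theorem eff (h : Car e f) (u : U) : (e u * f u) * f u = 0 := by
  rw [Matrix.mul_assoc, ff0 h u, mul_zero]

/-- `P_v e_u = e_u P_v` for `u ≠ v` -/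
theorem pe (h : Car e f) {u v : U} (huv : u ≠ v) : (e v * f v) * e u = e u * (e v * f v) := by
  have h1 : f v * e u = -(e u * f v) := eq_neg_of_add_eq_zero_right (ef0 h huv)
  have h2 : e v * e u = -(e u * e v) := eq_neg_of_add_eq_zero_left (h.ee v u)
  rw [Matrix.mul_assoc, h1, Matrix.mul_neg, ← Matrix.mul_assoc, h2, Matrix.neg_mul, neg_neg,
    Matrix.mul_assoc]

theorem pf (h : Car e f) {u v : U} (huv : u ≠ v) : (e v * f v) * f u = f u * (e v * f v) := by
  have h1 : f v * f u = -(f u * f v) := eq_neg_of_add_eq_zero_left (h.ff v u)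
  have h2 : e v * f u = -(f u * e v) := eq_neg_of_add_eq_zero_left (ef0 h (Ne.symm huv))
  rw [Matrix.mul_assoc, h1, Matrix.mul_neg, ← Matrix.mul_assoc, h2, Matrix.neg_mul, neg_neg,
    Matrix.mul_assoc]

theorem pp (h : Car e f) (u v : U) : (e v * f v) * (e u * f u) = (e u * f u) * (e v * f v) := by
  by_cases huv : u = v
  · rw [huv]
  · rw [← Matrix.mul_assoc, pe h huv, Matrix.mul_assoc (e u), pf h huv, ← Matrix.mul_assoc]

/-- one factor -/
def fac (P : Matrix ι ι ℂ) (t : ℂ) : Matrix ι ι ℂ := 1 + (t - 1) • P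

/-- the product over a list -/
noncomputable def Dl (e f : U → Matrix ι ι ℂ) (t : U → ℂ) : List U → Matrix ι ι ℂ
  | [] => 1
  | u :: l => fac (e u * f u) (t u) * Dl e f t l

theorem fac_comm {P Y : Matrix ι ι ℂ} (h : Y * P = P * Y) (t : ℂ) : Y * fac P t = fac P t * Y := by
  unfold fac
  rw [Matrix.mul_add, Matrix.add_mul, Matrix.mul_one, Matrix.one_mul, Matrix.mul_smul,
    Matrix.smul_mul, h]

/-- (3) -/
theorem Dl_comm (t : U → ℂ) {Y : Matrix ι ι ℂ} :
    ∀ l : List U, (∀ u ∈ l, Y * (e u * f u) = e u * f u * Y) → Y * Dl e f t l = Dl e f t l * Y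
  | [], _ => by rw [Dl, Matrix.mul_one, Matrix.one_mul]
  | u :: l, h => by
    have h1 := fac_comm (h u List.mem_cons_self) (t u)
    have h2 := Dl_comm t l fun v hv => h v (List.mem_cons_of_mem _ hv)
    rw [Dl, ← Matrix.mul_assoc, h1, Matrix.mul_assoc, h2, Matrix.mul_assoc]

theorem fac_mul {P : Matrix ι ι ℂ} (h : P * P = P) (t t' : ℂ) :
    fac P t * fac P t' = fac P (t * t') := by
  unfold fac
  rw [Matrix.mul_add, Matrix.mul_one, Matrix.add_mul, Matrix.one_mul, Matrix.smul_mul,
    Matrix.mul_smul, h]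
  module

theorem fac_one (P : Matrix ι ι ℂ) : fac P 1 = 1 := by
  unfold fac
  rw [sub_self, zero_smul, add_zero]

theorem Dl_one : ∀ l : List U, Dl e f (fun _ => 1) l = 1
  | [] => rfl
  | u :: l => by rw [Dl, fac_one, Matrix.one_mul, Dl_one l]

theorem Dl_mul (h : Car e f) (t t' : U → ℂ) :
    ∀ l : List U, Dl e f t l * Dl e f t' l = Dl e f (fun u => t u * t' u) l
  | [] => by simp only [Dl, Matrix.mul_one]
  | u :: l => by
    have h1 : Dl e f t l * fac (e u * f u) (t' u) = fac (e u * f u) (t' u) * Dl e f t l := by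
      have h2 : e u * f u * Dl e f t l = Dl e f t l * (e u * f u) :=
        Dl_comm t l fun v _ => (pp h v u)
      exact fac_comm h2.symm (t' u)
    simp only [Dl]
    rw [Matrix.mul_assoc, ← Matrix.mul_assoc (Dl e f t l), h1, Matrix.mul_assoc,
      ← Matrix.mul_assoc (fac (e u * f u) (t u)), fac_mul (idem h u), Dl_mul h t t' l]

/-- (1) -/
theorem Dl_e (h : Car e f) (t : U → ℂ) (u : U) : ∀ l : List U, l.Nodup →
    Dl e f t l * e u = (if u ∈ l then t u else 1) • (e u * Dl e f t l)
  | [], _ => by
    rw [if_neg (List.not_mem_nil), one_smul, Dl, Matrix.one_mul, Matrix.mul_one]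
  | v :: l, hl => by
    obtain ⟨hv, hl'⟩ := List.nodup_cons.1 hl
    have h1 := Dl_e h t u l hl'
    by_cases huv : u = v
    · subst huv
      rw [if_neg hv, one_smul] at h1
      rw [if_pos List.mem_cons_self, Dl, Matrix.mul_assoc, h1, ← Matrix.mul_assoc,
        ← Matrix.mul_assoc]
      have e1 : fac (e u * f u) (t u) * e u = t u • e u := by
        unfold fac
        rw [Matrix.add_mul, Matrix.one_mul, Matrix.smul_mul, efe h u]
        module
      have e2 : e u * fac (e u * f u) (t u) = e u := by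
        unfold fac
        rw [Matrix.mul_add, Matrix.mul_one, Matrix.mul_smul, eef h u, smul_zero, add_zero]
      rw [e1, e2, Matrix.smul_mul]
    · have e1 : fac (e v * f v) (t v) * e u = e u * fac (e v * f v) (t v) :=
        (fac_comm (pe h huv).symm (t v)).symm
      rw [Dl, Matrix.mul_assoc, h1, Matrix.mul_smul, ← Matrix.mul_assoc, e1, Matrix.mul_assoc]
      have : (u ∈ v :: l) ↔ u ∈ l := by
        rw [List.mem_cons]
        exact or_iff_right huv
      simp only [this]

/-- (2) -/
theorem Dl_f (h : Car e f) (t : U → ℂ) (u : U) : ∀ l : List U, l.Nodup →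
    f u * Dl e f t l = (if u ∈ l then t u else 1) • (Dl e f t l * f u)
  | [], _ => by
    rw [if_neg (List.not_mem_nil), one_smul, Dl, Matrix.one_mul, Matrix.mul_one]
  | v :: l, hl => by
    obtain ⟨hv, hl'⟩ := List.nodup_cons.1 hl
    have h1 := Dl_f h t u l hl'
    by_cases huv : u = v
    · subst huv
      rw [if_neg hv, one_smul] at h1
      have e1 : f u * fac (e u * f u) (t u) = t u • f u := by
        unfold fac
        rw [Matrix.mul_add, Matrix.mul_one, Matrix.mul_smul, fef h u]
        module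
      have e2 : fac (e u * f u) (t u) * f u = f u := by
        unfold fac
        rw [Matrix.add_mul, Matrix.one_mul, Matrix.smul_mul, eff h u, smul_zero, add_zero]
      rw [if_pos List.mem_cons_self, Dl, ← Matrix.mul_assoc, e1, Matrix.smul_mul, h1,
        Matrix.mul_assoc, ← h1, ← Matrix.mul_assoc, e2]
    · have e1 : f u * fac (e v * f v) (t v) = fac (e v * f v) (t v) * f u :=
        fac_comm (pf h huv).symm (t v)
      rw [Dl, ← Matrix.mul_assoc, e1, Matrix.mul_assoc, h1, Matrix.mul_smul, Matrix.mul_assoc]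
      have : (u ∈ v :: l) ↔ u ∈ l := by
        rw [List.mem_cons]
        exact or_iff_right huv
      simp only [this]

end algebra

/-! ### Laurent polynomials -/

section laurent

variable {κ : Type} [Fintype κ] [DecidableEq κ]

/-- `g` is a Laurent polynomial -/
def Lau (g : (κ → ℂˣ) → ℂ) : Prop :=
  ∃ p : (κ → ℤ) →₀ ℂ, ∀ z, g z = p.sum fun χ a => a * ∏ k, (z k : ℂ) ^ χ k

theorem lau_const (c : ℂ) : Lau (fun _ : κ → ℂˣ => c) := by
  refine ⟨Finsupp.single 0 c, fun z => ?_⟩
  rw [Finsupp.sum_single_index (by rw [zero_mul])]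
  simp

theorem lau_add {g g' : (κ → ℂˣ) → ℂ} (h : Lau g) (h' : Lau g') : Lau (fun z => g z + g' z) := by
  obtain ⟨p, hp⟩ := h
  obtain ⟨p', hp'⟩ := h'
  refine ⟨p + p', fun z => ?_⟩
  show g z + g' z = _
  rw [Finsupp.sum_add_index (fun χ _ => by rw [zero_mul]) (fun χ _ a b => by rw [add_mul]), hp,
    hp']

theorem lau_smul {g : (κ → ℂˣ) → ℂ} (c : ℂ) (h : Lau g) : Lau (fun z => c * g z) := by
  obtain ⟨p, hp⟩ := h
  refine ⟨c • p, fun z => ?_⟩
  show c * g z = _
  rw [Finsupp.sum_smul_index (fun χ => by rw [zero_mul]), hp, Finsupp.mul_sum]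
  refine Finsupp.sum_congr fun χ _ => ?_
  ring

theorem lau_var {g : (κ → ℂˣ) → ℂ} (k : κ) (h : Lau g) : Lau (fun z => (z k : ℂ) * g z) := by
  obtain ⟨p, hp⟩ := h
  refine ⟨p.mapDomain fun χ => χ + Pi.single k 1, fun z => ?_⟩
  show (z k : ℂ) * g z = _
  rw [Finsupp.sum_mapDomain_index (fun χ => by rw [zero_mul]) (fun χ a b => by rw [add_mul]), hp,
    Finsupp.mul_sum]
  refine Finsupp.sum_congr fun χ _ => ?_
  have h1 : ∏ l, (z l : ℂ) ^ (χ + Pi.single k 1 : κ → ℤ) l = (z k : ℂ) * ∏ l, (z l : ℂ) ^ χ l := by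
    have h2 : ∀ l, (z l : ℂ) ^ (χ + Pi.single k (1 : ℤ) : κ → ℤ) l =
        (if l = k then (z k : ℂ) else 1) * (z l : ℂ) ^ χ l := by
      intro l
      rw [Pi.add_apply, zpow_add₀ (Units.ne_zero (z l))]
      by_cases hl : l = k
      · subst hl
        rw [Pi.single_eq_same, zpow_one, if_pos rfl, mul_comm]
      · rw [Pi.single_eq_of_ne hl, zpow_zero, if_neg hl, mul_comm]
    simp only [h2]
    rw [Finset.prod_mul_distrib, Finset.prod_ite_eq' Finset.univ k, if_pos (Finset.mem_univ k)]
  rw [h1]
  ring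

theorem lau_sum {I : Type} (s : Finset I) {g : I → (κ → ℂˣ) → ℂ} (h : ∀ i ∈ s, Lau (g i)) :
    Lau (fun z => ∑ i ∈ s, g i z) := by
  classical
  induction s using Finset.induction_on with
  | empty => simpa using lau_const (κ := κ) 0
  | insert a s ha ih =>
    have h1 := lau_add (h a (Finset.mem_insert_self a s))
      (ih fun i hi => h i (Finset.mem_insert_of_mem hi))
    simpa [Finset.sum_insert ha] using h1

end laurent

end DiaM

open DiaM in
theorem specUDia : SpecUDia := by
  intro ι κ _ _ _ _ m e f h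
  obtain ⟨l, hl⟩ : ∃ l : List ((k : κ) × Fin (m k)), l = Finset.univ.toList := ⟨_, rfl⟩
  have hnd : l.Nodup := by rw [hl]; exact Finset.nodup_toList _
  have hmem : ∀ u, u ∈ l := fun u => by rw [hl, Finset.mem_toList]; exact Finset.mem_univ u
  obtain ⟨Dm, hDm⟩ : ∃ Dm : (κ → ℂˣ) →* Matrix ι ι ℂ, ∀ z,
      Dm z = Dl e f (fun u => (z u.1 : ℂ)) l := by
    refine ⟨{ toFun := fun z => Dl e f (fun u => (z u.1 : ℂ)) l, map_one' := ?_,
              map_mul' := ?_ }, fun _ => rfl⟩
    · exact Dl_one l
    · intro z z'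
      rw [Dl_mul h]
      rfl
  refine ⟨Dm.toHomUnits, ?_, ?_, ?_, ?_, ?_⟩
  · intro z u
    have h1 := Dl_e h (fun u => (z u.1 : ℂ)) u l hnd
    rw [if_pos (hmem u), ← hDm] at h1
    exact h1
  · intro z u
    have h1 := Dl_f h (fun u => (z u.1 : ℂ)) u l hnd
    rw [if_pos (hmem u), ← hDm] at h1
    exact h1
  · intro z Y hY
    have h1 := Dl_comm (e := e) (f := f) (fun u => (z u.1 : ℂ)) (Y := Y) l fun u _ => hY u
    rw [← hDm] at h1
    exact h1
  · intro i j
    have key : ∀ l : List ((k : κ) × Fin (m k)), ∀ i j,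
        Lau (fun z : κ → ℂˣ => Dl e f (fun u => (z u.1 : ℂ)) l i j) := by
      intro l
      induction l with
      | nil => intro i j; exact lau_const _
      | cons u l ih =>
        intro i j
        have e1 : (fun z : κ → ℂˣ => Dl e f (fun u => (z u.1 : ℂ)) (u :: l) i j) = fun z =>
            Dl e f (fun u => (z u.1 : ℂ)) l i j + (((z u.1 : ℂ) *
              ∑ k, (e u * f u) i k * Dl e f (fun u => (z u.1 : ℂ)) l k j) + (-1 : ℂ) *
              ∑ k, (e u * f u) i k * Dl e f (fun u => (z u.1 : ℂ)) l k j) := by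
          funext z
          rw [Dl, fac, Matrix.add_mul, Matrix.one_mul, Matrix.smul_mul, Matrix.add_apply,
            Matrix.smul_apply, smul_eq_mul, Matrix.mul_apply]
          ring
        rw [e1]
        have h2 : Lau (fun z : κ → ℂˣ =>
            ∑ k, (e u * f u) i k * Dl e f (fun u => (z u.1 : ℂ)) l k j) :=
          lau_sum _ fun k _ => lau_smul _ (ih k j)
        exact lau_add (ih i j) (lau_add (lau_var u.1 h2) (lau_smul (-1) h2))
    obtain ⟨p, hp⟩ := key l i j
    refine ⟨p, fun z => ?_⟩
    rw [← hp]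
    show Dm z i j = _
    rw [hDm]
  · intro w s i j
    have key : ∀ l : List ((k : κ) × Fin (m k)), ∀ (s : ℂ) (i j : ι),
        HasDerivAt (fun s => Dl e f (fun u => Complex.exp (s * w u.1)) l i j)
          (((l.map fun u => w u.1 • (e u * f u)).sum *
            Dl e f (fun u => Complex.exp (s * w u.1)) l) i j) s := by
      intro l
      induction l with
      | nil =>
        intro s i j
        simp only [Dl, List.map_nil, List.sum_nil, Matrix.zero_mul, Matrix.zero_apply]
        exact hasDerivAt_const _ _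
      | cons u l ih =>
        intro s i j
        obtain ⟨P, hP⟩ : ∃ P, P = e u * f u := ⟨_, rfl⟩
        have hexp : ∀ s : ℂ, HasDerivAt (fun s => Complex.exp (s * w u.1) - 1)
            (w u.1 * Complex.exp (s * w u.1)) s := by
          intro s
          have h1 : HasDerivAt (fun s : ℂ => s * w u.1) (w u.1) s := by
            simpa using (hasDerivAt_id s).mul_const (w u.1)
          have h2 := (h1.cexp).sub_const 1
          rw [mul_comm]
          exact h2
        have hsum : ∀ s : ℂ, HasDerivAt (fun s => ∑ k, P i k *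
            Dl e f (fun u => Complex.exp (s * w u.1)) l k j)
            (∑ k, P i k * (((l.map fun u => w u.1 • (e u * f u)).sum *
              Dl e f (fun u => Complex.exp (s * w u.1)) l) k j)) s := by
          intro s
          exact HasDerivAt.fun_sum fun k _ => (ih s k j).const_mul (P i k)
        have e1 : (fun s : ℂ => Dl e f (fun u => Complex.exp (s * w u.1)) (u :: l) i j) = fun s =>
            Dl e f (fun u => Complex.exp (s * w u.1)) l i j + (Complex.exp (s * w u.1) - 1) *
              ∑ k, P i k * Dl e f (fun u => Complex.exp (s * w u.1)) l k j := by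
          funext s
          rw [Dl, fac, Matrix.add_mul, Matrix.one_mul, Matrix.smul_mul, Matrix.add_apply,
            Matrix.smul_apply, smul_eq_mul, Matrix.mul_apply, hP]
        rw [e1]
        have h3 := (ih s i j).add ((hexp s).mul (hsum s))
        refine h3.congr_deriv ?_
        -- the algebra
        obtain ⟨T, hT⟩ : ∃ T, T = Complex.exp (s * w u.1) := ⟨_, rfl⟩
        obtain ⟨G, hG⟩ : ∃ G, G = Dl e f (fun u => Complex.exp (s * w u.1)) l := ⟨_, rfl⟩
        obtain ⟨S, hS⟩ : ∃ S, S = (l.map fun u => w u.1 • (e u * f u)).sum := ⟨_, rfl⟩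
        have hSP : S * P = P * S := by
          rw [hS, hP]
          clear hS hG ih e1 hsum h3
          induction l with
          | nil => simp
          | cons v l ih =>
            rw [List.map_cons, List.sum_cons, Matrix.add_mul, Matrix.mul_add, ih, Matrix.smul_mul,
              Matrix.mul_smul, pp h u v]
        have hPP : P * P = P := by rw [hP]; exact idem h u
        rw [List.map_cons, List.sum_cons, Dl, ← hP, ← hT, ← hG, ← hS]
        have e2 : (w u.1 • P + S) * (fac P T * G) =
            S * G + ((w u.1 * T) • (P * G) + (T - 1) • (P * (S * G))) := by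
          unfold fac
          have h5 : P * (P * G) = P * G := by rw [← Matrix.mul_assoc, hPP]
          have h6 : S * (P * G) = P * (S * G) := by
            rw [← Matrix.mul_assoc, hSP, Matrix.mul_assoc]
          rw [Matrix.add_mul 1, Matrix.one_mul, Matrix.add_mul, Matrix.mul_add, Matrix.mul_add,
            Matrix.smul_mul, Matrix.smul_mul, Matrix.smul_mul, Matrix.mul_smul, Matrix.mul_smul,
            h5, h6]
          module
        rw [e2]
        simp only [Matrix.add_apply, Matrix.smul_apply, smul_eq_mul]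
        rw [Matrix.mul_apply (M := P) (N := G), Matrix.mul_apply (M := P) (N := S * G)]
    have h1 := key l s i j
    have e1 : (l.map fun u => w u.1 • (e u * f u)).sum = ∑ u, w u.1 • (e u * f u) := by
      rw [hl]
      exact Finset.sum_map_toList _ _
    rw [e1] at h1
    have e2 : ∀ s : ℂ, (Dm.toHomUnits fun k => ex (s * w k)).1 =
        Dl e f (fun u => Complex.exp (s * w u.1)) l := by
      intro s
      show Dm (fun k => ex (s * w k)) = _
      rw [hDm]
      rfl
    simp only [e2]
    exact h1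

end Pool.Agent.Lib.MPf11a48.KU
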