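import Pool.Agent.Lib.MP_f11a48_ag.KU.Mat

/-!
# Kuga-Satake varieties, the unitary case, module GAL: the Galois action on the traces
-/

set_option autoImplicit false

namespace Pool.Agent.Lib.MPf11a48.KU

open Matrix MvPolynomial Pool.Agent.Lib.MPf11a48.Tors
open Pool.Agent.Lib.MPf11a48.CM hiding OmegaM
open Pool.Agent.Lib.MPf11a48.K3
open MatM

namespace GalM

variable {n : ℕ} {qB : Matrix (Fin n) (Fin n) ℚ} {E : Set (Matrix (Fin n) (Fin n) ℚ)} {κ : Type}
  [Fintype κ] [DecidableEq κ] {m : κ → ℕ} {P Q : Matrix (Fin n) ((k : κ) × Fin (m k)) ℂ}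
  {lam : Matrix (Fin n) (Fin n) ℚ → κ → ℂ}

/-- The diagonal idempotent of the block `k`. -/
noncomputable def dk (m : κ → ℕ) (k : κ) :
    Matrix ((k : κ) × Fin (m k)) ((k : κ) × Fin (m k)) ℂ :=
  diagonal fun u => if u.1 = k then 1 else 0

/-- The projectors. -/
noncomputable def pr (P Q : Matrix (Fin n) ((k : κ) × Fin (m k)) ℂ)
    (qB : Matrix (Fin n) (Fin n) ℚ) : κ ⊕ κ → Matrix (Fin n) (Fin n) ℂ :=
  Sum.elim (fun k => P * dk m k * (Qᵀ * cx qB)) (fun k => Q * dk m k * (Pᵀ * cx qB))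

lemma dk_sum : ∑ k, dk m k = 1 := by
  ext u v
  rw [Matrix.sum_apply]
  unfold dk
  by_cases huv : u = v
  · subst huv
    simp
  · simp [Matrix.diagonal_apply_ne _ huv, Matrix.one_apply_ne huv]

lemma dk_mul (k l : κ) : dk m k * dk m l = if k = l then dk m k else 0 := by
  unfold dk
  rw [Matrix.diagonal_mul_diagonal]
  split_ifs with h
  · subst h
    congr 1
    funext u
    split_ifs <;> simp
  · rw [← Matrix.diagonal_zero]
    congr 1
    funext u
    by_cases h1 : u.1 = k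
    · have h2 : u.1 ≠ l := fun h3 => h (h1.symm.trans h3)
      simp [h2]
    · simp [h1]

lemma diag_dk (a : κ → ℂ) (k : κ) :
    diagonal (fun u : (k : κ) × Fin (m k) => a u.1) * dk m k = a k • dk m k := by
  unfold dk
  rw [Matrix.diagonal_mul_diagonal, ← Matrix.diagonal_smul]
  congr 1
  funext u
  by_cases h1 : u.1 = k
  · simp [h1]
  · simp [h1]

lemma dk_diag (a : κ → ℂ) (k : κ) :
    dk m k * diagonal (fun u : (k : κ) × Fin (m k) => a u.1) = a k • dk m k := by
  unfold dk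
  rw [Matrix.diagonal_mul_diagonal, ← Matrix.diagonal_smul]
  congr 1
  funext u
  by_cases h1 : u.1 = k
  · simp [h1]
  · simp [h1]

lemma Q_e (h : qBᵀ = qB) (hS : SplitU qB E m P Q lam) (e : Matrix (Fin n) (Fin n) ℚ)
    (he : e ∈ E) : Qᵀ * cx qB * cx e =
      diagonal (fun u : (k : κ) × Fin (m k) => lam e u.1) * (Qᵀ * cx qB) := by
  obtain ⟨h1, h2, h3, h4⟩ := rels h hS
  calc Qᵀ * cx qB * cx e
      = Qᵀ * cx qB * cx e * (P * (Qᵀ * cx qB) + Q * (Pᵀ * cx qB)) := by
        rw [hS.onto, Matrix.mul_one]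
    _ = Qᵀ * cx qB * (cx e * P) * (Qᵀ * cx qB) +
        Qᵀ * cx qB * (cx e * Q) * (Pᵀ * cx qB) := by
        rw [Matrix.mul_add]
        simp only [Matrix.mul_assoc]
    _ = (Qᵀ * cx qB * P) * diagonal (fun u : (k : κ) × Fin (m k) => lam e u.1) *
          (Qᵀ * cx qB) +
        (Qᵀ * cx qB * Q) * diagonal (fun u : (k : κ) × Fin (m k) =>
          (starRingEnd ℂ) (lam e u.1)) * (Pᵀ * cx qB) := by
        rw [hS.eigP e he, hS.eigQ e he]
        simp only [Matrix.mul_assoc]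
    _ = _ := by
        rw [h1, h2, Matrix.one_mul, Matrix.zero_mul, Matrix.zero_mul, add_zero]

lemma P_e (h : qBᵀ = qB) (hS : SplitU qB E m P Q lam) (e : Matrix (Fin n) (Fin n) ℚ)
    (he : e ∈ E) : Pᵀ * cx qB * cx e =
      diagonal (fun u : (k : κ) × Fin (m k) => (starRingEnd ℂ) (lam e u.1)) * (Pᵀ * cx qB) := by
  obtain ⟨h1, h2, h3, h4⟩ := rels h hS
  calc Pᵀ * cx qB * cx e
      = Pᵀ * cx qB * cx e * (P * (Qᵀ * cx qB) + Q * (Pᵀ * cx qB)) := by
        rw [hS.onto, Matrix.mul_one]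
    _ = Pᵀ * cx qB * (cx e * P) * (Qᵀ * cx qB) +
        Pᵀ * cx qB * (cx e * Q) * (Pᵀ * cx qB) := by
        rw [Matrix.mul_add]
        simp only [Matrix.mul_assoc]
    _ = (Pᵀ * cx qB * P) * diagonal (fun u : (k : κ) × Fin (m k) => lam e u.1) *
          (Qᵀ * cx qB) +
        (Pᵀ * cx qB * Q) * diagonal (fun u : (k : κ) × Fin (m k) =>
          (starRingEnd ℂ) (lam e u.1)) * (Pᵀ * cx qB) := by
        rw [hS.eigP e he, hS.eigQ e he]
        simp only [Matrix.mul_assoc]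
    _ = _ := by
        rw [h3, h4, Matrix.one_mul, Matrix.zero_mul, Matrix.zero_mul, zero_add]

lemma pr_sum (hS : SplitU qB E m P Q lam) : ∑ s, pr P Q qB s = 1 := by
  rw [Fintype.sum_sum_type]
  simp only [pr, Sum.elim_inl, Sum.elim_inr]
  rw [← Matrix.sum_mul, ← Matrix.sum_mul, ← Matrix.mul_sum, ← Matrix.mul_sum, dk_sum,
    Matrix.mul_one, Matrix.mul_one, hS.onto]

lemma e_pr (hS : SplitU qB E m P Q lam) (e : Matrix (Fin n) (Fin n) ℚ) (he : e ∈ E)
    (s : κ ⊕ κ) : cx e * pr P Q qB s = chr lam e s • pr P Q qB s := by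
  rcases s with k | k
  · simp only [pr, chr, Sum.elim_inl]
    rw [← Matrix.mul_assoc (cx e), ← Matrix.mul_assoc (cx e), hS.eigP e he,
      Matrix.mul_assoc P, diag_dk, Matrix.mul_smul, Matrix.smul_mul]
  · simp only [pr, chr, Sum.elim_inr]
    rw [← Matrix.mul_assoc (cx e), ← Matrix.mul_assoc (cx e), hS.eigQ e he,
      Matrix.mul_assoc Q, diag_dk (fun k => (starRingEnd ℂ) (lam e k)), Matrix.mul_smul, Matrix.smul_mul]

lemma pr_e (h : qBᵀ = qB) (hS : SplitU qB E m P Q lam) (e : Matrix (Fin n) (Fin n) ℚ)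
    (he : e ∈ E) (s : κ ⊕ κ) : pr P Q qB s * cx e = chr lam e s • pr P Q qB s := by
  rcases s with k | k
  · simp only [pr, chr, Sum.elim_inl]
    rw [Matrix.mul_assoc, Q_e h hS e he, ← Matrix.mul_assoc, Matrix.mul_assoc P, dk_diag,
      Matrix.mul_smul, Matrix.smul_mul]
  · simp only [pr, chr, Sum.elim_inr]
    rw [Matrix.mul_assoc, P_e h hS e he, ← Matrix.mul_assoc, Matrix.mul_assoc Q,
      dk_diag (fun k => (starRingEnd ℂ) (lam e k)), Matrix.mul_smul, Matrix.smul_mul]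

lemma dk_ne (hm : ∀ k, 0 < m k) (k : κ) : dk m k ≠ 0 := by
  intro h
  have h1 := congrFun (congrFun h ⟨k, ⟨0, hm k⟩⟩) ⟨k, ⟨0, hm k⟩⟩
  unfold dk at h1
  rw [Matrix.diagonal_apply_eq] at h1
  simp at h1

lemma pr_ne (h : qBᵀ = qB) (hS : SplitU qB E m P Q lam) (hm : ∀ k, 0 < m k) (s : κ ⊕ κ) :
    pr P Q qB s ≠ 0 := by
  obtain ⟨h1, h2, h3, h4⟩ := rels h hS
  intro h0
  rcases s with k | k
  · apply dk_ne hm k
    have h5 : Qᵀ * cx qB * pr P Q qB (Sum.inl k) * P = dk m k := by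
      simp only [pr, Sum.elim_inl]
      calc Qᵀ * cx qB * (P * dk m k * (Qᵀ * cx qB)) * P
          = (Qᵀ * cx qB * P) * dk m k * (Qᵀ * cx qB * P) := by simp only [Matrix.mul_assoc]
        _ = _ := by rw [h1, Matrix.one_mul, Matrix.mul_one]
    rw [← h5, h0, Matrix.mul_zero, Matrix.zero_mul]
  · apply dk_ne hm k
    have h5 : Pᵀ * cx qB * pr P Q qB (Sum.inr k) * Q = dk m k := by
      simp only [pr, Sum.elim_inr]
      calc Pᵀ * cx qB * (Q * dk m k * (Pᵀ * cx qB)) * Q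
          = (Pᵀ * cx qB * Q) * dk m k * (Pᵀ * cx qB * Q) := by simp only [Matrix.mul_assoc]
        _ = _ := by rw [h3, Matrix.one_mul, Matrix.mul_one]
    rw [← h5, h0, Matrix.mul_zero, Matrix.zero_mul]

lemma map_cx (τ : ℂ ≃+* ℂ) {μ ν : Type} (A : Matrix μ ν ℚ) : (cx A).map τ = cx A := by
  ext i j
  simp [cx]

/-- The action of a field automorphism on the projectors. -/
lemma map_pr (h : qBᵀ = qB) (hS : SplitU qB E m P Q lam) (τ : ℂ ≃+* ℂ)
    (σ : Equiv.Perm (κ ⊕ κ)) (hτ : ∀ e ∈ E, ∀ s, chr lam e (σ s) = τ (chr lam e s))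
    (s : κ ⊕ κ) : (pr P Q qB s).map τ = pr P Q qB (σ s) := by
  have hmul : ∀ A B : Matrix (Fin n) (Fin n) ℂ, (A * B).map τ = A.map τ * B.map τ := by
    intro A B
    exact Matrix.map_mul (f := (τ : ℂ →+* ℂ))
  have he : ∀ e ∈ E, ∀ s, cx e * (pr P Q qB s).map τ = chr lam e (σ s) • (pr P Q qB s).map τ := by
    intro e he s
    have h1 := congrArg (fun M : Matrix (Fin n) (Fin n) ℂ => M.map τ) (e_pr hS e he s)
    simp only [hmul, map_cx] at h1
    rw [h1, hτ e he]
    ext i j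
    simp
  have hz : ∀ s t, t ≠ σ s → pr P Q qB t * (pr P Q qB s).map τ = 0 := by
    intro s t hts
    obtain ⟨e, hee, hne⟩ := hS.sep t (σ s) hts
    have h1 : pr P Q qB t * (cx e * (pr P Q qB s).map τ) =
        chr lam e (σ s) • (pr P Q qB t * (pr P Q qB s).map τ) := by
      rw [he e hee, Matrix.mul_smul]
    have h2 : pr P Q qB t * (cx e * (pr P Q qB s).map τ) =
        chr lam e t • (pr P Q qB t * (pr P Q qB s).map τ) := by
      rw [← Matrix.mul_assoc, pr_e h hS e hee, Matrix.smul_mul]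
    have h3 : (chr lam e t - chr lam e (σ s)) • (pr P Q qB t * (pr P Q qB s).map τ) = 0 := by
      rw [sub_smul, ← h1, ← h2, sub_self]
    exact (smul_eq_zero.mp h3).resolve_left (sub_ne_zero.mpr hne)
  have h1 : (pr P Q qB s).map τ = pr P Q qB (σ s) * (pr P Q qB s).map τ := by
    calc (pr P Q qB s).map τ = (∑ t, pr P Q qB t) * (pr P Q qB s).map τ := by
          rw [pr_sum hS, Matrix.one_mul]
      _ = ∑ t, pr P Q qB t * (pr P Q qB s).map τ := Matrix.sum_mul _ _ _
      _ = _ := Finset.sum_eq_single (σ s) (fun t _ ht => hz s t ht)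
          (fun h0 => absurd (Finset.mem_univ _) h0)
  have h2 : pr P Q qB (σ s) = pr P Q qB (σ s) * (pr P Q qB s).map τ := by
    have hone : (∑ t, (pr P Q qB t).map τ) = 1 := by
      have h3 := congrArg (fun M : Matrix (Fin n) (Fin n) ℂ => M.map τ) (pr_sum hS)
      rw [Matrix.map_one τ (map_zero τ) (map_one τ)] at h3
      rw [← h3]
      ext i j
      simp [Matrix.sum_apply]
    calc pr P Q qB (σ s) = pr P Q qB (σ s) * ∑ t, (pr P Q qB t).map τ := by
          rw [hone, Matrix.mul_one]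
      _ = ∑ t, pr P Q qB (σ s) * (pr P Q qB t).map τ := Matrix.mul_sum _ _ _
      _ = _ := Finset.sum_eq_single s
          (fun t _ ht => hz t (σ s) (fun h0 => ht (σ.injective h0).symm))
          (fun h0 => absurd (Finset.mem_univ _) h0)
  rw [h1, ← h2]

lemma trace_dk (A : Matrix ((k : κ) × Fin (m k)) ((k : κ) × Fin (m k)) ℂ) (k : κ) :
    (A * dk m k).trace = (Matrix.blockDiag' A k).trace := by
  unfold dk
  rw [Matrix.trace, Matrix.trace, Fintype.sum_sigma, Finset.sum_eq_single k]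
  · refine Finset.sum_congr rfl (fun i _ => ?_)
    rw [Matrix.diag_apply, Matrix.mul_diagonal, if_pos rfl, mul_one]
    rfl
  · intro l _ hl
    apply Finset.sum_eq_zero
    intro i _
    rw [Matrix.diag_apply, Matrix.mul_diagonal, if_neg hl, mul_zero]
  · intro h0
    exact absurd (Finset.mem_univ _) h0

/-- The trace on the eigenspaces. -/
lemma trace_pr (h : qBᵀ = qB) (ρ : Matrix (Fin n) (Fin n) ℂ)
    (hsk : ρᵀ * cx qB + cx qB * ρ = 0) (s : κ ⊕ κ) :
    (ρ * pr P Q qB s).trace = Sum.elim (fun k => (xk P Q qB ρ k).trace)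
      (fun k => -(xk P Q qB ρ k).trace) s := by
  rcases s with k | k
  · simp only [pr, Sum.elim_inl]
    have h1 : (ρ * (P * dk m k * (Qᵀ * cx qB))).trace =
        (Qᵀ * cx qB * ρ * P * dk m k).trace := by
      rw [← Matrix.mul_assoc, Matrix.trace_mul_comm]
      simp only [Matrix.mul_assoc]
    rw [h1, trace_dk]
    rfl
  · simp only [pr, Sum.elim_inr]
    have hZ : Pᵀ * cx qB * ρ * Q = -(Qᵀ * cx qB * ρ * P)ᵀ := by
      rw [Matrix.transpose_mul, Matrix.transpose_mul, Matrix.transpose_mul,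
        Matrix.transpose_transpose, cx_symm h]
      have e1 : cx qB * ρ = -(ρᵀ * cx qB) := eq_neg_of_add_eq_zero_right hsk
      rw [Matrix.mul_assoc Pᵀ, e1]
      simp only [Matrix.mul_neg, Matrix.neg_mul, Matrix.mul_assoc]
    have h1 : (ρ * (Q * dk m k * (Pᵀ * cx qB))).trace =
        (Pᵀ * cx qB * ρ * Q * dk m k).trace := by
      rw [← Matrix.mul_assoc, Matrix.trace_mul_comm]
      simp only [Matrix.mul_assoc]
    rw [h1, hZ, trace_dk]
    unfold xk
    rw [Matrix.trace, Matrix.trace, ← Finset.sum_neg_distrib]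
    rfl

lemma cx_unit (hdet : qB.det ≠ 0) {A : Matrix (Fin n) (Fin n) ℂ} (hA : cx qB * A = 0) :
    A = 0 := by
  have h1 : qB⁻¹ * qB = 1 := Matrix.nonsing_inv_mul _ (isUnit_iff_ne_zero.mpr hdet)
  have h2 : cx qB⁻¹ * cx qB = 1 := by
    have h3 : cx (qB⁻¹ * qB) = cx qB⁻¹ * cx qB := by
      unfold cx
      exact Matrix.map_mul (f := (Rat.castHom ℂ))
    rw [← h3, h1]
    unfold cx
    exact Matrix.map_one _ Rat.cast_zero Rat.cast_one
  calc A = cx qB⁻¹ * cx qB * A := by rw [h2, Matrix.one_mul]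
    _ = 0 := by rw [Matrix.mul_assoc, hA, Matrix.mul_zero]

lemma q_pr (h : qBᵀ = qB) (s : κ ⊕ κ) :
    (pr P Q qB (Sum.swap s))ᵀ * cx qB = cx qB * pr P Q qB s := by
  have hd : ∀ k, (dk m k)ᵀ = dk m k := fun k => Matrix.diagonal_transpose _
  rcases s with k | k
  · simp only [Sum.swap_inl, pr, Sum.elim_inl, Sum.elim_inr]
    rw [Matrix.transpose_mul, Matrix.transpose_mul, Matrix.transpose_mul,
      Matrix.transpose_transpose, cx_symm h, hd]
    simp only [Matrix.mul_assoc]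
  · simp only [Sum.swap_inr, pr, Sum.elim_inl, Sum.elim_inr]
    rw [Matrix.transpose_mul, Matrix.transpose_mul, Matrix.transpose_mul,
      Matrix.transpose_transpose, cx_symm h, hd]
    simp only [Matrix.mul_assoc]

lemma et_pr (h : qBᵀ = qB) (hS : SplitU qB E m P Q lam) (e : Matrix (Fin n) (Fin n) ℚ)
    (he : e ∈ E) (s : κ ⊕ κ) :
    cx eᵀ * cx qB * pr P Q qB s = chr lam e (Sum.swap s) • (cx qB * pr P Q qB s) := by
  have h1 := congrArg Matrix.transpose (pr_e h hS e he (Sum.swap s))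
  rw [Matrix.transpose_mul, Matrix.transpose_smul] at h1
  have h2 : (cx e)ᵀ = cx eᵀ := rfl
  rw [h2] at h1
  rw [Matrix.mul_assoc, ← q_pr h, ← Matrix.mul_assoc, h1, Matrix.smul_mul]

end GalM

open GalM in
/-- The Galois action on the traces. -/
theorem specUGal : SpecUGal := by
  intro n qB E κ _ _ m P Q lam h hdet hS hm
  refine ⟨?_, ?_⟩
  · intro ρ hρ
    have hsk : (cx ρ)ᵀ * cx qB + cx qB * cx ρ = 0 := by
      have h1 : ρᵀ * qB + qB * ρ = 0 := hρ.1
      have h2 := congrArg cx h1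
      have h3 : cx (ρᵀ * qB + qB * ρ) = (cx ρ)ᵀ * cx qB + cx qB * cx ρ := by
        ext i j
        simp [cx, Matrix.mul_apply]
      have h4 : cx (0 : Matrix (Fin n) (Fin n) ℚ) = 0 := by
        ext i j
        simp [cx]
      rw [← h3, h2, h4]
    have key : ∀ (τ : ℂ ≃+* ℂ) (σ : Equiv.Perm (κ ⊕ κ)),
        (∀ e ∈ E, ∀ s, chr lam e (σ s) = τ (chr lam e s)) →
        ∀ s, τ (Sum.elim (fun k => (xk P Q qB (cx ρ) k).trace)
            (fun k => -(xk P Q qB (cx ρ) k).trace) s) =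
          Sum.elim (fun k => (xk P Q qB (cx ρ) k).trace)
            (fun k => -(xk P Q qB (cx ρ) k).trace) (σ s) := by
      intro τ σ hτ s
      rw [← trace_pr h (cx ρ) hsk s, ← trace_pr h (cx ρ) hsk (σ s), ← map_pr h hS τ σ hτ s]
      rw [Matrix.trace, Matrix.trace, map_sum]
      refine Finset.sum_congr rfl (fun i _ => ?_)
      rw [Matrix.diag_apply, Matrix.diag_apply, Matrix.mul_apply, Matrix.mul_apply, map_sum]
      refine Finset.sum_congr rfl (fun j _ => ?_)
      rw [map_mul, Matrix.map_apply]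
      congr 1
      simp [cx]
    refine ⟨key, ?_⟩
    intro k
    have hc : ∀ e ∈ E, ∀ s, chr lam e ((Equiv.sumComm κ κ) s) =
        (starRingAut : ℂ ≃+* ℂ) (chr lam e s) := by
      intro e _ s
      rcases s with k | k
      · rfl
      · change lam e k = (starRingEnd ℂ) ((starRingEnd ℂ) (lam e k))
        rw [Complex.conj_conj]
    exact key starRingAut (Equiv.sumComm κ κ) hc (Sum.inl k)
  · intro τ σ hτ s
    by_contra hne
    obtain ⟨e, he, hne2⟩ := hS.sep _ _ hne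
    apply hne2
    have h1 := et_pr h hS e he s
    have h2 := congrArg (fun M : Matrix (Fin n) (Fin n) ℂ => M.map τ) h1
    have hmul : ∀ A B : Matrix (Fin n) (Fin n) ℂ, (A * B).map τ = A.map τ * B.map τ := by
      intro A B
      exact Matrix.map_mul (f := (τ : ℂ →+* ℂ))
    have hsm : ∀ (a : ℂ) (A : Matrix (Fin n) (Fin n) ℂ), (a • A).map τ = τ a • A.map τ := by
      intro a A
      ext i j
      simp
    simp only [hmul, hsm, map_cx, map_pr h hS τ σ hτ s] at h2
    rw [← hτ e he, et_pr h hS e he (σ s)] at h2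
    have h3 : (chr lam e (Sum.swap (σ s)) - chr lam e (σ (Sum.swap s))) •
        (cx qB * pr P Q qB (σ s)) = 0 := by
      rw [sub_smul, h2, sub_self]
    rcases smul_eq_zero.mp h3 with h4 | h4
    · exact (sub_eq_zero.mp h4).symm
    · exact absurd (cx_unit hdet h4) (pr_ne h hS hm (σ s))

end Pool.Agent.Lib.MPf11a48.KU
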