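import Pool.Agent.Lib.MP_f11a48_ag.KU.Spec

/-!
# GEN: `SL_d` is generated by integral curves
-/

set_option autoImplicit false

namespace Pool.Agent.Lib.MPf11a48.KU

open Matrix

namespace GenM

variable {d : ℕ}

/-- the transvection curve -/
noncomputable def tg (X : Matrix (Fin d) (Fin d) ℂ) (h : X * X = 0) (s : ℂ) : GL (Fin d) ℂ where
  val := 1 + s • X
  inv := 1 - s • X
  val_inv := by
    rw [add_mul, mul_sub, mul_sub, one_mul, one_mul, mul_one, smul_mul_smul_comm, h, smul_zero]
    abel
  inv_val := by
    rw [sub_mul, mul_add, mul_add, one_mul, one_mul, mul_one, smul_mul_smul_comm, h, smul_zero]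
    abel

theorem tg_val (X : Matrix (Fin d) (Fin d) ℂ) (h : X * X = 0) (s : ℂ) :
    (tg X h s).1 = 1 + s • X := rfl

theorem tg_inv (X : Matrix (Fin d) (Fin d) ℂ) (h : X * X = 0) (s : ℂ) :
    (tg X h s)⁻¹.1 = 1 - s • X := rfl

/-- the diagonal curve -/
noncomputable def dg (w : Fin d → ℂ) (s : ℂ) : GL (Fin d) ℂ where
  val := diagonal fun i => Complex.exp (s * w i)
  inv := diagonal fun i => Complex.exp (-(s * w i))
  val_inv := by
    rw [diagonal_mul_diagonal]
    simp only [← Complex.exp_add, add_neg_cancel, Complex.exp_zero, diagonal_one]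
  inv_val := by
    rw [diagonal_mul_diagonal]
    simp only [← Complex.exp_add, neg_add_cancel, Complex.exp_zero, diagonal_one]

theorem dg_val (w : Fin d → ℂ) (s : ℂ) :
    (dg w s).1 = diagonal fun i => Complex.exp (s * w i) := rfl

theorem dg_inv (w : Fin d → ℂ) (s : ℂ) :
    (dg w s)⁻¹.1 = diagonal fun i => Complex.exp (-(s * w i)) := rfl

theorem tr_sq (t : TransvectionStruct (Fin d) ℂ) :
    Matrix.single t.i t.j t.c * Matrix.single t.i t.j t.c = 0 := by
  rw [Matrix.single_mul_single_of_ne _ _ _ _ (Ne.symm t.hij)]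

/-- a transvection as an element of the group -/
noncomputable def lf (t : TransvectionStruct (Fin d) ℂ) : GL (Fin d) ℂ :=
  tg (Matrix.single t.i t.j t.c) (tr_sq t) 1

theorem lf_val (t : TransvectionStruct (Fin d) ℂ) : (lf t).1 = t.toMatrix := by
  rw [lf, tg_val, one_smul]
  rfl

theorem logs (D : Fin d → ℂ) (h : ∏ i, D i = 1) :
    ∃ w : Fin d → ℂ, (∀ i, Complex.exp (w i) = D i) ∧ ∑ i, w i = 0 := by
  have h0 : ∀ i, D i ≠ 0 := by
    intro i hi
    have : ∏ i, D i = 0 := Finset.prod_eq_zero (Finset.mem_univ i) hi
    rw [this] at h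
    exact zero_ne_one h
  rcases Nat.eq_zero_or_pos d with hd | hd
  · subst hd
    exact ⟨fun i => 0, fun i => i.elim0, by simp⟩
  set W : ℂ := ∑ i, Complex.log (D i) with hW
  have h1 : Complex.exp W = 1 := by
    rw [hW, Complex.exp_sum, ← h]
    exact Finset.prod_congr rfl fun i _ => Complex.exp_log (h0 i)
  obtain ⟨n, hn⟩ := Complex.exp_eq_one_iff.mp h1
  refine ⟨fun i => Complex.log (D i) - if i = ⟨0, hd⟩ then (n : ℂ) * (2 * Real.pi * Complex.I)
    else 0, ?_, ?_⟩
  · intro i
    rw [Complex.exp_sub, Complex.exp_log (h0 i)]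
    split_ifs
    · rw [Complex.exp_int_mul_two_pi_mul_I, div_one]
    · rw [Complex.exp_zero, div_one]
  · rw [Finset.sum_sub_distrib, Finset.sum_ite_eq' Finset.univ, if_pos (Finset.mem_univ _),
      ← hW, hn, sub_self]

end GenM

open GenM in
theorem specUGen : SpecUGen := by
  intro d G hG x hx
  have htr : ∀ t : TransvectionStruct (Fin d) ℂ, lf t ∈ G := by
    intro t
    have hXX := tr_sq t
    refine hG (Matrix.single t.i t.j t.c) ?_ (tg (Matrix.single t.i t.j t.c) hXX) ?_ ?_ ?_ 1
    · exact Matrix.trace_single_eq_of_ne _ _ _ t.hij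
    · apply Units.ext
      rw [tg_val, zero_smul, add_zero, Units.val_one]
    · intro s i j
      have e1 : (Matrix.single t.i t.j t.c * (tg (Matrix.single t.i t.j t.c) hXX s).1) i j =
          Matrix.single t.i t.j t.c i j := by
        rw [tg_val, mul_add, mul_one, mul_smul_comm, hXX, smul_zero, add_zero]
      rw [e1]
      have e2 : (fun s : ℂ => (tg (Matrix.single t.i t.j t.c) hXX s).1 i j) =
          fun s : ℂ => (1 : Matrix (Fin d) (Fin d) ℂ) i j + s * Matrix.single t.i t.j t.c i j := by
        funext s
        rw [tg_val, Matrix.add_apply, Matrix.smul_apply, smul_eq_mul]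
      rw [e2]
      have e3 := ((hasDerivAt_id s).mul_const (Matrix.single t.i t.j t.c i j)).const_add
        ((1 : Matrix (Fin d) (Fin d) ℂ) i j)
      simpa using e3
    · intro s i j
      have e1 : -((tg (Matrix.single t.i t.j t.c) hXX s)⁻¹.1 * Matrix.single t.i t.j t.c) i j =
          -(Matrix.single t.i t.j t.c i j) := by
        rw [tg_inv, sub_mul, one_mul, smul_mul_assoc, hXX, smul_zero, sub_zero]
      rw [e1]
      have e2 : (fun s : ℂ => (tg (Matrix.single t.i t.j t.c) hXX s)⁻¹.1 i j) =
          fun s : ℂ => (1 : Matrix (Fin d) (Fin d) ℂ) i j - s * Matrix.single t.i t.j t.c i j := by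
        funext s
        rw [tg_inv, Matrix.sub_apply, Matrix.smul_apply, smul_eq_mul]
      rw [e2]
      have e3 := ((hasDerivAt_id s).mul_const (Matrix.single t.i t.j t.c i j)).const_sub
        ((1 : Matrix (Fin d) (Fin d) ℂ) i j)
      simpa using e3
  have hdg : ∀ w : Fin d → ℂ, ∑ i, w i = 0 → dg w 1 ∈ G := by
    intro w hw
    refine hG (diagonal w) ?_ (dg w) ?_ ?_ ?_ 1
    · rw [Matrix.trace_diagonal]; exact hw
    · apply Units.ext
      rw [dg_val, Units.val_one]
      simp
    · intro s i j
      have e1 : (diagonal w * (dg w s).1) i j =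
          if i = j then w i * Complex.exp (s * w i) else 0 := by
        rw [dg_val, diagonal_mul_diagonal, diagonal_apply]
      rw [e1]
      have e2 : (fun s : ℂ => (dg w s).1 i j) =
          fun s : ℂ => if i = j then Complex.exp (s * w i) else 0 := by
        funext s
        rw [dg_val, diagonal_apply]
      rw [e2]
      split_ifs with hij
      · have e3 := ((hasDerivAt_id s).mul_const (w i)).cexp
        have e4 : Complex.exp (id s * w i) * (1 * w i) = w i * Complex.exp (s * w i) := by
          simp only [id]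
          ring
        rw [← e4]
        exact e3
      · exact hasDerivAt_const s 0
    · intro s i j
      have e1 : -((dg w s)⁻¹.1 * diagonal w) i j =
          if i = j then -(Complex.exp (-(s * w i)) * w i) else 0 := by
        rw [dg_inv, diagonal_mul_diagonal, diagonal_apply]
        split_ifs
        · rfl
        · exact neg_zero
      rw [e1]
      have e2 : (fun s : ℂ => (dg w s)⁻¹.1 i j) =
          fun s : ℂ => if i = j then Complex.exp (-(s * w i)) else 0 := by
        funext s
        rw [dg_inv, diagonal_apply]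
      rw [e2]
      split_ifs with hij
      · have e3 := ((hasDerivAt_id s).mul_const (w i)).fun_neg.cexp
        have e4 : Complex.exp (-(id s * w i)) * -(1 * w i) =
            -(Complex.exp (-(s * w i)) * w i) := by
          simp only [id]
          ring
        rw [← e4]
        exact e3
      · exact hasDerivAt_const s 0
  obtain ⟨L, L', D, hM⟩ :=
    Matrix.Pivot.exists_list_transvec_mul_diagonal_mul_list_transvec x.1
  have hdet : ∏ i, D i = 1 := by
    have h1 := congrArg Matrix.det hM
    rw [hx, Matrix.det_mul, Matrix.det_mul, TransvectionStruct.det_toMatrix_prod,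
      TransvectionStruct.det_toMatrix_prod, Matrix.det_diagonal, one_mul, mul_one] at h1
    exact h1.symm
  obtain ⟨w, hw, hw0⟩ := logs D hdet
  have hprod : ∀ L : List (TransvectionStruct (Fin d) ℂ),
      ((L.map lf).prod).1 = (L.map TransvectionStruct.toMatrix).prod := by
    intro L
    induction L with
    | nil => simp
    | cons t L ih =>
      rw [List.map_cons, List.prod_cons, List.map_cons, List.prod_cons, Units.val_mul, ih, lf_val]
  have hx2 : x = (L.map lf).prod * dg w 1 * (L'.map lf).prod := by
    apply Units.ext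
    rw [Units.val_mul, Units.val_mul, hprod, hprod, dg_val]
    simp only [one_mul, hw]
    exact hM
  rw [hx2]
  refine G.mul_mem (G.mul_mem ?_ (hdg w hw0)) ?_
  · apply Subgroup.list_prod_mem
    intro y hy
    obtain ⟨t, _, rfl⟩ := List.mem_map.mp hy
    exact htr t
  · apply Subgroup.list_prod_mem
    intro y hy
    obtain ⟨t, _, rfl⟩ := List.mem_map.mp hy
    exact htr t

end Pool.Agent.Lib.MPf11a48.KU
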