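import Pool.Agent.Lib.MP_f11a48_ag.KU.LieB
import Pool.Agent.Lib.MP_f11a48_ag.K3.Gour
import Pool.Agent.Lib.MP_f11a48_ag.K3.Perf

/-!
# Block LIE, Goursat
-/

set_option autoImplicit false
set_option linter.unusedSectionVars false
set_option linter.style.haveILetI false
set_option linter.unusedTactic false

namespace Pool.Agent.Lib.MPf11a48.KU

open Matrix Module LieAlgebra Pool.Agent.Lib.MPf11a48.K3

namespace LieG

/-! ### the abstract version -/

section abstract

variable {F : Type} [Field F] [CharZero F]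

/-- ideals of a Killing Lie algebra are kernels of equivariant projections -/
theorem compl {L : Type} [LieRing L] [LieAlgebra F L] [Module.Finite F L] [IsKilling F L]
    (N : LieIdeal F L) : ∃ p : L →ₗ[F] L, (∀ x y : L, p ⁅x, y⁆ = ⁅x, p y⁆) ∧
      ∀ x : L, p x = 0 ↔ x ∈ N := by
  have hc : IsCompl N.killingCompl.toSubmodule N.toSubmodule :=
    (LieSubmodule.isCompl_toSubmodule.2 (LieIdeal.isCompl_killingCompl N)).symm
  refine ⟨Submodule.projection _ _ hc, ?_, fun x => Submodule.projection_apply_eq_zero_iff hc⟩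
  intro x y
  have h1 := Submodule.projection_apply_mem hc y
  have h2 := Submodule.sub_projection_mem hc y
  set b := Submodule.projection _ _ hc y with hb
  have h3 : ⁅x, y⁆ = ⁅x, b⁆ + ⁅x, y - b⁆ := by rw [← lie_add, add_sub_cancel]
  have h4 : ⁅x, b⁆ ∈ N.killingCompl := LieSubmodule.lie_mem _ h1
  have h5 : ⁅x, y - b⁆ ∈ N := LieSubmodule.lie_mem _ h2
  rw [h3, map_add, (Submodule.projection_apply_eq_zero_iff hc).2 h5, add_zero]
  exact (Submodule.projection_eq_self_iff hc _).2 h4

variable {κ : Type} [DecidableEq κ] {g : κ → Type} [∀ k, LieRing (g k)]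
  [∀ k, LieAlgebra F (g k)] [∀ k, Module.Finite F (g k)] [∀ k, IsKilling F (g k)]
  {h : Submodule F ((k : κ) → g k)}

/-- elements of `h` realise all families on `S` -/
def P (h : Submodule F ((k : κ) → g k)) (S : Finset κ) : Prop :=
  ∀ X : (k : κ) → g k, ∃ Y ∈ h, ∀ k ∈ S, Y k = X k

theorem step (h2 : ∀ X ∈ h, ∀ Y ∈ h, (fun k => ⁅X k, Y k⁆) ∈ h)
    (h3 : ∀ k, ∀ A : g k, ∃ X ∈ h, X k = A)
    (h4 : ∀ k l, k ≠ l → ∀ φ : g k →ₗ[F] g l, (∀ X ∈ h, ∀ Y, φ ⁅X k, Y⁆ = ⁅X l, φ Y⁆) → φ = 0)
    (S : Finset κ) (l : κ) (hl : l ∉ S) (hS : P h S) : P h (insert l S) := by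
  let N : LieIdeal F (g l) :=
    { carrier := {Z | ∃ Y ∈ h, (∀ k ∈ S, Y k = 0) ∧ Y l = Z}
      add_mem' := by
        rintro a b ⟨Y, hY, hY0, rfl⟩ ⟨Y', hY', hY0', rfl⟩
        exact ⟨Y + Y', h.add_mem hY hY', fun k hk => by
          rw [Pi.add_apply, hY0 k hk, hY0' k hk, add_zero], rfl⟩
      zero_mem' := ⟨0, h.zero_mem, fun k _ => rfl, rfl⟩
      smul_mem' := by
        rintro t a ⟨Y, hY, hY0, rfl⟩
        exact ⟨t • Y, h.smul_mem t hY, fun k hk => by
          rw [Pi.smul_apply, hY0 k hk, smul_zero], rfl⟩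
      lie_mem := by
        rintro Z X ⟨Y, hY, hY0, rfl⟩
        obtain ⟨W, hW, rfl⟩ := h3 l Z
        refine ⟨_, h2 W hW Y hY, fun k hk => ?_, rfl⟩
        change ⁅W k, Y k⁆ = 0
        rw [hY0 k hk, lie_zero] }
  obtain ⟨p, hp2, hp3⟩ := compl N
  have wd : ∀ Y ∈ h, ∀ Y' ∈ h, (∀ k ∈ S, Y k = Y' k) → p (Y l) = p (Y' l) := by
    intro Y hY Y' hY' hYY
    rw [← sub_eq_zero, ← map_sub]
    have h5 : Y l - Y' l ∈ N := ⟨Y - Y', h.sub_mem hY hY', fun k hk => by
      rw [Pi.sub_apply, hYY k hk, sub_self], rfl⟩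
    exact (hp3 _).2 h5
  suffices hz : ∀ Y ∈ h, p (Y l) = 0 by
    intro X
    obtain ⟨Y, hY, hYX⟩ := hS X
    obtain ⟨W, hW, hWl⟩ := h3 l (X l - Y l)
    obtain ⟨Y', hY', hY0', hYl'⟩ : W l ∈ N := (hp3 _).1 (hz W hW)
    refine ⟨Y + Y', h.add_mem hY hY', fun k hk => ?_⟩
    rw [Pi.add_apply]
    rcases Finset.mem_insert.1 hk with rfl | hk
    · rw [hYl', hWl, add_sub_cancel]
    · rw [hYX k hk, hY0' k hk, add_zero]
  choose G hG hGS using fun k (A : g k) => hS (Pi.single k A)
  have key : ∀ k ∈ S, ∀ A : g k, p (G k A l) = 0 := by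
    intro k hk A
    let φ : g k →ₗ[F] g l :=
      { toFun := fun A => p (G k A l)
        map_add' := by
          intro A B
          rw [← map_add]
          refine wd _ (hG _ _) (G k A + G k B) (h.add_mem (hG _ _) (hG _ _)) fun j hj => ?_
          rw [Pi.add_apply, hGS _ _ j hj, hGS _ _ j hj, hGS _ _ j hj, ← Pi.add_apply,
            ← Pi.single_add]
        map_smul' := by
          intro t A
          rw [RingHom.id_apply, ← map_smul]
          refine wd _ (hG _ _) (t • G k A) (h.smul_mem t (hG _ _)) fun j hj => ?_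
          rw [Pi.smul_apply, hGS _ _ j hj, hGS _ _ j hj, ← Pi.smul_apply, ← Pi.single_smul] }
    have hφ : φ = 0 := by
      refine h4 k l (fun h => hl (h ▸ hk)) φ ?_
      intro X hX Y
      change p (G k ⁅X k, Y⁆ l) = ⁅X l, p (G k Y l)⁆
      rw [← hp2]
      refine wd _ (hG _ _) _ (h2 X hX _ (hG k Y)) fun j hj => ?_
      change _ = ⁅X j, G k Y j⁆
      rw [hGS _ _ j hj, hGS _ _ j hj]
      by_cases hjk : j = k
      · subst hjk
        rw [Pi.single_eq_same, Pi.single_eq_same]
      · rw [Pi.single_eq_of_ne hjk, Pi.single_eq_of_ne hjk, lie_zero]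
    exact LinearMap.congr_fun hφ A
  intro Y hY
  have h6 : p (Y l) = p ((∑ k ∈ S, G k (Y k)) l) := by
    refine wd _ hY _ (h.sum_mem fun k _ => hG _ _) fun j hj => ?_
    rw [Finset.sum_apply, Finset.sum_eq_single_of_mem j hj]
    · rw [hGS _ _ j hj, Pi.single_eq_same]
    · intro k _ hkj
      rw [hGS _ _ j hj, Pi.single_eq_of_ne hkj.symm]
  rw [h6, Finset.sum_apply, map_sum]
  exact Finset.sum_eq_zero fun k hk => key k hk _

end abstract

end LieG

/-- Module GOUX. -/
theorem specGOUX : SpecGOUX := by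
  intro F _ _ κ _ _ g _ _ _ _ h h2 h3 h4
  have hall : ∀ S : Finset κ, LieG.P h S := by
    intro S
    induction S using Finset.induction_on with
    | empty => exact fun X => ⟨0, h.zero_mem, fun k hk => absurd hk (Finset.notMem_empty k)⟩
    | insert l S hl ih => exact LieG.step h2 h3 h4 S l hl ih
  rw [eq_top_iff]
  intro X _
  obtain ⟨Y, hY, hYX⟩ := hall Finset.univ X
  have : Y = X := funext fun k => hYX k (Finset.mem_univ k)
  exact this ▸ hY

namespace LieG

/-! ### the blocks -/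

section blocks

attribute [local instance 100] LieRing.ofAssociativeRing

variable (F : Type) [Field F] (n : ℕ)

/-- the Lie algebra of matrices of trace `0` -/
abbrev Sl : LieSubalgebra F (Matrix (Fin n) (Fin n) F) := SpecialLinear.sl (Fin n) F

/-- the Lie algebra of a block -/
def Bl : Bool → LieSubalgebra F (Matrix (Fin n) (Fin n) F)
  | true => Orthogonal.so (Fin n) F
  | false => SpecialLinear.sl (Fin n) F

variable {F n}

theorem mem_sl {X : Matrix (Fin n) (Fin n) F} : X ∈ SpecialLinear.sl (Fin n) F ↔ X.trace = 0 :=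
  Iff.rfl

theorem mem_Bl {b : Bool} {X : Matrix (Fin n) (Fin n) F} : X ∈ Bl F n b ↔ X ∈ blkS F n b := by
  cases b
  · exact mem_sl
  · exact Orthogonal.mem_so _ _ _

/-- the tautological representation -/
noncomputable def taut : LieM.MR F (Sl F n) n where
  t := (Sl F n).toSubmodule.subtype
  lie _ _ := rfl

theorem irr_sl (hn : 2 ≤ n) : IrrRep (taut (F := F) (n := n)).rp := by
  haveI : Nonempty (Fin n) := ⟨⟨0, by omega⟩⟩
  refine ⟨inferInstance, fun W hW => ?_⟩
  by_cases h0 : W = ⊥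
  · exact Or.inl h0
  right
  obtain ⟨v, hv, hv0⟩ := (Submodule.ne_bot_iff W).1 h0
  obtain ⟨i, hi⟩ := Function.ne_iff.1 hv0
  have hi' : v i ≠ 0 := hi
  have hact : ∀ (a b : Fin n), a ≠ b → ∀ w ∈ W, (w b • (Pi.single a 1 : Fin n → F)) ∈ W := by
    intro a b hab w hw
    have h1 : Matrix.single a b (1 : F) ∈ Sl F n := by
      rw [mem_sl]
      exact Matrix.trace_single_eq_of_ne a b 1 hab
    have h2 := hW ⟨_, h1⟩ w hw
    have h3 : (taut (F := F) (n := n)).rp.r ⟨_, h1⟩ w = w b • (Pi.single a 1 : Fin n → F) := by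
      change (Matrix.single a b (1 : F)).mulVec w = _
      rw [Matrix.single_mulVec]
      funext j
      by_cases hj : j = a
      · subst hj
        simp
      · simp [hj]
    rw [h3] at h2
    exact h2
  have hk : ∀ k, k ≠ i → (Pi.single k 1 : Fin n → F) ∈ W := by
    intro k hk
    have h1 := W.smul_mem (v i)⁻¹ (hact k i hk v hv)
    rwa [smul_smul, inv_mul_cancel₀ hi', one_smul] at h1
  have hall : ∀ k, (Pi.single k 1 : Fin n → F) ∈ W := by
    intro k
    by_cases h : k = i
    · subst h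
      obtain ⟨j, hj⟩ : ∃ j : Fin n, j ≠ k := by
        haveI : Nontrivial (Fin n) := Fin.nontrivial_iff_two_le.2 hn
        exact exists_ne k
      have h1 := hact k j (Ne.symm hj) _ (hk j hj)
      rwa [Pi.single_eq_same, one_smul] at h1
    · exact hk k h
  rw [eq_top_iff]
  intro w _
  have hw : w = ∑ k, w k • (Pi.single k 1 : Fin n → F) := by
    funext j
    simp [Finset.sum_apply, Pi.single_apply]
  rw [hw]
  exact Submodule.sum_mem W fun k _ => W.smul_mem _ (hall k)

/-- matrices of trace `0` of size at most one -/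
theorem sl_small (h : ¬2 ≤ n) {X : Matrix (Fin n) (Fin n) F} (hX : X.trace = 0) : X = 0 := by
  have h1 : n = 0 ∨ n = 1 := by omega
  rcases h1 with rfl | rfl
  · exact Matrix.ext fun i => i.elim0
  · rw [Matrix.trace_fin_one] at hX
    ext i j
    rw [Subsingleton.elim i 0, Subsingleton.elim j 0]
    exact hX

theorem killing_Bl [CharZero F] [IsAlgClosed F] (b : Bool) (h3 : b = true → 3 ≤ n) :
    IsKilling F (Bl F n b) := by
  cases b
  · by_cases h2 : 2 ≤ n
    · exact LieM.killing_of taut (fun x => mem_sl.1 x.2)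
        Subtype.val_injective (irr_sl h2)
    · have : Subsingleton (Bl F n false) := ⟨fun x y => Subtype.ext (by
        rw [sl_small h2 (mem_sl.1 x.2), sl_small h2 (mem_sl.1 y.2)])⟩
      exact ⟨Subsingleton.elim _ _⟩
  · exact GourM.killing (h3 rfl)

variable (F n) in
/-- the equivariant projection to the Lie algebra of a block -/
noncomputable def prj [CharZero F] : (b : Bool) →
    Matrix (Fin n) (Fin n) F →ₗ[F] Bl F n b
  | true =>
    { toFun := fun Y => ⟨(1 / 2 : F) • (Y - Yᵀ), (Orthogonal.mem_so _ _ _).2 (by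
        rw [Matrix.transpose_smul, Matrix.transpose_sub,
          Matrix.transpose_transpose, ← smul_neg, neg_sub])⟩
      map_add' := by
        intro A B
        apply Subtype.ext
        change (1 / 2 : F) • ((A + B) - (A + B)ᵀ) = (1 / 2 : F) • (A - Aᵀ) + (1 / 2 : F) • (B - Bᵀ)
        rw [Matrix.transpose_add, ← smul_add]
        congr 1
        abel
      map_smul' := by
        intro t A
        apply Subtype.ext
        change (1 / 2 : F) • ((t • A) - (t • A)ᵀ) = t • (1 / 2 : F) • (A - Aᵀ)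
        rw [Matrix.transpose_smul, ← smul_sub, smul_comm] }
  | false =>
    { toFun := fun X => ⟨X - ((n : F)⁻¹ * X.trace) • 1, mem_sl.2 (by
        rcases Nat.eq_zero_or_pos n with h0 | h0
        · subst h0
          rfl
        · have hn : (n : F) ≠ 0 := by exact_mod_cast h0.ne'
          rw [Matrix.trace_sub, Matrix.trace_smul, Matrix.trace_one, Fintype.card_fin, smul_eq_mul,
            mul_comm (n : F)⁻¹, mul_assoc, inv_mul_cancel₀ hn, mul_one, sub_self])⟩
      map_add' := by
        intro X Y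
        apply Subtype.ext
        change (X + Y) - ((n : F)⁻¹ * (X + Y).trace) • 1 =
          (X - ((n : F)⁻¹ * X.trace) • 1) + (Y - ((n : F)⁻¹ * Y.trace) • 1)
        rw [Matrix.trace_add, mul_add, add_smul]
        abel
      map_smul' := by
        intro t X
        apply Subtype.ext
        change t • X - ((n : F)⁻¹ * (t • X).trace) • 1 = t • (X - ((n : F)⁻¹ * X.trace) • 1)
        rw [Matrix.trace_smul, smul_sub, smul_smul, smul_eq_mul, mul_left_comm] }

variable [CharZero F]

theorem prj_self {b : Bool} (X : Bl F n b) : prj F n b X.1 = X := by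
  cases b
  · apply Subtype.ext
    change X.1 - ((n : F)⁻¹ * X.1.trace) • 1 = X.1
    rw [show X.1.trace = 0 from mem_sl.1 X.2, mul_zero, zero_smul,
      sub_zero]
  · apply Subtype.ext
    change (1 / 2 : F) • (X.1 - X.1ᵀ) = X.1
    rw [(Orthogonal.mem_so _ _ _).1 X.2, sub_neg_eq_add, ← two_smul F, smul_smul]
    norm_num

/-- `X` is a possible value of `h` in the block -/
def Adm (b : Bool) (X : Matrix (Fin n) (Fin n) F) : Prop := b = true → Xᵀ = -X

theorem prj_sub {b : Bool} {X : Matrix (Fin n) (Fin n) F} (hX : Adm b X) :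
    ∃ c : F, (prj F n b X).1 = X - c • 1 := by
  cases b
  · exact ⟨_, rfl⟩
  · refine ⟨0, ?_⟩
    have h := prj_self (b := true) ⟨X, (Orthogonal.mem_so _ _ _).2 (hX rfl)⟩
    have h1 := congrArg Subtype.val h
    rw [zero_smul, sub_zero]
    exact h1

theorem adm_br {b : Bool} {X Y : Matrix (Fin n) (Fin n) F} (hX : Adm b X) (hY : Adm b Y) :
    X * Y - Y * X ∈ Bl F n b := by
  cases b
  · rw [mem_Bl]
    change (X * Y - Y * X).trace = 0
    rw [Matrix.trace_sub, Matrix.trace_mul_comm, sub_self]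
  · rw [mem_Bl]
    change (X * Y - Y * X)ᵀ = -(X * Y - Y * X)
    rw [transpose_sub, transpose_mul, transpose_mul, hX rfl, hY rfl]
    noncomm_ring

/-- the projection is compatible with brackets -/
theorem prj_br {b : Bool} {X : Matrix (Fin n) (Fin n) F} (hX : Adm b X)
    (Y : Matrix (Fin n) (Fin n) F) :
    prj F n b (X * Y - Y * X) = ⁅prj F n b X, prj F n b Y⁆ := by
  obtain ⟨c, hc⟩ := prj_sub hX
  apply Subtype.ext
  rw [LieSubalgebra.coe_bracket, Ring.lie_def, hc]
  cases b
  · have h1 := prj_self (⟨X * Y - Y * X, adm_br (b := false) hX (fun h => by cases h)⟩ :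
      Bl F n false)
    have h2 := congrArg Subtype.val h1
    refine h2.trans ?_
    change X * Y - Y * X = (X - c • 1) * (Y - ((n : F)⁻¹ * Y.trace) • 1) -
      (Y - ((n : F)⁻¹ * Y.trace) • 1) * (X - c • 1)
    simp only [sub_mul, mul_sub, smul_mul_assoc, mul_smul_comm, one_mul, mul_one, smul_sub,
      smul_smul]
    module
  · change (1 / 2 : F) • ((X * Y - Y * X) - (X * Y - Y * X)ᵀ) = (X - c • 1) * ((1 / 2 : F) •
      (Y - Yᵀ)) - ((1 / 2 : F) • (Y - Yᵀ)) * (X - c • 1)
    rw [transpose_sub, transpose_mul, transpose_mul, hX rfl]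
    simp only [sub_mul, mul_sub, smul_mul_assoc, mul_smul_comm, one_mul, mul_one, smul_sub,
      smul_smul, neg_mul, mul_neg]
    module

end blocks

section main

attribute [local instance 100] LieRing.ofAssociativeRing

variable {F : Type} [Field F] [CharZero F] [IsAlgClosed F]

theorem gourm : SpecGOURM := by
  intro F _ _ _ κ _ _ m b h3 h hsk hbr hsur hhom X hX
  haveI hK : ∀ k, IsKilling F (Bl F (m k) (b k)) := fun k => killing_Bl (b k) (h3 k)
  let π : ((k : κ) → Matrix (Fin (m k)) (Fin (m k)) F) →ₗ[F] ((k : κ) → Bl F (m k) (b k)) :=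
    LinearMap.pi fun k => (prj F (m k) (b k)).comp (LinearMap.proj k)
  have hπ : ∀ X k, π X k = prj F (m k) (b k) (X k) := fun _ _ => rfl
  have hadm : ∀ X ∈ h, ∀ k, Adm (b k) (X k) := fun X hX k hk => hsk X hX k hk
  have key : h.map π = ⊤ := by
    refine specGOUX F κ (fun k => Bl F (m k) (b k)) (h.map π) ?_ ?_ ?_
    · rintro _ ⟨X, hX, rfl⟩ _ ⟨Y, hY, rfl⟩
      refine ⟨_, hbr X hX Y hY, ?_⟩
      funext k
      rw [hπ, hπ, hπ]
      exact prj_br (hadm X hX k) (Y k)
    · intro k A
      obtain ⟨X, hX, hXA⟩ := hsur k A.1 (mem_Bl.1 A.2)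
      refine ⟨π X, ⟨X, hX, rfl⟩, ?_⟩
      rw [hπ, hXA, prj_self]
    · intro k l hkl φ hφ
      have h5 := hhom k l hkl ((Bl F (m l) (b l)).toSubmodule.subtype.comp
        (φ.comp (prj F (m k) (b k)))) (fun Y => mem_Bl.1 (φ _).2) (by
        intro X hX Y
        change (φ (prj F (m k) (b k) (X k * Y - Y * X k))).1 =
          X l * (φ (prj F (m k) (b k) Y)).1 - (φ (prj F (m k) (b k) Y)).1 * X l
        rw [prj_br (hadm X hX k) Y]
        have h6 := hφ (π X) ⟨X, hX, rfl⟩ (prj F (m k) (b k) Y)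
        rw [hπ, hπ] at h6
        rw [h6, LieSubalgebra.coe_bracket, Ring.lie_def]
        obtain ⟨c, hc⟩ := prj_sub (hadm X hX l)
        rw [hc]
        simp only [sub_mul, mul_sub, smul_mul_assoc, mul_smul_comm, one_mul, mul_one]
        abel)
      refine LinearMap.ext fun Y => ?_
      have h6 := h5 Y.1 (mem_Bl.1 Y.2)
      change (φ (prj F (m k) (b k) Y.1)).1 = 0 at h6
      rw [prj_self] at h6
      exact Subtype.ext h6
  -- commutators
  have hcom : ∀ k, ∀ B C : Matrix (Fin (m k)) (Fin (m k)) F, B ∈ Bl F (m k) (b k) →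
      C ∈ Bl F (m k) (b k) → (Pi.single k (B * C - C * B) :
        (k : κ) → Matrix (Fin (m k)) (Fin (m k)) F) ∈ h := by
    intro k B C hB hC
    have hex : ∀ Z : (k : κ) → Bl F (m k) (b k), ∃ Y ∈ h, π Y = Z := by
      intro Z
      have : Z ∈ h.map π := by rw [key]; trivial
      exact this
    obtain ⟨Y, hY, hYB⟩ := hex (Pi.single k ⟨B, hB⟩)
    obtain ⟨Z, hZ, hZC⟩ := hex (Pi.single k ⟨C, hC⟩)
    have h5 := hbr Y hY Z hZ
    convert h5 using 1
    funext j
    have h6 : (Y j * Z j - Z j * Y j) = (⁅π Y j, π Z j⁆ : Bl F (m j) (b j)).1 := by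
      rw [LieSubalgebra.coe_bracket, Ring.lie_def, hπ, hπ]
      obtain ⟨c, hc⟩ := prj_sub (hadm Y hY j)
      obtain ⟨d, hd⟩ := prj_sub (hadm Z hZ j)
      rw [hc, hd]
      simp only [sub_mul, mul_sub, smul_mul_assoc, mul_smul_comm, one_mul, mul_one, smul_sub,
        smul_smul]
      module
    rw [h6, hYB, hZC]
    by_cases hj : j = k
    · subst hj
      rw [Pi.single_eq_same, Pi.single_eq_same, Pi.single_eq_same]
      rfl
    · rw [Pi.single_eq_of_ne hj, Pi.single_eq_of_ne hj, Pi.single_eq_of_ne hj, lie_zero]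
      rfl
  -- one block
  have hone : ∀ k, ∀ A ∈ Bl F (m k) (b k), (Pi.single k A :
      (k : κ) → Matrix (Fin (m k)) (Fin (m k)) F) ∈ h := by
    intro k A hA
    let N : Submodule F (Matrix (Fin (m k)) (Fin (m k)) F) :=
      h.comap (LinearMap.single F (fun k => Matrix (Fin (m k)) (Fin (m k)) F) k)
    have hN : ∀ B C : Matrix (Fin (m k)) (Fin (m k)) F, B ∈ Bl F (m k) (b k) →
        C ∈ Bl F (m k) (b k) → B * C - C * B ∈ N := hcom k
    change A ∈ N
    cases hb : b k
    · rw [hb] at hN hA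
      rcases Nat.eq_zero_or_pos (m k) with h0 | h0
      · rw [sl_small (by omega) (mem_sl.1 hA)]
        exact N.zero_mem
      refine LieM.mem_of_comm h0 (fun Y Z hY hZ => hN Y Z ?_ ?_) (mem_sl.1 hA)
      · exact mem_sl.2 hY
      · exact mem_sl.2 hZ
    · rw [hb] at hN hA
      have h5 := specPerf F (m k) (h3 k hb) A ((Orthogonal.mem_so _ _ _).1 hA)
      refine (Submodule.span_le.2 ?_) h5
      rintro _ ⟨Y, Z, hY, hZ, rfl⟩
      exact hN Y Z ((Orthogonal.mem_so _ _ _).2 hY) ((Orthogonal.mem_so _ _ _).2 hZ)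
  rw [← Finset.univ_sum_single X]
  exact h.sum_mem fun k _ => hone k _ (mem_Bl.2 (hX k))

end main

end LieG

/-- Module GOURM. -/
theorem specGOURM : SpecGOURM := LieG.gourm

/-- Module GOURU. -/
theorem specGOURU : SpecGOURU := by
  intro F _ _ _ κ _ _ m h hbr hsur hhom X hX
  refine specGOURM F κ m (fun _ => false) (fun k hk => by cases hk) h
    (fun X _ k hk => by cases hk) hbr (fun k A hA => hsur k A hA) ?_ X hX
  intro k l hkl φ h5 h6 Y hY
  exact hhom k l hkl φ h5 h6 Y hY

end Pool.Agent.Lib.MPf11a48.KU
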