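import Pool.Agent.Lib.MP_f11a48_ag.KU.Spec

/-! # Module END: images of infinitesimal isometries commute with the endomorphisms -/

set_option autoImplicit false

namespace Pool.Agent.Lib.MPf11a48.KU

open Matrix MvPolynomial Pool.Agent.Lib.MPf11a48.Tors
open Pool.Agent.Lib.MPf11a48.CM hiding OmegaM
open Pool.Agent.Lib.MPf11a48.GL2 (lie Geo)
open Pool.Agent.Lib.MPf11a48.GL2T (IsAlg)
open Pool.Agent.Lib.MPf11a48.U (AbData Ix HD EndAlg)
open Pool.Agent.Lib.MPf11a48.K3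
open KLieM (bl clC)

open KRatM in
theorem specUEnd : SpecUEnd := by
  intro g N n A c t qdR qB B E hK hEnd ρ hρ Z hZ
  obtain ⟨m, β, l, h0⟩ := eq_sum ρ
  have h3 : ∀ l : QForm, ap l ρ ∈ soE qB E := by
    intro l
    refine ⟨?_, fun e he => ?_⟩
    · rw [← ap_transpose, ← mul_rat, ← rat_mul, ← ap_add, hρ.1, ap_zero]
    · rw [← mul_rat, ← rat_mul, hρ.2 e he]
  rw [h0, KLieM.clC_sum, Finset.sum_mul, Finset.mul_sum]
  refine Finset.sum_congr rfl fun i _ => ?_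
  rw [Matrix.smul_mul, Matrix.mul_smul, KLieM.clC_cx, ← cx_mul, ← cx_mul,
    hK.endA Z (hEnd Z hZ) _ (h3 (l i))]

end Pool.Agent.Lib.MPf11a48.KU
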