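import Pool.Agent.Lib.MP_f11a48_ag.KU.Spec
import Pool.Agent.Lib.MP_f11a48_ag.KU.Fula
import Pool.Agent.Lib.MP_f11a48_ag.K3.KFull3

/-! # The Lie algebra of a torsor through `(c, t, 2 π i)`, unitary case, second part -/

set_option autoImplicit false
set_option linter.unusedSectionVars false

namespace Pool.Agent.Lib.MPf11a48.KU

open Matrix MvPolynomial Pool.Agent.Lib.MPf11a48.Tors
open Pool.Agent.Lib.MPf11a48.CM hiding OmegaM
open Pool.Agent.Lib.MPf11a48.GL2 (lie Geo)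
open Pool.Agent.Lib.MPf11a48.GL2T (IsAlg)
open Pool.Agent.Lib.MPf11a48.U (AbData Ix HD EndAlg SpecHDA)
open Pool.Agent.Lib.MPf11a48.K3
open KLieM (bl clC)
open KGrpM (stab)
open KGrp3M (G0 sc ex)

namespace FulbM

open KFull3M KGrpM KRatM KLieM

section cliff

variable {n : ℕ} {μ : Type} [Fintype μ] [DecidableEq μ] {B : Fin n → Matrix μ μ ℚ}
  {qB : Matrix (Fin n) (Fin n) ℚ}

theorem q_inv_skew' (hsym : qBᵀ = qB) (hdet : qB.det ≠ 0) {ρ : Matrix (Fin n) (Fin n) ℂ}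
    (hρ : ρᵀ * cx qB + cx qB * ρ = 0) : (ρ * cx qB⁻¹)ᵀ = -(ρ * cx qB⁻¹) := by
  have h3 : (cx qB⁻¹)ᵀ = cx qB⁻¹ := by
    have h4 : (qB⁻¹)ᵀ = qB⁻¹ := by rw [Matrix.transpose_nonsing_inv, hsym]
    conv_rhs => rw [← h4]
    rfl
  rw [Matrix.transpose_mul, h3, q_inv_skew hdet hρ]

/-- the image of an infinitesimal isometry has trace zero -/
theorem trace_clC (hsym : qBᵀ = qB) (hdet : qB.det ≠ 0) {ρ : Matrix (Fin n) (Fin n) ℂ}
    (hρ : ρᵀ * cx qB + cx qB * ρ = 0) : (clC B qB ρ).trace = 0 := by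
  have hR := q_inv_skew' hsym hdet hρ
  have hR' : ∀ i j, (ρ * cx qB⁻¹) j i = -(ρ * cx qB⁻¹) i j := fun i j =>
    congrFun (congrFun hR i) j
  have h1 : (clC B qB ρ).trace =
      ∑ i, ∑ j, (ρ * cx qB⁻¹) i j * (cx (B i) * cx (B j)).trace := by
    rw [clC_eq, qd]
    simp only [Matrix.trace_sum, Matrix.trace_smul, smul_eq_mul]
  have h2 : (clC B qB ρ).trace = -(clC B qB ρ).trace := by
    conv_lhs => rw [h1, Finset.sum_comm]
    rw [h1, ← Finset.sum_neg_distrib]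
    refine Finset.sum_congr rfl fun i _ => ?_
    rw [← Finset.sum_neg_distrib]
    refine Finset.sum_congr rfl fun j _ => ?_
    rw [hR' i j, Matrix.trace_mul_comm, neg_mul]
  have h3 : (2 : ℂ) * (clC B qB ρ).trace = 0 := by
    rw [two_mul]
    nth_rewrite 1 [h2]
    exact neg_add_cancel _
  exact (mul_eq_zero.1 h3).resolve_left two_ne_zero

end cliff

/-- the multiplier -/
theorem mult_eq {μ : Type} [Fintype μ] [DecidableEq μ] [Nonempty μ] {ψ D Z : Matrix μ μ ℂ}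
    {s m : ℂ} (hψ : ψ.det ≠ 0) (hD : D.trace = 0) (hZ : Z = D + s • (1 : Matrix μ μ ℂ))
    (h : Zᵀ * ψ + ψ * Z = m • ψ) : m = 2 * s := by
  have hu : IsUnit ψ.det := isUnit_iff_ne_zero.2 hψ
  have h1 := congrArg (fun Y => (Y * ψ⁻¹).trace) h
  beta_reduce at h1
  have h2 : ((Zᵀ * ψ + ψ * Z) * ψ⁻¹).trace = 2 * Z.trace := by
    rw [Matrix.add_mul, trace_add, Matrix.mul_assoc, Matrix.mul_nonsing_inv _ hu, Matrix.mul_one,
      trace_transpose, Matrix.trace_mul_comm, ← Matrix.mul_assoc, Matrix.nonsing_inv_mul _ hu,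
      Matrix.one_mul]
    ring
  have h3 : ((m • ψ) * ψ⁻¹).trace = m * Fintype.card μ := by
    rw [Matrix.smul_mul, Matrix.mul_nonsing_inv _ hu, trace_smul, trace_one, smul_eq_mul]
  have h4 : Z.trace = s * Fintype.card μ := by
    rw [hZ, trace_add, hD, zero_add, trace_smul, trace_one, smul_eq_mul]
  rw [h2, h3, h4, ← mul_assoc] at h1
  have h5 : (Fintype.card μ : ℂ) ≠ 0 := Nat.cast_ne_zero.2 Fintype.card_ne_zero
  exact (mul_right_cancel₀ h5 h1).symm

theorem cx_det {μ : Type} [Fintype μ] [DecidableEq μ] {ψ : Matrix μ μ ℚ} (h : ψ.det ≠ 0) :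
    (cx ψ).det ≠ 0 := by
  have h4 : (cx ψ).det = (ψ.det : ℂ) := by
    have := (RingHom.map_det (Rat.castHom ℂ) ψ).symm
    exact this
  rw [h4]
  exact_mod_cast h

end FulbM

open FulbM FulaM KFull3M KGrpM KRatM KLieM in
theorem specUFulB (hRat : SpecKRat3) (hHDA : SpecHDA) (hLie : SpecULie) (hFulA : SpecUFulA)
    (hFlt : SpecUFlt) (hGal : SpecUGal) (hMat : SpecUMat) (hScl : SpecUScl) (hEndS : SpecUEnd) :
    SpecUFulB := by
  intro g N n A c t qdR qB B E κ _ _ m P Q lam hK hEF hS h0 hm hFl T hT htT hcl χ r hyp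
  obtain ⟨⟨J, hJ⟩, hEnd⟩ := hHDA Qbar g N A c le_rfl hK.abvar hK.per
  change HD c J A.psi at hJ
  obtain ⟨kk, hkk, hlog⟩ := hRat g N n A c t qdR qB B E J _ hK hJ T hT htT hcl
  have hQ := hK.symm
  have hdet := hK.det
  have hclf := hK.clifford
  obtain ⟨hM1, hM2, -, -, -⟩ := hMat n qB E κ m P Q lam hQ hS
  obtain ⟨hG, -⟩ := hGal n qB E κ m P Q lam hQ hdet hS h0
  classical
  choose! mm rr hr using hkk
  have hne : Nonempty (Ix g) := ⟨Sum.inl ⟨0, hK.pos⟩⟩
  have hm0 : ∀ k, (m k : ℂ) ≠ 0 := fun k => Nat.cast_ne_zero.2 (h0 k).ne'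
  -- the elements of `kk`
  have hin : ∀ Z ∈ kk, InL T c qB B E A.psi (cx Z) (cx (rr Z)) (mm Z) := by
    intro Z hZ
    obtain ⟨h4, h5, h6, h7, h8⟩ := hr Z hZ
    refine ⟨h6, fun j => ?_, ?_, fun Z₀ hZ₀ => ?_, ?_, fun e he => ?_⟩
    · rw [← cx_mul, ← cx_mul]
      have e1 := congrArg cx (h7 j)
      have e2 : cx (Z * B j - B j * Z) = cx (Z * B j) - cx (B j * Z) := by
        ext a b
        simp [cx]
      rw [e2] at e1
      rw [e1]
      ext a b
      simp [cx, Matrix.sum_apply]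
    · have e1 := congrArg cx h4
      rw [cx_add, cx_mul, cx_mul, cx_smul] at e1
      exact e1
    · rw [← cx_mul, h8 Z₀ hZ₀, cx_mul]
    · have e1 := congrArg cx h5.1
      rw [cx_add, cx_mul, cx_mul, cx_zero] at e1
      exact e1
    · rw [← cx_mul, h5.2 e he, cx_mul]
  -- the relation
  have hrel : ∀ Z ∈ kk, ∑ k, (χ k : ℂ) * ((xk P Q qB (cx (rr Z)) k).trace / m k) +
      (r : ℂ) * ((mm Z : ℂ) / 2) = 0 := by
    intro Z hZ
    have hI := hin Z hZ
    set ρ : Matrix (Fin n) (Fin n) ℂ := cx (rr Z) with hρ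
    have hso : ρ ∈ soC qB E := ⟨hI.skew, hI.comm⟩
    obtain ⟨s, hs⟩ := hScl g n qB B E hQ hdet hclf (cx Z - (4 : ℂ)⁻¹ • clC B qB ρ)
      (hI.diff hQ hdet hclf) (fun Z₀ hZ₀ => by
        have hZ₁ : Z₀ ∈ EndAlg c.1 := hEF Z₀ hZ₀
        rw [Matrix.sub_mul, Matrix.mul_sub, hI.endo Z₀ hZ₁, Matrix.smul_mul, Matrix.mul_smul,
          hEndS g N n A c t qdR qB B E hK hEnd ρ hso Z₀ hZ₁])
    have hZs : cx Z = (4 : ℂ)⁻¹ • clC B qB ρ + s • (1 : Matrix (Ix g) (Ix g) ℂ) := by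
      rw [← hs, add_sub_cancel]
    have hms : (mm Z : ℂ) = 2 * s := by
      refine mult_eq (cx_det hJ.det) ?_ hZs hI.mul
      rw [trace_smul, trace_clC hQ hdet hI.skew, smul_zero]
    -- the part of trace zero
    set X := xk P Q qB ρ with hX
    set z : κ → ℂ := fun k => (X k).trace / m k with hz
    have hρX : ρ = um P Q qB (blockDiagonal' X) := hM1 ρ hso
    have hX' : ∀ k, (X k - z k • (1 : Matrix (Fin (m k)) (Fin (m k)) ℂ)).trace = 0 := by
      intro k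
      rw [trace_sub, trace_smul, trace_one, Fintype.card_fin, smul_eq_mul, hz]
      simp only
      rw [div_mul_cancel₀ _ (hm0 k), sub_self]
    have hA := (hFulA g N n A c t qdR qB B E κ m P Q lam hK hEF hS h0 hm T hT htT hcl
      (fun k => X k - z k • (1 : Matrix (Fin (m k)) (Fin (m k)) ℂ)) hX' _ rfl).1
    have hsplit : ρ = um P Q qB (blockDiagonal' fun k =>
        X k - z k • (1 : Matrix (Fin (m k)) (Fin (m k)) ℂ)) + uz P Q qB z := by
      rw [uz, ← um_add, hρX]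
      congr 1
      ext u v
      obtain ⟨k, a⟩ := u
      obtain ⟨l, b⟩ := v
      by_cases hkl : k = l
      · subst hkl
        by_cases hab : a = b
        · subst hab
          simp
        · have : (⟨k, a⟩ : (k : κ) × Fin (m k)) ≠ ⟨k, b⟩ := by
            intro h
            exact hab (eq_of_heq (Sigma.mk.inj h).2)
          rw [Matrix.add_apply, diagonal_apply_ne _ this, add_zero,
            blockDiagonal'_apply_eq, blockDiagonal'_apply_eq, Matrix.sub_apply, Matrix.smul_apply,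
            Matrix.one_apply_ne hab, smul_zero, sub_zero]
      · have : (⟨k, a⟩ : (k : κ) × Fin (m k)) ≠ ⟨l, b⟩ := by
          intro h
          exact hkl (congrArg Sigma.fst h)
        rw [Matrix.add_apply, diagonal_apply_ne _ this, add_zero,
          blockDiagonal'_apply_ne _ _ _ hkl, blockDiagonal'_apply_ne _ _ _ hkl]
    set ρ' := um P Q qB (blockDiagonal' fun k =>
        X k - z k • (1 : Matrix (Fin (m k)) (Fin (m k)) ℂ)) with hρ'
    have hmem : lb3 ((4 : ℂ)⁻¹ • clC B qB (uz P Q qB z) + s • 1) (uz P Q qB z) (2 * s) ∈ lie T := by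
      have h1 := (lie T).sub_mem hI.mem hA
      rw [lb3_sub, sub_zero, hms, hZs] at h1
      have e1 : (4 : ℂ)⁻¹ • clC B qB ρ + s • (1 : Matrix (Ix g) (Ix g) ℂ) -
          (4 : ℂ)⁻¹ • clC B qB ρ' = (4 : ℂ)⁻¹ • clC B qB (uz P Q qB z) + s • 1 := by
        conv_lhs => rw [hsplit]
        rw [clC_add, smul_add]
        abel
      have e2 : ρ - ρ' = uz P Q qB z := by
        conv_lhs => rw [hsplit]
        rw [add_sub_cancel_left]
      rw [e1, e2] at h1
      exact h1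
    have h2 := hyp z s hmem
    have h3 : (mm Z : ℂ) / 2 = s := by rw [hms]; ring
    rw [h3]
    exact h2
  -- real and imaginary parts
  have him : ∀ Z ∈ kk, ∀ k, ((xk P Q qB (cx (rr Z)) k).trace).re = 0 := by
    intro Z hZ k
    have h1 := (hG (rr Z) (hr Z hZ).2.1).2 k
    have h2 := congrArg Complex.re h1
    rw [Complex.conj_re, Complex.neg_re] at h2
    linarith
  have hrm : ∀ Z ∈ kk, r * mm Z = 0 := by
    intro Z hZ
    have h1 := congrArg Complex.re (hrel Z hZ)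
    have h2 : (∑ k, (χ k : ℂ) * ((xk P Q qB (cx (rr Z)) k).trace / m k)).re = 0 := by
      rw [Complex.re_sum]
      refine Finset.sum_eq_zero fun k _ => ?_
      have e1 : (χ k : ℂ) * ((xk P Q qB (cx (rr Z)) k).trace / m k) =
          (((χ k : ℝ) / (m k : ℝ) : ℝ) : ℂ) * (xk P Q qB (cx (rr Z)) k).trace := by
        push_cast
        ring
      rw [e1, Complex.re_ofReal_mul, him Z hZ k, mul_zero]
    rw [Complex.add_re, h2, zero_add] at h1
    have e2 : (r : ℂ) * ((mm Z : ℂ) / 2) = (((r * mm Z / 2 : ℚ) : ℝ) : ℂ) := by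
      push_cast
      ring
    rw [e2, Complex.ofReal_re, Complex.zero_re] at h1
    have h3 : r * mm Z / 2 = 0 := by exact_mod_cast h1
    linarith
  have hsum : ∀ Z ∈ kk, ∑ k, ((χ k / m k : ℚ) : ℂ) * (xk P Q qB (cx (rr Z)) k).trace = 0 := by
    intro Z hZ
    have h1 := hrel Z hZ
    have e2 : (r : ℂ) * ((mm Z : ℂ) / 2) = (((r * mm Z / 2 : ℚ)) : ℂ) := by
      push_cast
      ring
    rw [e2, hrm Z hZ, zero_div, Rat.cast_zero, add_zero] at h1
    rw [← h1]
    refine Finset.sum_congr rfl fun k _ => ?_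
    push_cast
    ring
  -- a non-zero multiplier
  have hex : ∃ Z ∈ kk, mm Z ≠ 0 := by
    by_contra hcon
    push Not at hcon
    obtain ⟨δ, hδ⟩ : ∃ δ : Derivation Qbar ℂ ℂ, δ (2 * Real.pi * Complex.I) ≠ 0 := by
      by_contra hne
      push Not at hne
      exact U.SimM.two_pi_I_notMem (specDsc.2 _ hne)
    obtain ⟨ψdR, hψ, hleg⟩ := hJ.leg
    have h1 := U.SimM.log_deriv c A.psi ψdR hψ hleg δ
    have h2 : (c.1.map δ * c⁻¹.1)ᵀ * cx A.psi + cx A.psi * (c.1.map δ * c⁻¹.1) = 0 := by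
      refine Submodule.span_induction
        (p := fun Y _ => Yᵀ * cx A.psi + cx A.psi * Y = 0) ?_ ?_ ?_ ?_ (hlog δ)
      · rintro _ ⟨Z, hZ, rfl⟩
        have h3 := (hin Z hZ).mul
        rw [hcon Z hZ, Rat.cast_zero, zero_smul] at h3
        exact h3
      · simp
      · intro X Y _ _ hX hY
        rw [transpose_add, Matrix.add_mul, Matrix.mul_add, add_add_add_comm, hX, hY, add_zero]
      · intro a X _ hX
        rw [transpose_smul, Matrix.smul_mul, Matrix.mul_smul, ← smul_add, hX, smul_zero]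
    have h3 : (δ (2 * Real.pi * Complex.I) / (2 * Real.pi * Complex.I)) • cx A.psi = 0 :=
      h1.symm.trans h2
    have hM0 : δ (2 * Real.pi * Complex.I) / (2 * Real.pi * Complex.I) ≠ 0 :=
      div_ne_zero hδ Complex.two_pi_I_ne_zero
    have h4 := (smul_eq_zero.1 h3).resolve_left hM0
    apply cx_det hJ.det
    rw [h4]
    exact Matrix.det_zero
  refine ⟨?_, ?_⟩
  · by_contra hχ
    have hχ' : (fun k => χ k / (m k : ℚ)) ≠ 0 := by
      intro h
      apply hχ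
      funext k
      have h1 := congrFun h k
      have h2 : (m k : ℚ) ≠ 0 := Nat.cast_ne_zero.2 (h0 k).ne'
      simpa [h2] using h1
    have hlieU := (hLie g N n A c t qdR qB B E κ m P Q lam J A.psi hK hS h0 hm hJ hEnd kk
      (fun Z hZ => ⟨mm Z, (hr Z hZ).1⟩) hlog rr
      (fun Z hZ => ⟨(hr Z hZ).2.1, (hr Z hZ).2.2.2.1⟩)).2
    obtain ⟨_, ⟨Z, hZ, rfl⟩, hne⟩ := hFlt n qB E κ m P Q lam hQ hdet hS h0 hFl
      {ρ | ∃ Z ∈ kk, rr Z = ρ} (by
        rintro _ ⟨Z, hZ, rfl⟩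
        exact (hr Z hZ).2.1) (by
        intro d hd hd0
        obtain ⟨Z, hZ, h⟩ := hlieU d hd hd0
        exact ⟨_, ⟨Z, hZ, rfl⟩, h⟩) _ hχ'
    exact hne (hsum Z hZ)
  · obtain ⟨Z, hZ, h⟩ := hex
    exact (mul_eq_zero.1 (hrm Z hZ)).resolve_right h

end Pool.Agent.Lib.MPf11a48.KU
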