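import Pool.Agent.Lib.MP_f11a48_ag.KU.Spec

/-! # Torsors over `Qbar` with group over `ℚ` through `(c, t, 2 π i)`, the unitary case -/

set_option autoImplicit false
set_option linter.unusedSectionVars false

namespace Pool.Agent.Lib.MPf11a48.KU

open Matrix MvPolynomial Pool.Agent.Lib.MPf11a48.Tors
open Pool.Agent.Lib.MPf11a48.CM hiding OmegaM
open Pool.Agent.Lib.MPf11a48.GL2 (lie Geo)
open Pool.Agent.Lib.MPf11a48.GL2T (IsAlg)
open Pool.Agent.Lib.MPf11a48.U (AbData Ix HD EndAlg SpecHDA)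
open Pool.Agent.Lib.MPf11a48.K3
open KLieM (bl clC)

namespace GrpM

open KGrpM KGrp3M

variable {g n : ℕ} {κ : Type} [Fintype κ] [DecidableEq κ] {m : κ → ℕ}

theorem scl_val {ι : Type} [Fintype ι] [DecidableEq ι] (z : ℂˣ) :
    (scl z : GL ι ℂ).1 = (z : ℂ) • 1 := by
  change Matrix.scalar ι (z : ℂ) = _
  rw [Matrix.scalar_apply, Matrix.smul_one_eq_diagonal]

theorem ugm_eq (P Q : Matrix (Fin n) ((k : κ) × Fin (m k)) ℂ) (qB : Matrix (Fin n) (Fin n) ℚ)
    (x : (k : κ) → GL (Fin (m k)) ℂ) : ugm P Q qB x =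
      cm P (Qᵀ * cx qB) (fun k => (x k).1) + cm Q (Pᵀ * cx qB) (fun k => (x k)⁻¹.1ᵀ) := rfl

/-- the homomorphism `ugm` -/
noncomputable def ug {P Q : Matrix (Fin n) ((k : κ) × Fin (m k)) ℂ} {qB : Matrix (Fin n) (Fin n) ℚ}
    (h : ∀ x y : (k : κ) → GL (Fin (m k)) ℂ,
      ugm P Q qB x * ugm P Q qB y = ugm P Q qB (x * y) ∧ ugm P Q qB 1 = 1) :
    ((k : κ) → GL (Fin (m k)) ℂ) →* GL (Fin n) ℂ where
  toFun x := ⟨ugm P Q qB x, ugm P Q qB x⁻¹, by
    rw [(h x x⁻¹).1, mul_inv_cancel, (h 1 1).2], by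
    rw [(h x⁻¹ x).1, inv_mul_cancel, (h 1 1).2]⟩
  map_one' := Units.ext (h 1 1).2
  map_mul' x y := Units.ext (h x y).1.symm

theorem um_mul_ugm {P Q : Matrix (Fin n) ((k : κ) × Fin (m k)) ℂ}
    {qB : Matrix (Fin n) (Fin n) ℚ}
    (h : ∀ X : Matrix ((k : κ) × Fin (m k)) ((k : κ) × Fin (m k)) ℂ,
      um P Q qB X * P = P * X ∧ um P Q qB X * Q = -(Q * Xᵀ))
    (X : (k : κ) → Matrix (Fin (m k)) (Fin (m k)) ℂ) (x : (k : κ) → GL (Fin (m k)) ℂ) :
    um P Q qB (blockDiagonal' X) * ugm P Q qB x =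
      cm P (Qᵀ * cx qB) (fun k => X k * (x k).1) +
        cm Q (Pᵀ * cx qB) (fun k => (-((x k)⁻¹.1 * X k))ᵀ) := by
  have e1 : (fun k => (-((x k)⁻¹.1 * X k))ᵀ) = fun k => -((X k)ᵀ * ((x k)⁻¹.1)ᵀ) := by
    funext k
    rw [Matrix.transpose_neg, Matrix.transpose_mul]
  have e2 : blockDiagonal' (fun k => -((X k)ᵀ * ((x k)⁻¹.1)ᵀ)) =
      -(blockDiagonal' (fun k => (X k)ᵀ) * blockDiagonal' (fun k => ((x k)⁻¹.1)ᵀ)) := by
    rw [← blockDiagonal'_mul, ← blockDiagonal'_neg]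
    rfl
  have e3 : um P Q qB (blockDiagonal' X) * cm P (Qᵀ * cx qB) (fun k => (x k).1) =
      cm P (Qᵀ * cx qB) (fun k => X k * (x k).1) := by
    unfold cm
    calc um P Q qB (blockDiagonal' X) * (P * blockDiagonal' (fun k => (x k).1) * (Qᵀ * cx qB)) =
        (um P Q qB (blockDiagonal' X) * P) * blockDiagonal' (fun k => (x k).1) *
          (Qᵀ * cx qB) := by simp only [Matrix.mul_assoc]
      _ = _ := by
        rw [(h _).1, Matrix.mul_assoc P, ← blockDiagonal'_mul]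
  have e4 : um P Q qB (blockDiagonal' X) * cm Q (Pᵀ * cx qB) (fun k => (x k)⁻¹.1ᵀ) =
      cm Q (Pᵀ * cx qB) (fun k => (-((x k)⁻¹.1 * X k))ᵀ) := by
    unfold cm
    rw [e1, e2]
    calc um P Q qB (blockDiagonal' X) * (Q * blockDiagonal' (fun k => (x k)⁻¹.1ᵀ) *
          (Pᵀ * cx qB)) =
        (um P Q qB (blockDiagonal' X) * Q) * blockDiagonal' (fun k => (x k)⁻¹.1ᵀ) *
          (Pᵀ * cx qB) := by simp only [Matrix.mul_assoc]
      _ = _ := by
        rw [(h _).2, blockDiagonal'_transpose]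
        simp only [Matrix.mul_assoc, Matrix.neg_mul, Matrix.mul_neg]
  rw [ugm_eq, Matrix.mul_add, e3, e4]

theorem hasDerivAt_ugm {P Q : Matrix (Fin n) ((k : κ) × Fin (m k)) ℂ}
    {qB : Matrix (Fin n) (Fin n) ℚ} {x : ℂ → (k : κ) → GL (Fin (m k)) ℂ}
    {X Y : (k : κ) → Matrix (Fin (m k)) (Fin (m k)) ℂ} {s : ℂ}
    (hX : ∀ k u v, HasDerivAt (fun s => (x s k).1 u v) (X k u v) s)
    (hY : ∀ k u v, HasDerivAt (fun s => (x s k)⁻¹.1 u v) (Y k u v) s) (i j : Fin n) :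
    HasDerivAt (fun s => ugm P Q qB (x s) i j)
      ((cm P (Qᵀ * cx qB) X + cm Q (Pᵀ * cx qB) (fun k => (Y k)ᵀ)) i j) s := by
  have h1 := hasDerivAt_cm (P := P) (P' := Qᵀ * cx qB) (X := fun s k => (x s k).1) hX i j
  have h2 := hasDerivAt_cm (P := Q) (P' := Pᵀ * cx qB) (X := fun s k => ((x s k)⁻¹.1)ᵀ)
    (Y := fun k => (Y k)ᵀ) (s := s) (fun k u v => hY k v u) i j
  exact h1.add h2

/-- every family of matrices lifts, with any multiplier, to the stabiliser of `T` -/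
theorem exists_lift (hFul : SpecUFulA) (hTg : SpecUTg) (hGen : SpecUGen)
    (hMat : SpecUMat) (hEnd : SpecUEnd) (hCur : SpecKCur) (hCurve : SpecCurve)
    (hHDA : SpecHDA) {g N n : ℕ} {A : AbData g N} {c : GL (Ix g) ℂ} {t : GL (Fin n) ℂ}
    {qdR : Matrix (Fin n) (Fin n) ℂ} {qB : Matrix (Fin n) (Fin n) ℚ}
    {B : Fin n → Matrix (Ix g) (Ix g) ℚ} {E : Set (Matrix (Fin n) (Fin n) ℚ)}
    {κ : Type} [Fintype κ] [DecidableEq κ] {m : κ → ℕ}
    {P Q : Matrix (Fin n) ((k : κ) × Fin (m k)) ℂ} {lam : Matrix (Fin n) (Fin n) ℚ → κ → ℂ}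
    (hK : KugaSatake A c t qdR qB B E) (hE : EndFull c qB B E) (hS : SplitU qB E m P Q lam)
    (hm : ∀ k, 0 < m k) (hev : ∀ k, m k = 1 ∨ Even (m k)) (hflat : FlatU E lam)
    {T : Set (GL (Ix g ⊕ (Fin n ⊕ Unit)) ℂ)} (hT : IsTorsor Qbar T) (htT : bd3 (c, t, tpi) ∈ T)
    (hcl : ClosedOver ⊥ (grp T)) (x : (k : κ) → GL (Fin (m k)) ℂ) (w : ℂˣ) :
    ∃ y1 ∈ G0 B (EndAlg c.1) A.psi ⊓ (stab T).comap bd3, y1.2.1.1 = ugm P Q qB x ∧
      y1.2.2 = w := by
  obtain ⟨⟨J, hJ⟩, hendo⟩ := hHDA Qbar g N A c le_rfl hK.abvar hK.per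
  have hgeo := GL2.geo_of_torsor hT
  obtain ⟨-, hM2, hM3, -, hM5⟩ := hMat n qB E κ m P Q lam hK.symm hS
  obtain ⟨hT1, hT2⟩ := hTg g N n A c t qdR qB B E κ m P Q lam hK hE hS hm hev hflat T hT htT hcl
  obtain ⟨GG, hGG⟩ : ∃ GG : Subgroup (Grp3 g n),
    GG = G0 B (EndAlg c.1) A.psi ⊓ (stab T).comap bd3 := ⟨_, rfl⟩
  rw [← hGG] at hT1 hT2
  have hfac : ∀ (k : κ) (u : GL (Fin (m k)) ℂ), u.1.det = 1 →
      ug hM5 (Pi.mulSingle k u) ∈ G1 GG := by
    intro k u hu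
    have key : u ∈ (G1 GG).comap ((ug hM5).comp
        (MonoidHom.mulSingle (fun k => GL (Fin (m k)) ℂ) k)) := by
      refine hGen (m k) _ (fun X hX x hx0 hd hd' s => ?_) u hu
      change ug hM5 (Pi.mulSingle k (x s)) ∈ G1 GG
      have htr : ∀ k', ((Pi.single k X : (k : κ) → Matrix (Fin (m k)) (Fin (m k)) ℂ) k').trace =
          0 := by
        intro k'
        by_cases hk : k' = k
        · subst hk
          rw [Pi.single_eq_same, hX]
        · rw [Pi.single_eq_of_ne hk, Matrix.trace_zero]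
      obtain ⟨ρ, hρ⟩ : ∃ ρ, ρ = um P Q qB (blockDiagonal' (Pi.single k X)) := ⟨_, rfl⟩
      have hρs : ρ ∈ soC qB E := by
        rw [hρ]
        exact (hM2 _).1
      obtain ⟨hl, hψ⟩ := hFul g N n A c t qdR qB B E κ m P Q lam hK hE hS hm hev T hT htT hcl
        (Pi.single k X) htr ρ hρ
      have hx0' : ug hM5 (Pi.mulSingle k (x 0)) = 1 := by
        rw [hx0, Pi.mulSingle_one, map_one]
      have hxd : ∀ s i j, HasDerivAt (fun s => (ug hM5 (Pi.mulSingle k (x s))).1 i j)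
          ((ρ * (ug hM5 (Pi.mulSingle k (x s))).1) i j) s := by
        intro s i j
        change HasDerivAt (fun s => ugm P Q qB (Pi.mulSingle k (x s)) i j)
          ((ρ * ugm P Q qB (Pi.mulSingle k (x s))) i j) s
        rw [hρ, um_mul_ugm hM3]
        refine hasDerivAt_ugm (x := fun s => Pi.mulSingle k (x s))
          (X := fun k' => (Pi.single k X : (k : κ) → Matrix (Fin (m k)) (Fin (m k)) ℂ) k' *
            ((Pi.mulSingle k (x s) : (k : κ) → GL (Fin (m k)) ℂ) k').1)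
          (Y := fun k' => -(((Pi.mulSingle k (x s) : (k : κ) → GL (Fin (m k)) ℂ) k')⁻¹.1 *
            (Pi.single k X : (k : κ) → Matrix (Fin (m k)) (Fin (m k)) ℂ) k'))
          (fun k' a b => ?_) (fun k' a b => ?_) i j
        · by_cases hk : k' = k
          · subst hk
            simp only [Pi.mulSingle_eq_same, Pi.single_eq_same]
            exact hd s a b
          · simp only [Pi.mulSingle_eq_of_ne hk, Pi.single_eq_of_ne hk, Matrix.zero_mul]
            exact hasDerivAt_const s _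
        · by_cases hk : k' = k
          · subst hk
            simp only [Pi.mulSingle_eq_same, Pi.single_eq_same]
            exact hd' s a b
          · simp only [Pi.mulSingle_eq_of_ne hk, Pi.single_eq_of_ne hk, Matrix.mul_zero, neg_zero]
            exact hasDerivAt_const s _
      obtain ⟨a, ha0, had, ha⟩ := hCur g n qB B A.psi _ hK.symm hK.det hK.clifford
        hρs.1 hψ (fun s => ug hM5 (Pi.mulSingle k (x s))) hx0' hxd
      refine ⟨a s, ?_⟩
      rw [hGG]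
      refine ⟨⟨(ha s).1, fun Z hZ' => (ha s).2.1 _ ?_, ?_⟩, ?_⟩
      · exact hEnd g N n A c t qdR qB B E hK hendo ρ hρs Z hZ'
      · change (a s).1ᵀ * cx A.psi * (a s).1 = ((1 : ℂˣ) : ℂ) • cx A.psi
        rw [(ha s).2.2, Units.val_one, one_smul]
      · change bd3 (a s, ug hM5 (Pi.mulSingle k (x s)), 1) ∈ stab T
        refine mem_stab hgeo fun f hf => ?_
        refine hCurve _ T hgeo _ hl
          (fun s => bd3 (a s, ug hM5 (Pi.mulSingle k (x s)), 1)) ?_ ?_ f hf s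
        · rw [ha0, hx0']
          exact map_one bd3
        · intro s i j
          rw [bd3_val, lb3_mul, zero_mul]
          exact hasDerivAt_lb3 (Z := fun s => (a s).1)
            (X := fun s => (ug hM5 (Pi.mulSingle k (x s))).1)
            (u := fun _ => ((1 : ℂˣ) : ℂ)) (had s) (hxd s) (hasDerivAt_const s _) i j
    exact key
  have hall : ∀ x : (k : κ) → GL (Fin (m k)) ℂ, (∀ k, (x k).1.det = 1) → ug hM5 x ∈ G1 GG := by
    intro x hx
    have key : x ∈ (G1 GG).comap (ug hM5) := by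
      refine Subgroup.pi_mem_of_mulSingle_mem x fun k => ?_
      exact hfac k (x k) (hx k)
    exact key
  -- the scalars
  have hz : ∀ k, ∃ z : ℂˣ, z ^ m k = Matrix.GeneralLinearGroup.det (x k) := by
    intro k
    obtain ⟨z, hz⟩ := IsAlgClosed.exists_pow_nat_eq
      ((Matrix.GeneralLinearGroup.det (x k) : ℂˣ) : ℂ) (hm k)
    have hz0 : z ≠ 0 := by
      rintro rfl
      rw [zero_pow (hm k).ne'] at hz
      exact (Matrix.GeneralLinearGroup.det (x k)).ne_zero hz.symm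
    refine ⟨Units.mk0 z hz0, Units.ext ?_⟩
    rw [Units.val_pow_eq_pow_val, Units.val_mk0, hz]
  choose z hz using hz
  obtain ⟨s, hs⟩ : ∃ s : ℂˣ, s ^ 2 * ∏ k, z k ^ m k = w := by
    obtain ⟨s, hs⟩ := IsAlgClosed.exists_pow_nat_eq
      ((w * (∏ k, z k ^ m k)⁻¹ : ℂˣ) : ℂ) two_pos
    have hs0 : s ≠ 0 := by
      rintro rfl
      rw [zero_pow two_ne_zero] at hs
      exact (w * (∏ k, z k ^ m k)⁻¹).ne_zero hs.symm
    refine ⟨Units.mk0 s hs0, ?_⟩
    have e : Units.mk0 s hs0 ^ 2 = w * (∏ k, z k ^ m k)⁻¹ := by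
      refine Units.ext ?_
      rw [Units.val_pow_eq_pow_val, Units.val_mk0, hs]
    rw [e, inv_mul_cancel_right]
  obtain ⟨x', hx'⟩ : ∃ x' : (k : κ) → GL (Fin (m k)) ℂ, x' = (fun k => scl (z k))⁻¹ * x := ⟨_, rfl⟩
  have hxx : x = (fun k => scl (z k)) * x' := by
    rw [hx', mul_inv_cancel_left]
  have hx'd : ∀ k, (x' k).1.det = 1 := by
    intro k
    have h1 : x k = scl (z k) * x' k := congrFun hxx k
    have h2 : (x k).1.det = (z k : ℂ) ^ m k * (x' k).1.det := by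
      rw [h1]
      change ((scl (z k) : GL (Fin (m k)) ℂ).1 * (x' k).1).det = _
      rw [Matrix.det_mul, scl_val, Matrix.det_smul, Matrix.det_one, mul_one, Fintype.card_fin]
    have h3 : (z k : ℂ) ^ m k = (x k).1.det := by
      have h4 := congrArg Units.val (hz k)
      rw [Units.val_pow_eq_pow_val] at h4
      exact h4
    rw [h3] at h2
    have h5 : (x k).1.det ≠ 0 := (Matrix.GeneralLinearGroup.det (x k)).ne_zero
    exact mul_left_cancel₀ h5 (h2.symm.trans (mul_one _).symm)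
  obtain ⟨a', ha'⟩ := hall x' hx'd
  obtain ⟨a, b, hb, hab⟩ := hT2 z
  have hb' : b = ug hM5 (fun k => scl (z k)) := Units.ext hb
  refine ⟨(sc s, 1, s ^ 2) * (a, b, ∏ k, z k ^ m k) * (a', ug hM5 x', 1), ?_, ?_, ?_⟩
  · rw [← hGG]
    exact GG.mul_mem (GG.mul_mem (hT1 s) hab) ha'
  · change (1 * b * ug hM5 x').1 = ugm P Q qB x
    rw [one_mul, hb', ← map_mul, ← hxx]
    rfl
  · change s ^ 2 * (∏ k, z k ^ m k) * 1 = w
    rw [mul_one, hs]

end GrpM

open KGrpM KGrp3M GrpM in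
theorem specUGrp (hFul : SpecUFulA) (hTg : SpecUTg) (hGen : SpecUGen) (hScl : SpecUScl)
    (hMat : SpecUMat) (hEnd : SpecUEnd) (hCur : SpecKCur) (hCurve : SpecCurve)
    (hHDA : SpecHDA) : SpecUGrp := by
  intro g N n A c t qdR qB B E κ _ _ m P Q lam hK hE hS hm hev hflat T hT htT hcl y hy
  obtain ⟨⟨J, hJ⟩, -⟩ := hHDA Qbar g N A c le_rfl hK.abvar hK.per
  obtain ⟨hT1, -⟩ := hTg g N n A c t qdR qB B E κ m P Q lam hK hE hS hm hev hflat T hT htT hcl
  obtain ⟨⟨x, hx⟩, hy1, hy2, hy3⟩ := hy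
  obtain ⟨y1, hy1G, hy1x, hy1w⟩ := exists_lift hFul hTg hGen hMat hEnd hCur hCurve hHDA hK hE hS
    hm hev hflat hT htT hcl x y.2.2
  obtain ⟨GG, hGG⟩ : ∃ GG : Subgroup (Grp3 g n),
    GG = G0 B (EndAlg c.1) A.psi ⊓ (stab T).comap bd3 := ⟨_, rfl⟩
  rw [← hGG] at hT1 hy1G
  have hy0 : y ∈ G0 B (EndAlg c.1) A.psi := ⟨hy1, hy2, hy3⟩
  have hy12 : y1.2 = y.2 := Prod.ext (Units.ext (hy1x.trans hx.symm)) hy1w
  obtain ⟨v, hv⟩ : ∃ v : Grp3 g n, v = y * y1⁻¹ := ⟨_, rfl⟩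
  have hy1G' : y1 ∈ G0 B (EndAlg c.1) A.psi := by
    rw [hGG] at hy1G
    exact hy1G.1
  have hv0 : v ∈ G0 B (EndAlg c.1) A.psi := by
    rw [hv]
    exact (G0 B (EndAlg c.1) A.psi).mul_mem hy0 ((G0 B (EndAlg c.1) A.psi).inv_mem hy1G')
  have hv2 : v.2 = 1 := by
    rw [hv, Prod.snd_mul, Prod.snd_inv, hy12, mul_inv_cancel]
  have hv21 : v.2.1.1 = 1 := by
    rw [hv2]
    rfl
  have hv22 : (v.2.2 : ℂ) = 1 := by
    rw [hv2]
    rfl
  obtain ⟨hv1, hvE, hvψ⟩ := hv0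
  obtain ⟨σ, hσ⟩ := hScl g n qB B E hK.symm hK.det hK.clifford v.1.1 (fun j => by
      have h1 := hv1 j
      rwa [hv21, sum_one] at h1) (fun Z hZ => hvE Z (hE Z hZ))
  have hψ0 : A.psi ≠ 0 := by
    intro h0
    have h1 : A.psi.det ≠ 0 := hJ.det
    have hne : Nonempty (Ix g) := ⟨Sum.inl ⟨0, hK.pos⟩⟩
    rw [h0, Matrix.det_zero] at h1
    exact h1 rfl
  have hss : σ * σ = 1 := by
    rw [hσ, hv22, one_smul, Matrix.transpose_smul, Matrix.transpose_one, Matrix.smul_mul,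
      Matrix.one_mul, Matrix.mul_smul, Matrix.mul_one, smul_smul] at hvψ
    obtain ⟨i, j, hij⟩ : ∃ i j, A.psi i j ≠ 0 := by
      by_contra hne
      push Not at hne
      exact hψ0 (Matrix.ext hne)
    have h1 := congrFun (congrFun hvψ i) j
    rw [Matrix.smul_apply, smul_eq_mul] at h1
    have h2 : cx A.psi i j ≠ 0 := by
      change ((A.psi i j : ℚ) : ℂ) ≠ 0
      exact_mod_cast hij
    exact mul_right_cancel₀ h2 (h1.trans (one_mul _).symm)
  have hvG : v ∈ GG := by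
    have hσ0 : σ ≠ 0 := left_ne_zero_of_mul_eq_one hss
    have e : v = (sc (Units.mk0 σ hσ0), 1, (Units.mk0 σ hσ0) ^ 2) := by
      refine Prod.ext (Units.ext ?_) ?_
      · change v.1.1 = (σ : ℂ) • 1
        exact hσ
      · rw [hv2]
        refine Prod.ext rfl (Units.ext ?_)
        change (1 : ℂ) = σ ^ 2
        rw [pow_two, hss]
    rw [e]
    exact hT1 _
  have hyG : y ∈ GG := by
    have e : y = v * y1 := by
      rw [hv, inv_mul_cancel_right]
    rw [e]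
    exact GG.mul_mem hvG hy1G
  have h1 : bd3 y ∈ stab T := by
    rw [hGG] at hyG
    exact hyG.2
  rw [map_mul]
  exact (h1 _ htT).1

end Pool.Agent.Lib.MPf11a48.KU
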