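import Pool.Agent.Lib.MP_f11a48_ag.KU.Spec
import Pool.Agent.Lib.MP_f11a48_ag.K3.KInj

/-! # EXT: extraction of the coefficients of an alternating tensor -/

set_option autoImplicit false

namespace Pool.Agent.Lib.MPf11a48.KU

open Matrix Pool.Agent.Lib.MPf11a48.K3

namespace ExtM

open InvM

variable {ι : Type} [Fintype ι] [DecidableEq ι] {d : ℕ} {e f : Fin d → Matrix ι ι ℂ}

lemma bt_cons {j : ℕ} (w : (Fin (j + 1) → Fin d) → ℂ) :
    bt e w = ∑ a, e a * bt e (fun J : Fin j → Fin d => w (Fin.cons a J)) := by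
  rw [KBrM.bt_eq, ← Equiv.sum_comp (Fin.insertNthEquiv (fun _ => Fin d) 0), Fintype.sum_prod_type]
  refine Finset.sum_congr rfl fun a _ => ?_
  rw [KBrM.bt_eq, Finset.mul_sum]
  refine Finset.sum_congr rfl fun J _ => ?_
  have e1 : (Fin.insertNthEquiv (fun _ => Fin d) 0) (a, J) = (Fin.cons a J : Fin (j + 1) → Fin d) := by
    change (Fin.insertNth 0 a J : Fin (j + 1) → Fin d) = _
    rw [Fin.insertNth_zero']
  rw [e1, G_succ, mul_smul_comm]
  simp only [Fin.cons_zero, Fin.cons_succ]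

lemma bt_neg {j : ℕ} (w : (Fin j → Fin d) → ℂ) : bt e (fun J => -w J) = -bt e w := by
  rw [KBrM.bt_eq, KBrM.bt_eq, ← Finset.sum_neg_distrib]
  refine Finset.sum_congr rfl fun J _ => ?_
  rw [neg_smul]

lemma bt_zero (w : (Fin 0 → Fin d) → ℂ) : bt e w = w default • (1 : Matrix ι ι ℂ) := by
  rw [KBrM.bt_eq, Fintype.sum_unique, G_zero]

lemma step (h : Car e f) {j : ℕ} (w : (Fin (j + 1) → Fin d) → ℂ) (b : Fin d) (v : ι → ℂ) :
    f b *ᵥ (bt e w *ᵥ v) = bt e (fun J : Fin j → Fin d => w (Fin.cons b J)) *ᵥ v -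
      ∑ a, e a *ᵥ (f b *ᵥ (bt e (fun J : Fin j → Fin d => w (Fin.cons a J)) *ᵥ v)) := by
  have h1 : ∀ a, f b * e a = (if a = b then 1 else 0) - e a * f b := by
    intro a
    rw [← h.ef a b]
    abel
  rw [mulVec_mulVec, bt_cons w, Finset.mul_sum]
  have h2 : ∀ a, f b * (e a * bt e (fun J : Fin j → Fin d => w (Fin.cons a J))) =
      (if a = b then bt e (fun J : Fin j → Fin d => w (Fin.cons a J)) else 0) -
        e a * (f b * bt e (fun J : Fin j → Fin d => w (Fin.cons a J))) := by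
    intro a
    rw [← mul_assoc, h1, sub_mul, mul_assoc]
    congr 1
    split_ifs
    · rw [one_mul]
    · rw [zero_mul]
  rw [Finset.sum_congr rfl fun a _ => h2 a, Finset.sum_sub_distrib, Finset.sum_ite_eq' Finset.univ b,
    if_pos (Finset.mem_univ b), sub_mulVec, sum_mulVec]
  simp only [mulVec_mulVec]

lemma swap01 {j : ℕ} (a b : Fin d) (J : Fin j → Fin d) :
    (Fin.cons a (Fin.cons b J : Fin (j + 1) → Fin d) : Fin (j + 2) → Fin d) =
      (Fin.cons b (Fin.cons a J : Fin (j + 1) → Fin d) : Fin (j + 2) → Fin d) ∘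
        (Equiv.swap 0 1) := by
  funext i
  refine Fin.cases ?_ (fun i => ?_) i
  · rw [Function.comp_apply, Equiv.swap_apply_left]
    rfl
  · refine Fin.cases ?_ (fun k => ?_) i
    · rw [Function.comp_apply]
      have : (Fin.succ 0 : Fin (j + 2)) = 1 := rfl
      rw [this, Equiv.swap_apply_right]
      rfl
    · rw [Function.comp_apply, Equiv.swap_apply_of_ne_of_ne]
      · rfl
      · exact Fin.succ_ne_zero _
      · intro h0
        have h1 : (k.succ.succ : Fin (j + 2)) = Fin.succ 0 := h0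
        exact Fin.succ_ne_zero k (Fin.succ_injective _ h1)

lemma alt_swap {j : ℕ} (w : (Fin (j + 2) → Fin d) → ℂ) (hw : Alt w) (a b : Fin d)
    (J : Fin j → Fin d) :
    w (Fin.cons a (Fin.cons b J : Fin (j + 1) → Fin d)) =
      -w (Fin.cons b (Fin.cons a J : Fin (j + 1) → Fin d)) := by
  rw [swap01, hw, Equiv.Perm.sign_swap (by
    intro h0
    exact Fin.succ_ne_zero (0 : Fin (j + 1)) h0.symm)]
  push_cast
  ring

lemma contractE (h : Car e f) (v : ι → ℂ) (hv : ∀ a, f a *ᵥ v = 0) : ∀ (j : ℕ)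
    (w : (Fin (j + 1) → Fin d) → ℂ), Alt w → ∀ b, f b *ᵥ (bt e w *ᵥ v) =
      ((j + 1 : ℕ) : ℂ) • (bt e (fun J : Fin j → Fin d => w (Fin.cons b J)) *ᵥ v)
  | 0, w, hw, b => by
    rw [step h]
    have h0 : ∀ a, f b *ᵥ (bt e (fun J : Fin 0 → Fin d => w (Fin.cons a J)) *ᵥ v) = 0 := by
      intro a
      rw [bt_zero, smul_mulVec, one_mulVec, mulVec_smul, hv, smul_zero]
    simp only [h0, mulVec_zero, Finset.sum_const_zero, sub_zero]
    simp
  | j + 1, w, hw, b => by
    rw [step h]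
    have h0 : ∀ a, e a *ᵥ (f b *ᵥ (bt e (fun J : Fin (j + 1) → Fin d => w (Fin.cons a J)) *ᵥ v)) =
        -(((j + 1 : ℕ) : ℂ) • ((e a * bt e (fun J : Fin j → Fin d =>
          w (Fin.cons b (Fin.cons a J : Fin (j + 1) → Fin d)))) *ᵥ v)) := by
      intro a
      rw [contractE h v hv j _ (KInjM.alt_cons w hw a) b]
      have e1 : (fun J : Fin j → Fin d => w (Fin.cons a (Fin.cons b J : Fin (j + 1) → Fin d))) =
          fun J : Fin j → Fin d => -w (Fin.cons b (Fin.cons a J : Fin (j + 1) → Fin d)) := by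
        funext J
        exact alt_swap w hw a b J
      rw [e1, bt_neg, neg_mulVec, smul_neg, mulVec_neg, mulVec_smul, mulVec_mulVec]
    rw [Finset.sum_congr rfl fun a _ => h0 a, Finset.sum_neg_distrib, ← Finset.smul_sum,
      ← sum_mulVec, ← bt_cons (e := e) (fun J : Fin (j + 1) → Fin d => w (Fin.cons b J))]
    rw [sub_neg_eq_add]
    have : (((j + 1 + 1 : ℕ) : ℂ)) = 1 + ((j + 1 : ℕ) : ℂ) := by push_cast; ring
    rw [this, add_smul, one_smul]

end ExtM

open ExtM in
/-- EXT -/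
theorem specUExt : SpecUExt := by
  intro ι _ _ d j e f h
  induction j with
  | zero =>
    intro w _ v _ J
    rw [List.ofFn_zero, List.reverse_nil, List.prod_nil, one_mul, bt_zero, smul_mulVec, one_mulVec,
      Subsingleton.elim J default]
    simp
  | succ j ih =>
    intro w hw v hv J
    rw [List.ofFn_succ, List.reverse_cons, List.prod_append, List.prod_singleton, mul_assoc,
      ← mulVec_mulVec, ← mulVec_mulVec, contractE h v hv j w hw, mulVec_smul, mulVec_mulVec,
      ih _ (KInjM.alt_cons w hw (J 0)) v hv (fun a => J a.succ), smul_smul]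
    have h3 : (Fin.cons (J 0) (fun a : Fin j => J a.succ) : Fin (j + 1) → Fin d) = J :=
      Fin.cons_self_tail J
    rw [h3, Nat.factorial_succ]
    congr 1
    push_cast
    ring

end Pool.Agent.Lib.MPf11a48.KU
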