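import Pool.Agent.Lib.MP_f11a48_ag.KU.Spec

/-! # PRD: products of creation and annihilation operators -/

set_option autoImplicit false

namespace Pool.Agent.Lib.MPf11a48.KU

open Matrix

namespace PrdM

variable {ι : Type} [Fintype ι] [DecidableEq ι] {d : ℕ} {e f : Fin d → Matrix ι ι ℂ}

/-- a product of annihilation operators and a creation operator -/
lemma comm (h : Car e f) (a : Fin d) : ∀ (l : List (Fin d)) (V : Submodule ℂ (Matrix ι ι ℂ)),
    (∀ m : List (Fin d), m.length + 1 = l.length → (m.map f).prod ∈ V) →
    ∃ ε : ℂ, ε ≠ 0 ∧ (l.map f).prod * e a - ε • (e a * (l.map f).prod) ∈ V := by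
  intro l
  induction l with
  | nil =>
    intro V _
    refine ⟨1, one_ne_zero, ?_⟩
    rw [List.map_nil, List.prod_nil, one_mul, mul_one, one_smul, sub_self]
    exact V.zero_mem
  | cons c l ih =>
    intro V hV
    obtain ⟨ε, hε, h1⟩ := ih (V.comap (LinearMap.mulLeft ℂ (f c))) (by
      intro m hm
      rw [Submodule.mem_comap, LinearMap.mulLeft_apply]
      have := hV (c :: m) (by rw [List.length_cons, List.length_cons, hm])
      rw [List.map_cons, List.prod_cons] at this
      exact this)
    rw [Submodule.mem_comap, LinearMap.mulLeft_apply] at h1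
    refine ⟨-ε, neg_ne_zero.2 hε, ?_⟩
    have h2 : ε • ((e a * f c + f c * e a) * (l.map f).prod) ∈ V := by
      apply V.smul_mem
      rw [h.ef]
      split_ifs
      · rw [one_mul]
        exact hV l (by rw [List.length_cons])
      · rw [zero_mul]
        exact V.zero_mem
    have h3 : ((c :: l).map f).prod * e a - (-ε) • (e a * ((c :: l).map f).prod) =
        f c * ((l.map f).prod * e a - ε • (e a * (l.map f).prod)) +
          ε • ((e a * f c + f c * e a) * (l.map f).prod) := by
      rw [List.map_cons, List.prod_cons, mul_sub, mul_smul_comm, add_mul, smul_add, neg_smul]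
      simp only [mul_assoc]
      abel
    rw [h3]
    exact V.add_mem h1 h2

lemma main (h : Car e f) (S : Subalgebra ℂ (Matrix ι ι ℂ)) (hS : ∀ a b, e a * f b ∈ S) :
    ∀ (n : ℕ) (l l' : List (Fin d)), l.length = n → l'.length = n →
      (l.map e).prod * (l'.map f).prod ∈ S := by
  intro n
  induction n with
  | zero =>
    intro l l' hl hl'
    rw [List.length_eq_zero_iff.1 hl, List.length_eq_zero_iff.1 hl', List.map_nil, List.map_nil,
      List.prod_nil, mul_one]
    exact S.one_mem
  | succ n ih =>
    intro l l' hl hl'
    obtain ⟨L, a, rfl⟩ : ∃ L a, l = L ++ [a] := by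
      rcases List.eq_nil_or_concat l with h0 | ⟨L, a, h0⟩
      · rw [h0] at hl
        exact absurd hl (by simp)
      · exact ⟨L, a, by rw [h0, List.concat_eq_append]⟩
    obtain ⟨L', b, rfl⟩ : ∃ L' b, l' = L' ++ [b] := by
      rcases List.eq_nil_or_concat l' with h0 | ⟨L', b, h0⟩
      · rw [h0] at hl'
        exact absurd hl' (by simp)
      · exact ⟨L', b, by rw [h0, List.concat_eq_append]⟩
    have hL : L.length = n := by simpa using hl
    have hL' : L'.length = n := by simpa using hl'
    set V : Submodule ℂ (Matrix ι ι ℂ) := (Subalgebra.toSubmodule S).comap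
      ((LinearMap.mulLeft ℂ (L.map e).prod).comp (LinearMap.mulRight ℂ (f b))) with hV
    have hmem : ∀ x, x ∈ V ↔ (L.map e).prod * (x * f b) ∈ S := fun x => Iff.rfl
    obtain ⟨ε, hε, h1⟩ := comm h a L' V (by
      intro m hm
      rw [hmem]
      have := ih L (m ++ [b]) hL (by rw [List.length_append, List.length_singleton, hm, hL'])
      rw [List.map_append, List.prod_append, List.map_singleton, List.prod_singleton] at this
      exact this)
    rw [hmem] at h1
    have h2 := S.mul_mem (ih L L' hL hL') (hS a b)
    have h3 : ε • ((L.map e).prod * e a * ((L'.map f).prod * f b)) ∈ S := by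
      have := S.sub_mem h2 h1
      have e1 : (L.map e).prod * (L'.map f).prod * (e a * f b) -
          (L.map e).prod * (((L'.map f).prod * e a - ε • (e a * (L'.map f).prod)) * f b) =
          ε • ((L.map e).prod * e a * ((L'.map f).prod * f b)) := by
        rw [sub_mul, mul_sub, smul_mul_assoc, mul_smul_comm]
        simp only [mul_assoc]
        abel
      rw [e1] at this
      exact this
    have h4 : ε⁻¹ • (ε • ((L.map e).prod * e a * ((L'.map f).prod * f b))) ∈ S := S.smul_mem h3 ε⁻¹
    rw [smul_smul, inv_mul_cancel₀ hε, one_smul] at h4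
    simp only [List.map_append, List.prod_append, List.map_singleton, List.prod_singleton]
    exact h4

end PrdM

/-- PRD -/
theorem specUPrd : SpecUPrd := by
  intro ι _ _ d j e f h S hS I J
  have := PrdM.main h S hS j (List.ofFn I) (List.ofFn J) List.length_ofFn List.length_ofFn
  rw [List.map_ofFn, List.map_ofFn] at this
  exact this

end Pool.Agent.Lib.MPf11a48.KU
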