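import Pool.Agent.Lib.MP_f11a48_ag.KU.Vac
import Pool.Agent.Lib.MP_f11a48_ag.KU.Prd
import Pool.Agent.Lib.MP_f11a48_ag.KU.Ext

/-! # IRR: irreducibility of the exterior powers -/

set_option autoImplicit false

namespace Pool.Agent.Lib.MPf11a48.KU

open Matrix Pool.Agent.Lib.MPf11a48.K3

namespace IrrM

variable {ι : Type} [Fintype ι] [DecidableEq ι]

/-- the algebra of the matrices which preserve `S` -/
def stabA (S : Submodule ℂ (ι → ℂ)) : Subalgebra ℂ (Matrix ι ι ℂ) where
  carrier := {M | ∀ x ∈ S, M *ᵥ x ∈ S}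
  mul_mem' := by
    intro M N hM hN x hx
    rw [← mulVec_mulVec]
    exact hM _ (hN x hx)
  add_mem' := by
    intro M N hM hN x hx
    rw [add_mulVec]
    exact S.add_mem (hM x hx) (hN x hx)
  algebraMap_mem' := by
    intro c x hx
    rw [Algebra.algebraMap_eq_smul_one, smul_mulVec, one_mulVec]
    exact S.smul_mem c hx

/-- the space of the vacuum vectors -/
def vac {d : ℕ} (f : Fin d → Matrix ι ι ℂ) : Submodule ℂ (ι → ℂ) where
  carrier := {v | ∀ a, f a *ᵥ v = 0}
  zero_mem' := fun a => mulVec_zero _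
  add_mem' := by
    intro x y hx hy a
    rw [mulVec_add, hx a, hy a, add_zero]
  smul_mem' := by
    intro c x hx a
    rw [mulVec_smul, hx a, smul_zero]

lemma prdR {d j : ℕ} {e f : Fin d → Matrix ι ι ℂ} (h : Car e f) (S : Subalgebra ℂ (Matrix ι ι ℂ))
    (hS : ∀ a b, e a * f b ∈ S) (I J : Fin j → Fin d) :
    (List.ofFn fun a => e (I a)).prod * (List.ofFn fun a => f (J a)).reverse.prod ∈ S := by
  have := PrdM.main h S hS j (List.ofFn I) (List.ofFn J).reverse List.length_ofFn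
    (by rw [List.length_reverse, List.length_ofFn])
  rw [List.map_reverse, List.map_ofFn, List.map_ofFn] at this
  exact this

end IrrM

open IrrM in
/-- IRR (from `SpecKBr`) -/
theorem specUIrr (hKBr : SpecKBr) : SpecUIrr := by
  intro ι _ _ _ d e f kk hU j W hW hst
  by_cases hb : W = ⊥
  · exact Or.inl hb
  right
  obtain ⟨w0, hw0, hne⟩ := (Submodule.ne_bot_iff W).1 hb
  obtain ⟨J0, hJ0⟩ : ∃ J0, w0 J0 ≠ 0 := by
    by_contra hcon
    push Not at hcon
    exact hne (funext hcon)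
  obtain ⟨v, hv, hvac⟩ := specUVac ι (Fin d) e f hU.car
  set S : Submodule ℂ (ι → ℂ) :=
    Submodule.span ℂ {x | ∃ w ∈ W, ∃ u ∈ vac f, x = bt e w *ᵥ u} with hSd
  have hX : ∀ X ∈ kk, X.1 ∈ stabA S := by
    intro X hXk x hx
    induction hx using Submodule.span_induction with
    | mem x hx =>
      obtain ⟨w, hw, u, hu, rfl⟩ := hx
      have h1 := hKBr ι d j e X.1 X.2 (hU.acte X hXk) w
      have h2 : X.1 *ᵥ (bt e w *ᵥ u) = bt e (actT X.2 w) *ᵥ u + bt e w *ᵥ (X.1 *ᵥ u) := by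
        rw [← h1, sub_mulVec, mulVec_mulVec, mulVec_mulVec, sub_add_cancel]
      rw [h2]
      refine S.add_mem (Submodule.subset_span ⟨_, hst X.2 ⟨X, hXk, rfl⟩ w hw, u, hu, rfl⟩)
        (Submodule.subset_span ⟨w, hw, _, ?_, rfl⟩)
      intro a
      have h3 := hU.actf X hXk a
      have h4 : f a * X.1 = X.1 * f a + ∑ i, X.2 a i • f i := by
        rw [← sub_eq_iff_eq_add', ← neg_sub, h3, neg_neg]
      rw [mulVec_mulVec, h4, add_mulVec, ← mulVec_mulVec, hu a, mulVec_zero, zero_add, sum_mulVec]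
      refine Finset.sum_eq_zero fun i _ => ?_
      rw [smul_mulVec, hu i, smul_zero]
    | zero => rw [mulVec_zero]; exact S.zero_mem
    | add x y _ _ hx hy => rw [mulVec_add]; exact S.add_mem hx hy
    | smul c x _ hx => rw [mulVec_smul]; exact S.smul_mem c hx
  have hef : ∀ a b, e a * f b ∈ stabA S := by
    intro a b
    have hle : Algebra.adjoin ℂ (Prod.fst '' kk) ≤ stabA S := by
      refine Algebra.adjoin_le ?_
      rintro _ ⟨X, hXk, rfl⟩
      exact hX X hXk
    exact hle (hU.gen a b)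
  have hfac : (j.factorial : ℂ) ≠ 0 := by exact_mod_cast Nat.factorial_ne_zero j
  have hE : ∀ I : Fin j → Fin d, (List.ofFn fun a => e (I a)).prod *ᵥ v ∈ S := by
    intro I
    have h1 : bt e w0 *ᵥ v ∈ S := Submodule.subset_span ⟨w0, hw0, v, hvac, rfl⟩
    have h2 := prdR hU.car (stabA S) hef I J0 _ h1
    rw [mulVec_mulVec, mul_assoc, ← mulVec_mulVec,
      specUExt ι d j e f hU.car w0 (hW w0 hw0) v hvac J0, mulVec_smul] at h2
    have h3 := S.smul_mem ((j.factorial : ℂ) * w0 J0)⁻¹ h2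
    rw [smul_smul, inv_mul_cancel₀ (mul_ne_zero hfac hJ0), one_smul] at h3
    exact h3
  intro w' hw'
  have hbt : bt e w' *ᵥ v ∈ S := by
    have : bt e w' *ᵥ v = ∑ I, w' I • ((List.ofFn fun a => e (I a)).prod *ᵥ v) := by
      rw [bt, sum_mulVec]
      exact Finset.sum_congr rfl fun I _ => smul_mulVec _ _ _
    rw [this]
    exact S.sum_mem fun I _ => S.smul_mem _ (hE I)
  obtain ⟨i0, hi0⟩ : ∃ i0, v i0 ≠ 0 := by
    by_contra hcon
    push Not at hcon
    exact hv (funext hcon)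
  set Φ : (ι → ℂ) →ₗ[ℂ] ((Fin j → Fin d) → ℂ) := LinearMap.pi fun J =>
    ((j.factorial : ℂ)⁻¹ * (v i0)⁻¹) • ((LinearMap.proj i0).comp
      (List.ofFn fun a => f (J a)).reverse.prod.mulVecLin) with hΦ
  have hΦv : ∀ (w : (Fin j → Fin d) → ℂ), Alt w → ∀ u ∈ vac f,
      Φ (bt e w *ᵥ u) = ((v i0)⁻¹ * u i0) • w := by
    intro w hw u hu
    funext J
    rw [hΦ, LinearMap.pi_apply, LinearMap.smul_apply, LinearMap.comp_apply, mulVecLin_apply,
      mulVec_mulVec, specUExt ι d j e f hU.car w hw u hu J, LinearMap.proj_apply, Pi.smul_apply,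
      Pi.smul_apply, smul_eq_mul, smul_eq_mul, smul_eq_mul]
    field_simp
  have hmap : ∀ x ∈ S, Φ x ∈ W := by
    intro x hx
    induction hx using Submodule.span_induction with
    | mem x hx =>
      obtain ⟨w, hw, u, hu, rfl⟩ := hx
      rw [hΦv w (hW w hw) u hu]
      exact W.smul_mem _ hw
    | zero => rw [map_zero]; exact W.zero_mem
    | add x y _ _ hx hy => rw [map_add]; exact W.add_mem hx hy
    | smul c x _ hx => rw [map_smul]; exact W.smul_mem c hx
  have h1 := hmap _ hbt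
  rw [hΦv w' hw' v hvac, inv_mul_cancel₀ hi0, one_smul] at h1
  exact h1

end Pool.Agent.Lib.MPf11a48.KU
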