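import Pool.Agent.Lib.MP_f11a48_ag.KU.SpecEx
import Pool.Agent.Lib.MP_f11a48_ag.KU.Grp

/-! # Lifting isometries which preserve the eigenspaces to `gspinU` -/

set_option autoImplicit false

namespace Pool.Agent.Lib.MPf11a48.KU

open Matrix MvPolynomial Pool.Agent.Lib.MPf11a48.Tors
open Pool.Agent.Lib.MPf11a48.CM hiding OmegaM
open Pool.Agent.Lib.MPf11a48.GL2 (lie Geo)
open Pool.Agent.Lib.MPf11a48.U (AbData Ix HD EndAlg SpecHDA)
open Pool.Agent.Lib.MPf11a48.K3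

open KGrpM KGrp3M GrpM in
theorem specULift (hFul : SpecUFulA) (hTg : SpecUTg) (hGen : SpecUGen) (hMat : SpecUMat)
    (hEnd : SpecUEnd) (hSim : SpecUSim) (hCur : SpecKCur) (hCurve : SpecCurve)
    (hHDA : SpecHDA) : SpecULift := by
  intro g N n A c t qdR qB B E κ _ _ m P Q lam hK hE hS hm hev hflat x z
  obtain ⟨⟨J, hJ⟩, -⟩ := hHDA Qbar g N A c le_rfl hK.abvar hK.per
  obtain ⟨hT, htT, hcl⟩ := hSim g N n A c t J hJ _ rfl
  obtain ⟨y, hy, hyx, hyz⟩ := exists_lift hFul hTg hGen hMat hEnd hCur hCurve hHDA hK hE hS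
    hm hev hflat hT htT hcl x z
  obtain ⟨h1, h2, h3⟩ := hy.1
  exact ⟨y, ⟨⟨x, hyx⟩, h1, h2, h3⟩, hyx, hyz⟩

end Pool.Agent.Lib.MPf11a48.KU
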