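import Pool.Agent.Lib.MP_f11a48_ag.KU.Spec

/-!
# LNK: no links
-/

set_option autoImplicit false

namespace Pool.Agent.Lib.MPf11a48.KU

open Matrix

namespace LnkM

variable {ι : Type} [Fintype ι] [DecidableEq ι]

section general

variable {U : Type} [Fintype U]

/-- `∑ Y_ab e_a f_b` -/
noncomputable def qq (e f : U → Matrix ι ι ℂ) : Matrix U U ℂ →ₗ[ℂ] Matrix ι ι ℂ where
  toFun Y := ∑ a, ∑ b, Y a b • (e a * f b)
  map_add' Y Z := by
    simp only [Matrix.add_apply, add_smul, Finset.sum_add_distrib]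
  map_smul' c Y := by
    simp only [Matrix.smul_apply, smul_eq_mul, mul_smul, Finset.smul_sum, RingHom.id_apply]

omit [DecidableEq ι] in
theorem qq_apply (e f : U → Matrix ι ι ℂ) (Y : Matrix U U ℂ) :
    qq e f Y = ∑ a, ∑ b, Y a b • (e a * f b) := rfl

/-- the action on a product -/
theorem actA (e f : U → Matrix ι ι ℂ) (X : Matrix ι ι ℂ) (x : Matrix U U ℂ)
    (h1 : ∀ j, X * e j - e j * X = ∑ i, x i j • e i)
    (h2 : ∀ j, X * f j - f j * X = -∑ i, x j i • f i) (i j : U) :
    X * (e i * f j) - (e i * f j) * X =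
      ∑ k, x k i • (e k * f j) - ∑ k, x j k • (e i * f k) := by
  have h3 : X * (e i * f j) - (e i * f j) * X = (X * e i - e i * X) * f j +
      e i * (X * f j - f j * X) := by noncomm_ring
  rw [h3, h1, h2, Finset.sum_mul, mul_neg, Finset.mul_sum, sub_eq_add_neg]
  simp only [smul_mul_assoc, mul_smul_comm]

theorem act (e f : U → Matrix ι ι ℂ) (X : Matrix ι ι ℂ) (x : Matrix U U ℂ)
    (h1 : ∀ j, X * e j - e j * X = ∑ i, x i j • e i)
    (h2 : ∀ j, X * f j - f j * X = -∑ i, x j i • f i) (Y : Matrix U U ℂ) :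
    X * qq e f Y - qq e f Y * X = qq e f (x * Y - Y * x) := by
  have e1 : X * qq e f Y - qq e f Y * X =
      ∑ a, ∑ b, Y a b • (∑ k, x k a • (e k * f b) - ∑ k, x b k • (e a * f k)) := by
    rw [qq_apply, Finset.mul_sum, Finset.sum_mul, ← Finset.sum_sub_distrib]
    refine Finset.sum_congr rfl fun a _ => ?_
    rw [Finset.mul_sum, Finset.sum_mul, ← Finset.sum_sub_distrib]
    refine Finset.sum_congr rfl fun b _ => ?_
    rw [mul_smul_comm, smul_mul_assoc, ← smul_sub, actA e f X x h1 h2]
  rw [e1, map_sub, qq_apply, qq_apply]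
  simp only [smul_sub, Finset.sum_sub_distrib]
  congr 1
  · simp only [Matrix.mul_apply, Finset.smul_sum, smul_smul, Finset.sum_smul]
    calc ∑ a, ∑ b, ∑ k, (Y a b * x k a) • (e k * f b)
        = ∑ a, ∑ k, ∑ b, (Y a b * x k a) • (e k * f b) :=
          Finset.sum_congr rfl fun a _ => Finset.sum_comm
      _ = ∑ k, ∑ a, ∑ b, (Y a b * x k a) • (e k * f b) := Finset.sum_comm
      _ = ∑ k, ∑ b, ∑ a, (Y a b * x k a) • (e k * f b) :=
          Finset.sum_congr rfl fun k _ => Finset.sum_comm
      _ = _ := by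
          refine Finset.sum_congr rfl fun k _ => Finset.sum_congr rfl fun b _ =>
            Finset.sum_congr rfl fun a _ => ?_
          rw [mul_comm]
  · simp only [Matrix.mul_apply, Finset.smul_sum, smul_smul, Finset.sum_smul]
    refine Finset.sum_congr rfl fun a _ => ?_
    rw [Finset.sum_comm]

end general

section car

variable {U : Type} [Fintype U] [DecidableEq U] {e f : U → Matrix ι ι ℂ}

omit [Fintype U] in
theorem fe (h : Car e f) (u v : U) : f v * e u = (if u = v then 1 else 0) - e u * f v := by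
  rw [← h.ef u v]; abel

omit [Fintype U] in
theorem ee (h : Car e f) (u v : U) : e v * e u = -(e u * e v) := by
  have := h.ee u v
  rw [eq_neg_iff_add_eq_zero, add_comm]; exact this

omit [Fintype U] in
theorem ff (h : Car e f) (u v : U) : f v * f u = -(f u * f v) := by
  have := h.ff u v
  rw [eq_neg_iff_add_eq_zero, add_comm]; exact this

theorem car_acte (h : Car e f) (Z : Matrix U U ℂ) (j : U) :
    qq e f Z * e j - e j * qq e f Z = ∑ i, Z i j • e i := by
  rw [qq_apply, Finset.mul_sum, Finset.sum_mul, ← Finset.sum_sub_distrib]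
  refine Finset.sum_congr rfl fun a _ => ?_
  rw [Finset.mul_sum, Finset.sum_mul, ← Finset.sum_sub_distrib]
  have h1 : ∀ b, Z a b • (e a * f b) * e j - e j * Z a b • (e a * f b) =
      if j = b then Z a b • e a else 0 := by
    intro b
    rw [mul_smul_comm, smul_mul_assoc, ← smul_sub]
    have h2 : e a * f b * e j - e j * (e a * f b) = if j = b then e a else 0 := by
      rw [mul_assoc, fe h j b, ← mul_assoc (e j), ee h a j]
      split_ifs
      · noncomm_ring
      · noncomm_ring
    rw [h2]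
    split_ifs
    · rfl
    · exact smul_zero _
  simp only [h1]
  simp

theorem car_actf (h : Car e f) (Z : Matrix U U ℂ) (j : U) :
    qq e f Z * f j - f j * qq e f Z = -∑ i, Z j i • f i := by
  have e1 : qq e f Z * f j - f j * qq e f Z =
      ∑ a, ∑ b, if a = j then -(Z a b • f b) else 0 := by
    rw [qq_apply, Finset.mul_sum, Finset.sum_mul, ← Finset.sum_sub_distrib]
    refine Finset.sum_congr rfl fun a _ => ?_
    rw [Finset.mul_sum, Finset.sum_mul, ← Finset.sum_sub_distrib]
    refine Finset.sum_congr rfl fun b _ => ?_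
    rw [mul_smul_comm, smul_mul_assoc, ← smul_sub]
    have h2 : e a * f b * f j - f j * (e a * f b) = if a = j then -(f b) else 0 := by
      rw [mul_assoc, ff h j b, ← mul_assoc (f j), fe h a j]
      split_ifs
      · noncomm_ring
      · noncomm_ring
    rw [h2]
    split_ifs
    · rw [smul_neg]
    · exact smul_zero _
  rw [e1, Finset.sum_eq_single j]
  · simp
  · intro a _ ha
    simp [ha]
  · intro h0
    exact absurd (Finset.mem_univ j) h0

end car

/-- the index identity -/
theorem shuffle {d : ℕ} {R : Type} [Ring R] [Algebra ℂ R] (A B : Fin d → Fin d → R)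
    (x : Matrix (Fin d) (Fin d) ℂ) :
    ∑ i, ∑ j, (∑ k, x k i • A k j - ∑ k, x j k • A i k) * B j i =
      -∑ i, ∑ j, A i j * (∑ k, x k j • B k i - ∑ k, x i k • B j k) := by
  simp only [sub_mul, mul_sub, Finset.sum_mul, Finset.mul_sum, smul_mul_assoc, mul_smul_comm,
    Finset.sum_sub_distrib, neg_sub]
  congr 1
  · calc ∑ i, ∑ j, ∑ k, x k i • (A k j * B j i)
        = ∑ i, ∑ k, ∑ j, x k i • (A k j * B j i) :=
          Finset.sum_congr rfl fun i _ => Finset.sum_comm
      _ = ∑ k, ∑ i, ∑ j, x k i • (A k j * B j i) := Finset.sum_comm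
      _ = _ := Finset.sum_congr rfl fun i _ => Finset.sum_comm
  · refine Finset.sum_congr rfl fun i _ => ?_
    exact Finset.sum_comm

section two

variable {d d' : ℕ} {e f : Fin d → Matrix ι ι ℂ} {e' f' : Fin d' → Matrix ι ι ℂ}

theorem cee (h : Car (Sum.elim e e') (Sum.elim f f')) (a : Fin d) (b : Fin d') :
    e' b * e a = -(e a * e' b) := ee h (Sum.inl a) (Sum.inr b)

theorem cff (h : Car (Sum.elim e e') (Sum.elim f f')) (a : Fin d) (b : Fin d') :
    f' b * f a = -(f a * f' b) := ff h (Sum.inl a) (Sum.inr b)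

theorem cfe (h : Car (Sum.elim e e') (Sum.elim f f')) (a : Fin d) (b : Fin d') :
    f' b * e a = -(e a * f' b) := by
  have := fe h (Sum.inl a) (Sum.inr b)
  simpa using this

theorem cef (h : Car (Sum.elim e e') (Sum.elim f f')) (a : Fin d) (b : Fin d') :
    e' b * f a = -(f a * e' b) := by
  have := fe h (Sum.inr b) (Sum.inl a)
  simp only [Sum.elim_inl, Sum.elim_inr, reduceCtorEq, if_false, zero_sub] at this
  rw [this, neg_neg]

theorem q'_e (h : Car (Sum.elim e e') (Sum.elim f f')) (M : Matrix (Fin d') (Fin d') ℂ)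
    (a : Fin d) : qq e' f' M * e a = e a * qq e' f' M := by
  rw [qq_apply, Finset.mul_sum, Finset.sum_mul]
  refine Finset.sum_congr rfl fun c _ => ?_
  rw [Finset.mul_sum, Finset.sum_mul]
  refine Finset.sum_congr rfl fun g _ => ?_
  rw [mul_smul_comm, smul_mul_assoc, mul_assoc, cfe h, mul_neg, ← mul_assoc, cee h, neg_mul,
    neg_neg, mul_assoc]

theorem q'_f (h : Car (Sum.elim e e') (Sum.elim f f')) (M : Matrix (Fin d') (Fin d') ℂ)
    (a : Fin d) : qq e' f' M * f a = f a * qq e' f' M := by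
  rw [qq_apply, Finset.mul_sum, Finset.sum_mul]
  refine Finset.sum_congr rfl fun c _ => ?_
  rw [Finset.mul_sum, Finset.sum_mul]
  refine Finset.sum_congr rfl fun g _ => ?_
  rw [mul_smul_comm, smul_mul_assoc, mul_assoc, cff h, mul_neg, ← mul_assoc, cef h, neg_mul,
    neg_neg, mul_assoc]

theorem q_q' (h : Car (Sum.elim e e') (Sum.elim f f')) (Y : Matrix (Fin d) (Fin d) ℂ)
    (M : Matrix (Fin d') (Fin d') ℂ) : qq e f Y * qq e' f' M = qq e' f' M * qq e f Y := by
  rw [qq_apply e f, Finset.mul_sum, Finset.sum_mul]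
  refine Finset.sum_congr rfl fun c _ => ?_
  rw [Finset.mul_sum, Finset.sum_mul]
  refine Finset.sum_congr rfl fun g _ => ?_
  rw [mul_smul_comm, smul_mul_assoc, mul_assoc, ← q'_f h, ← mul_assoc, ← mul_assoc, q'_e h]

theorem indep (h : Car (Sum.elim e e') (Sum.elim f f')) (hVac : SpecUVac) [Nonempty ι]
    (M : Fin d → Fin d → Matrix (Fin d') (Fin d') ℂ)
    (h0 : ∑ i, ∑ j, (e i * f j) * qq e' f' (M i j) = 0) : ∀ i j, M i j = 0 := by
  obtain ⟨v, hv, hk⟩ := hVac ι (Fin d ⊕ Fin d') _ _ h
  have hf : ∀ a, f a *ᵥ v = 0 := fun a => hk (Sum.inl a)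
  have hf' : ∀ a, f' a *ᵥ v = 0 := fun a => hk (Sum.inr a)
  have hcar' : Car e' f' := ⟨fun u w => h.ee (Sum.inr u) (Sum.inr w),
    fun u w => h.ff (Sum.inr u) (Sum.inr w), fun u w => by
      have := h.ef (Sum.inr u) (Sum.inr w)
      simpa using this⟩
  have hcar : Car e f := ⟨fun u w => h.ee (Sum.inl u) (Sum.inl w),
    fun u w => h.ff (Sum.inl u) (Sum.inl w), fun u w => by
      have := h.ef (Sum.inl u) (Sum.inl w)
      simpa using this⟩
  have hq : ∀ N, qq e' f' N *ᵥ v = 0 := by
    intro N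
    rw [qq_apply, Matrix.sum_mulVec]
    refine Finset.sum_eq_zero fun a _ => ?_
    rw [Matrix.sum_mulVec]
    refine Finset.sum_eq_zero fun b _ => ?_
    rw [Matrix.smul_mulVec, ← Matrix.mulVec_mulVec, hf', Matrix.mulVec_zero, smul_zero]
  -- action on `e_b e'_D v`
  have key : ∀ (i j b : Fin d) (D : Fin d') (N : Matrix (Fin d') (Fin d') ℂ),
      ((e i * f j) * qq e' f' N) *ᵥ ((e b * e' D) *ᵥ v) =
        if b = j then ∑ c, N c D • ((e i * e' c) *ᵥ v) else 0 := by
    intro i j b D N
    have s1 : qq e' f' N * (e b * e' D) =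
        e b * (∑ c, N c D • e' c) + e b * e' D * qq e' f' N := by
      rw [← mul_assoc, q'_e h, mul_assoc, ← car_acte hcar' N D]
      noncomm_ring
    have s2 : (qq e' f' N * (e b * e' D)) *ᵥ v = (e b * (∑ c, N c D • e' c)) *ᵥ v := by
      rw [s1, Matrix.add_mulVec, ← Matrix.mulVec_mulVec v (e b * e' D), hq, Matrix.mulVec_zero,
        add_zero]
    rw [Matrix.mulVec_mulVec, mul_assoc, ← Matrix.mulVec_mulVec, s2, Matrix.mulVec_mulVec]
    have s3 : e i * f j * (e b * ∑ c, N c D • e' c) =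
        (if b = j then e i * ∑ c, N c D • e' c else 0) + e i * e b * (∑ c, N c D • e' c) * f j := by
      have s4 : (∑ c, N c D • e' c) * f j = -(f j * ∑ c, N c D • e' c) := by
        rw [Finset.sum_mul, Finset.mul_sum, ← Finset.sum_neg_distrib]
        refine Finset.sum_congr rfl fun c _ => ?_
        rw [smul_mul_assoc, mul_smul_comm, cef h, smul_neg]
      rw [mul_assoc (e i * e b), s4, mul_assoc (e i), ← mul_assoc (f j), fe hcar b j]
      split_ifs
      · noncomm_ring
      · noncomm_ring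
    rw [s3, Matrix.add_mulVec, ← Matrix.mulVec_mulVec v _ (f j), hf, Matrix.mulVec_zero, add_zero]
    split_ifs
    · rw [Finset.mul_sum, Matrix.sum_mulVec]
      refine Finset.sum_congr rfl fun c _ => ?_
      rw [mul_smul_comm, Matrix.smul_mulVec]
    · exact Matrix.zero_mulVec _
  intro i0 b
  ext c0 D
  have t1 : ∑ i, ∑ c, M i b c D • ((e i * e' c) *ᵥ v) = 0 := by
    have t2 := congrArg (fun Z : Matrix ι ι ℂ => Z *ᵥ ((e b * e' D) *ᵥ v)) h0
    simp only [Matrix.zero_mulVec, Matrix.sum_mulVec] at t2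
    rw [← t2]
    refine Finset.sum_congr rfl fun i _ => ?_
    rw [Finset.sum_eq_single b]
    · rw [key, if_pos rfl]
    · intro j _ hj
      rw [key, if_neg (Ne.symm hj)]
    · intro h1
      exact absurd (Finset.mem_univ b) h1
  have t3 := congrArg (fun w : ι → ℂ => (f' c0 * f i0) *ᵥ w) t1
  simp only [Matrix.mulVec_zero, Matrix.mulVec_sum, Matrix.mulVec_smul] at t3
  have t4 : ∀ i c, (f' c0 * f i0) *ᵥ ((e i * e' c) *ᵥ v) =
      if i = i0 then (if c = c0 then v else 0) else 0 := by
    intro i c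
    have u1 : f i0 *ᵥ ((e i * e' c) *ᵥ v) = if i = i0 then e' c *ᵥ v else 0 := by
      have u2 : f i0 * (e i * e' c) = (if i = i0 then e' c else 0) + e i * e' c * f i0 := by
        rw [mul_assoc (e i), cef h, ← mul_assoc, fe hcar i i0]
        split_ifs
        · noncomm_ring
        · noncomm_ring
      rw [Matrix.mulVec_mulVec, u2, Matrix.add_mulVec, ← Matrix.mulVec_mulVec v _ (f i0), hf,
        Matrix.mulVec_zero, add_zero]
      split_ifs
      · rfl
      · exact Matrix.zero_mulVec _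
    rw [← Matrix.mulVec_mulVec, u1]
    split_ifs with h5 h6
    · rw [Matrix.mulVec_mulVec, fe hcar' c c0, if_pos h6, Matrix.sub_mulVec, Matrix.one_mulVec,
        ← Matrix.mulVec_mulVec, hf', Matrix.mulVec_zero, sub_zero]
    · rw [Matrix.mulVec_mulVec, fe hcar' c c0, if_neg h6, Matrix.sub_mulVec, Matrix.zero_mulVec,
        ← Matrix.mulVec_mulVec, hf', Matrix.mulVec_zero, sub_zero]
    · exact Matrix.mulVec_zero _
  simp only [t4] at t3
  have t5 : ∑ i, ∑ c, M i b c D • (if i = i0 then (if c = c0 then v else 0) else 0) =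
      M i0 b c0 D • v := by
    rw [Finset.sum_eq_single i0]
    · rw [Finset.sum_eq_single c0]
      · rw [if_pos rfl, if_pos rfl]
      · intro c _ hc
        rw [if_pos rfl, if_neg hc, smul_zero]
      · intro h1
        exact absurd (Finset.mem_univ c0) h1
    · intro i _ hi
      refine Finset.sum_eq_zero fun c _ => ?_
      rw [if_neg hi, smul_zero]
    · intro h1
      exact absurd (Finset.mem_univ i0) h1
  rw [t5] at t3
  rcases smul_eq_zero.mp t3 with h6 | h6
  · rw [h6, Matrix.zero_apply]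
  · exact absurd h6 hv

end two

/-- matrices of trace zero are combinations of commutators -/
theorem tr_zero {d d' : ℕ} (φ : Matrix (Fin d) (Fin d) ℂ →ₗ[ℂ] Matrix (Fin d') (Fin d') ℂ)
    (h : ∀ (Y : Matrix (Fin d) (Fin d) ℂ) (i j : Fin d),
      φ (Y * Matrix.single i j 1 - Matrix.single i j 1 * Y) = 0)
    (Y : Matrix (Fin d) (Fin d) ℂ) (hY : Y.trace = 0) : φ Y = 0 := by
  have h1 : ∀ i j, i ≠ j → φ (Matrix.single i j 1) = 0 := by
    intro i j hij
    have := h (Matrix.single i i 1) i j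
    rw [Matrix.single_mul_single_same, Matrix.single_mul_single_of_ne _ _ _ _ (Ne.symm hij),
      sub_zero, mul_one] at this
    exact this
  have h2 : ∀ i j, φ (Matrix.single i i 1) = φ (Matrix.single j j 1) := by
    intro i j
    have := h (Matrix.single i j 1) j i
    rw [Matrix.single_mul_single_same, Matrix.single_mul_single_same, mul_one, map_sub,
      sub_eq_zero] at this
    exact this
  have h3 : Y = ∑ i, ∑ j, Y i j • Matrix.single i j (1 : ℂ) := by
    conv_lhs => rw [Matrix.matrix_eq_sum_single Y]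
    refine Finset.sum_congr rfl fun i _ => Finset.sum_congr rfl fun j _ => ?_
    rw [Matrix.smul_single, smul_eq_mul, mul_one]
  have h4 : φ Y = ∑ i, Y i i • φ (Matrix.single i i 1) := by
    conv_lhs => rw [h3]
    rw [map_sum]
    refine Finset.sum_congr rfl fun i _ => ?_
    rw [map_sum, Finset.sum_eq_single i]
    · rw [map_smul]
    · intro j _ hj
      rw [map_smul, h1 i j (Ne.symm hj), smul_zero]
    · intro h5
      exact absurd (Finset.mem_univ i) h5
  rw [h4]
  rcases Nat.eq_zero_or_pos d with h5 | h5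
  · subst h5
    simp
  · have h6 : ∀ i, φ (Matrix.single i i 1) = φ (Matrix.single ⟨0, h5⟩ ⟨0, h5⟩ 1) := fun i => h2 i _
    simp only [h6]
    rw [← Finset.sum_smul]
    have h7 : ∑ i, Y i i = 0 := hY
    rw [h7, zero_smul]

end LnkM

open LnkM in
theorem specULnk (hVac : SpecUVac) : SpecULnk := by
  intro ι _ _ _ d d' e f e' f' kk hcar hUF hUF' φ hφ
  set A : Fin d → Fin d → Matrix ι ι ℂ := fun i j => e i * f j with hA
  set B : Fin d → Fin d → Matrix ι ι ℂ := fun i j => qq e' f' (φ (Matrix.single i j 1)) with hB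
  set Ω : Matrix ι ι ℂ := ∑ i, ∑ j, A i j * B j i with hΩ
  -- commutator of single matrices
  have hs : ∀ (x : Matrix (Fin d) (Fin d) ℂ) (i j : Fin d),
      x * Matrix.single i j 1 - Matrix.single i j 1 * x =
        ∑ k, x k i • Matrix.single k j (1 : ℂ) - ∑ k, x j k • Matrix.single i k (1 : ℂ) := by
    intro x i j
    congr 1
    · ext a b
      rw [Matrix.sum_apply]
      by_cases hjb : j = b
      · simp [Matrix.mul_apply, Matrix.single_apply, hjb]
      · simp [Matrix.mul_apply, hjb]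
    · ext a b
      rw [Matrix.sum_apply]
      by_cases hia : i = a
      · simp [Matrix.mul_apply, Matrix.single_apply, hia]
      · simp [Matrix.mul_apply, hia]
  have hφs : ∀ (x : Matrix (Fin d) (Fin d) ℂ) (i j : Fin d),
      qq e' f' (φ (x * Matrix.single i j 1 - Matrix.single i j 1 * x)) =
        ∑ k, x k i • B k j - ∑ k, x j k • B i k := by
    intro x i j
    rw [hs]
    simp only [map_sub, map_sum, map_smul, hB]
  -- `Ω` commutes with the `X`
  have hX : ∀ X ∈ kk, X.1 * Ω - Ω * X.1 = 0 := by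
    intro X hX
    have h1 : ∀ j, X.1 * e j - e j * X.1 = ∑ i, X.2.1 i j • e i :=
      hUF.acte (X.1, X.2.1) ⟨X, hX, rfl⟩
    have h2 : ∀ j, X.1 * f j - f j * X.1 = -∑ i, X.2.1 j i • f i :=
      hUF.actf (X.1, X.2.1) ⟨X, hX, rfl⟩
    have h1' : ∀ j, X.1 * e' j - e' j * X.1 = ∑ i, X.2.2 i j • e' i :=
      hUF'.acte (X.1, X.2.2) ⟨X, hX, rfl⟩
    have h2' : ∀ j, X.1 * f' j - f' j * X.1 = -∑ i, X.2.2 j i • f' i :=
      hUF'.actf (X.1, X.2.2) ⟨X, hX, rfl⟩
    have h3 : ∀ i j, X.1 * B j i - B j i * X.1 =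
        ∑ k, X.2.1 k j • B k i - ∑ k, X.2.1 i k • B j k := by
      intro i j
      rw [← hφs, hφ X.2 ⟨X, hX, rfl⟩]
      exact act e' f' X.1 X.2.2 h1' h2' _
    have h4 : X.1 * Ω - Ω * X.1 = ∑ i, ∑ j, (X.1 * A i j - A i j * X.1) * B j i +
        ∑ i, ∑ j, A i j * (X.1 * B j i - B j i * X.1) := by
      rw [hΩ, Finset.mul_sum, Finset.sum_mul, ← Finset.sum_sub_distrib, ← Finset.sum_add_distrib]
      refine Finset.sum_congr rfl fun i _ => ?_
      rw [Finset.mul_sum, Finset.sum_mul, ← Finset.sum_sub_distrib, ← Finset.sum_add_distrib]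
      refine Finset.sum_congr rfl fun j _ => ?_
      noncomm_ring
    rw [h4]
    simp only [h3]
    have h5 : ∀ i j, X.1 * A i j - A i j * X.1 =
        ∑ k, X.2.1 k i • A k j - ∑ k, X.2.1 j k • A i k := fun i j => actA e f X.1 X.2.1 h1 h2 i j
    simp only [h5]
    rw [shuffle A B X.2.1]
    exact neg_add_cancel _
  -- `Ω` commutes with the `e_i f_j`
  have hcomm : ∀ i j, A i j * Ω = Ω * A i j := by
    intro i j
    have h1 : A i j ∈ Subalgebra.centralizer ℂ ({Ω} : Set (Matrix ι ι ℂ)) := by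
      have h2 : Algebra.adjoin ℂ (Prod.fst '' ((fun X : Matrix ι ι ℂ ×
          (Matrix (Fin d) (Fin d) ℂ × Matrix (Fin d') (Fin d') ℂ) => (X.1, X.2.1)) '' kk)) ≤
          Subalgebra.centralizer ℂ ({Ω} : Set (Matrix ι ι ℂ)) := by
        apply Algebra.adjoin_le
        rintro _ ⟨_, ⟨X, hXk, rfl⟩, rfl⟩
        rw [SetLike.mem_coe, Subalgebra.mem_centralizer_iff]
        intro g hg
        rw [Set.mem_singleton_iff] at hg
        subst hg
        exact (sub_eq_zero.mp (hX X hXk)).symm
      exact h2 (hUF.gen i j)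
    rw [Subalgebra.mem_centralizer_iff] at h1
    exact (h1 Ω rfl).symm
  have hqY : ∀ Y, qq e f Y * Ω = Ω * qq e f Y := by
    intro Y
    rw [qq_apply, Finset.sum_mul, Finset.mul_sum]
    refine Finset.sum_congr rfl fun i _ => ?_
    rw [Finset.sum_mul, Finset.mul_sum]
    refine Finset.sum_congr rfl fun j _ => ?_
    rw [smul_mul_assoc, mul_smul_comm, hcomm i j]
  have hcar1 : Car e f := hUF.car
  have hfin : ∀ (Y : Matrix (Fin d) (Fin d) ℂ) (i j : Fin d),
      φ (Y * Matrix.single i j 1 - Matrix.single i j 1 * Y) = 0 := by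
    intro Y
    have h1 : ∑ i, ∑ j, (e i * f j) *
        qq e' f' (φ (Y * Matrix.single j i 1 - Matrix.single j i 1 * Y)) = 0 := by
      have h2 : qq e f Y * Ω - Ω * qq e f Y =
          ∑ i, ∑ j, (qq e f Y * A i j - A i j * qq e f Y) * B j i := by
        rw [hΩ, Finset.mul_sum, Finset.sum_mul, ← Finset.sum_sub_distrib]
        refine Finset.sum_congr rfl fun i _ => ?_
        rw [Finset.mul_sum, Finset.sum_mul, ← Finset.sum_sub_distrib]
        refine Finset.sum_congr rfl fun j _ => ?_
        have h3 : B j i * qq e f Y = qq e f Y * B j i := (q_q' hcar Y _).symm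
        rw [mul_assoc (A i j), h3]
        noncomm_ring
      have h5 : ∀ i j, qq e f Y * A i j - A i j * qq e f Y =
          ∑ k, Y k i • A k j - ∑ k, Y j k • A i k :=
        fun i j => actA e f (qq e f Y) Y (car_acte hcar1 Y) (car_actf hcar1 Y) i j
      simp only [h5] at h2
      rw [shuffle A B Y, hqY, sub_self] at h2
      have h6 := neg_eq_zero.mp h2.symm
      rw [← h6]
      refine Finset.sum_congr rfl fun i _ => Finset.sum_congr rfl fun j _ => ?_
      rw [hφs]
    intro i j
    exact indep hcar hVac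
      (fun i j => φ (Y * Matrix.single j i 1 - Matrix.single j i 1 * Y)) h1 j i
  intro Y hY
  exact tr_zero φ hfin Y hY

end Pool.Agent.Lib.MPf11a48.KU
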