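import Pool.Agent.Lib.MP_f11a48_ag.KU.Spec
import Pool.Agent.Lib.MP_f11a48_ag.K3.KSc
import Pool.Agent.Lib.MP_f11a48_ag.K3.KEx

/-! # SCL: endomorphisms commuting with the Clifford operators and with the commutant of the
infinitesimal isometries which commute with `E` are scalars -/

set_option autoImplicit false

namespace Pool.Agent.Lib.MPf11a48.KU

open Matrix
open Pool.Agent.Lib.MPf11a48.U (AbData Ix HD EndAlg)
open Pool.Agent.Lib.MPf11a48.K3
open KLieM KRatM

namespace SclM

/-- one block -/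
def eu (n : ℕ) : ((_ : Unit) × Fin n) ≃ Fin n where
  toFun u := u.2
  invFun i := ⟨(), i⟩
  left_inv _ := rfl
  right_inv _ := rfl

theorem exists_split {n : ℕ} (qB : Matrix (Fin n) (Fin n) ℚ) (hq : qBᵀ = qB) (hd : qB.det ≠ 0) :
    ∃ P : Matrix (Fin n) ((_ : Unit) × Fin n) ℂ,
      Split (κ := Unit) qB ∅ (fun _ => n) P fun _ _ => 0 := by
  have hc : (cx qB)ᵀ = cx qB := by
    change (qBᵀ).map (fun x => (x : ℂ)) = cx qB
    rw [hq]
    rfl
  have h1 : cx qB * cx qB⁻¹ = 1 := by
    rw [← cx_mul, Matrix.mul_nonsing_inv _ (isUnit_iff_ne_zero.2 hd), cx_one]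
  have h2 : (cx qB).det ≠ 0 := by
    intro h
    have h3 := congrArg Matrix.det h1
    rw [Matrix.det_mul, h, zero_mul, Matrix.det_one] at h3
    exact zero_ne_one h3
  obtain ⟨P₀, hP₀⟩ := KExM.exists_cong (cx qB) hc h2
  have hP₁ : P₀ * (P₀ᵀ * cx qB) = 1 := mul_eq_one_comm.mp hP₀
  refine ⟨P₀.submatrix id (eu n), ?_, ?_, ?_, ?_⟩
  · ext u v
    have h3 : (((P₀.submatrix id (eu n))ᵀ * cx qB * P₀.submatrix id (eu n)) u v) =
        (P₀ᵀ * cx qB * P₀) (eu n u) (eu n v) := by
      simp only [Matrix.mul_apply, Matrix.transpose_apply, Matrix.submatrix_apply, id]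
    rw [h3, hP₀, Matrix.one_apply, Matrix.one_apply]
    by_cases huv : u = v
    · rw [if_pos huv, if_pos (congrArg _ huv)]
    · rw [if_neg huv, if_neg fun h => huv ((eu n).injective h)]
  · ext a b
    rw [← hP₁, Matrix.mul_apply, Matrix.mul_apply]
    rw [← (eu n).sum_comp]
    refine Finset.sum_congr rfl fun u _ => ?_
    simp only [Matrix.mul_apply, Matrix.transpose_apply, Matrix.submatrix_apply, id]
  · intro e he
    exact absurd he (Set.notMem_empty e)
  · intro k l hkl
    exact absurd (Subsingleton.elim k l) hkl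

end SclM

open SclM KScM

theorem specUScl (hScl : SpecKScl) : SpecUScl := by
  intro g n qB B E hq hdet hcl b hb hbZ
  obtain ⟨P, hS⟩ := exists_split qB hq hdet
  obtain ⟨s, hs⟩ : ∃ s : ℂ, 2 * (s * s) = 1 := by
    obtain ⟨s, hs⟩ := IsAlgClosed.exists_pow_nat_eq ((2 : ℂ)⁻¹) two_pos
    exact ⟨s, by rw [← pow_two, hs, mul_inv_cancel₀ two_ne_zero]⟩
  refine hScl (Ix g) Unit (fun _ => n) (gam B P s) (gam_anti hcl hS.orth hs) b ?_ ?_
  · intro u
    rw [gam, Matrix.mul_smul, Matrix.smul_mul, bl, comm_sum _ _ hb]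
  · intro Y hY
    obtain ⟨d, β, l, h1⟩ := eq_sum Y
    have h2 : ∀ i, b * cx (ap (l i) Y) = cx (ap (l i) Y) * b := by
      intro i
      refine hbZ _ fun ρ hρ => ?_
      have h3 : Y * cx (cli qB B ρ) = cx (cli qB B ρ) * Y := by
        rw [← clC_cx]
        refine comm_clC hS hq hdet hs hY ?_ ?_
        · have h4 := congrArg cx hρ.1
          rw [cx_add, cx_mul, cx_mul, cx_zero] at h4
          exact h4
        · intro e he
          exact absurd he (Set.notMem_empty e)
      rw [← mul_rat, h3, rat_mul]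
    rw [h1]
    exact comm_sum _ _ h2

end Pool.Agent.Lib.MPf11a48.KU
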