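import Pool.Agent.Lib.MP_f11a48_ag.KU.Spec
import Pool.Agent.Lib.MP_f11a48_ag.K3.KTen3

/-!
# Kuga-Satake varieties, the unitary case, module SIM: the torsor of the similitudes
-/

set_option autoImplicit false

namespace Pool.Agent.Lib.MPf11a48.KU

open Matrix MvPolynomial Pool.Agent.Lib.MPf11a48.Tors
open Pool.Agent.Lib.MPf11a48.CM hiding OmegaM
open Pool.Agent.Lib.MPf11a48.GL2T (IsAlg)
open Pool.Agent.Lib.MPf11a48.U (AbData Ix HD EndAlg)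
open Pool.Agent.Lib.MPf11a48.K3
open KTenM KTen3M

namespace SimM

variable {g n : ℕ}

/-- The polynomials for the similitudes. -/
noncomputable def pol (K : IntermediateField ℚ ℂ) (A B : Matrix (Ix g) (Ix g) K) (i j : Ix g) :
    MvPolynomial (I3 g n × I3 g n) K :=
  (∑ k, ∑ l, X (Sum.inl k, Sum.inl i) * C (A k l) * X (Sum.inl l, Sum.inl j)) -
    X (Sum.inr (Sum.inr ()), Sum.inr (Sum.inr ())) * C (B i j)

lemma pol_eval (K : IntermediateField ℚ ℂ) (A B : Matrix (Ix g) (Ix g) K) (i j : Ix g)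
    (y : Grp3 g n) :
    aeval (fun ij : I3 g n × I3 g n => (bd3 y).1 ij.1 ij.2) (pol (n := n) K A B i j) =
      (y.1.1ᵀ * A.map (fun x => (x : ℂ)) * y.1.1 -
        (y.2.2 : ℂ) • B.map (fun x => (x : ℂ))) i j := by
  unfold pol
  rw [map_sub, map_mul, aeval_X, map_sum, Matrix.sub_apply, Matrix.smul_apply, Matrix.map_apply]
  congr 1
  · rw [Matrix.mul_apply]
    have h1 : ∀ l, (y.1.1ᵀ * A.map (fun x => (x : ℂ))) i l * y.1.1 l j =
        ∑ k, y.1.1 k i * (A k l : ℂ) * y.1.1 l j := by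
      intro l
      rw [Matrix.mul_apply, Finset.sum_mul]
      rfl
    rw [Finset.sum_congr rfl (fun l _ => h1 l), Finset.sum_comm]
    refine Finset.sum_congr rfl (fun k _ => ?_)
    rw [map_sum]
    refine Finset.sum_congr rfl (fun l _ => ?_)
    rw [map_mul, map_mul, aeval_X, aeval_X, aeval_C]
    rfl
  · rw [aeval_C]
    rfl

/-- The similitudes are closed. -/
lemma closed_sim (K : IntermediateField ℚ ℂ) (A B : Matrix (Ix g) (Ix g) K) :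
    ClosedOver K {f : GL (I3 g n) ℂ | ∃ y : Grp3 g n, bd3 y = f ∧
      y.1.1ᵀ * A.map (fun x => (x : ℂ)) * y.1.1 = (y.2.2 : ℂ) • B.map (fun x => (x : ℂ))} := by
  refine ⟨{r | (∃ i j, ¬ same i j ∧ r = X (i, j)) ∨ ∃ i j, r = pol K A B i j}, ?_⟩
  ext f
  constructor
  · rintro ⟨y, rfl, hy⟩ r (⟨i, j, hij, rfl⟩ | ⟨i, j, rfl⟩)
    · rw [aeval_X]
      exact bd3_off y hij
    · rw [pol_eval, hy, sub_self]
      rfl
  · intro hf
    have hf1 : ∀ i j, ¬ same i j → f.1 i j = 0 := by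
      intro i j hij
      have h1 := hf (X (i, j)) (Or.inl ⟨i, j, hij, rfl⟩)
      rw [aeval_X] at h1
      exact h1
    obtain ⟨y, rfl⟩ := exists_bd3 hf1
    refine ⟨y, rfl, ?_⟩
    rw [← sub_eq_zero]
    ext i j
    rw [← pol_eval, hf _ (Or.inr ⟨i, j, rfl⟩)]
    rfl

/-- The group of the similitudes. -/
def sim (ψ : Matrix (Ix g) (Ix g) ℂ) : Subgroup (Grp3 g n) where
  carrier := {y | y.1.1ᵀ * ψ * y.1.1 = (y.2.2 : ℂ) • ψ}
  one_mem' := by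
    change (1 : Matrix (Ix g) (Ix g) ℂ)ᵀ * ψ * 1 = ((1 : ℂˣ) : ℂ) • ψ
    rw [Matrix.transpose_one, Matrix.one_mul, Matrix.mul_one, Units.val_one, one_smul]
  mul_mem' := by
    intro a b ha hb
    change (a.1.1 * b.1.1)ᵀ * ψ * (a.1.1 * b.1.1) = ((a.2.2 : ℂ) * (b.2.2 : ℂ)) • ψ
    have ha' : a.1.1ᵀ * ψ * a.1.1 = (a.2.2 : ℂ) • ψ := ha
    have hb' : b.1.1ᵀ * ψ * b.1.1 = (b.2.2 : ℂ) • ψ := hb
    calc (a.1.1 * b.1.1)ᵀ * ψ * (a.1.1 * b.1.1)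
        = b.1.1ᵀ * (a.1.1ᵀ * ψ * a.1.1) * b.1.1 := by
          rw [Matrix.transpose_mul]
          simp only [Matrix.mul_assoc]
      _ = _ := by rw [ha', Matrix.mul_smul, Matrix.smul_mul, hb', smul_smul]
  inv_mem' := by
    intro a ha
    have ha' : a.1.1ᵀ * ψ * a.1.1 = (a.2.2 : ℂ) • ψ := ha
    change a.1⁻¹.1ᵀ * ψ * a.1⁻¹.1 = ((a.2.2⁻¹ : ℂˣ) : ℂ) • ψ
    have h1 : a.1.1 * a.1⁻¹.1 = 1 := a.1.mul_inv
    have h2 : a.1⁻¹.1ᵀ * a.1.1ᵀ = 1 := by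
      rw [← Matrix.transpose_mul, h1, Matrix.transpose_one]
    have h3 : ψ = ((a.2.2⁻¹ : ℂˣ) : ℂ) • (a.1.1ᵀ * ψ * a.1.1) := by
      rw [ha', smul_smul, Units.inv_mul, one_smul]
    calc a.1⁻¹.1ᵀ * ψ * a.1⁻¹.1
        = a.1⁻¹.1ᵀ * (((a.2.2⁻¹ : ℂˣ) : ℂ) • (a.1.1ᵀ * ψ * a.1.1)) * a.1⁻¹.1 := by rw [← h3]
      _ = ((a.2.2⁻¹ : ℂˣ) : ℂ) • ((a.1⁻¹.1ᵀ * a.1.1ᵀ) * ψ * (a.1.1 * a.1⁻¹.1)) := by
          rw [Matrix.mul_smul, Matrix.smul_mul]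
          simp only [Matrix.mul_assoc]
      _ = _ := by rw [h1, h2, Matrix.one_mul, Matrix.mul_one]

lemma mem_sim (ψ : Matrix (Ix g) (Ix g) ℂ) (y : Grp3 g n) :
    y ∈ sim ψ ↔ y.1.1ᵀ * ψ * y.1.1 = (y.2.2 : ℂ) • ψ := Iff.rfl

end SimM

open SimM in
/-- The torsor of the similitudes. -/
theorem specUSim : SpecUSim := by
  intro g N n A c t J hHD T hT
  obtain ⟨ψdR, hdR, hleg⟩ := hHD.leg
  have hleg' : c.1ᵀ * cx A.psi * c.1 = (2 * Real.pi * Complex.I) • ψdR := hleg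
  have hT1 : T = {f | ∃ y : Grp3 g n, bd3 (y * (c, t, tpi)) = f ∧ y ∈ sim (cx A.psi)} := hT
  have hself : bd3 (c, t, tpi) ∈ T := by
    rw [hT1]
    exact ⟨1, by rw [one_mul], (sim (cx A.psi)).one_mem⟩
  -- the equations over the algebraic numbers
  have hT2 : T = {f | ∃ x : Grp3 g n, bd3 x = f ∧
      x.1.1ᵀ * cx A.psi * x.1.1 = (x.2.2 : ℂ) • ψdR} := by
    rw [hT1]
    ext f
    constructor
    · rintro ⟨y, rfl, hy⟩
      refine ⟨y * (c, t, tpi), rfl, ?_⟩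
      change (y.1.1 * c.1)ᵀ * cx A.psi * (y.1.1 * c.1) =
        ((y.2.2 : ℂ) * (2 * Real.pi * Complex.I)) • ψdR
      have hy' : y.1.1ᵀ * cx A.psi * y.1.1 = (y.2.2 : ℂ) • cx A.psi := hy
      calc (y.1.1 * c.1)ᵀ * cx A.psi * (y.1.1 * c.1)
          = c.1ᵀ * (y.1.1ᵀ * cx A.psi * y.1.1) * c.1 := by
            rw [Matrix.transpose_mul]
            simp only [Matrix.mul_assoc]
        _ = _ := by
            rw [hy', Matrix.mul_smul, Matrix.smul_mul, hleg', smul_smul]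
    · rintro ⟨x, rfl, hx⟩
      refine ⟨x * (c, t, tpi)⁻¹, by rw [inv_mul_cancel_right], ?_⟩
      rw [mem_sim]
      change (x.1.1 * c⁻¹.1)ᵀ * cx A.psi * (x.1.1 * c⁻¹.1) =
        ((x.2.2 : ℂ) * ((tpi⁻¹ : ℂˣ) : ℂ)) • cx A.psi
      have h1 : c.1 * c⁻¹.1 = 1 := c.mul_inv
      have h2 : c⁻¹.1ᵀ * c.1ᵀ = 1 := by
        rw [← Matrix.transpose_mul, h1, Matrix.transpose_one]
      have h3 : ψdR = ((tpi⁻¹ : ℂˣ) : ℂ) • (c.1ᵀ * cx A.psi * c.1) := by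
        have h4 : ((tpi⁻¹ : ℂˣ) : ℂ) * (2 * Real.pi * Complex.I) = 1 := tpi.inv_mul
        rw [hleg', smul_smul, h4, one_smul]
      calc (x.1.1 * c⁻¹.1)ᵀ * cx A.psi * (x.1.1 * c⁻¹.1)
          = c⁻¹.1ᵀ * (x.1.1ᵀ * cx A.psi * x.1.1) * c⁻¹.1 := by
            rw [Matrix.transpose_mul]
            simp only [Matrix.mul_assoc]
        _ = c⁻¹.1ᵀ * ((x.2.2 : ℂ) • (((tpi⁻¹ : ℂˣ) : ℂ) • (c.1ᵀ * cx A.psi * c.1))) *
              c⁻¹.1 := by rw [hx, ← h3]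
        _ = ((x.2.2 : ℂ) * ((tpi⁻¹ : ℂˣ) : ℂ)) •
              ((c⁻¹.1ᵀ * c.1ᵀ) * cx A.psi * (c.1 * c⁻¹.1)) := by
            rw [smul_smul, Matrix.mul_smul, Matrix.smul_mul]
            simp only [Matrix.mul_assoc]
        _ = _ := by rw [h1, h2, Matrix.one_mul, Matrix.mul_one]
  have hclosed : ClosedOver Qbar T := by
    have h1 := closed_sim (n := n) Qbar (A.psi.map (fun x => (x : Qbar)))
      (Matrix.of fun i j => (⟨ψdR i j, hdR i j⟩ : Qbar))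
    rw [hT2]
    have e1 : (A.psi.map (fun x => (x : Qbar))).map (fun x : Qbar => (x : ℂ)) = cx A.psi := by
      ext i j
      simp [cx]
    have e2 : (Matrix.of fun i j => (⟨ψdR i j, hdR i j⟩ : Qbar)).map (fun x : Qbar => (x : ℂ)) =
        ψdR := rfl
    rw [e1, e2] at h1
    exact h1
  have htor : IsTorsor Qbar T := by
    refine ⟨hclosed, ⟨_, hself⟩, ?_⟩
    rw [hT1]
    rintro _ ⟨x, rfl, hx⟩ _ ⟨y, rfl, hy⟩ _ ⟨z, rfl, hz⟩
    refine ⟨x * y⁻¹ * z, ?_, mul_mem (mul_mem hx (inv_mem hy)) hz⟩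
    rw [← map_inv, ← map_mul, ← map_mul]
    congr 1
    group
  refine ⟨htor, hself, ?_⟩
  have hgrp : grp T = {f | ∃ y : Grp3 g n, bd3 y = f ∧
      y.1.1ᵀ * cx A.psi * y.1.1 = (y.2.2 : ℂ) • cx A.psi} := by
    ext f
    rw [mem_grp_iff htor hself]
    constructor
    · intro hf
      rw [hT1] at hf
      obtain ⟨y, hy, hy2⟩ := hf
      refine ⟨y, ?_, hy2⟩
      rw [map_mul] at hy
      exact mul_right_cancel hy
    · rintro ⟨y, rfl, hy⟩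
      rw [hT1]
      exact ⟨y, map_mul _ _ _, hy⟩
  rw [hgrp]
  have h1 := closed_sim (n := n) ⊥ (A.psi.map (fun x => (x : (⊥ : IntermediateField ℚ ℂ))))
    (A.psi.map (fun x => (x : (⊥ : IntermediateField ℚ ℂ))))
  have e1 : (A.psi.map (fun x => (x : (⊥ : IntermediateField ℚ ℂ)))).map
      (fun x : (⊥ : IntermediateField ℚ ℂ) => (x : ℂ)) = cx A.psi := by
    ext i j
    simp [cx]
  rw [e1] at h1
  exact h1

end Pool.Agent.Lib.MPf11a48.KU
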