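import Pool.Agent.Lib.MP_f11a48_ag.KU.Grp

/-! # TG: the torus in the torsor -/

set_option autoImplicit false
set_option linter.unusedSectionVars false

namespace Pool.Agent.Lib.MPf11a48.KU

open Matrix MvPolynomial Pool.Agent.Lib.MPf11a48.Tors
open Pool.Agent.Lib.MPf11a48.CM hiding OmegaM
open Pool.Agent.Lib.MPf11a48.GL2 (lie Geo)
open Pool.Agent.Lib.MPf11a48.GL2T (IsAlg)
open Pool.Agent.Lib.MPf11a48.U (AbData Ix HD EndAlg SpecHDA)
open Pool.Agent.Lib.MPf11a48.K3
open KLieM (bl clC)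

namespace TgM

open KGrpM KGrp3M GrpM

/-! ### Laurent polynomials -/

section lau

variable {J : Type} [Fintype J] [DecidableEq J]

/-- Laurent polynomials in `w` -/
def Lau (f : (J → ℂˣ) → ℂ) : Prop :=
  ∃ p : (J → ℤ) →₀ ℂ, ∀ w, f w = p.sum fun χ a => a * ∏ k, (w k : ℂ) ^ χ k

theorem lau_mono (a : ℂ) (χ : J → ℤ) : Lau fun w : J → ℂˣ => a * ∏ k, (w k : ℂ) ^ χ k := by
  refine ⟨Finsupp.single χ a, fun w => ?_⟩
  rw [Finsupp.sum_single_index]
  rw [zero_mul]

theorem lau_zero : Lau fun _ : J → ℂˣ => 0 := ⟨0, fun w => by simp⟩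

theorem lau_const (a : ℂ) : Lau fun _ : J → ℂˣ => a := by
  have h := lau_mono a (0 : J → ℤ)
  simpa using h

theorem Lau.add {f g : (J → ℂˣ) → ℂ} (hf : Lau f) (hg : Lau g) : Lau fun w => f w + g w := by
  obtain ⟨p, hp⟩ := hf
  obtain ⟨q, hq⟩ := hg
  refine ⟨p + q, fun w => ?_⟩
  change f w + g w = _
  rw [hp, hq, Finsupp.sum_add_index']
  · intro χ; rw [zero_mul]
  · intro χ a b; rw [add_mul]

theorem lau_sum {I : Type*} (s : Finset I) {f : I → (J → ℂˣ) → ℂ} (h : ∀ i ∈ s, Lau (f i)) :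
    Lau fun w => ∑ i ∈ s, f i w := by
  classical
  induction s using Finset.induction_on with
  | empty => simpa using lau_zero
  | insert i s hi ih =>
    have h1 := (h i (Finset.mem_insert_self _ _)).add
      (ih fun j hj => h j (Finset.mem_insert_of_mem hj))
    have e : (fun w => ∑ j ∈ insert i s, f j w) = fun w => f i w + ∑ j ∈ s, f j w := by
      funext w
      rw [Finset.sum_insert hi]
    rw [e]
    exact h1

theorem Lau.mul {f g : (J → ℂˣ) → ℂ} (hf : Lau f) (hg : Lau g) : Lau fun w => f w * g w := by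
  obtain ⟨p, hp⟩ := hf
  obtain ⟨q, hq⟩ := hg
  have e : (fun w => f w * g w) = fun w => ∑ χ ∈ p.support, ∑ ψ ∈ q.support,
      p χ * q ψ * ∏ k, (w k : ℂ) ^ (χ + ψ) k := by
    funext w
    rw [hp, hq, Finsupp.sum, Finsupp.sum, Finset.sum_mul_sum]
    refine Finset.sum_congr rfl fun χ _ => Finset.sum_congr rfl fun ψ _ => ?_
    have e1 : ∏ k, (w k : ℂ) ^ (χ + ψ) k = (∏ k, (w k : ℂ) ^ χ k) * ∏ k, (w k : ℂ) ^ ψ k := by
      rw [← Finset.prod_mul_distrib]
      refine Finset.prod_congr rfl fun k _ => ?_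
      rw [Pi.add_apply, zpow_add₀ (w k).ne_zero]
    rw [e1]
    ring
  rw [e]
  exact lau_sum _ fun χ _ => lau_sum _ fun ψ _ => lau_mono _ _

theorem lau_pow (j : J) (e : ℤ) : Lau fun w : J → ℂˣ => (w j : ℂ) ^ e := by
  have h := lau_mono (1 : ℂ) (Pi.single j e)
  have e1 : (fun w : J → ℂˣ => (1 : ℂ) * ∏ k, (w k : ℂ) ^ (Pi.single j e : J → ℤ) k) =
      fun w : J → ℂˣ => (w j : ℂ) ^ e := by
    funext w
    rw [one_mul, Finset.prod_eq_single j]
    · rw [Pi.single_eq_same]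
    · intro k _ hk
      rw [Pi.single_eq_of_ne hk, zpow_zero]
    · intro h
      exact absurd (Finset.mem_univ _) h
  rwa [e1] at h

theorem lau_prod {I : Type*} (s : Finset I) {f : I → (J → ℂˣ) → ℂ} (h : ∀ i ∈ s, Lau (f i)) :
    Lau fun w => ∏ i ∈ s, f i w := by
  classical
  induction s using Finset.induction_on with
  | empty => simpa using lau_const (1 : ℂ)
  | insert i s hi ih =>
    have h1 := (h i (Finset.mem_insert_self _ _)).mul
      (ih fun j hj => h j (Finset.mem_insert_of_mem hj))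
    have e : (fun w => ∏ j ∈ insert i s, f j w) = fun w => f i w * ∏ j ∈ s, f j w := by
      funext w
      rw [Finset.prod_insert hi]
    rw [e]
    exact h1

/-- Laurent polynomials in fewer variables -/
theorem lau_inl {κ : Type} [Fintype κ] [DecidableEq κ] {f : (κ → ℂˣ) → ℂ} (hf : Lau f) :
    Lau fun w : κ ⊕ Unit → ℂˣ => f fun k => w (Sum.inl k) := by
  obtain ⟨p, hp⟩ := hf
  have e : (fun w : κ ⊕ Unit → ℂˣ => f fun k => w (Sum.inl k)) = fun w => ∑ χ ∈ p.support,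
      p χ * ∏ k, (w k : ℂ) ^ (Sum.elim χ 0 : κ ⊕ Unit → ℤ) k := by
    funext w
    rw [hp, Finsupp.sum]
    refine Finset.sum_congr rfl fun χ _ => ?_
    rw [Fintype.prod_sum_type]
    simp
  rw [e]
  exact lau_sum _ fun χ _ => lau_mono _ _

end lau

/-! ### The torus -/

variable {g n : ℕ} {κ : Type} [Fintype κ] [DecidableEq κ] {m : κ → ℕ}

theorem sc_one : (sc 1 : GL (Ix g) ℂ) = 1 := by
  refine Units.ext ?_
  rw [sc_val, Units.val_one, one_smul]
  rfl

theorem sc_mul (z z' : ℂˣ) : (sc (z * z') : GL (Ix g) ℂ) = sc z * sc z' := by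
  refine Units.ext ?_
  change ((z * z' : ℂˣ) : ℂ) • (1 : Matrix (Ix g) (Ix g) ℂ) =
    ((z : ℂ) • (1 : Matrix (Ix g) (Ix g) ℂ)) * ((z' : ℂ) • 1)
  rw [Matrix.smul_mul, Matrix.one_mul, smul_smul, Units.val_mul]

theorem sc_comm (z : ℂˣ) (x : GL (Ix g) ℂ) : sc z * x = x * sc z := by
  refine Units.ext ?_
  change ((z : ℂ) • (1 : Matrix (Ix g) (Ix g) ℂ)) * x.1 = x.1 * ((z : ℂ) • 1)
  rw [Matrix.smul_mul, Matrix.one_mul, Matrix.mul_smul, Matrix.mul_one]

theorem ex_zero : ex 0 = 1 := by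
  refine Units.ext ?_
  rw [ex_val, Complex.exp_zero]
  rfl

variable {P Q : Matrix (Fin n) ((k : κ) × Fin (m k)) ℂ} {qB : Matrix (Fin n) (Fin n) ℚ}

/-- the torus -/
noncomputable def tor (h : ∀ x y : (k : κ) → GL (Fin (m k)) ℂ,
      ugm P Q qB x * ugm P Q qB y = ugm P Q qB (x * y) ∧ ugm P Q qB 1 = 1)
    (D : (κ → ℂˣ) →* GL (Ix g) ℂ) : (κ ⊕ Unit → ℂˣ) →* Grp3 g n where
  toFun w := (sc (w (Sum.inr ())) * D fun k => w (Sum.inl k),
    ug h fun k => scl (w (Sum.inl k)), w (Sum.inr ()) ^ 2 * ∏ k, w (Sum.inl k) ^ m k)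
  map_one' := by
    refine Prod.ext ?_ (Prod.ext ?_ ?_)
    · change sc 1 * D 1 = 1
      rw [sc_one, map_one, one_mul]
    · change ug h (fun k => scl 1) = 1
      simp only [map_one]
      exact map_one (ug h)
    · change (1 : ℂˣ) ^ 2 * ∏ k, (1 : ℂˣ) ^ m k = 1
      simp
  map_mul' w w' := by
    refine Prod.ext ?_ (Prod.ext ?_ ?_)
    · change sc (w (Sum.inr ()) * w' (Sum.inr ())) *
          D ((fun k => w (Sum.inl k)) * fun k => w' (Sum.inl k)) =
        (sc (w (Sum.inr ())) * D fun k => w (Sum.inl k)) *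
          (sc (w' (Sum.inr ())) * D fun k => w' (Sum.inl k))
      rw [sc_mul, map_mul]
      calc sc (w (Sum.inr ())) * sc (w' (Sum.inr ())) * ((D fun k => w (Sum.inl k)) *
            D fun k => w' (Sum.inl k)) = sc (w (Sum.inr ())) * (sc (w' (Sum.inr ())) *
            (D fun k => w (Sum.inl k))) * D fun k => w' (Sum.inl k) := by
              simp only [mul_assoc]
        _ = _ := by
          rw [sc_comm (w' (Sum.inr ()))]
          simp only [mul_assoc]
    · change ug h (fun k => scl (w (Sum.inl k) * w' (Sum.inl k))) =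
        (ug h fun k => scl (w (Sum.inl k))) * ug h fun k => scl (w' (Sum.inl k))
      simp only [map_mul]
      exact map_mul (ug h) _ _
    · change (w (Sum.inr ()) * w' (Sum.inr ())) ^ 2 * ∏ k, (w (Sum.inl k) * w' (Sum.inl k)) ^ m k =
        (w (Sum.inr ()) ^ 2 * ∏ k, w (Sum.inl k) ^ m k) *
          (w' (Sum.inr ()) ^ 2 * ∏ k, w' (Sum.inl k) ^ m k)
      simp only [mul_pow, Finset.prod_mul_distrib]
      exact mul_mul_mul_comm _ _ _ _

theorem tor_val1 (h : ∀ x y : (k : κ) → GL (Fin (m k)) ℂ,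
      ugm P Q qB x * ugm P Q qB y = ugm P Q qB (x * y) ∧ ugm P Q qB 1 = 1)
    (D : (κ → ℂˣ) →* GL (Ix g) ℂ) (w : κ ⊕ Unit → ℂˣ) :
    (tor h D w).1.1 = (w (Sum.inr ()) : ℂ) • (D fun k => w (Sum.inl k)).1 := by
  change ((w (Sum.inr ()) : ℂ) • (1 : Matrix (Ix g) (Ix g) ℂ)) * (D fun k => w (Sum.inl k)).1 = _
  rw [Matrix.smul_mul, Matrix.one_mul]

theorem tor_val2 (h : ∀ x y : (k : κ) → GL (Fin (m k)) ℂ,
      ugm P Q qB x * ugm P Q qB y = ugm P Q qB (x * y) ∧ ugm P Q qB 1 = 1)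
    (D : (κ → ℂˣ) →* GL (Ix g) ℂ) (w : κ ⊕ Unit → ℂˣ) :
    (tor h D w).2.1.1 = ugm P Q qB fun k => scl (w (Sum.inl k)) := rfl

theorem tor_val3 (h : ∀ x y : (k : κ) → GL (Fin (m k)) ℂ,
      ugm P Q qB x * ugm P Q qB y = ugm P Q qB (x * y) ∧ ugm P Q qB 1 = 1)
    (D : (κ → ℂˣ) →* GL (Ix g) ℂ) (w : κ ⊕ Unit → ℂˣ) :
    ((tor h D w).2.2 : ℂ) = (w (Sum.inr ()) : ℂ) ^ 2 * ∏ k, (w (Sum.inl k) : ℂ) ^ m k := by
  change ((w (Sum.inr ()) ^ 2 * ∏ k, w (Sum.inl k) ^ m k : ℂˣ) : ℂ) = _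
  push_cast
  rfl

theorem diag_eq (z : κ → ℂ) :
    diagonal (fun u : (k : κ) × Fin (m k) => z u.1) =
      blockDiagonal' fun k => z k • (1 : Matrix (Fin (m k)) (Fin (m k)) ℂ) := by
  have e : (fun k => z k • (1 : Matrix (Fin (m k)) (Fin (m k)) ℂ)) =
      fun k => diagonal (fun _ => z k) := by
    funext k
    rw [Matrix.smul_one_eq_diagonal]
  rw [e, blockDiagonal'_diagonal]

theorem scl_inv_val {ι : Type} [Fintype ι] [DecidableEq ι] (z : ℂˣ) :
    ((scl z : GL ι ℂ)⁻¹).1 = ((z⁻¹ : ℂˣ) : ℂ) • 1 := by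
  rw [← map_inv, scl_val]

/-- the entries of the torus are Laurent polynomials -/
theorem lau_tor (h : ∀ x y : (k : κ) → GL (Fin (m k)) ℂ,
      ugm P Q qB x * ugm P Q qB y = ugm P Q qB (x * y) ∧ ugm P Q qB 1 = 1)
    (D : (κ → ℂˣ) →* GL (Ix g) ℂ) (hD : ∀ i j, Lau fun z => (D z).1 i j)
    (i j : Ix g ⊕ (Fin n ⊕ Unit)) : Lau fun w => (bd3 (tor h D w)).1 i j := by
  have hcm : ∀ (A : Matrix (Fin n) ((k : κ) × Fin (m k)) ℂ)
      (A' : Matrix ((k : κ) × Fin (m k)) (Fin n) ℂ)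
      (X : (κ ⊕ Unit → ℂˣ) → (k : κ) → Matrix (Fin (m k)) (Fin (m k)) ℂ),
      (∀ k a b, Lau fun w => X w k a b) → ∀ i j, Lau fun w => (cm A A' (X w)) i j := by
    intro A A' X hX i j
    have e : (fun w => (cm A A' (X w)) i j) = fun w =>
        ∑ v, (∑ u, A i u * blockDiagonal' (X w) u v) * A' v j := by
      funext w
      unfold cm
      rw [Matrix.mul_apply]
      exact Finset.sum_congr rfl fun v _ => by rw [Matrix.mul_apply]
    rw [e]
    refine lau_sum _ fun v _ => (lau_sum _ fun u _ => (lau_const _).mul ?_).mul (lau_const _)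
    obtain ⟨k1, a⟩ := u
    obtain ⟨k2, b⟩ := v
    by_cases hk : k1 = k2
    · subst hk
      simp only [blockDiagonal'_apply_eq]
      exact hX k1 a b
    · simp only [blockDiagonal'_apply_ne _ _ _ hk]
      exact lau_zero
  simp only [bd3_val]
  rcases i with i | i <;> rcases j with j | j
  · change Lau fun w => (tor h D w).1.1 i j
    simp only [tor_val1, Matrix.smul_apply, smul_eq_mul]
    have h1 := lau_pow (Sum.inr () : κ ⊕ Unit) 1
    simp only [zpow_one] at h1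
    exact h1.mul (lau_inl (hD i j))
  · exact lau_zero
  · exact lau_zero
  · rcases i with i | i <;> rcases j with j | j
    · change Lau fun w => (tor h D w).2.1.1 i j
      simp only [tor_val2, ugm_eq, Matrix.add_apply]
      refine (hcm _ _ _ (fun k a b => ?_) i j).add (hcm _ _ _ (fun k a b => ?_) i j)
      · simp only [scl_val, Matrix.smul_apply, smul_eq_mul]
        have h1 := lau_pow (Sum.inl k : κ ⊕ Unit) 1
        simp only [zpow_one] at h1
        exact h1.mul (lau_const _)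
      · change Lau fun w : κ ⊕ Unit → ℂˣ => ((scl (w (Sum.inl k)) : GL (Fin (m k)) ℂ)⁻¹).1 b a
        simp only [scl_inv_val, Matrix.smul_apply, smul_eq_mul]
        have h1 := lau_pow (Sum.inl k : κ ⊕ Unit) (-1)
        simp only [_root_.zpow_neg, zpow_one] at h1
        simp only [Units.val_inv_eq_inv_val]
        exact h1.mul (lau_const _)
    · exact lau_zero
    · exact lau_zero
    · change Lau fun w => ((tor h D w).2.2 : ℂ)
      simp only [tor_val3]
      have h1 := lau_pow (Sum.inr () : κ ⊕ Unit) 2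
      refine Lau.mul h1 (lau_prod _ fun k _ => ?_)
      have h2 := lau_pow (Sum.inl k : κ ⊕ Unit) (m k)
      simp only [zpow_natCast] at h2
      exact h2

theorem bd3_inj {y y' : Grp3 g n} (h : bd3 y = bd3 y') : y = y' := by
  have h1 : lb3 y.1.1 y.2.1.1 y.2.2 = lb3 y'.1.1 y'.2.1.1 y'.2.2 := by
    rw [← bd3_val, ← bd3_val, h]
  unfold lb3 lb at h1
  rw [fromBlocks_inj] at h1
  obtain ⟨h2, -, -, h3⟩ := h1
  rw [fromBlocks_inj] at h3
  obtain ⟨h4, -, -, h5⟩ := h3
  refine Prod.ext (Units.ext h2) (Prod.ext (Units.ext h4) (Units.ext ?_))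
  have := congrFun (congrFun h5 ()) ()
  simpa using this

/-- the curves in the torus -/
theorem hasDerivAt_tor (h : ∀ x y : (k : κ) → GL (Fin (m k)) ℂ,
      ugm P Q qB x * ugm P Q qB y = ugm P Q qB (x * y) ∧ ugm P Q qB 1 = 1)
    (h3 : ∀ X : Matrix ((k : κ) × Fin (m k)) ((k : κ) × Fin (m k)) ℂ,
      um P Q qB X * P = P * X ∧ um P Q qB X * Q = -(Q * Xᵀ))
    (D : (κ → ℂˣ) →* GL (Ix g) ℂ) (F : Matrix (Ix g) (Ix g) ℂ) (z : κ → ℂ) (s' : ℂ)
    (hD : ∀ s i j, HasDerivAt (fun s => (D fun k => ex (s * z k)).1 i j)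
      ((F * (D fun k => ex (s * z k)).1) i j) s) (s : ℂ)
    (i j : Ix g ⊕ (Fin n ⊕ Unit)) :
    HasDerivAt (fun s => (bd3 (tor h D fun j => ex (s * (Sum.elim z (fun _ => s') :
        κ ⊕ Unit → ℂ) j))).1 i j)
      ((lb3 (F + s' • 1) (uz P Q qB z) (2 * s' + ∑ k, m k * z k) *
        (bd3 (tor h D fun j => ex (s * (Sum.elim z (fun _ => s') :
        κ ⊕ Unit → ℂ) j))).1 : Matrix (Ix g ⊕ (Fin n ⊕ Unit)) (Ix g ⊕ (Fin n ⊕ Unit)) ℂ) i j)
          s := by
  simp only [bd3_val, lb3_mul]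
  refine hasDerivAt_lb3 (Z := fun s => (tor h D fun j => ex (s * (Sum.elim z (fun _ => s') :
        κ ⊕ Unit → ℂ) j)).1.1)
    (X := fun s => (tor h D fun j => ex (s * (Sum.elim z (fun _ => s') :
        κ ⊕ Unit → ℂ) j)).2.1.1)
    (u := fun s => ((tor h D fun j => ex (s * (Sum.elim z (fun _ => s') :
        κ ⊕ Unit → ℂ) j)).2.2 : ℂ)) (fun i j => ?_) (fun i j => ?_) ?_ i j
  · simp only [tor_val1, Sum.elim_inr, Sum.elim_inl, Matrix.smul_apply, smul_eq_mul, ex_val]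
    have h1 : HasDerivAt (fun s : ℂ => Complex.exp (s * s')) (Complex.exp (s * s') * (1 * s')) s :=
      (Complex.hasDerivAt_exp (s * s')).comp s ((hasDerivAt_id s).mul_const s')
    have h2 := h1.mul (hD s i j)
    have e0 : ((F + s' • 1) * (tor h D fun j => ex (s * (Sum.elim z (fun _ => s') :
        κ ⊕ Unit → ℂ) j)).1.1) i j = Complex.exp (s * s') * (1 * s') * (D fun k =>
          ex (s * z k)).1 i j + Complex.exp (s * s') * (F * (D fun k => ex (s * z k)).1) i j := by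
      rw [tor_val1]
      simp only [Sum.elim_inr, Sum.elim_inl, ex_val, add_mul, Matrix.smul_mul, Matrix.mul_smul,
        Matrix.one_mul, Matrix.add_apply, Matrix.smul_apply, smul_eq_mul]
      ring
    simp only [tor_val1, Sum.elim_inr, Sum.elim_inl, ex_val] at e0
    rw [e0]
    exact h2
  · simp only [tor_val2, Sum.elim_inl]
    rw [uz, diag_eq, um_mul_ugm h3]
    refine hasDerivAt_ugm (x := fun s k => scl (ex (s * z k)))
      (X := fun k => z k • (1 : Matrix (Fin (m k)) (Fin (m k)) ℂ) * (scl (ex (s * z k)) :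
        GL (Fin (m k)) ℂ).1)
      (Y := fun k => -(((scl (ex (s * z k)) : GL (Fin (m k)) ℂ)⁻¹).1 *
        z k • (1 : Matrix (Fin (m k)) (Fin (m k)) ℂ)))
      (fun k a b => ?_) (fun k a b => ?_) i j
    · simp only [scl_val, ex_val, Matrix.smul_apply, smul_eq_mul, Matrix.mul_smul,
        Matrix.mul_one]
      have h1 : HasDerivAt (fun s : ℂ => Complex.exp (s * z k))
          (Complex.exp (s * z k) * (1 * z k)) s :=
        (Complex.hasDerivAt_exp (s * z k)).comp s ((hasDerivAt_id s).mul_const (z k))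
      have h2 := h1.mul_const ((1 : Matrix (Fin (m k)) (Fin (m k)) ℂ) a b)
      exact h2.congr_deriv (by ring)
    · simp only [scl_inv_val, Units.val_inv_eq_inv_val, ex_val, Matrix.neg_apply,
        Matrix.smul_apply, smul_eq_mul, Matrix.mul_smul, Matrix.mul_one]
      have h1 : HasDerivAt (fun s : ℂ => Complex.exp (-(s * z k)))
          (Complex.exp (-(s * z k)) * (-(1 * z k))) s :=
        (Complex.hasDerivAt_exp (-(s * z k))).comp s ((hasDerivAt_id s).mul_const (z k)).neg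
      have h2 := h1.mul_const ((1 : Matrix (Fin (m k)) (Fin (m k)) ℂ) a b)
      simp only [Complex.exp_neg] at h2
      exact h2.congr_deriv (by ring)
  · simp only [tor_val3, Sum.elim_inr, Sum.elim_inl, ex_val]
    have e : ∀ s : ℂ, Complex.exp (s * s') ^ 2 * ∏ k, Complex.exp (s * z k) ^ m k =
        Complex.exp (s * (2 * s' + ∑ k, m k * z k)) := by
      intro s
      rw [mul_add, Complex.exp_add, Finset.mul_sum, Complex.exp_sum, ← Complex.exp_nat_mul]
      congr 1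
      · congr 1
        push_cast
        ring
      · refine Finset.prod_congr rfl fun k _ => ?_
        rw [← Complex.exp_nat_mul]
        congr 1
        ring
    simp only [e]
    have h1 := (Complex.hasDerivAt_exp (s * (2 * s' + ∑ k, m k * z k))).comp s
      ((hasDerivAt_id s).mul_const (2 * s' + ∑ k, m k * z k))
    exact h1.congr_deriv (by simp only [one_mul]; ring)

/-- the torus is in every torsor -/
theorem tor_mem (hFulB : SpecUFulB) (hTor : SpecUTor) (hCurve : SpecCurve)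
    {N : ℕ} {A : AbData g N} {c : GL (Ix g) ℂ} {t : GL (Fin n) ℂ}
    {qdR : Matrix (Fin n) (Fin n) ℂ}
    {B : Fin n → Matrix (Ix g) (Ix g) ℚ} {E : Set (Matrix (Fin n) (Fin n) ℚ)}
    {lam : Matrix (Fin n) (Fin n) ℚ → κ → ℂ}
    (hK : KugaSatake A c t qdR qB B E) (hE : EndFull c qB B E) (hS : SplitU qB E m P Q lam)
    (hm : ∀ k, 0 < m k) (hev : ∀ k, m k = 1 ∨ Even (m k)) (hflat : FlatU E lam)
    {T : Set (GL (Ix g ⊕ (Fin n ⊕ Unit)) ℂ)} (hT : IsTorsor Qbar T)
    (htT : bd3 (c, t, tpi) ∈ T) (hcl : ClosedOver ⊥ (grp T))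
    (h : ∀ x y : (k : κ) → GL (Fin (m k)) ℂ,
      ugm P Q qB x * ugm P Q qB y = ugm P Q qB (x * y) ∧ ugm P Q qB 1 = 1)
    (h3 : ∀ X : Matrix ((k : κ) × Fin (m k)) ((k : κ) × Fin (m k)) ℂ,
      um P Q qB X * P = P * X ∧ um P Q qB X * Q = -(Q * Xᵀ))
    (hC2 : ∀ X : Matrix ((k : κ) × Fin (m k)) ((k : κ) × Fin (m k)) ℂ,
      (4 : ℂ)⁻¹ • clC B qB (um P Q qB X) =
        ∑ u, ∑ v, X u v • (eU B P u * fU B Q v) - (X.trace / 2) • (1 : Matrix (Ix g) (Ix g) ℂ))
    (D : (κ → ℂˣ) →* GL (Ix g) ℂ)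
    (hD4 : ∀ i j, ∃ p : (κ → ℤ) →₀ ℂ, ∀ z, (D z).1 i j = p.sum fun χ a =>
      a * ∏ k, (z k : ℂ) ^ χ k)
    (hD5 : ∀ (w : κ → ℂ) (s : ℂ) (i j : Ix g), HasDerivAt (fun s => (D fun k => ex (s * w k)).1 i j)
      (((∑ u, w u.1 • (eU B P u * fU B Q u)) * (D fun k => ex (s * w k)).1) i j) s)
    (w : κ ⊕ Unit → ℂˣ) : bd3 (tor h D w) ∈ stab T := by
  have hgeo := GL2.geo_of_torsor hT
  refine mem_stab hgeo fun f hf => ?_
  refine hTor (Ix g ⊕ (Fin n ⊕ Unit)) (κ ⊕ Unit) T hgeo (bd3.comp (tor h D))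
    (fun i j => lau_tor h D hD4 i j) (fun χ hχ => ?_) w f hf
  by_contra hcon
  push Not at hcon
  have key := hFulB g N n A c t qdR qB B E κ m P Q lam hK hE hS hm hev hflat T hT htT hcl
    (fun k => (χ (Sum.inl k) : ℚ) - χ (Sum.inr ()) * m k / 2) (χ (Sum.inr ()))
    (fun z s hl => ?_)
  · apply hχ
    have k2 : χ (Sum.inr ()) = 0 := by exact_mod_cast key.2
    funext j
    rcases j with k | u
    · have k1 := congrFun key.1 k
      simp only [k2, Int.cast_zero, zero_mul, zero_div, sub_zero, Pi.zero_apply] at k1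
      exact_mod_cast k1
    · exact k2
  · set s' : ℂ := s - (∑ k, (m k : ℂ) * z k) / 2 with hs'
    have htr : (diagonal fun u : (k : κ) × Fin (m k) => z u.1).trace = ∑ k, (m k : ℂ) * z k := by
      rw [Matrix.trace_diagonal, Fintype.sum_sigma]
      refine Finset.sum_congr rfl fun k _ => ?_
      simp
    have hX : lb3 ((∑ u, z u.1 • (eU B P u * fU B Q u)) + s' • 1) (uz P Q qB z)
        (2 * s' + ∑ k, m k * z k) =
        lb3 ((4 : ℂ)⁻¹ • clC B qB (uz P Q qB z) + s • 1) (uz P Q qB z) (2 * s) := by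
      have e1 : (4 : ℂ)⁻¹ • clC B qB (uz P Q qB z) = (∑ u, z u.1 • (eU B P u * fU B Q u)) -
          ((∑ k, (m k : ℂ) * z k) / 2) • 1 := by
        rw [uz, hC2, htr]
        congr 1
        refine Finset.sum_congr rfl fun u _ => ?_
        rw [Finset.sum_eq_single u]
        · rw [Matrix.diagonal_apply_eq]
        · intro v _ hv
          rw [Matrix.diagonal_apply_ne' _ hv, zero_smul]
        · intro h
          exact absurd (Finset.mem_univ _) h
      have e2 : 2 * s' + ∑ k, (m k : ℂ) * z k = 2 * s := by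
        rw [hs']
        ring
      rw [e2, e1, hs', sub_smul]
      congr 1
      abel
    rw [← hX] at hl
    by_contra hne
    have hv : ∑ j, (χ j : ℂ) * (Sum.elim z (fun _ => s') : κ ⊕ Unit → ℂ) j ≠ 0 := by
      intro h0
      apply hne
      rw [Fintype.sum_sum_type] at h0
      simp only [Sum.elim_inl, Sum.elim_inr, Finset.univ_unique, Finset.sum_singleton] at h0
      push_cast
      rw [← h0, hs']
      simp only [sub_mul, Finset.sum_sub_distrib]
      have e3 : ∑ k, (χ (Sum.inr ()) : ℂ) * (m k : ℂ) / 2 * z k =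
          (χ (Sum.inr ()) : ℂ) * ((∑ k, (m k : ℂ) * z k) / 2) := by
        rw [Finset.sum_div, Finset.mul_sum]
        refine Finset.sum_congr rfl fun k _ => ?_
        ring
      rw [e3]
      have e4 : (default : Unit) = () := rfl
      rw [e4]
      ring
    · obtain ⟨u, f, hf, hnot⟩ := hcon (Sum.elim z fun _ => s') hv
      apply hnot
      refine hCurve _ T hgeo _ hl (fun s => bd3 (tor h D fun j => ex (s *
        (Sum.elim z (fun _ => s') : κ ⊕ Unit → ℂ) j))) ?_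
        (fun s i j => hasDerivAt_tor h h3 D _ z s' (fun s i j => hD5 z s i j) s i j) f hf u
      have e5 : (fun j => ex (0 * (Sum.elim z (fun _ => s') : κ ⊕ Unit → ℂ) j)) = 1 := by
        funext j
        rw [zero_mul, ex_zero]
        rfl
      rw [e5, map_one, map_one]

end TgM

open KGrpM KGrp3M GrpM TgM in
theorem specUTg (hFulB : SpecUFulB) (hTor : SpecUTor) (hDia : SpecUDia) (hSim : SpecUSim)
    (hMat : SpecUMat) (hCli : SpecUCli) (hEnd : SpecUEnd) (hCurve : SpecCurve)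
    (hHDA : SpecHDA) : SpecUTg := by
  intro g N n A c t qdR qB B E κ _ _ m P Q lam hK hE hS hm hev hflat T hT htT hcl
  obtain ⟨⟨J, hJ⟩, hendo⟩ := hHDA Qbar g N A c le_rfl hK.abvar hK.per
  obtain ⟨-, hM2, hM3, -, hM5⟩ := hMat n qB E κ m P Q lam hK.symm hS
  obtain ⟨hcar, hC2, -, hC4, -⟩ := hCli n (Ix g) qB B E κ m P Q lam hK.symm hK.det hK.clifford hS
  obtain ⟨D, hD1, hD2, hD3, hD4, hD5⟩ := hDia (Ix g) κ m (eU B P) (fU B Q) hcar
  have hst : ∀ w, bd3 (tor hM5 D w) ∈ stab T := fun w =>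
    tor_mem hFulB hTor hCurve hK hE hS hm hev hflat hT htT hcl hM5 hM3 hC2 D hD4 hD5 w
  have hsim : ∀ w, (tor hM5 D w).1.1ᵀ * cx A.psi * (tor hM5 D w).1.1 =
      ((tor hM5 D w).2.2 : ℂ) • cx A.psi := by
    intro w
    obtain ⟨T', hT'⟩ : ∃ T' : Set (GL (Ix g ⊕ (Fin n ⊕ Unit)) ℂ), T' =
      {f | ∃ y : Grp3 g n, bd3 (y * (c, t, tpi)) = f ∧
        y.1.1ᵀ * cx A.psi * y.1.1 = (y.2.2 : ℂ) • cx A.psi} := ⟨_, rfl⟩
    obtain ⟨h1, h2, h4⟩ := hSim g N n A c t J hJ T' hT'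
    have h5 := (tor_mem hFulB hTor hCurve hK hE hS hm hev hflat h1 h2 h4 hM5 hM3 hC2 D hD4 hD5 w
      _ h2).1
    rw [← map_mul, hT'] at h5
    obtain ⟨y, hy, hy'⟩ := h5
    have h6 := mul_right_cancel (bd3_inj hy)
    rw [← h6]
    exact hy'
  have hcomm : ∀ Z ∈ EndAlg c.1, ∀ u, cx Z * (eU B P u * fU B Q u) =
      eU B P u * fU B Q u * cx Z := by
    intro Z hZ u
    have e1 : diagonal (Pi.single u (1 : ℂ)) =
        blockDiagonal' fun k => diagonal fun a : Fin (m k) => (Pi.single u (1 : ℂ) :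
          (k : κ) × Fin (m k) → ℂ) ⟨k, a⟩ := by
      rw [blockDiagonal'_diagonal]
    have h1 := (hM2 fun k => diagonal fun a : Fin (m k) => (Pi.single u (1 : ℂ) :
          (k : κ) × Fin (m k) → ℂ) ⟨k, a⟩).1
    rw [← e1] at h1
    have h2 := hEnd g N n A c t qdR qB B E hK hendo _ h1 Z hZ
    have h4 := hC2 (diagonal (Pi.single u (1 : ℂ)))
    have h5 : ∑ a, ∑ b, (diagonal (Pi.single u (1 : ℂ)) :
        Matrix ((k : κ) × Fin (m k)) ((k : κ) × Fin (m k)) ℂ) a b • (eU B P a * fU B Q b) =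
        eU B P u * fU B Q u := by
      rw [Finset.sum_eq_single u]
      · rw [Finset.sum_eq_single u]
        · rw [Matrix.diagonal_apply_eq, Pi.single_eq_same, one_smul]
        · intro v _ hv
          rw [Matrix.diagonal_apply_ne' _ hv, zero_smul]
        · intro h
          exact absurd (Finset.mem_univ _) h
      · intro a _ ha
        refine Finset.sum_eq_zero fun b _ => ?_
        by_cases hab : a = b
        · subst hab
          rw [Matrix.diagonal_apply_eq, Pi.single_eq_of_ne ha, zero_smul]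
        · rw [Matrix.diagonal_apply_ne _ hab, zero_smul]
      · intro h
        exact absurd (Finset.mem_univ _) h
    rw [h5] at h4
    have h6 : eU B P u * fU B Q u = (4 : ℂ)⁻¹ • clC B qB (um P Q qB (diagonal (Pi.single u 1))) +
        ((diagonal (Pi.single u (1 : ℂ)) : Matrix ((k : κ) × Fin (m k)) ((k : κ) × Fin (m k))
          ℂ).trace / 2) • (1 : Matrix (Ix g) (Ix g) ℂ) := by
      rw [h4, sub_add_cancel]
    rw [h6, Matrix.mul_add, Matrix.add_mul, Matrix.mul_smul, Matrix.smul_mul, h2,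
      Matrix.mul_smul, Matrix.smul_mul, Matrix.mul_one, Matrix.one_mul]
  have hG0 : ∀ w, tor hM5 D w ∈ G0 B (EndAlg c.1) A.psi := by
    intro w
    refine ⟨fun j => ?_, fun Z hZ => ?_, hsim w⟩
    · rw [tor_val1, tor_val2, Matrix.smul_mul, Matrix.mul_smul]
      congr 1
      exact hC4 _ (fun k => w (Sum.inl k)) (hD1 _) (hD2 _) j
    · rw [tor_val1, Matrix.smul_mul, Matrix.mul_smul]
      congr 1
      exact (hD3 (fun k => w (Sum.inl k)) (cx Z) (hcomm Z hZ)).symm
  refine ⟨fun s => ?_, fun z => ?_⟩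
  · have e : ((sc s, 1, s ^ 2) : Grp3 g n) = tor hM5 D (Sum.elim 1 fun _ => s) := by
      refine Prod.ext ?_ (Prod.ext ?_ ?_)
      · change sc s = sc s * D 1
        rw [map_one, mul_one]
      · change 1 = ug hM5 fun k => scl 1
        simp only [map_one]
        exact (map_one (ug hM5)).symm
      · change s ^ 2 = s ^ 2 * ∏ k, (1 : ℂˣ) ^ m k
        simp
    rw [e]
    exact ⟨hG0 _, hst _⟩
  · refine ⟨(tor hM5 D (Sum.elim z 1)).1, (tor hM5 D (Sum.elim z 1)).2.1, rfl, ?_⟩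
    have e : ((tor hM5 D (Sum.elim z 1)).1, (tor hM5 D (Sum.elim z 1)).2.1, ∏ k, z k ^ m k) =
        tor hM5 D (Sum.elim z 1) := by
      refine Prod.ext rfl (Prod.ext rfl ?_)
      change ∏ k, z k ^ m k = (1 : ℂˣ) ^ 2 * ∏ k, z k ^ m k
      simp
    rw [e]
    exact ⟨hG0 _, hst _⟩

end Pool.Agent.Lib.MPf11a48.KU
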