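import Pool.Agent.Lib.MP_f11a48_ag.KU.Spec

/-!
# Kuga-Satake varieties, the unitary case, module TOR: a torus in a torsor
-/

set_option autoImplicit false

namespace Pool.Agent.Lib.MPf11a48.KU

open Matrix MvPolynomial Pool.Agent.Lib.MPf11a48.Tors
open Pool.Agent.Lib.MPf11a48.CM hiding OmegaM
open Pool.Agent.Lib.MPf11a48.GL2 (Geo en)
open Pool.Agent.Lib.MPf11a48.K3
open KGrp3M (ex)

namespace TorM

variable {I J : Type} [Fintype I] [DecidableEq I] [Fintype J] [DecidableEq J]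

/-- Evaluation of the characters at `w`. -/
noncomputable def chw (w : J → ℂˣ) : Multiplicative (J → ℤ) →* ℂ where
  toFun χ := ∏ k, (w k : ℂ) ^ (χ.toAdd k)
  map_one' := by simp
  map_mul' χ χ' := by
    rw [← Finset.prod_mul_distrib]
    refine Finset.prod_congr rfl (fun k _ => ?_)
    rw [toAdd_mul, Pi.add_apply, zpow_add₀ (w k).ne_zero]

/-- Evaluation of a Laurent polynomial at `w`. -/
noncomputable def evw (w : J → ℂˣ) : AddMonoidAlgebra ℂ (J → ℤ) →ₐ[ℂ] ℂ :=
  AddMonoidAlgebra.lift ℂ ℂ (J → ℤ) (chw w)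

lemma evw_apply (w : J → ℂˣ) (q : AddMonoidAlgebra ℂ (J → ℤ)) :
    evw w q = q.coeff.sum fun χ a => a * ∏ k, (w k : ℂ) ^ χ k := by
  unfold evw
  rw [AddMonoidAlgebra.lift_apply]
  rfl

/-- The characters on a submonoid. -/
noncomputable def chH (H : Submonoid (J → ℂˣ)) (χ : J → ℤ) : H →* ℂ where
  toFun w := ∏ k, ((w : J → ℂˣ) k : ℂ) ^ χ k
  map_one' := by simp
  map_mul' w w' := by
    rw [← Finset.prod_mul_distrib]
    refine Finset.prod_congr rfl (fun k _ => ?_)
    rw [Submonoid.coe_mul, Pi.mul_apply, Units.val_mul, mul_zpow]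

lemma chH_apply (H : Submonoid (J → ℂˣ)) (χ : J → ℤ) (w : H) :
    chH H χ w = ∏ k, ((w : J → ℂˣ) k : ℂ) ^ χ k := rfl

lemma exp_one_ne : Complex.exp 1 ≠ 1 := by
  intro h
  have h1 : ((Real.exp 1 : ℝ) : ℂ) = ((1 : ℝ) : ℂ) := by
    rw [Complex.ofReal_exp]
    simpa using h
  have h2 : Real.exp 1 = 1 := by exact_mod_cast h1
  have h3 := Real.add_one_le_exp (1 : ℝ)
  linarith

lemma prod_ex (v : J → ℂ) (χ : J → ℤ) :
    ∏ k, ((ex (v k) : ℂˣ) : ℂ) ^ χ k = Complex.exp (∑ k, (χ k : ℂ) * v k) := by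
  rw [Complex.exp_sum]
  refine Finset.prod_congr rfl (fun k _ => ?_)
  rw [KGrp3M.ex_val, ← Complex.exp_int_mul]

end TorM

open TorM in
/-- A torus in a torsor. -/
theorem specUTor : SpecUTor := by
  intro I J _ _ _ _ T hT μ hμ hcurve w0 f0 hf0
  apply hT.closed
  intro p hp
  -- the entries as Laurent polynomials
  choose pe hpe using hμ
  let L : I × I → AddMonoidAlgebra ℂ (J → ℤ) := fun v =>
    ∑ k, AddMonoidAlgebra.ofCoeff (pe v.1 k) * algebraMap ℂ _ (f0.1 k v.2)
  let q : AddMonoidAlgebra ℂ (J → ℤ) := MvPolynomial.aeval L p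
  have hL : ∀ w v, evw w (L v) = en (μ w * f0).1 v := by
    intro w v
    change evw w (∑ k, AddMonoidAlgebra.ofCoeff (pe v.1 k) * algebraMap ℂ _ (f0.1 k v.2)) =
      ((μ w).1 * f0.1) v.1 v.2
    rw [map_sum, Matrix.mul_apply]
    refine Finset.sum_congr rfl (fun k _ => ?_)
    rw [map_mul, AlgHom.commutes, evw_apply, hpe v.1 k w]
    rfl
  have hq : ∀ w, evw w q = eval (en (μ w * f0).1) p := by
    intro w
    change evw w (MvPolynomial.aeval L p) = _
    have h1 : (evw w).comp (MvPolynomial.aeval L) =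
        MvPolynomial.aeval (fun v => en (μ w * f0).1 v) := by
      apply MvPolynomial.algHom_ext
      intro v
      rw [AlgHom.comp_apply, MvPolynomial.aeval_X, MvPolynomial.aeval_X, hL]
    have h2 := AlgHom.congr_fun h1 p
    rw [AlgHom.comp_apply] at h2
    rw [h2]
    rfl
  rw [← hq w0]
  -- the monoid
  let H : Submonoid (J → ℂˣ) :=
    { carrier := {w | ∀ f ∈ T, μ w * f ∈ T}
      one_mem' := by
        intro f hf
        rw [map_one, one_mul]
        exact hf
      mul_mem' := by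
        intro a b ha hb f hf
        rw [map_mul, mul_assoc]
        exact ha _ (hb f hf) }
  have hH : ∀ w ∈ H, evw w q = 0 := by
    intro w hw
    rw [hq w]
    exact hp _ (hw f0 hf0)
  have hinj : Function.Injective (chH H) := by
    intro χ χ' hχ
    by_contra hne
    have hd : χ - χ' ≠ 0 := sub_ne_zero.mpr hne
    obtain ⟨v, hv, hcur⟩ := hcurve (χ - χ') hd
    set c : ℂ := ∑ j, ((χ - χ') j : ℂ) * v j with hc
    have hmem : (fun j => ex (c⁻¹ * v j)) ∈ H := fun f hf => hcur c⁻¹ f hf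
    have h1 := DFunLike.congr_fun hχ ⟨_, hmem⟩
    rw [chH_apply, chH_apply] at h1
    simp only [] at h1
    rw [prod_ex, prod_ex] at h1
    have h2 : Complex.exp (∑ k, (χ k : ℂ) * (c⁻¹ * v k) - ∑ k, (χ' k : ℂ) * (c⁻¹ * v k)) = 1 := by
      rw [Complex.exp_sub, h1, div_self (Complex.exp_ne_zero _)]
    have h3 : ∑ k, (χ k : ℂ) * (c⁻¹ * v k) - ∑ k, (χ' k : ℂ) * (c⁻¹ * v k) = 1 := by
      rw [← Finset.sum_sub_distrib]
      have h4 : ∀ k, (χ k : ℂ) * (c⁻¹ * v k) - (χ' k : ℂ) * (c⁻¹ * v k) =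
          c⁻¹ * (((χ - χ') k : ℂ) * v k) := by
        intro k
        rw [Pi.sub_apply]
        push_cast
        ring
      rw [Finset.sum_congr rfl (fun k _ => h4 k), ← Finset.mul_sum, ← hc, inv_mul_cancel₀ hv]
    rw [h3] at h2
    exact exp_one_ne h2
  have hli : LinearIndependent ℂ (fun χ : J → ℤ => (chH H χ : H → ℂ)) :=
    (linearIndependent_monoidHom H ℂ).comp (chH H) hinj
  have hq0 : q.coeff = 0 := by
    ext χ
    by_cases hs : χ ∈ q.coeff.support
    · rw [linearIndependent_iff'] at hli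
      refine hli q.coeff.support (fun χ => q.coeff χ) ?_ χ hs
      funext w
      have h1 := hH w.1 w.2
      rw [evw_apply] at h1
      rw [Finset.sum_apply]
      exact h1
    · simpa using hs
  rw [evw_apply, hq0, Finsupp.sum_zero_index]

end Pool.Agent.Lib.MPf11a48.KU
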