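import Pool.Agent.Lib.MP_f11a48_ag.KU.Spec

/-!
# TRC: a non-zero trace
-/

set_option autoImplicit false

namespace Pool.Agent.Lib.MPf11a48.KU

open Matrix

namespace TrcM

variable {ι U : Type} [Fintype ι] [DecidableEq ι] [DecidableEq U] {a b : U → Matrix ι ι ℂ}

/-- the product of the `a u` over a list -/
noncomputable def pr (a : U → Matrix ι ι ℂ) (l : List U) : Matrix ι ι ℂ := (l.map a).prod

@[simp] lemma pr_nil (a : U → Matrix ι ι ℂ) : pr a [] = 1 := by simp [pr]

@[simp] lemma pr_cons (a : U → Matrix ι ι ℂ) (u : U) (l : List U) :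
    pr a (u :: l) = a u * pr a l := by simp [pr]

lemma anti (h : Car a b) (u v : U) : a u * a v = -(a v * a u) :=
  eq_neg_of_add_eq_zero_left (h.ee u v)

lemma aa (h : Car a b) (u : U) : a u * a u = 0 := by
  have h1 := h.ee u u
  have h2 : (2 : ℂ) • (a u * a u) = 0 := by rw [two_smul]; exact h1
  exact (smul_eq_zero.1 h2).resolve_left two_ne_zero

lemma ab (h : Car a b) (u : U) : a u * b u + b u * a u = 1 := by
  have := h.ef u u
  simpa using this

/-- a product with two equal factors vanishes -/
lemma mul_pr_mem (h : Car a b) {w : U} {l : List U} (hw : w ∈ l) : a w * pr a l = 0 := by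
  induction l with
  | nil => simp at hw
  | cons u l ih =>
    rw [pr_cons]
    by_cases hu : w = u
    · subst hu
      rw [← mul_assoc, aa h, zero_mul]
    · have hl : w ∈ l := by
        rcases List.mem_cons.1 hw with h1 | h1
        · exact absurd h1 hu
        · exact h1
      rw [← mul_assoc, anti h, neg_mul, mul_assoc, ih hl, mul_zero, neg_zero]

/-- moving a factor through a product -/
lemma pr_mul (h : Car a b) (w : U) (l : List U) :
    pr a l * a w = (-1 : ℂ) ^ l.length • (a w * pr a l) := by
  induction l with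
  | nil => simp
  | cons u l ih =>
    rw [pr_cons, mul_assoc, ih, List.length_cons, mul_smul_comm, ← mul_assoc, anti h u w,
      pow_succ, neg_mul, mul_assoc]
    simp

lemma pr_mul_mem (h : Car a b) {w : U} {l : List U} (hw : w ∈ l) : pr a l * a w = 0 := by
  rw [pr_mul h, mul_pr_mem h hw, smul_zero]

lemma b_pr (h : Car a b) {u : U} {l : List U} (hu : u ∉ l) :
    b u * pr a l = (-1 : ℂ) ^ l.length • (pr a l * b u) := by
  induction l with
  | nil => simp
  | cons w l ih =>
    have hw : w ≠ u := fun hh => hu (by simp [hh])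
    have hl : u ∉ l := fun hh => hu (by simp [hh])
    have h1 : b u * a w = -(a w * b u) := by
      have := h.ef w u
      rw [if_neg hw] at this
      exact eq_neg_of_add_eq_zero_right this
    rw [pr_cons, ← mul_assoc, h1, neg_mul, mul_assoc, ih hl, List.length_cons, mul_smul_comm,
      pow_succ, mul_assoc]
    simp

/-- the product of the `b u` in the opposite order -/
lemma pr_vac (h : Car a b) (v : ι → ℂ) (hv : ∀ u, b u *ᵥ v = 0) (l : List U) (hl : l.Nodup) :
    ((l.map b).reverse.prod * pr a l) *ᵥ v = v := by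
  induction l with
  | nil => simp
  | cons u l ih =>
    have hu : u ∉ l := (List.nodup_cons.1 hl).1
    have hl' := (List.nodup_cons.1 hl).2
    have h1 : b u * a u = 1 - a u * b u := by rw [← ab h u]; abel
    rw [pr_cons, List.map_cons, List.reverse_cons, List.prod_append, List.prod_singleton,
      mul_assoc, ← mul_assoc (b u), h1, sub_mul, one_mul, mul_assoc, b_pr h hu, mul_sub,
      Matrix.sub_mulVec, ih hl', mul_smul_comm, mul_smul_comm, Matrix.smul_mulVec,
      ← Matrix.mulVec_mulVec, ← Matrix.mulVec_mulVec, ← Matrix.mulVec_mulVec, hv u]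
    simp

/-- the error terms in the Leibniz rule -/
def er (a : U → Matrix ι ι ℂ) (l : List U) : Submodule ℂ (Matrix ι ι ℂ) :=
  Submodule.span ℂ {Y | ∃ w, w ∉ l ∧ ∃ k : List U, Y = a w * pr a k}

lemma mul_er (h : Car a b) (v : U) (l : List U) {Y : Matrix ι ι ℂ} (hY : Y ∈ er a l) :
    a v * Y ∈ er a (v :: l) := by
  unfold er at hY
  induction hY using Submodule.span_induction with
  | mem Y hY =>
    obtain ⟨w, hw, k, rfl⟩ := hY
    by_cases hv : w = v
    · subst hv
      rw [← mul_assoc, aa h, zero_mul]
      exact Submodule.zero_mem _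
    · have : a v * (a w * pr a k) = -(a w * pr a (v :: k)) := by
        rw [pr_cons, ← mul_assoc, anti h, neg_mul, mul_assoc]
      rw [this]
      exact Submodule.neg_mem _ (Submodule.subset_span ⟨w, by simp [hv, hw], _, rfl⟩)
  | zero => rw [mul_zero]; exact Submodule.zero_mem _
  | add x y _ _ hx hy => rw [mul_add]; exact Submodule.add_mem _ hx hy
  | smul c x _ hx => rw [mul_smul_comm]; exact Submodule.smul_mem _ _ hx

lemma leib [Fintype U] (h : Car a b) (X : Matrix ι ι ℂ) (x : Matrix U U ℂ)
    (hX : ∀ v, X * a v - a v * X = ∑ u, x u v • a u) (l : List U) (hl : l.Nodup) :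
    X * pr a l - pr a l * X - (l.map fun u => x u u).sum • pr a l ∈ er a l := by
  induction l with
  | nil => simp
  | cons v l ih =>
    have hv : v ∉ l := (List.nodup_cons.1 hl).1
    have hl' := (List.nodup_cons.1 hl).2
    have h1 := mul_er h v l (ih hl')
    have h2 : (∑ u, x u v • a u) * pr a l - x v v • (a v * pr a l) ∈ er a (v :: l) := by
      rw [Finset.sum_mul, ← Finset.add_sum_erase _ _ (Finset.mem_univ v), smul_mul_assoc,
        add_sub_cancel_left]
      refine Submodule.sum_mem _ fun u hu => ?_
      have huv : u ≠ v := (Finset.mem_erase.1 hu).1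
      rw [smul_mul_assoc]
      refine Submodule.smul_mem _ _ ?_
      by_cases hul : u ∈ l
      · rw [mul_pr_mem h hul]; exact Submodule.zero_mem _
      · exact Submodule.subset_span ⟨u, by simp [huv, hul], l, rfl⟩
    have h3 := Submodule.add_mem _ h1 h2
    convert h3 using 1
    rw [← hX v]
    simp only [pr_cons, List.map_cons, List.sum_cons, mul_sub, sub_mul, add_smul, mul_smul_comm,
      mul_assoc]
    abel

lemma leib_univ [Fintype U] (h : Car a b) (X : Matrix ι ι ℂ) (x : Matrix U U ℂ)
    (hX : ∀ v, X * a v - a v * X = ∑ u, x u v • a u) :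
    X * pr a Finset.univ.toList - pr a Finset.univ.toList * X =
      x.trace • pr a (Finset.univ : Finset U).toList := by
  have h1 := leib h X x hX Finset.univ.toList (Finset.nodup_toList _)
  have h2 : er a (Finset.univ : Finset U).toList = ⊥ := by
    unfold er
    rw [Submodule.span_eq_bot]
    rintro Y ⟨w, hw, _⟩
    exact absurd (by simp) hw
  rw [h2, Submodule.mem_bot, sub_eq_zero] at h1
  rw [h1]
  congr 1
  rw [Finset.sum_map_toList]
  rfl

end TrcM

open TrcM in
/-- TRC: a non-zero trace. -/
theorem specUTrc (hVac : SpecUVac) : SpecUTrc := by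
  intro ι U _ _ _ _ _ _ a b kk h hk hg
  by_contra hcon
  push Not at hcon
  obtain ⟨v, hv0, hv⟩ := hVac ι U a b h
  set O := pr a (Finset.univ : Finset U).toList with hO
  have hO0 : O ≠ 0 := by
    intro h0
    have h1 := pr_vac h v hv Finset.univ.toList (Finset.nodup_toList _)
    rw [← hO, h0, mul_zero, Matrix.zero_mulVec] at h1
    exact hv0 h1.symm
  have hc : ∀ Y ∈ Algebra.adjoin ℂ (Prod.fst '' kk), Y * O = O * Y := by
    intro Y hY
    induction hY using Algebra.adjoin_induction with
    | mem Y hY =>
      obtain ⟨X, hX, rfl⟩ := hY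
      have h1 := leib_univ h X.1 X.2 (hk X hX)
      rw [hcon X hX, zero_smul, sub_eq_zero] at h1
      exact h1
    | algebraMap r => exact Algebra.commutes r O
    | add x y _ _ hx hy => rw [add_mul, mul_add, hx, hy]
    | mul x y _ _ hx hy => rw [mul_assoc, hy, ← mul_assoc, hx, mul_assoc]
  obtain ⟨u⟩ := ‹Nonempty U›
  have hu : u ∈ (Finset.univ : Finset U).toList := by simp
  have h1 := hc _ (hg u)
  have h2 : a u * b u * O = O := by
    have : a u * b u = 1 - b u * a u := by rw [← ab h u]; abel
    rw [this, sub_mul, one_mul, mul_assoc, mul_pr_mem h hu, mul_zero, sub_zero]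
  have h3 : O * (a u * b u) = 0 := by
    rw [← mul_assoc, pr_mul_mem h hu, zero_mul]
  rw [h2, h3] at h1
  exact hO0 h1

end Pool.Agent.Lib.MPf11a48.KU
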