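import Pool.Agent.Lib.MP_f11a48_ag.KU.Spec
import Pool.Agent.Lib.MP_f11a48_ag.KU.LieG

/-! # Modules UNI and GOUR -/

set_option autoImplicit false

namespace Pool.Agent.Lib.MPf11a48.KU

open Matrix Pool.Agent.Lib.MPf11a48.K3

/-- Module UNI. -/
theorem specUni : SpecUni := by
  intro F _ _ _ d hd hd' g hbr h X hX
  rcases hd' with h1 | h1
  · have h2 : X = 0 := LieG.sl_small (by omega) hX
    rw [h2]
    exact g.zero_mem
  · exact specUNI F d h1 g hbr h X hX

/-- Module GOUR. -/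
theorem specGourU : SpecGourU := by
  intro F _ _ _ κ _ _ d h hbr hsur hno X hX
  refine specGOURU F κ d h hbr hsur (fun k l hkl φ _ hφ Y hY => ?_) X hX
  refine hno k l hkl φ ?_ Y hY
  rintro _ ⟨Z, hZ, rfl⟩ Y
  exact hφ Z hZ Y

end Pool.Agent.Lib.MPf11a48.KU
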