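import Pool.Agent.Lib.MP_f11a48_ag.KU.Spec

/-! # VAC: the vacuum -/

set_option autoImplicit false

namespace Pool.Agent.Lib.MPf11a48.KU

open Matrix

/-- VAC -/
theorem specUVac : SpecUVac := by
  intro ι U _ _ _ _ _ e f h
  have key : ∀ s : Finset U, ∃ v : ι → ℂ, v ≠ 0 ∧ ∀ u ∈ s, f u *ᵥ v = 0 := by
    intro s
    induction s using Finset.induction_on with
    | empty =>
      refine ⟨fun _ => 1, ?_, fun u hu => absurd hu (Finset.notMem_empty u)⟩
      intro h0
      have := congrFun h0 (Classical.arbitrary ι)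
      exact one_ne_zero this
    | insert a s _ ih =>
      obtain ⟨v, hv, hs⟩ := ih
      by_cases h0 : f a *ᵥ v = 0
      · refine ⟨v, hv, fun u hu => ?_⟩
        rcases Finset.mem_insert.1 hu with rfl | hu
        · exact h0
        · exact hs u hu
      · refine ⟨f a *ᵥ v, h0, fun u hu => ?_⟩
        rcases Finset.mem_insert.1 hu with rfl | hu
        · have h1 := h.ff u u
          have h2 : f u * f u = 0 := by
            have h3 : (2 : ℂ) • (f u * f u) = 0 := by rw [two_smul]; exact h1
            exact (smul_eq_zero.1 h3).resolve_left two_ne_zero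
          rw [mulVec_mulVec, h2, zero_mulVec]
        · have h1 : f u * f a = -(f a * f u) := eq_neg_of_add_eq_zero_left (h.ff u a)
          rw [mulVec_mulVec, h1, neg_mulVec, ← mulVec_mulVec, hs u hu, mulVec_zero, neg_zero]
  obtain ⟨v, hv, hu⟩ := key Finset.univ
  exact ⟨v, hv, fun u => hu u (Finset.mem_univ u)⟩

end Pool.Agent.Lib.MPf11a48.KU
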