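import Pool.Agent.Lib.MP_f11a48_ag.K3.KAll
import Pool.Agent.Lib.MP_f11a48_ag.KU.Uni
import Pool.Agent.Lib.MP_f11a48_ag.KU.Vac
import Pool.Agent.Lib.MP_f11a48_ag.KU.Irr
import Pool.Agent.Lib.MP_f11a48_ag.KU.Lnk
import Pool.Agent.Lib.MP_f11a48_ag.KU.Trc
import Pool.Agent.Lib.MP_f11a48_ag.KU.Dia
import Pool.Agent.Lib.MP_f11a48_ag.KU.Mat
import Pool.Agent.Lib.MP_f11a48_ag.KU.Cli
import Pool.Agent.Lib.MP_f11a48_ag.KU.End
import Pool.Agent.Lib.MP_f11a48_ag.KU.Scl
import Pool.Agent.Lib.MP_f11a48_ag.KU.Lie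
import Pool.Agent.Lib.MP_f11a48_ag.KU.Gal
import Pool.Agent.Lib.MP_f11a48_ag.KU.Flt
import Pool.Agent.Lib.MP_f11a48_ag.KU.Fula
import Pool.Agent.Lib.MP_f11a48_ag.KU.Fulb
import Pool.Agent.Lib.MP_f11a48_ag.KU.Tor
import Pool.Agent.Lib.MP_f11a48_ag.KU.Gen
import Pool.Agent.Lib.MP_f11a48_ag.KU.Sim
import Pool.Agent.Lib.MP_f11a48_ag.KU.Tg
import Pool.Agent.Lib.MP_f11a48_ag.KU.Grp
import Pool.Agent.Lib.MP_f11a48_ag.KU.Ten
import Pool.Agent.Lib.MP_f11a48_ag.KU.Lift
import Pool.Agent.Lib.MP_f11a48_ag.KU.Ex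

/-! # Kuga-Satake varieties, the unitary case: assembly -/

set_option autoImplicit false

namespace Pool.Agent.Lib.MPf11a48.KU

open Pool.Agent.Lib.MPf11a48.K3

theorem uFulA : SpecUFulA :=
  specUFulA (specKRat3 specLRat) kHDA (specULie specBic2 (specUIrr specKBr) (specULnk specUVac)
    (specUTrc specUVac) specUMat specUCli) specUMat

theorem uTg : SpecUTg := by
  have hLie := specULie specBic2 (specUIrr specKBr) (specULnk specUVac) (specUTrc specUVac)
    specUMat specUCli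
  exact specUTg (specUFulB (specKRat3 specLRat) kHDA hLie uFulA (specUFlt specUGal) specUGal
    specUMat (specUScl specKScl) specUEnd) specUTor specUDia specUSim specUMat specUCli specUEnd
    specCurve kHDA

theorem uGrp : SpecUGrp :=
  specUGrp uFulA uTg specUGen (specUScl specKScl) specUMat specUEnd specKCur specCurve kHDA

theorem uLift : SpecULift :=
  specULift uFulA uTg specUGen specUMat specUEnd specUSim specKCur specCurve kHDA

theorem uEx : SpecUEx := specUEx uGrp uLift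

end Pool.Agent.Lib.MPf11a48.KU
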