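import Pool.Agent.Lib.MP_f11a48_ag.KU.SpecEx
import Pool.Agent.Lib.MP_f11a48_ag.K3.KEx2
import Pool.Agent.Lib.MP_f11a48_ag.K3.KTen3

/-! # The explicit form for the Tate twists of `T`, unitary case -/

set_option autoImplicit false
set_option linter.unusedSectionVars false

namespace Pool.Agent.Lib.MPf11a48.KU

open Matrix MvPolynomial Pool.Agent.Lib.MPf11a48.Tors
open Pool.Agent.Lib.MPf11a48.CM hiding OmegaM
open Pool.Agent.Lib.MPf11a48.U (AbData Ix HD EndAlg)
open Pool.Agent.Lib.MPf11a48.K3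

namespace ExM

theorem isTens3_tw (g : ℕ) {n : ℕ} (w : ℤ) : IsTens3 (fun y : Grp3 g n => KEx2M.tw w y.2) where
  regular i j := by
    obtain ⟨p, hp⟩ := KEx2M.tens_poly Qbar w i j
    refine ⟨rename Sum.inr p, fun y => ?_⟩
    rw [aeval_rename]
    exact hp y.2
  heap x y z := by
    change KEx2M.tw w (x.2 * (y.2)⁻¹ * z.2) = _
    rw [map_mul, map_mul, map_inv]
  rational i j := by
    obtain ⟨p, hp⟩ := KEx2M.tens_poly ℚ w i j
    refine ⟨rename Sum.inr p, fun y => ?_⟩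
    rw [aeval_rename]
    change (KEx2M.tw w y.2 * (KEx2M.tw w 1)⁻¹).1 i j = _
    rw [map_one, inv_one, mul_one]
    exact hp y.2

section split

variable {n : ℕ} {κ : Type} [Fintype κ] [DecidableEq κ] {m : κ → ℕ}

theorem blk_eq {X : Matrix ((k : κ) × Fin (m k)) ((k : κ) × Fin (m k)) ℂ}
    (h : ∀ u v, u.1 ≠ v.1 → X u v = 0) : X = blockDiagonal' (blockDiag' X) := by
  ext ⟨k, i⟩ ⟨l, j⟩
  by_cases hkl : k = l
  · subst hkl
    rw [blockDiagonal'_apply_eq]
    rfl
  · rw [blockDiagonal'_apply_ne _ _ _ hkl]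
    exact h _ _ hkl

variable {qB : Matrix (Fin n) (Fin n) ℚ} {E : Set (Matrix (Fin n) (Fin n) ℚ)}
  {P Q : Matrix (Fin n) ((k : κ) × Fin (m k)) ℂ} {lam : Matrix (Fin n) (Fin n) ℚ → κ → ℂ}

/-- an isometry which commutes with `E` preserves the eigenspaces -/
theorem exists_ugm (hS : SplitU qB E m P Q lam) (hsym : qBᵀ = qB) {x : Matrix (Fin n) (Fin n) ℂ}
    (hx : xᵀ * cx qB * x = cx qB) (hxE : ∀ e ∈ E, x * cx e = cx e * x) :
    ∃ x' : (k : κ) → GL (Fin (m k)) ℂ, x = ugm P Q qB x' := by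
  set q : Matrix (Fin n) (Fin n) ℂ := cx qB with hq
  have hqs : qᵀ = q := by
    have := congrArg cx hsym
    exact this
  have hPP : Pᵀ * q * P = 0 := hS.isoP
  have hQQ : Qᵀ * q * Q = 0 := hS.isoQ
  have hPQ : Pᵀ * q * Q = 1 := hS.dual
  have hQP : Qᵀ * q * P = 1 := by
    have h := congrArg Matrix.transpose hPQ
    rw [Matrix.transpose_mul, Matrix.transpose_mul, hqs, Matrix.transpose_transpose,
      Matrix.transpose_one, ← Matrix.mul_assoc] at h
    exact h
  have honto : P * (Qᵀ * q) + Q * (Pᵀ * q) = 1 := hS.onto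
  set X := Qᵀ * q * x * P with hX
  set X' := Pᵀ * q * x * P with hX'
  set Y := Pᵀ * q * x * Q with hY
  set Y' := Qᵀ * q * x * Q with hY'
  have hxP : x * P = P * X + Q * X' := by
    calc x * P = (P * (Qᵀ * q) + Q * (Pᵀ * q)) * (x * P) := by rw [honto, Matrix.one_mul]
      _ = P * X + Q * X' := by
        rw [Matrix.add_mul, hX, hX']
        simp only [Matrix.mul_assoc]
  have hxQ : x * Q = P * Y' + Q * Y := by
    calc x * Q = (P * (Qᵀ * q) + Q * (Pᵀ * q)) * (x * Q) := by rw [honto, Matrix.one_mul]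
      _ = P * Y' + Q * Y := by
        rw [Matrix.add_mul, hY, hY']
        simp only [Matrix.mul_assoc]
  -- the action of `E`
  have hce : ∀ e ∈ E, cx e = P * (diagonal fun u : (k : κ) × Fin (m k) => lam e u.1) * (Qᵀ * q) +
      Q * (diagonal fun u : (k : κ) × Fin (m k) => (starRingEnd ℂ) (lam e u.1)) * (Pᵀ * q) := by
    intro e he
    calc cx e = cx e * (P * (Qᵀ * q) + Q * (Pᵀ * q)) := by rw [honto, Matrix.mul_one]
      _ = _ := by
        rw [Matrix.mul_add, ← Matrix.mul_assoc (cx e) P, ← Matrix.mul_assoc (cx e) Q,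
          hS.eigP e he, hS.eigQ e he]
  have hQe : ∀ e ∈ E, Qᵀ * q * cx e =
      (diagonal fun u : (k : κ) × Fin (m k) => lam e u.1) * (Qᵀ * q) := by
    intro e he
    rw [hce e he, Matrix.mul_add]
    have e1 : Qᵀ * q * (P * (diagonal fun u : (k : κ) × Fin (m k) => lam e u.1) * (Qᵀ * q)) =
        (Qᵀ * q * P) * (diagonal fun u : (k : κ) × Fin (m k) => lam e u.1) * (Qᵀ * q) := by
      simp only [Matrix.mul_assoc]
    have e2 : Qᵀ * q * (Q * (diagonal fun u : (k : κ) × Fin (m k) =>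
        (starRingEnd ℂ) (lam e u.1)) * (Pᵀ * q)) = (Qᵀ * q * Q) *
        (diagonal fun u : (k : κ) × Fin (m k) => (starRingEnd ℂ) (lam e u.1)) * (Pᵀ * q) := by
      simp only [Matrix.mul_assoc]
    rw [e1, e2, hQP, hQQ, Matrix.one_mul, Matrix.zero_mul, Matrix.zero_mul, add_zero]
  have hPe : ∀ e ∈ E, Pᵀ * q * cx e =
      (diagonal fun u : (k : κ) × Fin (m k) => (starRingEnd ℂ) (lam e u.1)) * (Pᵀ * q) := by
    intro e he
    rw [hce e he, Matrix.mul_add]
    have e1 : Pᵀ * q * (P * (diagonal fun u : (k : κ) × Fin (m k) => lam e u.1) * (Qᵀ * q)) =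
        (Pᵀ * q * P) * (diagonal fun u : (k : κ) × Fin (m k) => lam e u.1) * (Qᵀ * q) := by
      simp only [Matrix.mul_assoc]
    have e2 : Pᵀ * q * (Q * (diagonal fun u : (k : κ) × Fin (m k) =>
        (starRingEnd ℂ) (lam e u.1)) * (Pᵀ * q)) = (Pᵀ * q * Q) *
        (diagonal fun u : (k : κ) × Fin (m k) => (starRingEnd ℂ) (lam e u.1)) * (Pᵀ * q) := by
      simp only [Matrix.mul_assoc]
    rw [e1, e2, hPP, hPQ, Matrix.one_mul, Matrix.zero_mul, Matrix.zero_mul, zero_add]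
  -- general argument
  have key : ∀ (L : Matrix ((k : κ) × Fin (m k)) (Fin n) ℂ)
      (R : Matrix (Fin n) ((k : κ) × Fin (m k)) ℂ)
      (a b : Matrix (Fin n) (Fin n) ℚ → κ → ℂ),
      (∀ e ∈ E, L * cx e = (diagonal fun u : (k : κ) × Fin (m k) => a e u.1) * L) →
      (∀ e ∈ E, cx e * R = R * diagonal fun u : (k : κ) × Fin (m k) => b e u.1) →
      ∀ u v, (∃ e ∈ E, a e u.1 ≠ b e v.1) → (L * x * R) u v = 0 := by
    intro L R a b hL hR u v ⟨e, he, hne⟩
    have h1 : (diagonal fun u : (k : κ) × Fin (m k) => a e u.1) * (L * x * R) =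
        (L * x * R) * diagonal fun u : (k : κ) × Fin (m k) => b e u.1 := by
      calc (diagonal fun u : (k : κ) × Fin (m k) => a e u.1) * (L * x * R) =
          ((diagonal fun u : (k : κ) × Fin (m k) => a e u.1) * L) * x * R := by
            simp only [Matrix.mul_assoc]
        _ = L * (cx e * x) * R := by
            rw [← hL e he]
            simp only [Matrix.mul_assoc]
        _ = L * x * (cx e * R) := by
            rw [← hxE e he]
            simp only [Matrix.mul_assoc]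
        _ = _ := by
            rw [hR e he]
            simp only [Matrix.mul_assoc]
    have h2 := congrFun (congrFun h1 u) v
    rw [Matrix.diagonal_mul, Matrix.mul_diagonal] at h2
    have h3 : (a e u.1 - b e v.1) * (L * x * R) u v = 0 := by
      rw [sub_mul, h2]
      ring
    exact (mul_eq_zero.1 h3).resolve_left (sub_ne_zero.2 hne)
  have hX'0 : X' = 0 := by
    ext u v
    refine key (Pᵀ * q) P (fun e k => (starRingEnd ℂ) (lam e k)) lam hPe hS.eigP u v ?_
    obtain ⟨e, he, h⟩ := hS.sep (Sum.inr u.1) (Sum.inl v.1) (by simp)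
    exact ⟨e, he, h⟩
  have hY'0 : Y' = 0 := by
    ext u v
    refine key (Qᵀ * q) Q lam (fun e k => (starRingEnd ℂ) (lam e k)) hQe hS.eigQ u v ?_
    obtain ⟨e, he, h⟩ := hS.sep (Sum.inl u.1) (Sum.inr v.1) (by simp)
    exact ⟨e, he, h⟩
  have hXb : X = blockDiagonal' (blockDiag' X) := by
    refine blk_eq fun u v huv => ?_
    refine key (Qᵀ * q) P lam lam hQe hS.eigP u v ?_
    obtain ⟨e, he, h⟩ := hS.sep (Sum.inl u.1) (Sum.inl v.1) (fun h => huv (Sum.inl.inj h))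
    exact ⟨e, he, h⟩
  have hYb : Y = blockDiagonal' (blockDiag' Y) := by
    refine blk_eq fun u v huv => ?_
    refine key (Pᵀ * q) Q (fun e k => (starRingEnd ℂ) (lam e k))
      (fun e k => (starRingEnd ℂ) (lam e k)) hPe hS.eigQ u v ?_
    obtain ⟨e, he, h⟩ := hS.sep (Sum.inr u.1) (Sum.inr v.1) (fun h => huv (Sum.inr.inj h))
    exact ⟨e, he, h⟩
  rw [hX'0, Matrix.mul_zero, add_zero] at hxP
  rw [hY'0, Matrix.mul_zero, zero_add] at hxQ
  have hXY : Xᵀ * Y = 1 := by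
    calc Xᵀ * Y = Xᵀ * (Pᵀ * q * Q) * Y := by rw [hPQ, Matrix.mul_one]
      _ = (P * X)ᵀ * q * (Q * Y) := by
        rw [Matrix.transpose_mul P X]
        simp only [Matrix.mul_assoc]
      _ = Pᵀ * (xᵀ * q * x) * Q := by
        rw [← hxP, ← hxQ, Matrix.transpose_mul x P]
        simp only [Matrix.mul_assoc]
      _ = 1 := by rw [hx, hPQ]
  have hk : ∀ k, (blockDiag' X k)ᵀ * blockDiag' Y k = 1 := by
    have h1 : blockDiagonal' (fun k => (blockDiag' X k)ᵀ * blockDiag' Y k) =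
        blockDiagonal' (1 : (k : κ) → Matrix (Fin (m k)) (Fin (m k)) ℂ) := by
      rw [blockDiagonal'_mul, ← blockDiagonal'_transpose, ← hXb, ← hYb, hXY, blockDiagonal'_one]
    intro k
    exact congrFun (blockDiagonal'_injective h1) k
  have hk2 : ∀ k, (blockDiag' Y k)ᵀ * blockDiag' X k = 1 := by
    intro k
    have h := congrArg Matrix.transpose (hk k)
    rw [Matrix.transpose_mul, Matrix.transpose_transpose, Matrix.transpose_one] at h
    exact h
  refine ⟨fun k => ⟨blockDiag' X k, (blockDiag' Y k)ᵀ, mul_eq_one_comm.1 (hk2 k), hk2 k⟩, ?_⟩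
  have h1 : x = P * X * (Qᵀ * q) + Q * Y * (Pᵀ * q) := by
    calc x = x * (P * (Qᵀ * q) + Q * (Pᵀ * q)) := by rw [honto, Matrix.mul_one]
      _ = (x * P) * (Qᵀ * q) + (x * Q) * (Pᵀ * q) := by
        rw [Matrix.mul_add, ← Matrix.mul_assoc x P, ← Matrix.mul_assoc x Q]
      _ = _ := by rw [hxP, hxQ]
  unfold ugm
  rw [← hq]
  have e1 : blockDiagonal' (fun k => ((blockDiag' Y k)ᵀ)ᵀ) = Y := by
    simp only [Matrix.transpose_transpose]
    exact hYb.symm
  change x = P * blockDiagonal' (blockDiag' X) * (Qᵀ * q) +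
    Q * blockDiagonal' (fun k => ((blockDiag' Y k)ᵀ)ᵀ) * (Pᵀ * q)
  rw [← hXb, e1]
  exact h1

end split

end ExM

open ExM KTenM KTen3M in
/-- EX -/
theorem specUEx (hGrp : SpecUGrp) (hLift : SpecULift) : SpecUEx := by
  intro g N n A c t K qdR qB B E κ _ _ m P Q lam hK hKS hEF hS h0 hm hF d hd w M hM
  have hpi : (2 * Real.pi * Complex.I : ℂ) ≠ 0 := Complex.two_pi_I_ne_zero
  have htpi : ((tpi : ℂˣ) : ℂ) = 2 * Real.pi * Complex.I := rfl
  have hMt : KEx2M.tw w (t, tpi) = M := by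
    refine Units.ext ?_
    rw [KEx2M.tw_val, hM]
    congr 1
    rw [Units.val_zpow_eq_zpow_val]
    rfl
  have hΦ := isTens3_tw g (n := n) w
  have hform : t.1ᵀ * cx qB * t.1 = qdR.map fun x => (x : ℂ) := hKS.form
  have ht1 : t⁻¹.1 * t.1 = 1 := t.inv_mul
  have ht2 : t.1 * t⁻¹.1 = 1 := t.mul_inv
  -- `M` commutes with the endomorphisms
  have hMe : ∀ e ∈ E, M.1 * (d e).map (fun x => (x : ℂ)) = cx e * M.1 := by
    intro e he
    rw [hM, Matrix.smul_mul, hd e he, Matrix.mul_smul]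
  have hfixM : ∀ e ∈ E, Fixes M (GL2T.endPair (d e) e) := by
    intro e he
    exact GL2.comm_iff_fixes.2 (hMe e he)
  -- the torsor
  have hT₀ : IsTorsor Qbar (OmegaDRB K M) := by
    have h := isTorsor_OmegaDRB K M
    exact ⟨GL2.closedOver_mono hK h.closed, h.nonempty, h.heap⟩
  have htM : (fun y : Grp3 g n => KEx2M.tw w y.2) (c, t, tpi) ∈ OmegaDRB K M := by
    change KEx2M.tw w (t, tpi) ∈ _
    rw [hMt]
    exact mem_OmegaDRB_self K _
  have hcl : ClosedOver ⊥ (grp (OmegaDRB K M)) := by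
    rw [grp_OmegaDRB]
    exact closedOver_GdRB K _
  have hgen : ∀ y ∈ gspinU A c qB B m P Q, KEx2M.tw w (y * (c, t, tpi)).2 ∈ OmegaDRB K M := by
    intro y hy
    obtain ⟨x, hx, hx'⟩ := hGrp g N n A c t _ qB B E κ m P Q lam hKS hEF hS h0 hm hF _
      (isTorsor_pull3 hΦ hT₀ htM) ⟨_, rfl, htM⟩ (grp_pull3 hΦ hT₀ hcl htM) y hy
    rwa [bd3_injective hx] at hx'
  -- lower bound
  have hlow : ∀ f : GL (Fin n) ℂ,
      (∃ z : ℂˣ, f.1ᵀ * cx qB * f.1 = ((z : ℂ) ^ (2 * w)) • qdR.map (fun x => (x : ℂ))) →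
      (∀ e ∈ E, f.1 * (d e).map (fun x => (x : ℂ)) = cx e * f.1) → f ∈ OmegaDRB K M := by
    rintro f ⟨z, hz⟩ hfE
    have hz0 : (z : ℂ) ≠ 0 := z.ne_zero
    set x : Matrix (Fin n) (Fin n) ℂ := ((z : ℂ) ^ (-w)) • (f.1 * t⁻¹.1) with hx
    have hx1 : xᵀ * cx qB * x = cx qB := by
      have e1 : (f.1 * t⁻¹.1)ᵀ * cx qB * (f.1 * t⁻¹.1) = ((z : ℂ) ^ (2 * w)) • cx qB := by
        calc (f.1 * t⁻¹.1)ᵀ * cx qB * (f.1 * t⁻¹.1) =
            t⁻¹.1ᵀ * (f.1ᵀ * cx qB * f.1) * t⁻¹.1 := by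
              rw [Matrix.transpose_mul]
              simp only [Matrix.mul_assoc]
          _ = ((z : ℂ) ^ (2 * w)) • ((t.1 * t⁻¹.1)ᵀ * cx qB * (t.1 * t⁻¹.1)) := by
              rw [hz, ← hform, Matrix.mul_smul, Matrix.smul_mul, Matrix.transpose_mul]
              simp only [Matrix.mul_assoc]
          _ = _ := by rw [ht2, Matrix.transpose_one, Matrix.one_mul, Matrix.mul_one]
      rw [hx, Matrix.transpose_smul, Matrix.smul_mul, Matrix.smul_mul, Matrix.mul_smul, smul_smul,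
        e1, smul_smul, ← zpow_add₀ hz0, ← zpow_add₀ hz0]
      have e : -w + -w + 2 * w = 0 := by ring
      rw [e, zpow_zero, one_smul]
    have hx2 : ∀ e ∈ E, x * cx e = cx e * x := by
      intro e he
      have e1 : t⁻¹.1 * cx e = (d e).map (fun x => (x : ℂ)) * t⁻¹.1 := by
        calc t⁻¹.1 * cx e = t⁻¹.1 * (cx e * t.1) * t⁻¹.1 := by
              rw [Matrix.mul_assoc, Matrix.mul_assoc, ht2, Matrix.mul_one]
          _ = (t⁻¹.1 * t.1) * (d e).map (fun x => (x : ℂ)) * t⁻¹.1 := by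
              rw [← hd e he]
              simp only [Matrix.mul_assoc]
          _ = _ := by rw [ht1, Matrix.one_mul]
      rw [hx, Matrix.smul_mul, Matrix.mul_smul, Matrix.mul_assoc, e1, ← Matrix.mul_assoc,
        hfE e he, Matrix.mul_assoc]
    obtain ⟨x', hx'⟩ := exists_ugm hS hKS.symm hx1 hx2
    obtain ⟨y, hy, hy1, hy2⟩ := hLift g N n A c t _ qB B E κ m P Q lam hKS hEF hS h0 hm hF x'
      (z * tpi⁻¹)
    have h1 := hgen y hy
    have h2 : KEx2M.tw w (y * (c, t, tpi)).2 = f := by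
      refine Units.ext ?_
      rw [KEx2M.tw_val]
      have e1 : (y * (c, t, tpi)).2.2 = z := by
        change y.2.2 * tpi = z
        rw [hy2, inv_mul_cancel_right]
      have e2 : (y * (c, t, tpi)).2.1.1 = x * t.1 := by
        change y.2.1.1 * t.1 = x * t.1
        rw [hy1, ← hx']
      rw [e1, e2, hx, Matrix.smul_mul, smul_smul, Matrix.mul_assoc, ht1, Matrix.mul_one,
        Units.val_zpow_eq_zpow_val, ← zpow_add₀ hz0, add_neg_cancel, zpow_zero, one_smul]
    rwa [h2] at h1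
  -- upper bound
  have hup : ∀ f ∈ OmegaDRB K M,
      (∃ z : ℂˣ, f.1ᵀ * cx qB * f.1 = ((z : ℂ) ^ (2 * w)) • qdR.map (fun x => (x : ℂ))) ∧
      ∀ e ∈ E, f.1 * (d e).map (fun x => (x : ℂ)) = cx e * f.1 := by
    intro f hf
    have hfix : ∀ α : TPair K (Fin n), Fixes M α → Fixes f α := fun α hα =>
      drb_subset (S := {α : TPair K (Fin n) | Fixes M α}) (fun α hα => hα) hf α hα
    refine ⟨?_, fun e he => ?_⟩
    · rcases Nat.eq_zero_or_pos n with hn | hn
      · subst hn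
        exact ⟨1, by ext i; exact i.elim0⟩
      · obtain ⟨z, hz, -⟩ := KEx2M.upper hn t qdR qB hKS.det hKS.form w M hM f hfix
        exact ⟨z, hz⟩
    · exact GL2.comm_iff_fixes.1 (hfix _ (hfixM e he))
  refine ⟨?_, ?_, ?_⟩
  · apply Set.Subset.antisymm
    · intro f hf
      exact hup f hf
    · rintro f ⟨h1, h2⟩
      exact hlow f h1 h2
  · rintro rfl
    exact OmegaM_eq_OmegaDRB _
  · rintro rfl S hS' hformS hend
    refine (drb_subset hS').antisymm fun f hf => ?_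
    refine hlow f ⟨1, ?_⟩ fun e he => ?_
    · rw [mul_zero, zpow_zero, one_smul]
      exact (KExM.fixes_form qdR qB f).1 (hf _ hformS)
    · exact GL2.comm_iff_fixes.1 (hf _ (hend e he))

end Pool.Agent.Lib.MPf11a48.KU
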