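import Pool.Agent.Lib.MP_f11a48_ag.KU.LieSpec

/-!
# Block LIE, part A: alternating tensors
-/

set_option autoImplicit false
set_option linter.unusedSectionVars false

namespace Pool.Agent.Lib.MPf11a48.KU

open Matrix Pool.Agent.Lib.MPf11a48.K3

namespace LieM

variable {n k : ℕ} {F : Type} [Field F]

/-- the space of alternating tensors -/
def AltS (n k : ℕ) (F : Type) [Field F] : Submodule F ((Fin k → Fin n) → F) where
  carrier := {w | Alt w}
  add_mem' := by
    intro u v hu hv σ I
    rw [Pi.add_apply, Pi.add_apply, hu σ I, hv σ I, mul_add]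
  zero_mem' := by
    intro σ I
    rw [Pi.zero_apply, Pi.zero_apply, mul_zero]
  smul_mem' := by
    intro a v hv σ I
    rw [Pi.smul_apply, Pi.smul_apply, hv σ I, smul_eq_mul, smul_eq_mul]
    ring

theorem mem_altS {w : (Fin k → Fin n) → F} : w ∈ AltS n k F ↔ Alt w := Iff.rfl

/-! ### the action -/

theorem actT_add_left (X Y : Matrix (Fin n) (Fin n) F) (w : (Fin k → Fin n) → F) :
    actT (X + Y) w = actT X w + actT Y w := by
  funext I
  simp only [actT, Matrix.add_apply, add_mul, Finset.sum_add_distrib, Pi.add_apply]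

theorem actT_smul_left (t : F) (X : Matrix (Fin n) (Fin n) F) (w : (Fin k → Fin n) → F) :
    actT (t • X) w = t • actT X w := by
  funext I
  simp only [actT, Matrix.smul_apply, smul_eq_mul, Pi.smul_apply, Finset.mul_sum, mul_assoc]

theorem actT_add_right (X : Matrix (Fin n) (Fin n) F) (v w : (Fin k → Fin n) → F) :
    actT X (v + w) = actT X v + actT X w := by
  funext I
  simp only [actT, Pi.add_apply, mul_add, Finset.sum_add_distrib]

theorem actT_smul_right (t : F) (X : Matrix (Fin n) (Fin n) F) (w : (Fin k → Fin n) → F) :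
    actT X (t • w) = t • actT X w := by
  funext I
  simp only [actT, smul_eq_mul, Pi.smul_apply, Finset.mul_sum, mul_left_comm]

/-- the action of scalars -/
theorem actT_one (w : (Fin k → Fin n) → F) : actT 1 w = (k : F) • w := by
  funext I
  have h : ∀ a : Fin k, ∑ j, (1 : Matrix (Fin n) (Fin n) F) (I a) j * w (Function.update I a j) =
      w I := by
    intro a
    rw [Finset.sum_eq_single (I a)]
    · rw [Matrix.one_apply_eq, one_mul, Function.update_eq_self]
    · intro j _ hj
      rw [Matrix.one_apply_ne hj.symm, zero_mul]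
    · intro h
      exact absurd (Finset.mem_univ _) h
  rw [actT, Finset.sum_congr rfl fun a _ => h a, Finset.sum_const, Finset.card_univ,
    Fintype.card_fin, nsmul_eq_mul, Pi.smul_apply, smul_eq_mul]

/-- the summands of the action of `X` on the action of `Y` -/
def dd (X Y : Matrix (Fin n) (Fin n) F) (w : (Fin k → Fin n) → F) (I : Fin k → Fin n)
    (a b : Fin k) : F :=
  ∑ j, ∑ l, X (I a) j * (Y (Function.update I a j b) l *
    w (Function.update (Function.update I a j) b l))

theorem actT_actT (X Y : Matrix (Fin n) (Fin n) F) (w : (Fin k → Fin n) → F)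
    (I : Fin k → Fin n) : actT X (actT Y w) I = ∑ a, ∑ b, dd X Y w I a b := by
  rw [actT]
  refine Finset.sum_congr rfl fun a _ => ?_
  simp only [dd, actT, Finset.mul_sum]
  rw [Finset.sum_comm]

theorem dd_symm (X Y : Matrix (Fin n) (Fin n) F) (w : (Fin k → Fin n) → F) (I : Fin k → Fin n)
    {a b : Fin k} (hab : a ≠ b) : dd X Y w I a b = dd Y X w I b a := by
  unfold dd
  rw [Finset.sum_comm]
  refine Finset.sum_congr rfl fun j _ => Finset.sum_congr rfl fun l _ => ?_
  rw [Function.update_of_ne hab.symm, Function.update_of_ne hab, Function.update_comm hab]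
  ring

theorem dd_self (X Y : Matrix (Fin n) (Fin n) F) (w : (Fin k → Fin n) → F) (I : Fin k → Fin n)
    (a : Fin k) : dd X Y w I a a = ∑ l, (X * Y) (I a) l * w (Function.update I a l) := by
  unfold dd
  rw [Finset.sum_comm]
  refine Finset.sum_congr rfl fun l _ => ?_
  rw [Matrix.mul_apply, Finset.sum_mul]
  refine Finset.sum_congr rfl fun j _ => ?_
  rw [Function.update_self, Function.update_idem]
  ring

/-- the action is an action of the Lie algebra -/
theorem actT_lie (X Y : Matrix (Fin n) (Fin n) F) (w : (Fin k → Fin n) → F) :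
    actT (X * Y - Y * X) w = actT X (actT Y w) - actT Y (actT X w) := by
  classical
  funext I
  rw [Pi.sub_apply, actT_actT, actT_actT]
  have h1 : ∀ X Y : Matrix (Fin n) (Fin n) F, ∑ a, ∑ b, dd X Y w I a b =
      ∑ a, dd X Y w I a a + ∑ a, ∑ b, if a = b then 0 else dd X Y w I a b := by
    intro X Y
    rw [← Finset.sum_add_distrib]
    refine Finset.sum_congr rfl fun a _ => ?_
    rw [← Finset.add_sum_erase _ _ (Finset.mem_univ a),
      ← Finset.add_sum_erase (f := fun b => if a = b then 0 else dd X Y w I a b) _
        (Finset.mem_univ a), if_pos rfl, zero_add]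
    congr 1
    refine Finset.sum_congr rfl fun b hb => ?_
    rw [if_neg (Finset.ne_of_mem_erase hb).symm]
  rw [h1 X Y, h1 Y X]
  have h2 : (∑ a, ∑ b, if a = b then 0 else dd X Y w I a b) =
      ∑ a, ∑ b, if a = b then 0 else dd Y X w I a b := by
    rw [Finset.sum_comm]
    refine Finset.sum_congr rfl fun a _ => Finset.sum_congr rfl fun b _ => ?_
    by_cases h : a = b
    · rw [if_pos h, if_pos h.symm]
    · rw [if_neg h, if_neg (Ne.symm h), dd_symm X Y w I (Ne.symm h)]
  rw [h2, add_sub_add_right_eq_sub, ← Finset.sum_sub_distrib]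
  rw [actT]
  refine Finset.sum_congr rfl fun a _ => ?_
  rw [dd_self, dd_self, ← Finset.sum_sub_distrib]
  refine Finset.sum_congr rfl fun l _ => ?_
  rw [Matrix.sub_apply, sub_mul]

theorem alt_actT (X : Matrix (Fin n) (Fin n) F) {w : (Fin k → Fin n) → F} (hw : Alt w) :
    Alt (actT X w) := by
  intro σ I
  have h0 : actT X w I = ∑ a, ∑ j, X (I (σ a)) j * w (Function.update I (σ a) j) :=
    (Equiv.sum_comp σ (fun a => ∑ j, X (I a) j * w (Function.update I a j))).symm
  rw [h0, actT, Finset.mul_sum]
  refine Finset.sum_congr rfl fun a _ => ?_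
  rw [Finset.mul_sum]
  refine Finset.sum_congr rfl fun j _ => ?_
  have h1 : Function.update (I ∘ σ) a j = Function.update I (σ a) j ∘ σ := by
    funext b
    by_cases hb : b = a
    · subst hb
      rw [Function.update_self, Function.comp_apply, Function.update_self]
    · rw [Function.update_of_ne hb, Function.comp_apply, Function.comp_apply,
        Function.update_of_ne (fun h => hb (σ.injective h))]
  rw [h1, hw, Function.comp_apply]
  ring

theorem alt_not_inj [CharZero F] {w : (Fin k → Fin n) → F} (hw : Alt w) (I : Fin k → Fin n)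
    (hI : ¬ Function.Injective I) : w I = 0 := by
  rw [Function.Injective] at hI
  push Not at hI
  obtain ⟨a, b, h1, h2⟩ := hI
  have h3 : I ∘ (Equiv.swap a b) = I := by
    funext c
    rw [Function.comp_apply, Equiv.swap_apply_def]
    split_ifs with h4 h5
    · rw [h4, h1]
    · rw [h5, h1]
    · rfl
  have h4 := hw (Equiv.swap a b) I
  rw [h3, Equiv.Perm.sign_swap h2] at h4
  simp only [Units.val_neg, Units.val_one, Int.cast_neg, Int.cast_one, neg_mul, one_mul] at h4
  linear_combination h4 / 2

/-! ### minors -/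

/-- the tensor of the maximal minors of a matrix -/
noncomputable def minors (B : Matrix (Fin k) (Fin n) F) (I : Fin k → Fin n) : F :=
  (Matrix.of fun a c => B a (I c)).det

theorem alt_minors (B : Matrix (Fin k) (Fin n) F) : Alt (minors B) := by
  intro σ I
  have h := Matrix.det_permute' σ (Matrix.of fun a c => B a (I c))
  exact h

/-- the action of a matrix on the minors is given by the trace -/
theorem actT_minors (B : Matrix (Fin k) (Fin n) F) (X : Matrix (Fin n) (Fin n) F)
    (A : Matrix (Fin k) (Fin k) F) (h : B * Xᵀ = A * B) :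
    actT X (minors B) = A.trace • minors B := by
  funext I
  set N : Matrix (Fin k) (Fin k) F := Matrix.of fun a c => B a (I c) with hN
  have h1 : ∀ a j, minors B (Function.update I a j) =
      (N.adjugate *ᵥ fun i => B i j) a := by
    intro a j
    rw [← Matrix.cramer_eq_adjugate_mulVec, Matrix.cramer_apply]
    unfold minors
    congr 1
    ext i c
    rw [Matrix.updateCol_apply, Matrix.of_apply, hN, Matrix.of_apply]
    by_cases hc : c = a
    · rw [if_pos hc, hc, Function.update_self]
    · rw [if_neg hc, Function.update_of_ne hc]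
  have h2 : ∀ a, ∑ j, X (I a) j * minors B (Function.update I a j) = (N.adjugate * (A * N)) a a := by
    intro a
    simp only [h1]
    rw [Matrix.mul_apply]
    simp only [Matrix.mulVec, dotProduct, Finset.mul_sum]
    rw [Finset.sum_comm]
    refine Finset.sum_congr rfl fun i _ => ?_
    have h3 : (A * N) i a = (A * B) i (I a) := by
      rw [Matrix.mul_apply, Matrix.mul_apply]
      rfl
    rw [h3, ← h, Matrix.mul_apply, Finset.mul_sum]
    refine Finset.sum_congr rfl fun j _ => ?_
    rw [Matrix.transpose_apply]
    ring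
  unfold actT
  simp only [h2]
  change (N.adjugate * (A * N)).trace = A.trace • minors B I
  rw [Matrix.trace_mul_comm, Matrix.mul_assoc, Matrix.mul_adjugate, Matrix.mul_smul, Matrix.mul_one,
    Matrix.trace_smul, smul_eq_mul, smul_eq_mul, mul_comm]
  rfl

/-- Cauchy-Binet, sum over all maps -/
theorem sum_minors (B : Matrix (Fin k) (Fin n) F) (C : Matrix (Fin n) (Fin k) F) :
    ∑ I : Fin k → Fin n, (∏ c, C (I c) c) * minors B I = (B * C).det := by
  have h1 : (B * C).det =
      Matrix.detRowAlternating fun c => ∑ j, (C j c) • (fun a => B a j) := by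
    rw [← Matrix.det_transpose]
    change ((B * C)ᵀ).det = Matrix.det (fun c => ∑ j, (C j c) • (fun a => B a j))
    congr 1
    funext c a
    rw [Matrix.transpose_apply, Matrix.mul_apply, Finset.sum_apply]
    refine Finset.sum_congr rfl fun j _ => ?_
    rw [Pi.smul_apply, smul_eq_mul, mul_comm]
  rw [h1]
  have h2 := (Matrix.detRowAlternating (R := F) (n := Fin k)).toMultilinearMap.map_sum
    (fun c j => (C j c) • (fun a => B a j))
  refine Eq.symm (h2.trans (Finset.sum_congr rfl fun I _ => ?_))
  have h3 := (Matrix.detRowAlternating (R := F) (n := Fin k)).toMultilinearMap.map_smul_univ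
    (fun c => C (I c) c) (fun c a => B a (I c))
  refine h3.trans ?_
  rw [smul_eq_mul]
  congr 1
  unfold minors
  rw [← Matrix.det_transpose]
  rfl

/-! ### a basis -/

/-- the subsets with `k` elements -/
abbrev Sub (n k : ℕ) : Type := {S : Finset (Fin n) // S.card = k}

/-- increasing enumeration -/
def enu (S : Sub n k) : Fin k → Fin n := S.1.orderEmbOfFin S.2

theorem enu_injective (S : Sub n k) : Function.Injective (enu S) :=
  (S.1.orderEmbOfFin S.2).injective

theorem enu_image (S : Sub n k) : Finset.univ.map ⟨enu S, enu_injective S⟩ = S.1 :=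
  Finset.map_orderEmbOfFin_univ S.1 S.2

/-- contraction with `Q` -/
noncomputable def con (Q : Matrix (Fin n) (Fin n) F) (w : (Fin k → Fin n) → F)
    (J : Fin k → Fin n) : F := ∑ I : Fin k → Fin n, (∏ c, Q (I c) (J c)) * w I

theorem alt_con (Q : Matrix (Fin n) (Fin n) F) {w : (Fin k → Fin n) → F} (hw : Alt w) :
    Alt (con Q w) := by
  intro σ J
  rw [con, con, Finset.mul_sum]
  have h := Equiv.sum_comp (Equiv.arrowCongr σ.symm (Equiv.refl (Fin n)))
    (fun I : Fin k → Fin n => (∏ c, Q (I c) ((J ∘ σ) c)) * w I)
  rw [← h]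
  refine Finset.sum_congr rfl fun I _ => ?_
  have e1 : (Equiv.arrowCongr σ.symm (Equiv.refl (Fin n))) I = I ∘ σ := by
    funext a
    rfl
  rw [e1, hw]
  have e2 : ∏ c, Q ((I ∘ σ) c) ((J ∘ σ) c) = ∏ c, Q (I c) (J c) :=
    Equiv.prod_comp σ fun c => Q (I c) (J c)
  rw [e2]
  ring

theorem con_con (P Q : Matrix (Fin n) (Fin n) F) (h : Q * P = 1) (w : (Fin k → Fin n) → F) :
    con P (con Q w) = w := by
  funext K
  rw [con]
  simp only [con, Finset.mul_sum]
  rw [Finset.sum_comm]
  have h1 : ∀ I : Fin k → Fin n, ∑ J : Fin k → Fin n, (∏ c, P (J c) (K c)) *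
      ((∏ c, Q (I c) (J c)) * w I) = (if I = K then 1 else 0) * w I := by
    intro I
    have e1 : ∑ J : Fin k → Fin n, (∏ c, P (J c) (K c)) * ((∏ c, Q (I c) (J c)) * w I) =
        (∑ J : Fin k → Fin n, ∏ c, (Q (I c) (J c) * P (J c) (K c))) * w I := by
      rw [Finset.sum_mul]
      refine Finset.sum_congr rfl fun J _ => ?_
      rw [Finset.prod_mul_distrib]
      ring
    have e2 : ∑ J : Fin k → Fin n, ∏ c, (Q (I c) (J c) * P (J c) (K c)) =
        ∏ c, ∑ j, Q (I c) j * P j (K c) := by
      rw [Finset.prod_univ_sum, Fintype.piFinset_univ]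
    have e3 : ∀ c, ∑ j, Q (I c) j * P j (K c) = if I c = K c then 1 else 0 := by
      intro c
      rw [← Matrix.mul_apply, h, Matrix.one_apply]
    rw [e1, e2]
    simp only [e3]
    by_cases hIK : I = K
    · rw [if_pos hIK, hIK]
      simp
    · rw [if_neg hIK]
      obtain ⟨a, ha⟩ := Function.ne_iff.1 hIK
      rw [Finset.prod_eq_zero (Finset.mem_univ a) (if_neg ha)]
  rw [Finset.sum_congr rfl fun I _ => h1 I]
  simp

/-- an alternating tensor is determined by its values on increasing sequences -/
theorem eq_zero_of_enu [CharZero F] {w : (Fin k → Fin n) → F} (hw : Alt w)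
    (h : ∀ S : Sub n k, w (enu S) = 0) : w = 0 := by
  classical
  funext J
  by_cases hJ : Function.Injective J
  · let S : Sub n k := ⟨Finset.univ.map ⟨J, hJ⟩, by rw [Finset.card_map, Finset.card_univ,
      Fintype.card_fin]⟩
    have h1 : ∀ a, ∃ b, enu S b = J a := by
      intro a
      have h2 : J a ∈ S.1 := Finset.mem_map.2 ⟨a, Finset.mem_univ a, rfl⟩
      rw [← enu_image S] at h2
      obtain ⟨b, _, hb⟩ := Finset.mem_map.1 h2
      exact ⟨b, hb⟩
    choose σ hσ using h1
    have hinj : Function.Injective σ := by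
      intro a b hab
      apply hJ
      rw [← hσ a, ← hσ b, hab]
    let τ : Equiv.Perm (Fin k) := Equiv.ofBijective σ (Finite.injective_iff_bijective.1 hinj)
    have h3 : J = enu S ∘ τ := funext fun a => (hσ a).symm
    rw [h3, hw, h, mul_zero, Pi.zero_apply]
  · exact alt_not_inj hw J hJ

/-- the basis vector of a subset, for the basis of `F^n` given by the rows of `P` -/
noncomputable def wv (P : Matrix (Fin n) (Fin n) F) (S : Sub n k) : (Fin k → Fin n) → F :=
  minors fun a => P (enu S a)

theorem con_wv {P Q : Matrix (Fin n) (Fin n) F} (h : P * Q = 1) (S T : Sub n k) :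
    con Q (wv P S) (enu T) = if S = T then 1 else 0 := by
  classical
  have h1 : con Q (wv P S) (enu T) = ((Matrix.of fun a => P (enu S a)) *
      (Matrix.of fun (i : Fin n) (c : Fin k) => Q i (enu T c))).det := by
    rw [← sum_minors]
    rfl
  have h2 : (Matrix.of fun a => P (enu S a)) *
      (Matrix.of fun (i : Fin n) (c : Fin k) => Q i (enu T c)) =
      Matrix.of fun a c => if enu S a = enu T c then (1 : F) else 0 := by
    ext a c
    have h3 := congrFun (congrFun h (enu S a)) (enu T c)
    rw [Matrix.mul_apply, Matrix.one_apply] at h3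
    rw [Matrix.mul_apply]
    exact h3
  rw [h1, h2]
  by_cases hST : S = T
  · rw [if_pos hST, hST]
    have h3 : (Matrix.of fun a c => if enu T a = enu T c then (1 : F) else 0) =
        (1 : Matrix (Fin k) (Fin k) F) := by
      ext a c
      rw [Matrix.of_apply, Matrix.one_apply]
      by_cases hac : a = c
      · rw [if_pos hac, if_pos (by rw [hac])]
      · rw [if_neg hac, if_neg fun h => hac (enu_injective T h)]
    rw [h3, Matrix.det_one]
  · rw [if_neg hST]
    -- some element of `S` is not in `T`
    have h3 : ∃ a, ∀ c, enu S a ≠ enu T c := by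
      by_contra hcon
      push Not at hcon
      apply hST
      apply Subtype.ext
      refine Finset.eq_of_subset_of_card_le ?_ (by rw [S.2, T.2])
      intro i hi
      rw [← enu_image S] at hi
      obtain ⟨a, _, rfl⟩ := Finset.mem_map.1 hi
      obtain ⟨c, hc⟩ := hcon a
      rw [← enu_image T]
      exact Finset.mem_map.2 ⟨c, Finset.mem_univ c, hc.symm⟩
    obtain ⟨a, ha⟩ := h3
    refine Matrix.det_eq_zero_of_row_eq_zero a fun c => ?_
    rw [Matrix.of_apply, if_neg (ha c)]

/-- coordinates on the space of alternating tensors -/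
noncomputable def coo (Q : Matrix (Fin n) (Fin n) F) : AltS n k F →ₗ[F] (Sub n k → F) where
  toFun w := fun S => con Q w.1 (enu S)
  map_add' u v := by
    funext S
    simp only [con, Submodule.coe_add, Pi.add_apply, mul_add, Finset.sum_add_distrib]
  map_smul' t u := by
    funext S
    simp only [con, Submodule.coe_smul, Pi.smul_apply, smul_eq_mul, Finset.mul_sum,
      RingHom.id_apply, mul_left_comm]

variable [CharZero F]

theorem coo_bijective {P Q : Matrix (Fin n) (Fin n) F} (h : P * Q = 1) :
    Function.Bijective (coo (k := k) Q) := by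
  classical
  constructor
  · rw [injective_iff_map_eq_zero]
    rintro ⟨w, hw⟩ h0
    have h1 : con Q w = 0 := eq_zero_of_enu (alt_con Q hw) fun S => congrFun h0 S
    have h2 := con_con P Q (mul_eq_one_comm.1 h) w
    rw [h1] at h2
    refine Subtype.ext ?_
    change w = 0
    rw [← h2]
    funext J
    simp [con]
  · intro f
    refine ⟨∑ S, f S • (⟨wv P S, alt_minors _⟩ : AltS n k F), ?_⟩
    rw [map_sum]
    funext T
    rw [Finset.sum_apply, Finset.sum_eq_single T]
    · rw [map_smul, Pi.smul_apply]
      change f T • con Q (wv P T) (enu T) = f T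
      rw [con_wv h, if_pos rfl, smul_eq_mul, mul_one]
    · intro S _ hS
      rw [map_smul, Pi.smul_apply]
      change f S • con Q (wv P S) (enu T) = 0
      rw [con_wv h, if_neg hS, smul_zero]
    · intro h1
      exact absurd (Finset.mem_univ _) h1

/-- the basis of the space of alternating tensors -/
noncomputable def bas {P Q : Matrix (Fin n) (Fin n) F} (h : P * Q = 1) :
    Module.Basis (Sub n k) F (AltS n k F) :=
  Module.Basis.ofEquivFun (LinearEquiv.ofBijective (coo (k := k) Q) (coo_bijective h))

theorem bas_apply {P Q : Matrix (Fin n) (Fin n) F} (h : P * Q = 1) (S : Sub n k) :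
    bas h S = ⟨wv P S, alt_minors _⟩ := by
  classical
  rw [bas, Module.Basis.coe_ofEquivFun, LinearEquiv.symm_apply_eq]
  funext T
  change (Pi.single S (1 : F) : Sub n k → F) T = con Q (wv P S) (enu T)
  rw [con_wv h, Pi.single_apply]
  by_cases hST : S = T
  · rw [if_pos hST.symm, if_pos hST]
  · rw [if_neg (Ne.symm hST), if_neg hST]

/-- matrices of trace `0` are sums of commutators of matrices of trace `0` -/
theorem mem_of_comm (hn : 0 < n) {g : Submodule F (Matrix (Fin n) (Fin n) F)}
    (hcom : ∀ Y Z : Matrix (Fin n) (Fin n) F, Y.trace = 0 → Z.trace = 0 → Y * Z - Z * Y ∈ g)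
    {X : Matrix (Fin n) (Fin n) F} (hX : X.trace = 0) : X ∈ g := by
  -- elementary matrices
  have htrs : ∀ i j : Fin n, i ≠ j → (Matrix.single i j (1 : F)).trace = 0 := by
    intro i j hij
    exact Matrix.trace_single_eq_of_ne i j 1 hij
  have hdiag : ∀ i j : Fin n, Matrix.single i i (1 : F) - Matrix.single j j 1 ∈ g := by
    intro i j
    by_cases hij : i = j
    · rw [hij, sub_self]
      exact g.zero_mem
    · have h1 := hcom (Matrix.single i j 1) (Matrix.single j i 1) (htrs i j hij)
        (htrs j i (Ne.symm hij))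
      rwa [Matrix.single_mul_single_same, Matrix.single_mul_single_same, mul_one] at h1
  have hdtr : ∀ i j : Fin n, (Matrix.single i i (1 : F) - Matrix.single j j 1).trace = 0 := by
    intro i j
    rw [Matrix.trace_sub, Matrix.trace_single_eq_same, Matrix.trace_single_eq_same, sub_self]
  have hoff : ∀ i j : Fin n, i ≠ j → Matrix.single i j (1 : F) ∈ g := by
    intro i j hij
    have h1 := hcom (Matrix.single i i 1 - Matrix.single j j 1) (Matrix.single i j 1) (hdtr i j)
      (htrs i j hij)
    have h2 : (Matrix.single i i (1 : F) - Matrix.single j j 1) * Matrix.single i j 1 -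
        Matrix.single i j 1 * (Matrix.single i i 1 - Matrix.single j j 1) =
        (2 : F) • Matrix.single i j 1 := by
      rw [sub_mul, mul_sub, Matrix.single_mul_single_same, Matrix.single_mul_single_same,
        Matrix.single_mul_single_of_ne _ _ _ _ hij.symm,
        Matrix.single_mul_single_of_ne _ _ _ _ hij.symm, mul_one, two_smul]
      abel
    rw [h2] at h1
    have h3 := g.smul_mem (2 : F)⁻¹ h1
    rwa [smul_smul, inv_mul_cancel₀ two_ne_zero, one_smul] at h3
  -- every matrix of trace zero
  have h0 : X = ∑ i, ∑ j, (if i = j then X i i • (Matrix.single i i (1 : F) -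
      Matrix.single ⟨0, hn⟩ ⟨0, hn⟩ 1) else X i j • Matrix.single i j 1) := by
    have h1 : ∀ i, ∑ j, (if i = j then X i i • (Matrix.single i i (1 : F) -
        Matrix.single ⟨0, hn⟩ ⟨0, hn⟩ 1) else X i j • Matrix.single i j 1) =
        ∑ j, Matrix.single i j (X i j) - X i i • Matrix.single ⟨0, hn⟩ ⟨0, hn⟩ 1 := by
      intro i
      have h2 : ∑ j ∈ Finset.univ.erase i, (if i = j then X i i • (Matrix.single i i (1 : F) -
          Matrix.single ⟨0, hn⟩ ⟨0, hn⟩ 1) else X i j • Matrix.single i j 1) =
          ∑ j ∈ Finset.univ.erase i, Matrix.single i j (X i j) := by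
        refine Finset.sum_congr rfl fun j hj => ?_
        rw [if_neg (Finset.ne_of_mem_erase hj).symm, Matrix.smul_single, smul_eq_mul, mul_one]
      rw [← Finset.add_sum_erase _ _ (Finset.mem_univ i),
        ← Finset.add_sum_erase (f := fun j => Matrix.single i j (X i j)) _ (Finset.mem_univ i),
        h2, if_pos rfl, smul_sub, Matrix.smul_single, smul_eq_mul, mul_one]
      abel
    rw [Finset.sum_congr rfl fun i _ => h1 i, Finset.sum_sub_distrib, ← Finset.sum_smul]
    have h3 : ∑ i, X i i = 0 := hX
    rw [h3, zero_smul, sub_zero]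
    exact Matrix.matrix_eq_sum_single X
  rw [h0]
  refine g.sum_mem fun i _ => g.sum_mem fun j _ => ?_
  by_cases hij : i = j
  · rw [if_pos hij]
    exact g.smul_mem _ (hdiag _ _)
  · rw [if_neg hij]
    exact g.smul_mem _ (hoff i j hij)

end LieM

end Pool.Agent.Lib.MPf11a48.KU
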