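import Pool.Agent.Lib.MP_f11a48_ag.KU.LieA
import Pool.Agent.Lib.MP_f11a48_ag.UN.Uni
import Pool.Agent.Lib.MP_f11a48_ag.K3.Rep
import Pool.Agent.Lib.MP_f11a48_ag.K3.IWT
import Pool.Agent.Lib.MP_f11a48_ag.K3.Diag
import Pool.Agent.Lib.MP_f11a48_ag.K3.Root
import Pool.Agent.Lib.MP_f11a48_ag.K3.Mult
import Pool.Agent.Lib.MP_f11a48_ag.K3.CBas

/-!
# Block LIE, part B: Lie algebras with irreducible exterior powers
-/

set_option autoImplicit false
set_option linter.unusedSectionVars false
set_option linter.style.haveILetI false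

namespace Pool.Agent.Lib.MPf11a48.KU

open Matrix Module LieAlgebra LieAlgebra.IsKilling Pool.Agent.Lib.MPf11a48.K3
open Pool.Agent.Lib.MPf11a48.UN (dL specUni)

namespace LieM

/-- a representation by matrices -/
structure MR (F L : Type) [Field F] [LieRing L] [LieAlgebra F L] (n : ℕ) where
  /-- the action -/
  t : L →ₗ[F] Matrix (Fin n) (Fin n) F
  lie : ∀ x y, t ⁅x, y⁆ = t x * t y - t y * t x

section reps

variable {F L : Type} [Field F] [LieRing L] [LieAlgebra F L] {n : ℕ} (θ : MR F L n)

/-- the underlying representation on `F^n` -/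
noncomputable def MR.rp : Rp F L (Fin n → F) where
  r :=
    { toFun := fun x => (θ.t x).mulVecLin
      map_add' := by
        intro x y
        rw [map_add, Matrix.mulVecLin_add]
      map_smul' := by
        intro a x
        refine LinearMap.ext fun v => ?_
        change (θ.t (a • x)).mulVec v = a • (θ.t x).mulVec v
        rw [map_smul, Matrix.smul_mulVec] }
  lie := by
    intro x y v
    change (θ.t ⁅x, y⁆).mulVec v = (θ.t x).mulVec ((θ.t y).mulVec v) -
      (θ.t y).mulVec ((θ.t x).mulVec v)
    rw [θ.lie, Matrix.sub_mulVec, Matrix.mulVec_mulVec, Matrix.mulVec_mulVec]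

/-- the representation on alternating tensors -/
noncomputable def MR.alt (k : ℕ) : Rp F L (AltS n k F) where
  r :=
    { toFun := fun x =>
        { toFun := fun w => ⟨actT (θ.t x) w.1, alt_actT _ w.2⟩
          map_add' := fun v w => Subtype.ext (actT_add_right _ _ _)
          map_smul' := fun t w => Subtype.ext (actT_smul_right _ _ _) }
      map_add' := by
        intro x y
        refine LinearMap.ext fun w => Subtype.ext ?_
        change actT (θ.t (x + y)) w.1 = actT (θ.t x) w.1 + actT (θ.t y) w.1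
        rw [map_add, actT_add_left]
      map_smul' := by
        intro a x
        refine LinearMap.ext fun w => Subtype.ext ?_
        change actT (θ.t (a • x)) w.1 = a • actT (θ.t x) w.1
        rw [map_smul, actT_smul_left] }
  lie := by
    intro x y w
    refine Subtype.ext ?_
    change actT (θ.t ⁅x, y⁆) w.1 = actT (θ.t x) (actT (θ.t y) w.1) - actT (θ.t y) (actT (θ.t x) w.1)
    rw [θ.lie, actT_lie]

theorem alt_coe (k : ℕ) (x : L) (w : AltS n k F) : ((θ.alt k).r x w).1 = actT (θ.t x) w.1 := rfl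

/-- the Lie module of a representation by matrices -/
@[reducible]
def lrm : LieRingModule L (Fin n → F) where
  bracket x v := (θ.t x).mulVec v
  add_lie x y v := by
    change (θ.t (x + y)).mulVec v = (θ.t x).mulVec v + (θ.t y).mulVec v
    rw [map_add, Matrix.add_mulVec]
  lie_add x v w := Matrix.mulVec_add _ _ _
  leibniz_lie x y v := by
    change (θ.t x).mulVec ((θ.t y).mulVec v) = (θ.t ⁅x, y⁆).mulVec v +
      (θ.t y).mulVec ((θ.t x).mulVec v)
    rw [θ.lie, Matrix.sub_mulVec, Matrix.mulVec_mulVec, Matrix.mulVec_mulVec, sub_add_cancel]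

theorem lmod :
    letI := lrm θ
    LieModule F L (Fin n → F) := by
  letI := lrm θ
  refine { smul_lie := fun t x v => ?_, lie_smul := fun t x v => ?_ }
  · change (θ.t (t • x)).mulVec v = t • (θ.t x).mulVec v
    rw [map_smul, Matrix.smul_mulVec]
  · exact Matrix.mulVec_smul _ _ _

end reps

section killing

variable {F : Type} [Field F] [CharZero F] [IsAlgClosed F] {L : Type} [LieRing L]
  [LieAlgebra F L] [Module.Finite F L] {n : ℕ}

/-- a faithful irreducible Lie algebra of matrices of trace `0` is a Killing Lie algebra -/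
theorem killing_of (θ : MR F L n) (htr : ∀ x, (θ.t x).trace = 0) (hinj : Function.Injective θ.t)
    (hI : IrrRep θ.rp) : IsKilling F L := by
  letI := lrm θ
  haveI := lmod θ
  haveI : Nontrivial (Fin n → F) := hI.1
  haveI : LieModule.IsIrreducible F L (Fin n → F) := by
    refine LieModule.IsIrreducible.mk fun N hN => ?_
    rcases hI.2 N.toSubmodule (fun x v hv => N.lie_mem hv) with h | h
    · exfalso
      refine hN ?_
      exact (LieSubmodule.toSubmodule_eq_bot N).1 h
    · exact (LieSubmodule.toSubmodule_eq_top N).1 h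
  haveI : LieModule.IsFaithful F L (Fin n → F) := by
    refine ⟨fun x y hxy => hinj ?_⟩
    have h1 : ∀ v : Fin n → F, (θ.t x).mulVec v = (θ.t y).mulVec v := fun v =>
      LinearMap.congr_fun hxy v
    exact Matrix.ext_of_mulVec_single fun j => h1 _
  haveI : HasTrivialRadical F L := by
    refine hasTrivialRadical_of_isIrreducible_of_isFaithful F L (Fin n → F) fun x => ?_
    have h1 : LieModule.toEnd F L (Fin n → F) x = Matrix.toLin' (θ.t x) := by
      refine LinearMap.ext fun v => ?_
      rw [Matrix.toLin'_apply]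
      rfl
    rw [h1, Matrix.trace_toLin'_eq]
    exact htr x
  infer_instance

end killing

section weights

variable {F : Type} [Field F] [CharZero F] [IsAlgClosed F] {L : Type} [LieRing L]
  [LieAlgebra F L] [Module.Finite F L] [IsKilling F L] {n : ℕ} (θ : MR F L n)
  (H : LieSubalgebra F L) [H.IsCartanSubalgebra]

/-- a basis of weight vectors -/
theorem exists_weight_basis (hD : Diag H θ.rp) : ∃ (P Q : Matrix (Fin n) (Fin n) F)
    (a : Fin n → PW H), P * Q = 1 ∧ ∀ i (h : H), (θ.t h.1).mulVec (P i) = (a i).1 h • P i := by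
  classical
  set s : Set (Fin n → F) := {v | ∃ μ : Dual F H, v ∈ wtsp H θ.rp μ} with hs
  have hspan : Submodule.span F s = ⊤ := by
    rw [eq_top_iff, ← hD, iSup_le_iff]
    intro μ v hv
    exact Submodule.subset_span ⟨μ, hv⟩
  obtain ⟨b, hbs, hb, hli⟩ := exists_linearIndependent F s
  rw [hspan] at hb
  let B : Basis b F (Fin n → F) := Basis.mk hli (by
    rw [Subtype.range_coe]
    exact hb.ge)
  haveI : Fintype b := FiniteDimensional.fintypeBasisIndex B
  have hcard : Fintype.card b = n := by
    rw [← Module.finrank_eq_card_basis B, Module.finrank_fin_fun]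
  let e : b ≃ Fin n := Fintype.equivFinOfCardEq hcard
  let P : Matrix (Fin n) (Fin n) F := fun i => (e.symm i).1
  have hP : LinearIndependent F P.row := by
    have h1 : P.row = (fun x : b => x.1) ∘ e.symm := rfl
    rw [h1]
    exact hli.comp _ e.symm.injective
  have hu : IsUnit P.det := (Matrix.isUnit_iff_isUnit_det P).1
    (Matrix.linearIndependent_rows_iff_isUnit.1 hP)
  have hmem : ∀ i, ∃ μ : Dual F H, P i ∈ wtsp H θ.rp μ := fun i => hbs (e.symm i).2
  choose μ hμ using hmem
  have hne : ∀ i, P i ≠ 0 := fun i => hP.ne_zero i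
  have hpw : ∀ i, μ i ∈ PW H := by
    intro i α
    have h2 : wtsp H θ.rp (μ i) ≠ ⊥ := by
      intro h3
      have h4 := hμ i
      rw [h3] at h4
      exact hne i h4
    obtain ⟨z, hz⟩ := specInt F L H (Fin n → F) θ.rp (μ i) h2 α
    refine ⟨z, ?_⟩
    rw [hz]
    push_cast
    rfl
  exact ⟨P, P⁻¹, fun i => ⟨μ i, hpw i⟩, Matrix.mul_nonsing_inv P hu, fun i h => hμ i h⟩

variable {θ H}

/-- the weights of the exterior powers -/
theorem wt_wv {P : Matrix (Fin n) (Fin n) F} {a : Fin n → PW H}
    (ha : ∀ i (h : H), (θ.t h.1).mulVec (P i) = (a i).1 h • P i) {k : ℕ} (S : Sub n k) (h : H) :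
    actT (θ.t h.1) (wv P S) = (∑ i ∈ S.1, a i).1 h • wv P S := by
  have h1 : (Matrix.of fun c => P (enu S c)) * (θ.t h.1)ᵀ =
      Matrix.diagonal (fun c => (a (enu S c)).1 h) * (Matrix.of fun c => P (enu S c)) := by
    ext c i
    rw [Matrix.diagonal_mul, Matrix.mul_apply]
    have h2 := congrFun (ha (enu S c) h) i
    rw [Matrix.mulVec, dotProduct] at h2
    rw [Pi.smul_apply, smul_eq_mul] at h2
    rw [Matrix.of_apply, ← h2]
    refine Finset.sum_congr rfl fun j _ => ?_
    rw [Matrix.transpose_apply, Matrix.of_apply, mul_comm]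
  have h2 := actT_minors (Matrix.of fun c => P (enu S c)) (θ.t h.1) _ h1
  have h3 : (∑ i ∈ S.1, a i).1 h = (Matrix.diagonal fun c => (a (enu S c)).1 h).trace := by
    rw [Matrix.trace_diagonal, Submodule.coe_sum, LinearMap.sum_apply]
    conv_lhs => rw [← enu_image S, Finset.sum_map]
    rfl
  rw [h3]
  exact h2

theorem mu_alt {P Q : Matrix (Fin n) (Fin n) F} (hPQ : P * Q = 1) {a : Fin n → PW H}
    (ha : ∀ i (h : H), (θ.t h.1).mulVec (P i) = (a i).1 h • P i) (k : ℕ) :
    Diag H (θ.alt k) ∧ mu H (θ.alt k) = dL a k := by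
  obtain ⟨h1, h2⟩ := specMult F L H (AltS n k F) (θ.alt k) (Sub n k) (bas hPQ)
    (fun S => (∑ i ∈ S.1, a i).1) (by
      intro S h
      refine Subtype.ext ?_
      rw [alt_coe, bas_apply]
      exact wt_wv ha S h)
  refine ⟨h1, ?_⟩
  funext μ
  rw [mu, h2, dL]
  exact Nat.card_congr ((Equiv.subtypeSubtypeEquivSubtypeInter
    (fun S : Finset (Fin n) => S.card = k) (fun S => (∑ i ∈ S, a i).1 = μ.1)).trans
    (Equiv.subtypeEquivRight fun S => and_congr_right fun _ => Subtype.ext_iff.symm))

/-! ### counting -/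

omit [CharZero F] [IsAlgClosed F] in
theorem sum_four {E : Type} [AddCommGroup E] [Module ℚ E] (a : Fin n → E) (i j k l : Fin n) :
    ∑ x : Fin n, (((if x = i then 1 else 0) - (if x = j then 1 else 0) -
        ((if x = k then 1 else 0) - (if x = l then 1 else 0)) : ℚ)) • a x =
      a i - a j - (a k - a l) := by
  simp only [sub_smul, ite_smul, one_smul, zero_smul]
  rw [Finset.sum_sub_distrib, Finset.sum_sub_distrib, Finset.sum_sub_distrib]
  simp only [Finset.sum_ite_eq', Finset.mem_univ, if_true]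

theorem ncard_ge (hOk : (rdat H).Ok) {a : Fin n → PW H}
    (h1 : ∀ i j, i ≠ j → a i - a j ∈ (rdat H).R)
    (h2 : ∀ t : Fin n → ℚ, ∑ i, t i = 0 → ∑ i, t i • a i = 0 → t = 0) :
    n * (n - 1) ≤ (rdat H).R.ncard := by
  classical
  let f : {p : Fin n × Fin n // p.1 ≠ p.2} → PW H := fun p => a p.1.1 - a p.1.2
  have hinj : Function.Injective f := by
    rintro ⟨⟨i, j⟩, hij⟩ ⟨⟨k, l⟩, hkl⟩ h
    have hij' : i ≠ j := hij
    have hkl' : k ≠ l := hkl
    have h3 : a i - a j = a k - a l := h
    have s1 : ∑ x : Fin n, (((if x = i then 1 else 0) - (if x = j then 1 else 0) -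
        ((if x = k then 1 else 0) - (if x = l then 1 else 0)) : ℚ)) = 0 := by
      rw [Finset.sum_sub_distrib, Finset.sum_sub_distrib, Finset.sum_sub_distrib]
      simp
    have s2 : ∑ x : Fin n, (((if x = i then 1 else 0) - (if x = j then 1 else 0) -
        ((if x = k then 1 else 0) - (if x = l then 1 else 0)) : ℚ)) • a x = 0 := by
      refine (sum_four a i j k l).trans ?_
      rw [h3, sub_self]
    have h4 := h2 _ s1 s2
    have h5 : i = k := by
      by_contra hik
      have h6 := congrFun h4 i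
      simp only [if_true, if_neg hij', if_neg hik, Pi.zero_apply] at h6
      by_cases h7 : i = l
      · rw [if_pos h7] at h6
        norm_num at h6
      · rw [if_neg h7] at h6
        norm_num at h6
    have h6 : j = l := by
      by_contra hjl
      have h6 := congrFun h4 j
      simp only [if_true, if_neg hij'.symm, if_neg hjl, Pi.zero_apply] at h6
      by_cases h7 : j = k
      · rw [if_pos h7] at h6
        norm_num at h6
      · rw [if_neg h7] at h6
        norm_num at h6
    subst h5
    subst h6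
    rfl
  have h3 : (Set.range f).ncard = n * (n - 1) := by
    rw [← Set.image_univ, Set.ncard_image_of_injective _ hinj, Set.ncard_univ,
      Nat.card_eq_fintype_card, RepM.card_pairs]
  rw [← h3]
  refine Set.ncard_le_ncard ?_ hOk.fin
  rintro _ ⟨s, rfl⟩
  exact h1 _ _ s.2

theorem finrank_cartan_ge {a : Fin n → PW H} {σ : Equiv.Perm (Fin n)}
    (h1 : ∀ i j, i ≠ j → a i - a j ∈ (rdat H).R)
    (h2 : ∀ (l : ℕ) (hl : l + 1 < n) (k : Fin n),
        (rdat H).pr (a (σ ⟨l, by omega⟩) - a (σ ⟨l + 1, hl⟩)) (a (σ k)) =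
          (if k.1 = l then 1 else 0) - if k.1 = l + 1 then 1 else 0) : n - 1 ≤ finrank F H := by
  have hex : ∀ l : Fin (n - 1), ∃ h : H, ∀ k : Fin n, (a (σ k)).1 h =
      (if k.1 = l.1 then 1 else 0) - if k.1 = l.1 + 1 then 1 else 0 := by
    intro l
    have hl : l.1 + 1 < n := by have := l.2; omega
    obtain ⟨h, hh⟩ := RepM.exists_coroot (h1 (σ ⟨l.1, by omega⟩) (σ ⟨l.1 + 1, hl⟩) (by
      intro h
      have := congrArg Fin.val (σ.injective h)
      simp at this))
    refine ⟨h, fun k => ?_⟩
    rw [hh, h2 l.1 hl k]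
    push_cast
    split_ifs <;> simp
  choose c hc using hex
  have hli : LinearIndependent F c := by
    rw [Fintype.linearIndependent_iff]
    intro t ht
    have key : ∀ k (hk : k < n - 1), t ⟨k, hk⟩ = 0 := by
      intro k
      induction k using Nat.strong_induction_on with
      | _ k ih =>
        intro hk
        have h3 := congrArg (a (σ ⟨k, by omega⟩)).1 ht
        rw [map_sum, map_zero] at h3
        have h4 : ∑ l : Fin (n - 1), (a (σ ⟨k, by omega⟩)).1 (t l • c l) = t ⟨k, hk⟩ := by
          rw [Finset.sum_eq_single ⟨k, hk⟩]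
          · rw [map_smul, hc, smul_eq_mul, if_pos rfl, if_neg (by simp), sub_zero, mul_one]
          · intro l _ hl
            rw [map_smul, hc, smul_eq_mul]
            have hl' : k ≠ l.1 := fun h => hl (Fin.ext h.symm)
            rw [if_neg hl', zero_sub]
            by_cases h5 : k = l.1 + 1
            · have h6 := ih l.1 (by omega) l.2
              have h7 : t l = 0 := h6
              rw [h7, zero_mul]
            · rw [if_neg h5, neg_zero, mul_zero]
          · intro h5
            exact absurd (Finset.mem_univ _) h5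
        rw [← h4]
        exact h3
    intro i
    exact key i.1 i.2
  have h3 := hli.fintype_card_le_finrank
  rwa [Fintype.card_fin] at h3

end weights

section bound

variable {F : Type} [Field F] [CharZero F] [IsAlgClosed F] {L : Type} [LieRing L]
  [LieAlgebra F L] [Module.Finite F L] [IsKilling F L] {n : ℕ} (θ : MR F L n)

theorem bound (hn : 0 < n) (hev : Even n) (hI : IrrRep θ.rp)
    (hA : ∀ k, 0 < k → k < n → IrrRep (θ.alt k)) : n * n ≤ finrank F L + 1 := by
  obtain ⟨x, hx⟩ := exists_isCartanSubalgebra_engel F L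
  haveI := hx
  set H := LieSubalgebra.engel F x with hH
  have hD : Diag H θ.rp := specDiag F L H (Fin n → F) θ.rp hI
  obtain ⟨P, Q, a, hPQ, ha⟩ := exists_weight_basis θ H hD
  have hOk := specRoot F L H
  obtain ⟨h1, h2, σ, h3⟩ := specUni specFun (PW H) (rdat H) hOk n a hev (by
    intro k hk hkn
    obtain ⟨h4, h5⟩ := mu_alt hPQ ha k
    rw [← h5]
    exact specIWt specWt F L H (AltS n k F) (θ.alt k) (hA k hk hkn) h4) (by
    obtain ⟨h4, h5⟩ := mu_alt hPQ ha n
    rw [← h5]
    exact specWt F L H (AltS n n F) (θ.alt n))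
  have h4 := ncard_ge hOk h1 h2
  have h5 := finrank_cartan_ge h1 h3
  rw [specCount F L H]
  obtain ⟨m, rfl⟩ : ∃ m, n = m + 1 := ⟨n - 1, by omega⟩
  have e : m + 1 - 1 = m := by omega
  rw [e] at h4 h5
  nlinarith

end bound

section final

variable {F : Type} [Field F] [CharZero F] [IsAlgClosed F]

/-- the space of matrices of trace `0` -/
theorem finrank_sl {n : ℕ} (hn : 0 < n) :
    finrank F (LinearMap.ker (Matrix.traceLinearMap (Fin n) F F)) + 1 = n * n := by
  have h1 := LinearMap.finrank_range_add_finrank_ker (Matrix.traceLinearMap (Fin n) F F)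
  have h2 : LinearMap.range (Matrix.traceLinearMap (Fin n) F F) = ⊤ := by
    rw [LinearMap.range_eq_top]
    intro t
    refine ⟨Matrix.single ⟨0, hn⟩ ⟨0, hn⟩ t, ?_⟩
    rw [Matrix.traceLinearMap_apply, Matrix.trace_single_eq_same]
  rw [h2, finrank_top, Module.finrank_self, Module.finrank_matrix] at h1
  simp only [Fintype.card_fin, Module.finrank_self, mul_one] at h1
  omega

variable {n : ℕ} {g : Submodule F (Matrix (Fin n) (Fin n) F)}

/-- irreducibility of `F^n` from the case `j = 1` -/
theorem irr_one (h : ∀ W : Submodule F ((Fin 1 → Fin n) → F), (∀ w ∈ W, Alt w) →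
      (∀ X ∈ g, ∀ w ∈ W, actT X w ∈ W) → W = ⊥ ∨ ∀ w, Alt w → w ∈ W)
    (W : Submodule F (Fin n → F)) (hW : ∀ X ∈ g, ∀ v ∈ W, X.mulVec v ∈ W) : W = ⊥ ∨ W = ⊤ := by
  let e : ((Fin 1 → Fin n) → F) →ₗ[F] (Fin n → F) :=
    { toFun := fun w i => w fun _ => i
      map_add' := fun _ _ => rfl
      map_smul' := fun _ _ => rfl }
  have he : ∀ (w : (Fin 1 → Fin n) → F) (I : Fin 1 → Fin n), w I = e w (I 0) := by
    intro w I
    have : I = fun _ => I 0 := by
      funext a
      rw [Subsingleton.elim a 0]
    rw [this]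
    rfl
  have halt : ∀ w : (Fin 1 → Fin n) → F, Alt w := by
    intro w σ I
    have : σ = 1 := Subsingleton.elim _ _
    rw [this]
    simp
  rcases h (W.comap e) (fun w _ => halt w) (by
    intro X hX w hw
    have h1 : e (actT X w) = X.mulVec (e w) := by
      funext i
      change actT X w (fun _ => i) = ∑ j, X i j * w (fun _ => j)
      rw [actT, Fin.sum_univ_one]
      refine Finset.sum_congr rfl fun j _ => ?_
      congr 2
      funext a
      rw [Subsingleton.elim a 0, Function.update_self]
    change e (actT X w) ∈ W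
    rw [h1]
    exact hW X hX _ hw) with h1 | h1
  · left
    rw [eq_bot_iff]
    intro v hv
    have h2 : (fun I : Fin 1 → Fin n => v (I 0)) ∈ W.comap e := hv
    rw [h1] at h2
    have h3 : (fun I : Fin 1 → Fin n => v (I 0)) = 0 := h2
    rw [Submodule.mem_bot]
    funext i
    exact congrFun h3 fun _ => i
  · right
    rw [eq_top_iff]
    intro v _
    exact h1 (fun I : Fin 1 → Fin n => v (I 0)) (halt _)

/-- the theorem for matrices of trace `0` -/
theorem main (hn : 0 < n) (hev : Even n) (htr : ∀ X ∈ g, X.trace = 0)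
    (hbr : ∀ X ∈ g, ∀ Y ∈ g, X * Y - Y * X ∈ g)
    (h : ∀ j, 0 < j → j < n → ∀ W : Submodule F ((Fin j → Fin n) → F), (∀ w ∈ W, Alt w) →
      (∀ X ∈ g, ∀ w ∈ W, actT X w ∈ W) → W = ⊥ ∨ ∀ w, Alt w → w ∈ W) :
    g = LinearMap.ker (Matrix.traceLinearMap (Fin n) F F) := by
  letI : LieRing g := RepM.lieRing g hbr
  letI : LieAlgebra F g := RepM.lieAlg g hbr
  let θ : MR F g n :=
    { t := g.subtype
      lie := fun _ _ => rfl }
  have hn2 : 1 < n := by
    obtain ⟨r, hr⟩ := hev
    omega
  have hI : IrrRep θ.rp := by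
    haveI : Nonempty (Fin n) := ⟨⟨0, by omega⟩⟩
    exact ⟨inferInstance, fun W hW => irr_one (h 1 one_pos hn2) W fun X hX v hv => hW ⟨X, hX⟩ v hv⟩
  haveI hK : IsKilling F g := killing_of θ (fun x => htr x.1 x.2) (Subtype.val_injective) hI
  have hA : ∀ k, 0 < k → k < n → IrrRep (θ.alt k) := by
    intro k hk hkn
    refine ⟨?_, ?_⟩
    · have hne : Nonempty (Sub n k) := by
        obtain ⟨S, hS, hc⟩ := Finset.exists_subset_card_eq (s := (Finset.univ : Finset (Fin n)))
          (n := k) (by rw [Finset.card_univ, Fintype.card_fin]; omega)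
        exact ⟨⟨S, hc⟩⟩
      have h1 : (1 : Matrix (Fin n) (Fin n) F) * 1 = 1 := one_mul 1
      obtain ⟨S⟩ := hne
      exact ⟨bas h1 S, 0, (bas (k := k) h1).ne_zero S⟩
    · intro W hW
      rcases h k hk hkn (W.map (AltS n k F).subtype) (by
        rintro _ ⟨w, _, rfl⟩
        exact w.2) (by
        rintro X hX _ ⟨w, hw, rfl⟩
        exact ⟨(θ.alt k).r ⟨X, hX⟩ w, hW _ _ hw, rfl⟩) with h1 | h1
      · left
        exact Submodule.map_injective_of_injective (AltS n k F).injective_subtype
          (h1.trans (Submodule.map_bot _).symm)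
      · right
        rw [eq_top_iff]
        intro w _
        obtain ⟨w', hw', e⟩ := h1 w.1 w.2
        have : w' = w := Subtype.ext e
        rw [← this]
        exact hw'
  have h1 := bound θ hn hev hI hA
  have h2 := finrank_sl (F := F) hn
  refine Submodule.eq_of_le_of_finrank_le (fun X hX => htr X hX) ?_
  omega

end final

end LieM

open LieM in
/-- Module UNI. -/
theorem specUNI : SpecUNI := by
  intro F _ _ _ n hev g hbr h X hX
  rcases Nat.eq_zero_or_pos n with h0 | hn
  · subst h0
    have : X = 0 := Matrix.ext fun i => i.elim0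
    rw [this]
    exact g.zero_mem
  have hn0 : (n : F) ≠ 0 := by exact_mod_cast hn.ne'
  -- the projection to matrices of trace zero
  let π : Matrix (Fin n) (Fin n) F →ₗ[F] Matrix (Fin n) (Fin n) F :=
    { toFun := fun X => X - ((n : F)⁻¹ * X.trace) • 1
      map_add' := by
        intro X Y
        rw [Matrix.trace_add, mul_add, add_smul]
        abel
      map_smul' := by
        intro t X
        rw [Matrix.trace_smul, RingHom.id_apply, smul_sub, smul_smul, smul_eq_mul, mul_left_comm] }
  have hπ : ∀ X, π X = X - ((n : F)⁻¹ * X.trace) • 1 := fun _ => rfl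
  have hπbr : ∀ X Y, π X * π Y - π Y * π X = X * Y - Y * X := by
    intro X Y
    rw [hπ, hπ]
    simp only [sub_mul, mul_sub, smul_mul_assoc, mul_smul_comm, one_mul, mul_one, smul_sub,
      smul_smul]
    module
  have hπtr : ∀ X, (π X).trace = 0 := by
    intro X
    rw [hπ, Matrix.trace_sub, Matrix.trace_smul, Matrix.trace_one, Fintype.card_fin, smul_eq_mul]
    field_simp
    ring
  have hπ0 : ∀ X : Matrix (Fin n) (Fin n) F, X.trace = 0 → π X = X := by
    intro X hX
    rw [hπ, hX, mul_zero, zero_smul, sub_zero]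
  have hcomtr : ∀ X Y : Matrix (Fin n) (Fin n) F, (X * Y - Y * X).trace = 0 := by
    intro X Y
    rw [Matrix.trace_sub, Matrix.trace_mul_comm, sub_self]
  have key := main (g := g.map π) hn hev (by
    rintro _ ⟨X, _, rfl⟩
    exact hπtr X) (by
    rintro _ ⟨X, hX, rfl⟩ _ ⟨Y, hY, rfl⟩
    refine ⟨X * Y - Y * X, hbr X hX Y hY, ?_⟩
    rw [hπbr, hπ0 _ (hcomtr X Y)]) (by
    intro j hj hjn W hW hgW
    refine h j hj hjn W hW fun X hX w hw => ?_
    have h1 : X = π X + ((n : F)⁻¹ * X.trace) • 1 := by rw [hπ, sub_add_cancel]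
    rw [h1, actT_add_left, actT_smul_left, actT_one]
    exact W.add_mem (hgW _ ⟨X, hX, rfl⟩ w hw) (W.smul_mem _ (W.smul_mem _ hw)))
  have hmem : ∀ Y : Matrix (Fin n) (Fin n) F, Y.trace = 0 → ∃ Z ∈ g, π Z = Y := by
    intro Y hY
    have h1 : Y ∈ LinearMap.ker (Matrix.traceLinearMap (Fin n) F F) := hY
    rw [← key] at h1
    exact h1
  -- commutators of matrices of trace zero are in `g`
  have hcom : ∀ Y Z : Matrix (Fin n) (Fin n) F, Y.trace = 0 → Z.trace = 0 → Y * Z - Z * Y ∈ g := by
    intro Y Z hY hZ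
    obtain ⟨Y', hY', rfl⟩ := hmem Y hY
    obtain ⟨Z', hZ', rfl⟩ := hmem Z hZ
    rw [hπbr]
    exact hbr _ hY' _ hZ'
  exact mem_of_comm hn hcom hX

end Pool.Agent.Lib.MPf11a48.KU
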