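import Pool.Agent.Lib.MP_f11a48_ag.KU.Spec

/-!
# Kuga-Satake varieties, the unitary case: specifications, explicit form for `T(-w)`
-/

set_option autoImplicit false

namespace Pool.Agent.Lib.MPf11a48.KU

open Matrix MvPolynomial Pool.Agent.Lib.MPf11a48.Tors
open Pool.Agent.Lib.MPf11a48.CM hiding OmegaM
open Pool.Agent.Lib.MPf11a48.U (AbData Ix HD EndAlg)
open Pool.Agent.Lib.MPf11a48.K3

/-- LIFT [150]: every isometry which preserves the eigenspaces lifts to `gspinU`, with any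
multiplier. Proof: as in `specUGrp` (KU/Grp.lean), with the torsor `T` of the similitudes (USIM):
`x = z x'`, `det x' = 1`, `z_k ^ m_k = det (x k)`. -/
def SpecULift : Prop :=
  ∀ (g N n : ℕ) (A : AbData g N) (c : GL (Ix g) ℂ) (t : GL (Fin n) ℂ)
    (qdR : Matrix (Fin n) (Fin n) ℂ) (qB : Matrix (Fin n) (Fin n) ℚ)
    (B : Fin n → Matrix (Ix g) (Ix g) ℚ) (E : Set (Matrix (Fin n) (Fin n) ℚ))
    (κ : Type) [Fintype κ] [DecidableEq κ] (m : κ → ℕ)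
    (P Q : Matrix (Fin n) ((k : κ) × Fin (m k)) ℂ) (lam : Matrix (Fin n) (Fin n) ℚ → κ → ℂ),
    KugaSatake A c t qdR qB B E → EndFull c qB B E → SplitU qB E m P Q lam → (∀ k, 0 < m k) →
    (∀ k, m k = 1 ∨ Even (m k)) → FlatU E lam →
    ∀ (x : (k : κ) → GL (Fin (m k)) ℂ) (z : ℂˣ), ∃ y ∈ gspinU A c qB B m P Q,
      y.2.1.1 = ugm P Q qB x ∧ y.2.2 = z

/-- EX [300], from ULIFT, UGRP, `SpecKTen3`-style (compare K3/KEx2.lean, whose lemmas can be used;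
`fixes_endPair` in helper92/Pair.lean). Proof: (i) `⊆`: `f` fixes the classes of the endomorphisms
`e ∈ E` in `M ⊗ M^∨` (`GL2T.endPair`), and `polPair`, and `formPair` if `w = 0`. `⊇`: given `f`, `z`,
the matrix `x = z^(-w) f t⁻¹` is an isometry which commutes with `E`, so `x = ugm x'`:
`x P = P X`, `x Q = Q Y`, `Xᵀ Y = 1`, `X`, `Y` block diagonal (as in UMAT). By ULIFT there is
`y = (a, x, z / (2 π i)) ∈ gspinU`, and `f = Φ (y (c, t, 2 π i))` for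
`Φ (a, f, z) = z ^ w f`; use the general theorem `specKTen3`-style for `gspinU`
(`isTorsor_pull3`, `grp_pull3` in K3/KTen3.lean and UGRP). -/
def SpecUEx : Prop :=
  ∀ (g N n : ℕ) (A : AbData g N) (c : GL (Ix g) ℂ) (t : GL (Fin n) ℂ)
    (K : IntermediateField ℚ ℂ) (qdR : Matrix (Fin n) (Fin n) K) (qB : Matrix (Fin n) (Fin n) ℚ)
    (B : Fin n → Matrix (Ix g) (Ix g) ℚ) (E : Set (Matrix (Fin n) (Fin n) ℚ))
    (κ : Type) [Fintype κ] [DecidableEq κ] (m : κ → ℕ)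
    (P Q : Matrix (Fin n) ((k : κ) × Fin (m k)) ℂ) (lam : Matrix (Fin n) (Fin n) ℚ → κ → ℂ),
    K ≤ Qbar → KugaSatake A c t (qdR.map fun x => (x : ℂ)) qB B E → EndFull c qB B E →
    SplitU qB E m P Q lam → (∀ k, 0 < m k) → (∀ k, m k = 1 ∨ Even (m k)) → FlatU E lam →
    ∀ (d : Matrix (Fin n) (Fin n) ℚ → Matrix (Fin n) (Fin n) K),
    (∀ e ∈ E, t.1 * (d e).map (fun x => (x : ℂ)) = cx e * t.1) →
    ∀ (w : ℤ) (M : GL (Fin n) ℂ), M.1 = ((2 * Real.pi * Complex.I) ^ w : ℂ) • t.1 →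
    OmegaDRB K M = {f |
      (∃ z : ℂˣ, f.1ᵀ * cx qB * f.1 = ((z : ℂ) ^ (2 * w)) • qdR.map (fun x => (x : ℂ))) ∧
      ∀ e ∈ E, f.1 * (d e).map (fun x => (x : ℂ)) = cx e * f.1} ∧
    (K = ⊥ → OmegaM K M = OmegaDRB K M) ∧
    (w = 0 → ∀ S : Set (TPair K (Fin n)), (∀ α ∈ S, Fixes M α) → formPair qdR qB ∈ S →
      (∀ e ∈ E, GL2T.endPair (d e) e ∈ S) → OmegaDRB K M = OmegaS S)

end Pool.Agent.Lib.MPf11a48.KU
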