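import Pool.Agent.Lib.MP_f11a48_ag.K3.KStmt3

/-!
# Kuga-Satake varieties: the unitary case

Here `E` is a set of endomorphisms of the orthogonal object `T` (for example a CM field) whose
eigenspaces in `T_B ⊗ ℂ` are isotropic; they come in dual pairs `V_k`, `V_k^*`, with complex conjugate
eigenvalues.
-/

set_option autoImplicit false

namespace Pool.Agent.Lib.MPf11a48.KU

open Matrix MvPolynomial Pool.Agent.Lib.MPf11a48.CM Pool.Agent.Lib.MPf11a48.GL2T
open Pool.Agent.Lib.MPf11a48.U (AbData Ix EndAlg)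
open Pool.Agent.Lib.MPf11a48.K3

section

variable {n : ℕ} {κ : Type}

/-- The eigenvalues of `e` on the eigenspaces `V_k` (index `inl k`), given by `lam e k`, and on the
eigenspaces `V_k^*` (index `inr k`), given by their complex conjugates. -/
noncomputable def chr (lam : Matrix (Fin n) (Fin n) ℚ → κ → ℂ) (e : Matrix (Fin n) (Fin n) ℚ) :
    κ ⊕ κ → ℂ :=
  Sum.elim (lam e) fun k => (starRingEnd ℂ) (lam e k)

variable [Fintype κ] [DecidableEq κ] {m : κ → ℕ}

/-- Over `ℂ`, the orthogonal space `T_B ⊗ ℂ` is the direct sum of the common eigenspaces `V_k`,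
`V_k^*` of `E`, of dimension `m k`, which are isotropic, and all orthogonal to each other, except
`V_k` and `V_k^*`; the eigenvalues on `V_k` and `V_k^*` are complex conjugates. The columns of `P`
and `Q` are dual bases of the spaces `V_k`, and `V_k^*`. -/
structure SplitU (qB : Matrix (Fin n) (Fin n) ℚ) (E : Set (Matrix (Fin n) (Fin n) ℚ)) (m : κ → ℕ)
    (P Q : Matrix (Fin n) ((k : κ) × Fin (m k)) ℂ) (lam : Matrix (Fin n) (Fin n) ℚ → κ → ℂ) :
    Prop where
  isoP : Pᵀ * cx qB * P = 0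
  isoQ : Qᵀ * cx qB * Q = 0
  dual : Pᵀ * cx qB * Q = 1
  onto : P * (Qᵀ * cx qB) + Q * (Pᵀ * cx qB) = 1
  eigP : ∀ e ∈ E, cx e * P = P * diagonal fun u : (k : κ) × Fin (m k) => lam e u.1
  eigQ : ∀ e ∈ E, cx e * Q = Q * diagonal fun u : (k : κ) × Fin (m k) =>
    (starRingEnd ℂ) (lam e u.1)
  sep : ∀ s t : κ ⊕ κ, s ≠ t → ∃ e ∈ E, chr lam e s ≠ chr lam e t

/-- Every non-zero space of odd rational functions on the set of the eigenspaces of `E`, which is
stable under the Galois group, contains a non-zero function with values in `{0, 1, -1}`. (An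
automorphism `τ` of `ℂ` acts by the permutation `σ` of the eigenspaces given by its action on the
eigenvalues.) -/
def FlatU (E : Set (Matrix (Fin n) (Fin n) ℚ)) (lam : Matrix (Fin n) (Fin n) ℚ → κ → ℂ) : Prop :=
  ∀ N : Submodule ℚ (κ ⊕ κ → ℚ), N ≠ ⊥ → (∀ f ∈ N, ∀ k, f (Sum.inr k) = -f (Sum.inl k)) →
    (∀ (τ : ℂ ≃+* ℂ) (σ : Equiv.Perm (κ ⊕ κ)), (∀ e ∈ E, ∀ s, chr lam e (σ s) = τ (chr lam e s)) →
      ∀ f ∈ N, (fun s => f (σ s)) ∈ N) →
    ∃ f ∈ N, f ≠ 0 ∧ ∀ s, f s = 0 ∨ f s = 1 ∨ f s = -1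

/-- The isometry of `T_B ⊗ ℂ` which acts as `x k` on the eigenspace `V_k`, and as the transpose of
the inverse of `x k` on `V_k^*`. -/
noncomputable def ugm (P Q : Matrix (Fin n) ((k : κ) × Fin (m k)) ℂ)
    (qB : Matrix (Fin n) (Fin n) ℚ) (x : (k : κ) → GL (Fin (m k)) ℂ) : Matrix (Fin n) (Fin n) ℂ :=
  P * blockDiagonal' (fun k => (x k).1) * (Qᵀ * cx qB) +
    Q * blockDiagonal' (fun k => (x k)⁻¹.1ᵀ) * (Pᵀ * cx qB)

/-- The complex points of the group of all `(a, x, z)`, where `x` is an isometry of `T_B ⊗ ℂ` which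
preserves the eigenspaces of `E`, and `a` is an automorphism of `H^1(A, ℂ)` which is compatible with
`x` and the Clifford multiplication, commutes with the endomorphisms of `h^1(A)`, and multiplies the
polarisation by `z`. -/
def gspinU {g N : ℕ} (A : AbData g N) (c : GL (Ix g) ℂ) (qB : Matrix (Fin n) (Fin n) ℚ)
    (B : Fin n → Matrix (Ix g) (Ix g) ℚ) (m : κ → ℕ)
    (P Q : Matrix (Fin n) ((k : κ) × Fin (m k)) ℂ) : Set (Grp3 g n) :=
  {y | (∃ x : (k : κ) → GL (Fin (m k)) ℂ, y.2.1.1 = ugm P Q qB x) ∧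
    (∀ j, y.1.1 * cx (B j) = (∑ i, y.2.1.1 i j • cx (B i)) * y.1.1) ∧
    (∀ Z ∈ EndAlg c.1, y.1.1 * cx Z = cx Z * y.1.1) ∧
    y.1.1ᵀ * cx A.psi * y.1.1 = (y.2.2 : ℂ) • cx A.psi}

end

end Pool.Agent.Lib.MPf11a48.KU
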