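import Pool.Agent.Lib.MP_f11a48_ag.KU.Stmt
import Pool.Agent.Lib.MP_f11a48_ag.CMM.DefsS
import Pool.Agent.Lib.MP_f11a48_ag.C.Stmt

/-!
# Kuga-Satake varieties: the group, and the objects built from it
-/

set_option autoImplicit false

namespace Pool.Agent.Lib.MPf11a48.KU

open Matrix Pool.Agent.Lib.MPf11a48.CM Pool.Agent.Lib.MPf11a48.GL2T
open Pool.Agent.Lib.MPf11a48.U (AbData Ix)
open Pool.Agent.Lib.MPf11a48.K3

section

variable {g N n : ℕ} (A : AbData g N) (c : GL (Ix g) ℂ) (qB : Matrix (Fin n) (Fin n) ℚ)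
  (B : Fin n → Matrix (Ix g) (Ix g) ℚ) (E : Set (Matrix (Fin n) (Fin n) ℚ))

/-- Orthogonal type: `T_B ⊗ ℂ` is the orthogonal sum of the eigenspaces of `E`, of dimension at
least `3` and not `5`, and `𝓖` is the group `gspin`. -/
def OrthGroup (𝓖 : Set (Grp3 g n)) : Prop :=
  ∃ (κ : Type) (_ : Fintype κ) (_ : DecidableEq κ) (m : κ → ℕ)
    (P : Matrix (Fin n) ((k : κ) × Fin (m k)) ℂ) (lam : Matrix (Fin n) (Fin n) ℚ → κ → ℂ),
    Split qB E m P lam ∧ (∀ k, 3 ≤ m k) ∧ (∀ k, m k ≠ 5) ∧ 𝓖 = gspin A c qB B m P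

/-- Unitary type: the eigenspaces of `E` in `T_B ⊗ ℂ` are isotropic, and come in dual pairs with
complex conjugate eigenvalues, their dimensions are even or `1`, the set of the eigenspaces is flat
(`FlatU`), and `𝓖` is the group `gspinU`. -/
def UnitGroup (𝓖 : Set (Grp3 g n)) : Prop :=
  ∃ (κ : Type) (_ : Fintype κ) (_ : DecidableEq κ) (m : κ → ℕ)
    (P Q : Matrix (Fin n) ((k : κ) × Fin (m k)) ℂ) (lam : Matrix (Fin n) (Fin n) ℚ → κ → ℂ),
    SplitU qB E m P Q lam ∧ (∀ k, 0 < m k) ∧ (∀ k, m k = 1 ∨ Even (m k)) ∧ FlatU E lam ∧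
    𝓖 = gspinU A c qB B m P Q

end

/-- The image of `𝓖` (complex points of the group of `h^1(A)`, `T`, `ℚ(-1)`) in the automorphisms of the
Betti side of a sub-object, with inclusion `iB`, of a tensor construction `Θ` in
`h^1(A) ⊕ T ⊕ R` and `ℚ(-1)`, where the periods of `R` are algebraic. -/
def SubGroup {g n k : ℕ} {ν ι : Type} [Fintype ν] [DecidableEq ν] [Fintype ι] [DecidableEq ι]
    (𝓖 : Set (Grp3 g n)) (Θ : GL ((Ix g ⊕ Fin n) ⊕ Fin k) ℂ × ℂˣ → GL ν ℂ) (iB : Matrix ν ι ℚ) :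
    Set (GL ι ℂ) :=
  {f | ∃ y ∈ 𝓖, (Θ (CMS.dsum (CMS.dsum y.1 y.2.1) 1, y.2.2)).1 * cx iB = cx iB * f.1}

end Pool.Agent.Lib.MPf11a48.KU
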